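import Pool.Agent.Helper358.BM1

/-!
Norm-one projections in weakly compactly generated spaces, obtained from sets closed under a
countable family of finitary operations.  (Universe polymorphic version of files of helper871.)
-/

set_option autoImplicit false

namespace Pool.Agent.Helper358.BM

open Filter Topology Set

universe u

variable {X : Type u} [NormedAddCommGroup X] [NormedSpace ℝ X]

/-- Weak compactness of a set, as compactness of its image in the weak space. -/
def WC (K : Set X) : Prop := IsCompact ((toWeakSpace ℝ X) '' K)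

theorem WC.ultra {K : Set X} (hK : WC K) {ι : Type*} (U : Ultrafilter ι) (k : ι → X)
    (hk : ∀ i, k i ∈ K) :
    ∃ z ∈ K, ∀ φ : StrongDual ℝ X, Tendsto (fun i => φ (k i)) U (𝓝 (φ z)) := by
  have h1 := hK.ultrafilter_le_nhds (U.map fun j => toWeakSpace ℝ X (k j)) (by
    rw [le_principal_iff, Ultrafilter.mem_coe, Ultrafilter.mem_map]
    exact Filter.univ_mem' fun j => ⟨k j, hk j, rfl⟩)
  obtain ⟨_, ⟨z, hzK, rfl⟩, hz⟩ := h1
  refine ⟨z, hzK, fun φ => ?_⟩
  have h2 : Continuous fun w : WeakSpace ℝ X => φ ((toWeakSpace ℝ X).symm w) :=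
    WeakBilin.eval_continuous _ φ
  exact (h2.tendsto _).comp hz

theorem ext_dual {x y : X} (h : ∀ φ : StrongDual ℝ X, φ x = φ y) : x = y := by
  obtain ⟨g, _, hg⟩ := exists_dual_vector'' ℝ (x - y)
  rw [map_sub, h g, sub_self] at hg
  have : ‖x - y‖ = 0 := by simpa using hg.symm
  exact sub_eq_zero.mp (norm_eq_zero.mp this)

/-- A functional detecting the distance to a subspace. -/
theorem dist_functional (p : Submodule ℝ X) (w : X) (r : ℝ)
    (hr : 0 < r) (h : ∀ φ : StrongDual ℝ X, (∀ y ∈ p, φ y = 0) → φ w = 0) :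
    ∃ y ∈ p, ‖w - y‖ < r := by
  set q := p.topologicalClosure with hq
  have : IsClosed (q : Set X) := p.isClosed_topologicalClosure
  obtain ⟨g, hg1, hg2⟩ := exists_dual_vector'' ℝ (q.mkQL w)
  set φ : StrongDual ℝ X := g.comp q.mkQL with hφ
  have h2 : ∀ y ∈ p, φ y = 0 := by
    intro y hy
    have : q.mkQL y = 0 := by
      rw [Submodule.mkQL_apply, Submodule.mkQ_apply, Submodule.Quotient.mk_eq_zero]
      exact p.le_topologicalClosure hy
    rw [hφ, ContinuousLinearMap.comp_apply, this, map_zero]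
  have h3 := h φ h2
  rw [hφ, ContinuousLinearMap.comp_apply, hg2] at h3
  have h4 : ‖q.mkQL w‖ = 0 := by simpa using h3
  have h5 : w ∈ q := by
    have := norm_eq_zero.mp h4
    rwa [Submodule.mkQL_apply, Submodule.mkQ_apply, Submodule.Quotient.mk_eq_zero] at this
  have h6 : w ∈ closure (p : Set X) := h5
  rw [Metric.mem_closure_iff] at h6
  obtain ⟨y, hy, hyw⟩ := h6 r hr
  exact ⟨y, hy, by rwa [dist_eq_norm] at hyw⟩

theorem mem_closure_of_dual (p : Submodule ℝ X) (w : X)
    (h : ∀ φ : StrongDual ℝ X, (∀ y ∈ p, φ y = 0) → φ w = 0) : w ∈ closure (p : Set X) := by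
  rw [Metric.mem_closure_iff]
  intro r hr
  obtain ⟨y, hy, h1⟩ := dist_functional p w r hr h
  exact ⟨y, hy, by rwa [dist_eq_norm]⟩

/-- The two coordinates. -/
abbrev UU (X : Type u) [NormedAddCommGroup X] [NormedSpace ℝ X] : Type u := X × StrongDual ℝ X

/-- A good pair of sets for `K`. -/
structure Good (K : Set X) (A : Set X) (B : Set (StrongDual ℝ X)) : Prop where
  lin : ∀ l : List X, (∀ x ∈ l, x ∈ A) → ∀ q : ℚ, (q : ℝ) • l.sum ∈ A
  norming : ∀ a ∈ A, ∃ g ∈ B, ‖g‖ ≤ 1 ∧ g a = ‖a‖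
  approx : ∀ l : List (StrongDual ℝ X), (∀ f ∈ l, f ∈ B) → ∀ k ∈ K, ∀ δ : ℝ, 0 < δ →
    ∃ a ∈ A, a ∈ K ∧ ∀ f ∈ l, |f a - f k| < δ

/-- The projection attached to a good pair. -/
structure IsProj (K : Set X) (A : Set X) (B : Set (StrongDual ℝ X)) (P : X →L[ℝ] X) : Prop where
  mem : ∀ x, P x ∈ closure A
  fix : ∀ a ∈ closure A, P a = a
  dual : ∀ x, ∀ f ∈ B, f (P x) = f x
  ker : ∀ x, (∀ f ∈ B, f x = 0) → P x = 0
  norm_le : ∀ x, ‖P x‖ ≤ ‖x‖
  K_mem : ∀ k ∈ K, P k ∈ K

theorem exists_seq {K : Set X} (hK : K.Nonempty) (l : List (UU X)) : ∃ k : ℕ → X,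
    (∀ m, k m ∈ K) ∧ ∀ k' ∈ K, ∀ δ : ℝ, 0 < δ → ∃ m, ∀ u ∈ l, |u.2 (k m) - u.2 k'| < δ := by
  set Φ : K → (Fin l.length → ℝ) := fun k i => (l.get i).2 (k : X) with hΦ
  have : Nonempty K := hK.to_subtype
  have : Nonempty (range Φ) := (range_nonempty Φ).to_subtype
  set d := TopologicalSpace.denseSeq (range Φ) with hd
  have hd' : DenseRange d := TopologicalSpace.denseRange_denseSeq _
  have h1 : ∀ m, ∃ k : K, Φ k = d m := fun m => (d m).2
  choose k hk using h1
  refine ⟨fun m => k m, fun m => (k m).2, fun k' hk' δ hδ => ?_⟩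
  obtain ⟨m, hm⟩ := Metric.denseRange_iff.mp hd' ⟨Φ ⟨k', hk'⟩, mem_range_self _⟩ δ hδ
  refine ⟨m, fun u hu => ?_⟩
  obtain ⟨i, hi⟩ := List.get_of_mem hu
  have h2 : dist (Φ ⟨k', hk'⟩) (d m : Fin l.length → ℝ) < δ := hm
  rw [← hk] at h2
  have h3 := (dist_pi_lt_iff hδ).mp h2 i
  rw [Real.dist_eq, abs_sub_comm] at h3
  simp only [hΦ, hi] at h3
  exact h3

/-- The index type of operations. -/
abbrev OI : Type := ℚ ⊕ Unit ⊕ ℕ

/-- Operations whose closed sets are good. -/
theorem exists_ops {K : Set X} (hK : K.Nonempty) : ∃ ops : OI → List (UU X) → UU X,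
    ∀ M : Set (UU X), Closed ops M → Good K (Prod.fst '' M) (Prod.snd '' M) := by
  choose k hk1 hk2 using fun l : List (UU X) => exists_seq hK l
  have h1 : ∀ x : X, ∃ g : StrongDual ℝ X, ‖g‖ ≤ 1 ∧ g x = ‖x‖ := fun x =>
    exists_dual_vector'' ℝ x
  choose g hg1 hg2 using h1
  refine ⟨fun i l => match i with
    | Sum.inl q => ((q : ℝ) • (l.map Prod.fst).sum, 0)
    | Sum.inr (Sum.inl _) => (0, g (l.map Prod.fst).sum)
    | Sum.inr (Sum.inr m) => (k l m, 0), ?_⟩
  intro M hM
  have lift1 : ∀ l : List X, (∀ x ∈ l, x ∈ Prod.fst '' M) →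
      ∃ l' : List (UU X), (∀ u ∈ l', u ∈ M) ∧ l'.map Prod.fst = l := by
    intro l hl
    induction l with
    | nil => exact ⟨[], by simp, rfl⟩
    | cons a l ih =>
      obtain ⟨l', h1, h2⟩ := ih (fun x hx => hl x (List.mem_cons_of_mem _ hx))
      obtain ⟨u, hu, rfl⟩ := hl a List.mem_cons_self
      refine ⟨u :: l', ?_, by simp [h2]⟩
      intro v hv
      rcases List.mem_cons.mp hv with rfl | hv
      · exact hu
      · exact h1 v hv
  have lift2 : ∀ l : List (StrongDual ℝ X), (∀ x ∈ l, x ∈ Prod.snd '' M) →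
      ∃ l' : List (UU X), (∀ u ∈ l', u ∈ M) ∧ l'.map Prod.snd = l := by
    intro l hl
    induction l with
    | nil => exact ⟨[], by simp, rfl⟩
    | cons a l ih =>
      obtain ⟨l', h1, h2⟩ := ih (fun x hx => hl x (List.mem_cons_of_mem _ hx))
      obtain ⟨u, hu, rfl⟩ := hl a List.mem_cons_self
      refine ⟨u :: l', ?_, by simp [h2]⟩
      intro v hv
      rcases List.mem_cons.mp hv with rfl | hv
      · exact hu
      · exact h1 v hv
  refine ⟨?_, ?_, ?_⟩
  · intro l hl q
    obtain ⟨l', h1, rfl⟩ := lift1 l hl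
    exact ⟨_, hM (Sum.inl q) l' h1, rfl⟩
  · rintro _ ⟨u, hu, rfl⟩
    refine ⟨g u.1, ⟨_, hM (Sum.inr (Sum.inl ())) [u] (by simpa using hu), ?_⟩, hg1 _, hg2 _⟩
    simp
  · intro l hl k' hk' δ hδ
    obtain ⟨l', h1, rfl⟩ := lift2 l hl
    obtain ⟨m, hm⟩ := hk2 l' k' hk' δ hδ
    refine ⟨k l' m, ⟨_, hM (Sum.inr (Sum.inr m)) l' h1, rfl⟩, hk1 l' m, fun f hf => ?_⟩
    obtain ⟨u, hu, rfl⟩ := List.mem_map.mp hf
    exact hm u hu

section Proj

variable {K : Set X} {A : Set X} {B : Set (StrongDual ℝ X)}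

/-- The closure of the first coordinate set as a submodule. -/
def Zs (hG : Good K A B) : Submodule ℝ X where
  carrier := closure A
  zero_mem' := by
    apply subset_closure
    have := hG.lin [] (by simp) 1
    simpa using this
  add_mem' := by
    intro a b ha hb
    refine map_mem_closure₂ continuous_add ha hb (fun a ha b hb => ?_)
    have := hG.lin [a, b] (by
      intro x hx
      rcases List.mem_cons.mp hx with rfl | hx
      · exact ha
      · rw [List.mem_singleton.mp hx]; exact hb) 1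
    simpa using this
  smul_mem' := by
    intro c a ha
    have hc : c ∈ closure (range ((↑) : ℚ → ℝ)) := Rat.denseRange_cast c
    refine map_mem_closure₂ continuous_smul hc ha ?_
    rintro _ ⟨q, rfl⟩ a ha
    have := hG.lin [a] (by simpa using ha) q
    simpa using this

theorem Zs_norm (hG : Good K A B) {a y : X} (ha : a ∈ closure A) (hy : ∀ f ∈ B, f y = 0) :
    ‖a‖ ≤ ‖a + y‖ := by
  have hcl : IsClosed {a : X | ‖a‖ ≤ ‖a + y‖} :=
    isClosed_le continuous_norm (continuous_id.add continuous_const).norm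
  refine closure_minimal ?_ hcl ha
  intro a ha
  obtain ⟨g, hgB, hg1, hg2⟩ := hG.norming a ha
  change ‖a‖ ≤ ‖a + y‖
  rw [← hg2]
  have : g (a + y) = g a := by rw [map_add, hy g hgB, add_zero]
  rw [← this]
  calc g (a + y) ≤ ‖g (a + y)‖ := le_abs_self _
    _ ≤ ‖g‖ * ‖a + y‖ := g.le_opNorm _
    _ ≤ 1 * ‖a + y‖ := by gcongr
    _ = _ := one_mul _

/-- Decomposition of the points of `K`. -/
theorem K_decomp (hG : Good K A B) (hK : WC K) {k : X} (hk : k ∈ K) :
    ∃ a ∈ closure A, a ∈ K ∧ ∀ f ∈ B, f a = f k := by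
  classical
  -- net indexed by finite subsets of B and n
  have h1 : ∀ p : Finset B × ℕ, ∃ a ∈ A, a ∈ K ∧ ∀ f ∈ p.1, |f.1 a - f.1 k| < 1 / ((p.2 : ℝ) + 1) := by
    rintro ⟨F, n⟩
    obtain ⟨a, ha1, ha2, ha3⟩ := hG.approx (F.toList.map Subtype.val) (by
      intro f hf
      obtain ⟨f', _, rfl⟩ := List.mem_map.mp hf
      exact f'.2) k hk (1 / ((n : ℝ) + 1)) (by positivity)
    refine ⟨a, ha1, ha2, fun f hf => ha3 _ ?_⟩
    exact List.mem_map.mpr ⟨f, Finset.mem_toList.mpr hf, rfl⟩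
  choose a ha1 ha2 ha3 using h1
  set U : Ultrafilter (Finset B × ℕ) := Ultrafilter.of atTop with hU
  obtain ⟨z, hz, hz'⟩ := hK.ultra U a ha2
  refine ⟨z, ?_, hz, ?_⟩
  · apply mem_closure_of_dual (Zs hG) z ?_ |> fun h => ?_
    · intro φ hφ
      have h2 := hz' φ
      have h3 : ∀ p, φ (a p) = 0 := fun p => hφ _ (subset_closure (ha1 p))
      simp only [h3] at h2
      exact tendsto_nhds_unique h2 tendsto_const_nhds
    · have : ((Zs hG : Submodule ℝ X) : Set X) = closure A := rfl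
      rwa [this, closure_closure] at h
  · intro f hf
    have h2 := hz' f
    have h3 : Tendsto (fun p => f (a p)) U (𝓝 (f k)) := by
      rw [Metric.tendsto_nhds]
      intro ε hε
      obtain ⟨n, hn⟩ := exists_nat_one_div_lt hε
      have h4 : ∀ᶠ p : Finset B × ℕ in atTop, dist (f (a p)) (f k) < ε := by
        filter_upwards [eventually_ge_atTop (({⟨f, hf⟩} : Finset B), n)] with p hp
        have h5 := ha3 p ⟨f, hf⟩ (hp.1 (Finset.mem_singleton_self _))
        rw [Real.dist_eq]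
        refine lt_trans h5 (lt_of_le_of_lt ?_ hn)
        apply one_div_le_one_div_of_le (by positivity)
        have : (n : ℝ) ≤ p.2 := by exact_mod_cast hp.2
        linarith
      exact Ultrafilter.of_le atTop h4
    exact tendsto_nhds_unique h2 h3

theorem exists_proj [CompleteSpace X] (hG : Good K A B) (hK : WC K)
    (hspan : Dense ((Submodule.span ℝ K : Submodule ℝ X) : Set X)) :
    ∃ P : X →L[ℝ] X, IsProj K A B P := by
  -- the set of decomposable vectors
  let E : Submodule ℝ X :=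
    { carrier := {x | ∃ a ∈ closure A, ∀ f ∈ B, f a = f x}
      zero_mem' := ⟨0, (Zs hG).zero_mem, fun f _ => rfl⟩
      add_mem' := by
        rintro x y ⟨a, ha, ha'⟩ ⟨b, hb, hb'⟩
        exact ⟨a + b, (Zs hG).add_mem ha hb, fun f hf => by rw [map_add, map_add, ha' f hf, hb' f hf]⟩
      smul_mem' := by
        rintro c x ⟨a, ha, ha'⟩
        exact ⟨c • a, (Zs hG).smul_mem c ha, fun f hf => by rw [map_smul, map_smul, ha' f hf]⟩ }
  have hEc : IsClosed (E : Set X) := by
    apply IsSeqClosed.isClosed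
    intro x x₀ hx hlim
    choose a ha ha' using hx
    have hb : ∀ m n, ‖a m - a n‖ ≤ ‖x m - x n‖ := by
      intro m n
      have h1 := Zs_norm hG (a := a m - a n) (y := (x m - x n) - (a m - a n))
        ((Zs hG).sub_mem (ha m) (ha n)) (fun f hf => by
          rw [map_sub, map_sub, map_sub, ha' m f hf, ha' n f hf, sub_self])
      rwa [add_sub_cancel] at h1
    have hc : CauchySeq a := by
      have := hlim.cauchySeq
      rw [Metric.cauchySeq_iff] at this ⊢
      intro ε hε
      obtain ⟨N, hN⟩ := this ε hε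
      refine ⟨N, fun m hm n hn => ?_⟩
      have h1 := hN m hm n hn
      rw [dist_eq_norm] at h1 ⊢
      exact (hb m n).trans_lt h1
    obtain ⟨a₀, ha₀⟩ := cauchySeq_tendsto_of_complete hc
    refine ⟨a₀, isClosed_closure.mem_of_tendsto ha₀ (Eventually.of_forall ha), fun f hf => ?_⟩
    have h1 : Tendsto (fun n => f (a n)) atTop (𝓝 (f a₀)) := (f.continuous.tendsto _).comp ha₀
    have h2 : Tendsto (fun n => f (x n)) atTop (𝓝 (f x₀)) := (f.continuous.tendsto _).comp hlim
    have h3 : (fun n => f (a n)) = fun n => f (x n) := funext fun n => ha' n f hf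
    rw [h3] at h1
    exact tendsto_nhds_unique h1 h2
  have hKE : K ⊆ E := fun k hk => by
    obtain ⟨a, ha, _, ha'⟩ := K_decomp hG hK hk
    exact ⟨a, ha, ha'⟩
  have hEtop : ∀ x, x ∈ E := by
    intro x
    have h1 : ((Submodule.span ℝ K : Submodule ℝ X) : Set X) ⊆ E := Submodule.span_le.mpr hKE
    have h2 := closure_minimal h1 hEc
    exact h2 (hspan x)
  choose p hp1 hp2 using hEtop
  have huniq : ∀ x a, a ∈ closure A → (∀ f ∈ B, f a = f x) → a = p x := by
    intro x a ha ha'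
    have h1 := Zs_norm hG (a := a - p x) (y := -(a - p x)) ((Zs hG).sub_mem ha (hp1 x))
      (fun f hf => by rw [map_neg, map_sub, ha' f hf, hp2 x f hf]; ring)
    rw [add_neg_cancel, norm_zero] at h1
    exact sub_eq_zero.mp (norm_le_zero_iff.mp h1)
  have hnorm : ∀ x, ‖p x‖ ≤ ‖x‖ := by
    intro x
    have h1 := Zs_norm hG (a := p x) (y := x - p x) (hp1 x)
      (fun f hf => by rw [map_sub, hp2 x f hf, sub_self])
    rwa [add_sub_cancel] at h1
  let L : X →ₗ[ℝ] X :=
    { toFun := p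
      map_add' := fun x y => (huniq (x + y) (p x + p y) ((Zs hG).add_mem (hp1 x) (hp1 y))
        (fun f hf => by rw [map_add, map_add, hp2 x f hf, hp2 y f hf])).symm
      map_smul' := fun c x => (huniq (c • x) (c • p x) ((Zs hG).smul_mem c (hp1 x))
        (fun f hf => by rw [map_smul, map_smul, hp2 x f hf])).symm }
  refine ⟨L.mkContinuous 1 (fun x => by rw [one_mul]; exact hnorm x), ?_, ?_, ?_, ?_, ?_, ?_⟩
  · exact hp1
  · exact fun a ha => (huniq a a ha (fun f _ => rfl)).symm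
  · exact hp2
  · intro x hx
    exact (huniq x 0 (Zs hG).zero_mem (fun f hf => by rw [map_zero, hx f hf])).symm
  · exact hnorm
  · intro k hk
    obtain ⟨a, ha, haK, ha'⟩ := K_decomp hG hK hk
    have := huniq k a ha ha'
    change p k ∈ K
    rw [← this]; exact haK

/-- Nested projections commute. -/
theorem proj_comm {A' : Set X} {B' : Set (StrongDual ℝ X)} {P P' : X →L[ℝ] X}
    (h : IsProj K A B P) (h' : IsProj K A' B' P') (hA : A ⊆ A') (hB : B ⊆ B') (x : X) :
    P' (P x) = P x ∧ P (P' x) = P x := by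
  refine ⟨h'.fix _ (closure_mono hA (h.mem x)), ?_⟩
  have h1 := h.ker (x - P' x) (fun f hf => by rw [map_sub, h'.dual x f (hB hf), sub_self])
  rw [map_sub, sub_eq_zero] at h1
  exact h1.symm

end Proj

end Pool.Agent.Helper358.BM
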