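import Pool.Agent.Helper358.BM2

/-!
A monotone system of norm-one projections indexed by subsets of a weakly compactly generated space.
-/

set_option autoImplicit false

namespace Pool.Agent.Helper358.BM

open Filter Topology Set Cardinal

universe u

variable {X : Type u} [NormedAddCommGroup X] [NormedSpace ℝ X]

/-- A monotone system of contractive projections, indexed by subsets of `X`. -/
structure Sys (K : Set X) where
  P : Set X → X →L[ℝ] X
  norm_le : ∀ S x, ‖P S x‖ ≤ ‖x‖
  up : ∀ {S S' : Set X}, S ⊆ S' → ∀ x, P S' (P S x) = P S x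
  down : ∀ {S S' : Set X}, S ⊆ S' → ∀ x, P S (P S' x) = P S x
  fix : ∀ {S : Set X}, ∀ x ∈ S, P S x = x
  K_mem : ∀ S, ∀ k ∈ K, P S k ∈ K
  ker : ∀ S : Set X, ∃ B : Set (StrongDual ℝ X), #B ≤ max #S ℵ₀ ∧
    ∀ x, (∀ f ∈ B, f x = 0) → P S x = 0
  rng : ∀ S : Set X, ∃ A : Set X, #A ≤ max #S ℵ₀ ∧ ∀ x, P S x ∈ closure A

theorem exists_sys [CompleteSpace X] {K : Set X} (hK : WC K) (hne : K.Nonempty)
    (hspan : Dense ((Submodule.span ℝ K : Submodule ℝ X) : Set X)) : Nonempty (Sys K) := by
  obtain ⟨ops, hops⟩ := exists_ops (X := X) hne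
  set M : Set X → Set (UU X) := fun S => cl ops ((fun x : X => ((x, 0) : UU X)) '' S) with hM
  have hgood : ∀ S, Good K (Prod.fst '' (M S)) (Prod.snd '' (M S)) := fun S =>
    hops _ (cl_closed ops _)
  have hmono : ∀ {S S' : Set X}, S ⊆ S' → M S ⊆ M S' := fun h => cl_mono ops (image_mono h)
  have hcard : ∀ S, #(M S) ≤ max #S ℵ₀ := fun S =>
    (mk_cl_le ops _).trans (max_le_max mk_image_le le_rfl)
  choose P hP using fun S => exists_proj (hgood S) hK hspan
  refine ⟨⟨P, fun S => (hP S).norm_le, ?_, ?_, ?_, fun S => (hP S).K_mem, ?_, ?_⟩⟩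
  · intro S S' h x
    exact (proj_comm (hP S) (hP S') (image_mono (hmono h)) (image_mono (hmono h)) x).1
  · intro S S' h x
    exact (proj_comm (hP S) (hP S') (image_mono (hmono h)) (image_mono (hmono h)) x).2
  · intro S x hx
    apply (hP S).fix
    apply subset_closure
    exact ⟨(x, 0), subset_cl ops _ ⟨x, hx, rfl⟩, rfl⟩
  · intro S
    exact ⟨Prod.snd '' (M S), mk_image_le.trans (hcard S), (hP S).ker⟩
  · intro S
    exact ⟨Prod.fst '' (M S), mk_image_le.trans (hcard S), (hP S).mem⟩

/-- Small sets do not generate everything. -/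
theorem Sys.exists_not_mem {K : Set X} (s : Sys K)
    (hspan : Dense ((Submodule.span ℝ K : Submodule ℝ X) : Set X)) {κ : Cardinal.{u}}
    (hκ : ℵ₀ < κ) (hd : ∀ D : Set X, Dense D → κ ≤ #D) (S : Set X) (hS : #S < κ) :
    ∃ k ∈ K, s.P S k ≠ k := by
  by_contra hcon
  push Not at hcon
  obtain ⟨A, hA, hA'⟩ := s.rng S
  have hcl : IsClosed {x : X | s.P S x = x} := isClosed_eq (s.P S).continuous continuous_id
  have h1 : ∀ x, s.P S x = x := by
    intro x
    have h2 : closure ((Submodule.span ℝ K : Submodule ℝ X) : Set X) ⊆ {x : X | s.P S x = x} := by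
      apply closure_minimal _ hcl
      intro y hy
      change y ∈ LinearMap.eqLocus ((s.P S : X →L[ℝ] X) : X →ₗ[ℝ] X) LinearMap.id
      revert hy
      apply Submodule.span_le.mpr
      intro k hk
      exact hcon k hk
    exact h2 (hspan x)
  have h2 : Dense A := by
    intro x
    rw [← h1 x]
    exact hA' x
  have h3 := hd A h2
  exact absurd (h3.trans hA) (not_le.mpr (max_lt hS hκ))

end Pool.Agent.Helper358.BM
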