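import Pool.Agent.Helper358.BM3

/-!
A long biorthogonal system in a weakly compactly generated space on which every functional has
countable support.
-/

set_option autoImplicit false

namespace Pool.Agent.Helper358.BM

open Filter Topology Set Cardinal

universe u

variable {X : Type u} [NormedAddCommGroup X] [NormedSpace ℝ X]

theorem exists_rec {I : Type u} [LinearOrder I] [WellFoundedLT I] {κ : Cardinal.{u}}
    (p : Set X → X → Prop) (hp : ∀ S : Set X, #S < κ → ∃ x, p S x)
    (hI : ∀ i : I, #(Iio i) < κ) : ∃ k : I → X, ∀ i, p (k '' Iio i) (k i) := by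
  classical
  have hf : ∃ f : Set X → X, ∀ S : Set X, #S < κ → p S (f S) := by
    refine ⟨fun S => if h : #S < κ then (hp S h).choose else 0, fun S hS => ?_⟩
    simp only [dif_pos hS]
    exact (hp S hS).choose_spec
  obtain ⟨f, hf⟩ := hf
  let F : ∀ i : I, (∀ j, j < i → X) → X := fun i ih => f {x | ∃ (j : I) (h : j < i), x = ih j h}
  let k : I → X := WellFounded.fix (wellFounded_lt) F
  have hk : ∀ i, k i = f (k '' Iio i) := by
    intro i
    have h1 : k i = F i (fun j _ => k j) := WellFounded.fix_eq _ F i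
    rw [h1]
    change f _ = f _
    congr 1
    ext x
    constructor
    · rintro ⟨j, hj, rfl⟩
      exact ⟨j, hj, rfl⟩
    · rintro ⟨j, hj, rfl⟩
      exact ⟨j, hj, rfl⟩
  refine ⟨k, fun i => ?_⟩
  have h2 := hf (k '' Iio i) (mk_image_le.trans_lt (hI i))
  rwa [← hk i] at h2

section System

variable {K : Set X} (s : Sys K) {I : Type u} [LinearOrder I] [WellFoundedLT I] (k : I → X)

/-- The difference vectors. -/
noncomputable def du (i : I) : X := k i - s.P (k '' Iio i) (k i)

theorem du_fix_lt {i j : I} (h : j < i) : s.P (k '' Iio i) (du s k j) = du s k j := by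
  have h1 : s.P (k '' Iio i) (k j) = k j := s.fix (k j) (mem_image_of_mem k h)
  have h2 : k '' Iio j ⊆ k '' Iio i := image_mono (Iio_subset_Iio h.le)
  unfold du
  rw [map_sub, h1, s.up h2]

theorem du_ker {i j : I} (h : i ≤ j) : s.P (k '' Iio i) (du s k j) = 0 := by
  unfold du
  rw [map_sub, s.down (image_mono (Iio_subset_Iio h)), sub_self]

theorem du_fix_le {i j : I} (h : j ≤ i) : s.P (k '' Iic i) (du s k j) = du s k j := by
  have h1 : s.P (k '' Iic i) (k j) = k j := s.fix (k j) (mem_image_of_mem k h)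
  have h2 : k '' Iio j ⊆ k '' Iic i :=
    image_mono (fun x (hx : x < j) => (hx.le.trans h : x ≤ i))
  unfold du
  rw [map_sub, h1, s.up h2]

theorem du_ker_lt {i j : I} (h : i < j) : s.P (k '' Iic i) (du s k j) = 0 := by
  have h2 : k '' Iic i ⊆ k '' Iio j :=
    image_mono (fun x (hx : x ≤ i) => (hx.trans_lt h : x < j))
  unfold du
  rw [map_sub, s.down h2, sub_self]

/-- Every functional is large on only finitely many of the difference vectors. -/
theorem finite_large (hK : WC K) (hkK : ∀ i, k i ∈ K) (φ : StrongDual ℝ X) {ε : ℝ} (hε : 0 < ε) :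
    {i | ε ≤ |φ (du s k i)|}.Finite := by
  by_contra hinf
  have hinf' : {i | ε ≤ |φ (du s k i)|}.Infinite := hinf
  set e := hinf'.natEmbedding with he
  obtain ⟨g, hg⟩ := (wellQuasiOrdered_le (α := I)).exists_monotone_subseq (fun n => (e n : I))
  set c : ℕ → I := fun n => (e (g n) : I) with hc
  have hcinj : Function.Injective c := fun m n h =>
    g.injective (e.injective (Subtype.ext h))
  have hcm : StrictMono c := by
    intro m n hmn
    exact lt_of_le_of_ne (hg m n hmn.le) (fun h => hmn.ne (hcinj h))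
  have hclarge : ∀ n, ε ≤ |φ (du s k (c n))| := fun n => (e (g n)).2
  obtain ⟨a, haK, ha⟩ := hK.ultra (hyperfilter ℕ) (fun n => k (c n)) (fun n => hkK _)
  obtain ⟨b, hbK, hb⟩ := hK.ultra (hyperfilter ℕ) (fun n => s.P (k '' Iio (c n)) (k (c n)))
    (fun n => s.K_mem _ _ (hkK _))
  have hlim : ∀ ψ : StrongDual ℝ X,
      Tendsto (fun n => ψ (du s k (c n))) (hyperfilter ℕ) (𝓝 (ψ (a - b))) := by
    intro ψ
    have h1 := (ha ψ).sub (hb ψ)
    rw [← map_sub] at h1
    refine h1.congr (fun n => ?_)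
    unfold du
    rw [map_sub]
  set u := a - b with hu
  have hQ0 : ∀ m, s.P (k '' Iio (c m)) u = 0 := by
    intro m
    apply ext_dual
    intro ψ
    have h1 := hlim (ψ.comp (s.P (k '' Iio (c m))))
    simp only [ContinuousLinearMap.comp_apply] at h1
    have h2 : ∀ᶠ n in (hyperfilter ℕ : Filter ℕ),
        ψ (s.P (k '' Iio (c m)) (du s k (c n))) = 0 := by
      apply Nat.hyperfilter_le_atTop
      filter_upwards [eventually_ge_atTop m] with n hn
      rw [du_ker s k (hcm.monotone hn), map_zero]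
    have h3 : Tendsto (fun _ : ℕ => (0 : ℝ)) (hyperfilter ℕ)
        (𝓝 (ψ (s.P (k '' Iio (c m)) u))) := by
      refine h1.congr' ?_
      exact h2
    rw [map_zero]
    exact tendsto_nhds_unique h3 tendsto_const_nhds
  have hcl : u ∈ closure ((Submodule.span ℝ (range fun n => du s k (c n)) : Submodule ℝ X) : Set X) := by
    apply mem_closure_of_dual
    intro ψ hψ
    have h1 := hlim ψ
    have h2 : ∀ n, ψ (du s k (c n)) = 0 := fun n => hψ _ (Submodule.subset_span ⟨n, rfl⟩)
    simp only [h2] at h1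
    exact tendsto_nhds_unique h1 tendsto_const_nhds
  have hev : ∀ y ∈ Submodule.span ℝ (range fun n => du s k (c n)),
      ∃ m, ∀ m', m ≤ m' → s.P (k '' Iio (c m')) y = y := by
    intro y hy
    induction hy using Submodule.span_induction with
    | mem x hx =>
      obtain ⟨n, rfl⟩ := hx
      exact ⟨n + 1, fun m' hm' => du_fix_lt s k (hcm (by omega))⟩
    | zero => exact ⟨0, fun m' _ => map_zero _⟩
    | add x y _ _ hx hy =>
      obtain ⟨m₁, h₁⟩ := hx
      obtain ⟨m₂, h₂⟩ := hy
      refine ⟨max m₁ m₂, fun m' hm' => ?_⟩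
      rw [map_add, h₁ m' ((le_max_left _ _).trans hm'), h₂ m' ((le_max_right _ _).trans hm')]
    | smul r x _ hx =>
      obtain ⟨m₁, h₁⟩ := hx
      exact ⟨m₁, fun m' hm' => by rw [map_smul, h₁ m' hm']⟩
  have hu0 : u = 0 := by
    by_contra hne
    have hpos : 0 < ‖u‖ := norm_pos_iff.mpr hne
    obtain ⟨y, hy, hyu⟩ := Metric.mem_closure_iff.mp hcl (‖u‖ / 2) (by positivity)
    obtain ⟨m, hm⟩ := hev y hy
    have h1 := hm m le_rfl
    have h2 : ‖y‖ ≤ ‖u - y‖ := by
      have h3 : s.P (k '' Iio (c m)) (y - u) = y := by rw [map_sub, h1, hQ0 m, sub_zero]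
      rw [← h3]
      refine (s.norm_le _ _).trans ?_
      rw [h3, norm_sub_rev]
    rw [dist_eq_norm] at hyu
    have h4 : ‖u‖ ≤ ‖u - y‖ + ‖y‖ := by
      have := norm_add_le (u - y) y
      rwa [sub_add_cancel] at this
    linarith
  have h1 := (hlim φ).abs
  rw [hu0, map_zero, abs_zero] at h1
  have h2 : ε ≤ 0 := ge_of_tendsto' h1 hclarge
  linarith

theorem countable_supp (hK : WC K) (hkK : ∀ i, k i ∈ K) (φ : StrongDual ℝ X) :
    {i | φ (du s k i) ≠ 0}.Countable := by
  have h1 : {i | φ (du s k i) ≠ 0} ⊆ ⋃ n : ℕ, {i | 1 / ((n : ℝ) + 1) ≤ |φ (du s k i)|} := by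
    intro i hi
    obtain ⟨n, hn⟩ := exists_nat_one_div_lt (abs_pos.mpr hi)
    exact mem_iUnion.mpr ⟨n, hn.le⟩
  refine Countable.mono h1 (countable_iUnion fun n => ?_)
  exact (finite_large s k hK hkK φ (by positivity)).countable

end System

/-- The long biorthogonal system, indexed by all finite lists. -/
theorem exists_tree {K : Set X} (s : Sys K) (hK : WC K)
    (hspan : Dense ((Submodule.span ℝ K : Submodule ℝ X) : Set X)) {κ : Cardinal.{u}}
    (hκ : ℵ₀ < κ) (hd : ∀ D : Set X, Dense D → κ ≤ #D)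
    {I : Type u} [LinearOrder I] [WellFoundedLT I] (hIκ : #I = κ) (hI : ∀ i : I, #(Iio i) < κ) :
    ∃ (v : List I → X) (w : List I → StrongDual ℝ X), (∀ t, ‖v t‖ ≤ 1) ∧
      (∀ t x, |w t x| ≤ 2 * ‖x‖) ∧ (∀ t t', w t (v t') = if t = t' then 1 else 0) ∧
      (∀ B : Set (StrongDual ℝ X), #B < κ → ∀ t, ∃ i, ∀ f ∈ B, f (v (i :: t)) = 0) := by
  classical
  obtain ⟨k, hk⟩ := exists_rec (I := I) (κ := κ) (fun S x => x ∈ K ∧ s.P S x ≠ x)
    (fun S hS => by
      obtain ⟨x, hx, hx'⟩ := s.exists_not_mem hspan hκ hd S hS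
      exact ⟨x, hx, hx'⟩) hI
  have hkK : ∀ i, k i ∈ K := fun i => (hk i).1
  have hu0 : ∀ i, du s k i ≠ 0 := by
    intro i h
    unfold du at h
    exact (hk i).2 (sub_eq_zero.mp h).symm
  have hinf : Infinite I := by
    rw [infinite_iff, hIκ]; exact hκ.le
  obtain ⟨g⟩ : Nonempty (List I ≃ I) := Cardinal.eq.mp (mk_list_eq_mk I)
  choose f hf1 hf2 using fun i : I => exists_dual_vector'' ℝ (du s k i)
  have hpos : ∀ i, 0 < ‖du s k i‖ := fun i => norm_pos_iff.mpr (hu0 i)
  -- the vectors: we only need norm at most one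
  let v : I → X := fun i => ‖du s k i‖⁻¹ • du s k i
  let w : I → StrongDual ℝ X := fun i =>
    (f i).comp (s.P (k '' Iic i) - s.P (k '' Iio i))
  have hv1 : ∀ i, ‖v i‖ ≤ 1 := by
    intro i
    change ‖‖du s k i‖⁻¹ • du s k i‖ ≤ 1
    rw [norm_smul, norm_inv, norm_norm, inv_mul_cancel₀ (hpos i).ne']
  have hw1 : ∀ i x, |w i x| ≤ 2 * ‖x‖ := by
    intro i x
    change |f i ((s.P (k '' Iic i) - s.P (k '' Iio i)) x)| ≤ _
    rw [← Real.norm_eq_abs, sub_apply]
    calc ‖f i (s.P (k '' Iic i) x - s.P (k '' Iio i) x)‖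
        ≤ ‖f i‖ * ‖s.P (k '' Iic i) x - s.P (k '' Iio i) x‖ := (f i).le_opNorm _
      _ ≤ 1 * (‖s.P (k '' Iic i) x‖ + ‖s.P (k '' Iio i) x‖) := by
          gcongr
          · exact hf1 i
          · exact norm_sub_le _ _
      _ ≤ 1 * (‖x‖ + ‖x‖) := by
          gcongr
          · exact s.norm_le _ _
          · exact s.norm_le _ _
      _ = _ := by ring
  have hbi : ∀ i j, w i (v j) = if i = j then 1 else 0 := by
    intro i j
    have h0 : w i (v j) = ‖du s k j‖⁻¹ *
        f i (s.P (k '' Iic i) (du s k j) - s.P (k '' Iio i) (du s k j)) := by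
      change f i ((s.P (k '' Iic i) - s.P (k '' Iio i)) (‖du s k j‖⁻¹ • du s k j)) = _
      rw [map_smul, map_smul, sub_apply, smul_eq_mul]
    rw [h0]
    rcases lt_trichotomy i j with h | h | h
    · rw [if_neg h.ne, du_ker_lt s k h, du_ker s k h.le, sub_zero, map_zero, mul_zero]
    · subst h
      rw [if_pos rfl, du_fix_le s k le_rfl, du_ker s k le_rfl, sub_zero, hf2 i]
      exact inv_mul_cancel₀ (hpos i).ne'
    · rw [if_neg h.ne', du_fix_le s k h.le, du_fix_lt s k h, sub_self, map_zero, mul_zero]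
  refine ⟨fun t => v (g t), fun t => w (g t), fun t => hv1 _, fun t x => hw1 _ x, ?_, ?_⟩
  · intro t t'
    rw [hbi]
    simp only [g.injective.eq_iff]
  · intro B hB t
    by_contra hcon
    push Not at hcon
    have h1 : (univ : Set I) ⊆ ⋃ b : B, {i | (b : StrongDual ℝ X) (v (g (i :: t))) ≠ 0} := by
      intro i _
      obtain ⟨b, hb, hb'⟩ := hcon i
      exact mem_iUnion.mpr ⟨⟨b, hb⟩, hb'⟩
    have h2 : ∀ b : B, #({i | (b : StrongDual ℝ X) (v (g (i :: t))) ≠ 0} : Set I) ≤ ℵ₀ := by
      intro b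
      rw [Cardinal.le_aleph0_iff_set_countable]
      have h3 := countable_supp s k hK hkK (b : StrongDual ℝ X)
      have h4 : Function.Injective (fun i : I => g (i :: t)) := by
        intro i j hij
        have := g.injective hij
        exact (List.cons.inj this).1
      have h5 := h3.preimage_of_injOn (f := fun i : I => g (i :: t)) (h4.injOn)
      refine h5.mono ?_
      intro i hi
      change (b : StrongDual ℝ X) (‖du s k (g (i :: t))‖⁻¹ • du s k (g (i :: t))) ≠ 0 at hi
      rw [map_smul, smul_eq_mul] at hi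
      exact right_ne_zero_of_mul hi
    have h3 : #I ≤ #B * ℵ₀ := by
      calc #I = #(univ : Set I) := mk_univ.symm
        _ ≤ #(⋃ b : B, {i | (b : StrongDual ℝ X) (v (g (i :: t))) ≠ 0} : Set I) :=
          mk_le_mk_of_subset h1
        _ ≤ #B * ⨆ b : B, #({i | (b : StrongDual ℝ X) (v (g (i :: t))) ≠ 0} : Set I) :=
          mk_iUnion_le _
        _ ≤ #B * ℵ₀ := by
          gcongr
          exact ciSup_le' h2
    rw [hIκ] at h3
    exact absurd h3 (not_le.mpr (mul_lt_of_lt hκ.le hB hκ))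

end Pool.Agent.Helper358.BM
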