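import Pool.Agent.Helper358.BM4

/-!
A long chain of contractive projections exhausting the space; renormings given by families of
operators.
-/

set_option autoImplicit false

namespace Pool.Agent.Helper358.BM

open Filter Topology Set Cardinal

universe u

section Chain

variable {X : Type u} [NormedAddCommGroup X] [NormedSpace ℝ X]

theorem exists_chain {K : Set X} (s : Sys K) {κ : Cardinal.{u}} (hκ : ℵ₀ < κ) {D : Set X}
    (hD : Dense D) (hDκ : #D = κ)
    {I : Type u} [LinearOrder I] (hIκ : #I = κ) (hI : ∀ i : I, #(Iio i) < κ) :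
    ∃ R : I → X →L[ℝ] X, (∀ i x, ‖R i x‖ ≤ ‖x‖) ∧
      (∀ i j, i ≤ j → ∀ x, R j (R i x) = R i x ∧ R i (R j x) = R i x) ∧
      (∀ i, ∃ B : Set (StrongDual ℝ X), #B < κ ∧ ∀ x, (∀ f ∈ B, f x = 0) → R i x = 0) ∧
      (∀ x, ∀ η : ℝ, 0 < η → ∃ i, ‖R i x - x‖ ≤ η) := by
  obtain ⟨d⟩ : Nonempty (I ≃ D) := Cardinal.eq.mp (hIκ.trans hDκ.symm)
  have hsmall : ∀ i : I, #(((fun j => (d j : X)) '' Iic i : Set X)) < κ := by
    intro i
    refine mk_image_le.trans_lt ?_
    have h1 : Iic i = insert i (Iio i) := by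
      ext j
      simp only [mem_Iic, mem_insert_iff, mem_Iio]
      exact le_iff_eq_or_lt
    rw [h1]
    refine mk_insert_le.trans_lt ?_
    exact add_lt_of_lt hκ.le (hI i) (one_lt_aleph0.trans hκ)
  refine ⟨fun i => s.P ((fun j => (d j : X)) '' Iic i), fun i x => s.norm_le _ _, ?_, ?_, ?_⟩
  · intro i j hij x
    have h : (fun j => (d j : X)) '' Iic i ⊆ (fun j => (d j : X)) '' Iic j :=
      image_mono (Iic_subset_Iic.mpr hij)
    exact ⟨s.up h x, s.down h x⟩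
  · intro i
    obtain ⟨B, hB, hB'⟩ := s.ker ((fun j => (d j : X)) '' Iic i)
    exact ⟨B, hB.trans_lt (max_lt (hsmall i) hκ), hB'⟩
  · intro x η hη
    obtain ⟨y, hy, hxy⟩ := Metric.mem_closure_iff.mp (hD x) (η / 2) (by positivity)
    refine ⟨d.symm ⟨y, hy⟩, ?_⟩
    set i := d.symm ⟨y, hy⟩ with hi
    have h1 : s.P ((fun j => (d j : X)) '' Iic i) y = y := by
      apply s.fix
      exact ⟨i, mem_Iic.mpr le_rfl, by simp [hi]⟩
    rw [dist_eq_norm] at hxy
    have h2 : s.P ((fun j => (d j : X)) '' Iic i) x - x =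
        s.P ((fun j => (d j : X)) '' Iic i) (x - y) - (x - y) := by
      rw [map_sub, h1]; abel
    rw [h2]
    have h3 := s.norm_le ((fun j => (d j : X)) '' Iic i) (x - y)
    have h4 := norm_sub_le (s.P ((fun j => (d j : X)) '' Iic i) (x - y)) (x - y)
    linarith

end Chain

section Renorm

variable {X : Type u} [NormedAddCommGroup X] [NormedSpace ℝ X]

/-- The norm `sup_s ‖φ s x‖` is realised by a Banach space isomorphic to `X`. -/
theorem exists_renorm [CompleteSpace X] {S : Type u} (φ : S → X →L[ℝ] X) (C : ℝ)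
    (hC : ∀ s x, ‖φ s x‖ ≤ C * ‖x‖) (c : ℝ) (hc0 : 0 < c) (s₀ : S)
    (hc : ∀ x, c * ‖x‖ ≤ ‖φ s₀ x‖) :
    ∃ (Y : Type u) (_ : NormedAddCommGroup Y) (_ : NormedSpace ℝ Y) (_ : CompleteSpace Y)
      (e : X ≃L[ℝ] Y), (∀ x s, ‖φ s x‖ ≤ ‖e x‖) ∧
        (∀ x r, 0 ≤ r → (∀ s, ‖φ s x‖ ≤ r) → ‖e x‖ ≤ r) := by
  have hmem : ∀ x, Memℓp (fun s => φ s x) ⊤ := fun x =>
    memℓp_infty ⟨C * ‖x‖, by rintro _ ⟨s, rfl⟩; exact hC s x⟩
  let Φ₀ : X →ₗ[ℝ] lp (fun _ : S => X) ⊤ :=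
    { toFun := fun x => ⟨fun s => φ s x, hmem x⟩
      map_add' := fun x y => by
        ext s
        exact map_add (φ s) x y
      map_smul' := fun r x => by
        ext s
        exact map_smul (φ s) r x }
  have hΦ₀ : ∀ x s, (Φ₀ x : ∀ s, X) s = φ s x := fun x s => rfl
  have hC0 : ∀ x, 0 ≤ C * ‖x‖ := fun x => (norm_nonneg _).trans (hC s₀ x)
  let Φ : X →L[ℝ] lp (fun _ : S => X) ⊤ := Φ₀.mkContinuous C (fun x =>
    lp.norm_le_of_forall_le (hC0 x) (fun s => hC s x))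
  have hΦ : ∀ x s, (Φ x : ∀ s, X) s = φ s x := fun x s => rfl
  have hle : ∀ x s, ‖φ s x‖ ≤ ‖Φ x‖ := fun x s => by
    rw [← hΦ]
    exact lp.norm_apply_le_norm ENNReal.top_ne_zero (Φ x) s
  have hanti : AntilipschitzWith (Real.toNNReal c⁻¹) Φ := by
    apply AddMonoidHomClass.antilipschitz_of_bound
    intro x
    rw [Real.coe_toNNReal _ (by positivity)]
    have h1 := (hc x).trans (hle x s₀)
    rw [inv_mul_eq_div, le_div_iff₀ hc0]
    linarith
  have hcl : IsClosed (range Φ) := hanti.isClosed_range Φ.uniformContinuous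
  have hinj : Function.Injective Φ := hanti.injective
  have hcl' : IsClosed ((LinearMap.range (Φ : X →ₗ[ℝ] lp (fun _ : S => X) ⊤) :
      Submodule ℝ (lp (fun _ : S => X) ⊤)) : Set (lp (fun _ : S => X) ⊤)) := hcl
  have hcomp : CompleteSpace (LinearMap.range (Φ : X →ₗ[ℝ] lp (fun _ : S => X) ⊤)) :=
    hcl'.completeSpace_coe
  refine ⟨LinearMap.range (Φ : X →ₗ[ℝ] lp (fun _ : S => X) ⊤), inferInstance, inferInstance, hcomp,
    Φ.equivRange hinj hcl, ?_, ?_⟩
  · intro x s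
    exact hle x s
  · intro x r hr h
    exact lp.norm_le_of_forall_le hr h

end Renorm

end Pool.Agent.Helper358.BM
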