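import Pool.Agent.Helper358.BM5

/-!
Combinatorial estimates: counting of overlapping intervals, truncated unconditional norms, summing
functionals along a tree of lists.
-/

set_option autoImplicit false

namespace Pool.Agent.Helper358.BM

open Filter Topology Set Cardinal

universe u

section Count

variable {I : Type u} [LinearOrder I]

/-- Two monotone chains of `N` consecutive intervals have at most `2 N` overlapping pairs. -/
theorem card_overlap (α β : ℕ → I) (hα : Monotone α) (hβ : Monotone β) (N : ℕ) :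
    (((Finset.range N) ×ˢ (Finset.range N)).filter
      (fun p : ℕ × ℕ => α p.2 < β (p.1 + 1) ∧ β p.1 < α (p.2 + 1))).card ≤ 2 * N := by
  have h := Finset.card_le_card_of_injOn (s := ((Finset.range N) ×ˢ (Finset.range N)).filter
      (fun p : ℕ × ℕ => α p.2 < β (p.1 + 1) ∧ β p.1 < α (p.2 + 1)))
      (t := Finset.range (2 * N)) (fun p => p.1 + p.2) ?_ ?_
  · simpa using h
  · intro p hp
    simp only [Finset.coe_filter, Finset.mem_product, Finset.mem_range, mem_ofPred_eq] at hp
    simp only [Finset.coe_range, mem_Iio]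
    omega
  · have key : ∀ p q : ℕ × ℕ, α p.2 < β (p.1 + 1) → β q.1 < α (q.2 + 1) →
        p.1 + p.2 = q.1 + q.2 → ¬ p.1 < q.1 := by
      intro p q h1 h2 h3 h4
      have h5 : β (p.1 + 1) ≤ β q.1 := hβ (by omega)
      have h6 : α (q.2 + 1) ≤ α p.2 := hα (by omega)
      exact absurd (h1.trans_le (h5.trans (h2.le.trans h6))) (lt_irrefl _)
    intro p hp q hq hpq
    simp only [Finset.coe_filter, Finset.mem_product, Finset.mem_range, mem_ofPred_eq] at hp hq
    simp only at hpq
    have h1 := key p q hp.2.1 hq.2.2 hpq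
    have h2 := key q p hq.2.1 hp.2.2 hpq.symm
    apply Prod.ext <;> omega

end Count

section Op

variable {X : Type u} [NormedAddCommGroup X] [NormedSpace ℝ X] {I : Type u} [LinearOrder I]

/-- Signed sums of differences along a chain. -/
noncomputable def Qop (R : I → X →L[ℝ] X) (N : ℕ) (β : ℕ → I) (ε : ℕ → ℝ) : X →L[ℝ] X :=
  ∑ i ∈ Finset.range N, ε i • (R (β (i + 1)) - R (β i))

theorem Qop_apply (R : I → X →L[ℝ] X) (N : ℕ) (β : ℕ → I) (ε : ℕ → ℝ) (x : X) :
    Qop R N β ε x = ∑ i ∈ Finset.range N, ε i • (R (β (i + 1)) x - R (β i) x) := by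
  unfold Qop
  rw [sum_apply]
  rfl

theorem Qop_norm {R : I → X →L[ℝ] X} (hR : ∀ i x, ‖R i x‖ ≤ ‖x‖) (N : ℕ) (β : ℕ → I)
    {ε : ℕ → ℝ} (hε : ∀ i, |ε i| ≤ 1) (x : X) : ‖Qop R N β ε x‖ ≤ N * (2 * ‖x‖) := by
  rw [Qop_apply]
  refine (norm_sum_le _ _).trans ?_
  calc ∑ i ∈ Finset.range N, ‖ε i • (R (β (i + 1)) x - R (β i) x)‖
      ≤ ∑ i ∈ Finset.range N, 2 * ‖x‖ := by
        apply Finset.sum_le_sum
        intro i _
        rw [norm_smul, Real.norm_eq_abs]
        have h1 := norm_sub_le (R (β (i + 1)) x) (R (β i) x)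
        have h2 := hR (β (i + 1)) x
        have h3 := hR (β i) x
        calc |ε i| * ‖R (β (i + 1)) x - R (β i) x‖ ≤ 1 * (2 * ‖x‖) := by
              gcongr
              · exact hε i
              · linarith
          _ = 2 * ‖x‖ := one_mul _
    _ = N * (2 * ‖x‖) := by simp

/-- The truncated unconditional norm is small on sums of blocks. -/
theorem Qop_blocks {R : I → X →L[ℝ] X} (hR : ∀ i x, ‖R i x‖ ≤ ‖x‖) (N : ℕ) {α β : ℕ → I}
    (hα : Monotone α) (hβ : Monotone β) {ε : ℕ → ℝ} (hε : ∀ i, |ε i| ≤ 1) {y : ℕ → X} {b : ℝ}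
    (hb : 0 ≤ b) (hy : ∀ j, ‖y j‖ ≤ b) (h0 : ∀ j i, i ≤ α j → R i (y j) = 0)
    (h1 : ∀ j i, α (j + 1) ≤ i → R i (y j) = y j) :
    ‖Qop R N β ε (∑ j ∈ Finset.range N, y j)‖ ≤ 4 * N * b := by
  have e1 : Qop R N β ε (∑ j ∈ Finset.range N, y j) =
      ∑ p ∈ (Finset.range N) ×ˢ (Finset.range N),
        ε p.1 • (R (β (p.1 + 1)) (y p.2) - R (β p.1) (y p.2)) := by
    rw [Finset.sum_product, Qop_apply]
    apply Finset.sum_congr rfl
    intro i _
    rw [map_sum, map_sum, ← Finset.sum_sub_distrib, Finset.smul_sum]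
  have e2 : ∑ p ∈ (Finset.range N) ×ˢ (Finset.range N),
        ε p.1 • (R (β (p.1 + 1)) (y p.2) - R (β p.1) (y p.2)) =
      ∑ p ∈ ((Finset.range N) ×ˢ (Finset.range N)).filter
        (fun p : ℕ × ℕ => α p.2 < β (p.1 + 1) ∧ β p.1 < α (p.2 + 1)),
        ε p.1 • (R (β (p.1 + 1)) (y p.2) - R (β p.1) (y p.2)) := by
    symm
    apply Finset.sum_filter_of_ne
    intro p _ hp
    by_contra hcon
    apply hp
    rw [not_and_or, not_lt, not_lt] at hcon
    rcases hcon with h | h
    · rw [h0 _ _ h, h0 _ _ ((hβ (Nat.le_succ _)).trans h), sub_zero, smul_zero]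
    · rw [h1 _ _ h, h1 _ _ (h.trans (hβ (Nat.le_succ _))), sub_self, smul_zero]
  rw [e1, e2]
  refine (norm_sum_le _ _).trans ?_
  refine (Finset.sum_le_card_nsmul _ _ (2 * b) ?_).trans ?_
  · intro p _
    rw [norm_smul, Real.norm_eq_abs]
    have h1 := norm_sub_le (R (β (p.1 + 1)) (y p.2)) (R (β p.1) (y p.2))
    have h2 := hR (β (p.1 + 1)) (y p.2)
    have h3 := hR (β p.1) (y p.2)
    have h4 := hy p.2
    calc |ε p.1| * ‖R (β (p.1 + 1)) (y p.2) - R (β p.1) (y p.2)‖ ≤ 1 * (2 * b) := by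
          gcongr
          · exact hε _
          · linarith
      _ = 2 * b := one_mul _
  · rw [nsmul_eq_mul]
    have h2 : ((((Finset.range N) ×ˢ (Finset.range N)).filter
        (fun p : ℕ × ℕ => α p.2 < β (p.1 + 1) ∧ β p.1 < α (p.2 + 1))).card : ℝ) ≤ 2 * N := by
      exact_mod_cast card_overlap α β hα hβ N
    calc _ ≤ (2 * (N : ℝ)) * (2 * b) := by gcongr
      _ = _ := by ring

/-- The chain adapted to the blocks picks the blocks. -/
theorem Qop_pick {R : I → X →L[ℝ] X} (N : ℕ) {α : ℕ → I} (hα : Monotone α) (ε : ℕ → ℝ)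
    {a : ℕ → ℝ} {y : ℕ → X} (h0 : ∀ j i, i ≤ α j → R i (y j) = 0)
    (h1 : ∀ j i, α (j + 1) ≤ i → R i (y j) = y j) :
    Qop R N α ε (∑ j ∈ Finset.range N, a j • y j) = ∑ j ∈ Finset.range N, (ε j * a j) • y j := by
  rw [Qop_apply]
  apply Finset.sum_congr rfl
  intro i hi
  rw [map_sum, map_sum, ← Finset.sum_sub_distrib, Finset.sum_eq_single i]
  · rw [map_smul, map_smul, h1 i _ le_rfl, h0 i _ le_rfl, smul_zero, sub_zero, smul_smul]
  · intro j _ hji
    rw [map_smul, map_smul]
    rcases lt_or_gt_of_ne hji with h | h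
    · rw [h1 j _ (hα (by omega)), h1 j _ (hα (by omega)), sub_self]
    · rw [h0 j _ (hα (by omega)), h0 j _ (hα (by omega)), sub_self]
  · intro h
    exact absurd hi h

end Op

section Alt

theorem abs_alt_sum (m : ℕ) : |∑ j ∈ Finset.range m, (-1 : ℝ) ^ j| ≤ 1 := by
  have h : ∀ m : ℕ, ∑ j ∈ Finset.range m, (-1 : ℝ) ^ j = (1 - (-1) ^ m) / 2 := by
    intro m
    induction m with
    | zero => simp
    | succ n ih => rw [Finset.sum_range_succ, ih, pow_succ]; ring
  rw [h]
  rcases neg_one_pow_eq_or ℝ m with h' | h' <;> rw [h'] <;> norm_num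

theorem abs_alt_sum_ite (c : ℕ → Prop) [DecidablePred c] (hc : ∀ j, c (j + 1) → c j) (N : ℕ) :
    |∑ j ∈ Finset.range N, (-1 : ℝ) ^ j * (if c j then 1 else 0)| ≤ 1 := by
  by_cases hall : ∀ j, j < N → c j
  · have : ∑ j ∈ Finset.range N, (-1 : ℝ) ^ j * (if c j then 1 else 0) =
        ∑ j ∈ Finset.range N, (-1 : ℝ) ^ j := by
      apply Finset.sum_congr rfl
      intro j hj
      rw [if_pos (hall j (Finset.mem_range.mp hj)), mul_one]
    rw [this]
    exact abs_alt_sum N
  · push Not at hall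
    have hex : ∃ j, ¬ c j := by
      obtain ⟨j, _, hj⟩ := hall
      exact ⟨j, hj⟩
    classical
    set m := Nat.find hex with hm
    have hm1 : ¬ c m := Nat.find_spec hex
    have hm2 : ∀ j, j < m → c j := fun j hj => not_not.mp (Nat.find_min hex hj)
    have hm3 : ∀ j, m ≤ j → ¬ c j := by
      intro j hj
      induction j, hj using Nat.le_induction with
      | base => exact hm1
      | succ n _ ih => exact fun h => ih (hc n h)
    have hmN : m ≤ N := by
      obtain ⟨j, hj, hj'⟩ := hall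
      exact (Nat.find_min' hex hj').trans hj.le
    have : ∑ j ∈ Finset.range N, (-1 : ℝ) ^ j * (if c j then 1 else 0) =
        ∑ j ∈ Finset.range m, (-1 : ℝ) ^ j := by
      symm
      have hsub : Finset.range m ⊆ Finset.range N := Finset.range_subset_range.mpr hmN
      rw [← Finset.sum_subset hsub (f := fun j => (-1 : ℝ) ^ j * (if c j then 1 else 0))]
      · apply Finset.sum_congr rfl
        intro j hj
        rw [if_pos (hm2 j (Finset.mem_range.mp hj)), mul_one]
      · intro j _ hj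
        rw [Finset.mem_range, not_lt] at hj
        rw [if_neg (hm3 j hj), mul_zero]
    rw [this]
    exact abs_alt_sum m

end Alt

section TreeFun

variable {X : Type u} [NormedAddCommGroup X] [NormedSpace ℝ X] {I : Type u}

/-- Summing functionals: the sum over all nonempty final segments of the list. -/
noncomputable def WW (w : List I → StrongDual ℝ X) : List I → StrongDual ℝ X
  | [] => 0
  | i :: t => w (i :: t) + WW w t

theorem WW_norm {w : List I → StrongDual ℝ X} (hw : ∀ t x, |w t x| ≤ 2 * ‖x‖) (t : List I)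
    (x : X) : |WW w t x| ≤ t.length * (2 * ‖x‖) := by
  induction t with
  | nil => simp [WW]
  | cons i t ih =>
    have h1 := hw (i :: t) x
    have h2 := abs_add_le (w (i :: t) x) (WW w t x)
    have h3 : WW w (i :: t) x = w (i :: t) x + WW w t x := rfl
    rw [h3, List.length_cons]
    push_cast
    linarith

open Classical in
theorem WW_apply {w : List I → StrongDual ℝ X} {v : List I → X}
    (hb1 : ∀ t, w t (v t) = 1) (hb0 : ∀ t t', t ≠ t' → w t (v t') = 0) (s t : List I) :
    WW w s (v t) = if t ≠ [] ∧ t <:+ s then 1 else 0 := by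
  induction s with
  | nil =>
    rw [if_neg]
    · rfl
    · rintro ⟨h1, h2⟩
      exact h1 (List.suffix_nil.mp h2)
  | cons i s ih =>
    have h3 : WW w (i :: s) (v t) = w (i :: s) (v t) + WW w s (v t) := rfl
    rw [h3, ih]
    by_cases h : i :: s = t
    · subst h
      have h4 : ¬ (i :: s <:+ s) := by
        intro h5
        have := h5.length_le
        simp at this
      rw [hb1, if_neg (fun h => h4 h.2), if_pos ⟨List.cons_ne_nil _ _, List.suffix_rfl⟩,
        add_zero]
    · rw [hb0 _ _ h, zero_add]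
      congr 1
      rw [List.suffix_cons_iff]
      apply propext
      constructor
      · rintro ⟨h1, h2⟩
        exact ⟨h1, Or.inr h2⟩
      · rintro ⟨h1, h2 | h2⟩
        · exact absurd h2.symm h
        · exact ⟨h1, h2⟩

end TreeFun

end Pool.Agent.Helper358.BM
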