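import Pool.Agent.Helper358.BM6

/-!
Nonseparable weakly compactly generated spaces have renormings at arbitrarily large Banach-Mazur
distance.
-/

set_option autoImplicit false

namespace Pool.Agent.Helper358.BM

open Filter Topology Set Cardinal

universe u

section Core

variable {X : Type u} [NormedAddCommGroup X] [NormedSpace ℝ X] {I : Type u} [LinearOrder I]

/-- The core estimate, for two functions `p`, `q` on `X` (the two new norms). -/
theorem core {κ : Cardinal.{u}} {v : List I → X} {w : List I → StrongDual ℝ X}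
    (htree : ∀ B : Set (StrongDual ℝ X), #B < κ → ∀ t, ∃ i, ∀ f ∈ B, f (v (i :: t)) = 0)
    {R : I → X →L[ℝ] X} (hR : ∀ i x, ‖R i x‖ ≤ ‖x‖)
    (hRc : ∀ i j, i ≤ j → ∀ x, R j (R i x) = R i x ∧ R i (R j x) = R i x)
    (hRk : ∀ i, ∃ B : Set (StrongDual ℝ X), #B < κ ∧ ∀ x, (∀ f ∈ B, f x = 0) → R i x = 0)
    (hRd : ∀ x, ∀ η : ℝ, 0 < η → ∃ i, ‖R i x - x‖ ≤ η)
    (i₀ : I) (N : ℕ) (hN0 : 0 < N) {L : ℝ} (hL : 0 < L)
    (hN : 4 * L ^ 2 + 1 ≤ N) (p q : X → ℝ)
    (hp1 : ∀ t : ℕ → List I, t 0 = [] → (∀ n, ∃ i, t (n + 1) = i :: t n) →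
      (N : ℝ) ≤ p (∑ j ∈ Finset.range N, v (t (j + 1))))
    (hp2 : ∀ t : ℕ → List I, t 0 = [] → (∀ n, ∃ i, t (n + 1) = i :: t n) →
      p (∑ j ∈ Finset.range N, (-1 : ℝ) ^ j • v (t (j + 1))) ≤ 1)
    (hp3 : ∀ t : List I, t ≠ [] → p (v t) ≤ 1)
    (hqadd : ∀ x y, q (x + y) ≤ q x + q y)
    (hq0 : ∀ x, ‖x‖ ≤ q x)
    (hq1 : ∀ (β : ℕ → I) (ε : ℕ → ℝ), Monotone β → (∀ i, |ε i| ≤ 1) → ∀ x,
      (L / N) * ‖Qop R N β ε x‖ ≤ q x)
    (hq2 : ∀ x r, 0 ≤ r → ‖x‖ ≤ r → (∀ (β : ℕ → I) (ε : ℕ → ℝ), Monotone β → (∀ i, |ε i| ≤ 1) →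
      (L / N) * ‖Qop R N β ε x‖ ≤ r) → q x ≤ r)
    {C : ℝ} (hC : 0 ≤ C) (hq3 : ∀ x, q x ≤ C * ‖x‖)
    (τ : X →L[ℝ] X) {A B : ℝ} (hA0 : 0 ≤ A) (hB0 : 0 ≤ B)
    (hτ1 : ∀ x, q (τ x) ≤ B * p x) (hτ2 : ∀ x, p x ≤ A * q (τ x)) : L ≤ B * A := by
  by_contra hlt
  push Not at hlt
  have hNR : (0 : ℝ) < N := by exact_mod_cast hN0
  -- choice of the error
  set G : ℝ := A * C * (N + L) + 1 with hG
  have hGpos : 0 < G := by positivity
  set δ : ℝ := min 1 (L - B * A) with hδ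
  have hδpos : 0 < δ := lt_min one_pos (by linarith)
  set η : ℝ := δ / (2 * G) with hη
  have hηpos : 0 < η := by positivity
  have hGη : G * η = δ / 2 := by rw [hη]; field_simp
  -- one step of the branch
  have step : ∀ s : List I × I, ∃ s' : I × I, s.2 ≤ s'.2 ∧ R s.2 (τ (v (s'.1 :: s.1))) = 0 ∧
      ‖R s'.2 (τ (v (s'.1 :: s.1))) - τ (v (s'.1 :: s.1))‖ ≤ η := by
    rintro ⟨t, α⟩
    obtain ⟨F, hF, hF'⟩ := hRk α
    obtain ⟨i, hi⟩ := htree ((fun f : StrongDual ℝ X => f.comp τ) '' F)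
      (mk_image_le.trans_lt hF) t
    have h0 : R α (τ (v (i :: t))) = 0 := by
      apply hF'
      intro f hf
      exact hi _ ⟨f, hf, rfl⟩
    obtain ⟨α', hα'⟩ := hRd (τ (v (i :: t))) η hηpos
    rcases le_total α α' with h | h
    · exact ⟨(i, α'), h, h0, hα'⟩
    · refine ⟨(i, α), le_rfl, h0, ?_⟩
      have h1 : R α' (τ (v (i :: t))) = 0 := by
        rw [← (hRc α' α h _).2, h0, map_zero]
      rw [h1] at hα'
      change ‖R α (τ (v (i :: t))) - τ (v (i :: t))‖ ≤ η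
      rw [h0]
      exact hα'
  choose nx hnx1 hnx2 hnx3 using step
  let st : ℕ → List I × I := fun n => Nat.rec ([], i₀) (fun _ s => ((nx s).1 :: s.1, (nx s).2)) n
  have hst0 : st 0 = ([], i₀) := rfl
  have hst1 : ∀ n, st (n + 1) = ((nx (st n)).1 :: (st n).1, (nx (st n)).2) := fun n => rfl
  let t : ℕ → List I := fun n => (st n).1
  let α : ℕ → I := fun n => (st n).2
  have ht0 : t 0 = [] := rfl
  have ht1 : ∀ n, t (n + 1) = (nx (st n)).1 :: t n := fun n => rfl
  have ht1' : ∀ n, ∃ i, t (n + 1) = i :: t n := fun n => ⟨_, ht1 n⟩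
  have hαm : Monotone α := monotone_nat_of_le_succ fun n => hnx1 (st n)
  let y : ℕ → X := fun j => τ (v (t (j + 1)))
  have hy0 : ∀ j, R (α j) (y j) = 0 := fun j => hnx2 (st j)
  have hyη : ∀ j, ‖R (α (j + 1)) (y j) - y j‖ ≤ η := fun j => hnx3 (st j)
  let y' : ℕ → X := fun j => R (α (j + 1)) (y j)
  have hy'0 : ∀ j i, i ≤ α j → R i (y' j) = 0 := by
    intro j i hi
    change R i (R (α (j + 1)) (y j)) = 0
    rw [(hRc i (α (j + 1)) (hi.trans (hαm (Nat.le_succ j))) _).2, ← (hRc i (α j) hi _).2, hy0 j,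
      map_zero]
  have hy'1 : ∀ j i, α (j + 1) ≤ i → R i (y' j) = y' j := by
    intro j i hi
    exact (hRc (α (j + 1)) i hi _).1
  have hyB : ∀ j, ‖y j‖ ≤ B := by
    intro j
    have h1 := hτ1 (v (t (j + 1)))
    have h2 := hp3 (t (j + 1)) (by rw [ht1 j]; exact List.cons_ne_nil _ _)
    have h3 := hq0 (y j)
    calc ‖y j‖ ≤ q (τ (v (t (j + 1)))) := h3
      _ ≤ B * p (v (t (j + 1))) := h1
      _ ≤ B * 1 := by gcongr
      _ = B := mul_one B
  have hy'B : ∀ j, ‖y' j‖ ≤ B := fun j => (hR _ _).trans (hyB j)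
  -- error estimate
  have herr : ∀ a : ℕ → ℝ, (∀ j, |a j| ≤ 1) →
      ‖(∑ j ∈ Finset.range N, a j • y j) - ∑ j ∈ Finset.range N, a j • y' j‖ ≤ N * η := by
    intro a ha
    rw [← Finset.sum_sub_distrib]
    refine (norm_sum_le _ _).trans ?_
    calc ∑ j ∈ Finset.range N, ‖a j • y j - a j • y' j‖ ≤ ∑ j ∈ Finset.range N, η := by
          apply Finset.sum_le_sum
          intro j _
          rw [← smul_sub, norm_smul, Real.norm_eq_abs, norm_sub_rev]
          calc |a j| * ‖y' j - y j‖ ≤ 1 * η := by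
                gcongr
                · exact ha j
                · exact hyη j
            _ = η := one_mul η
      _ = N * η := by simp
  have hqerr : ∀ x z : X, q x ≤ q z + C * ‖x - z‖ := by
    intro x z
    have h1 := hqadd z (x - z)
    rw [add_sub_cancel] at h1
    have h2 := hq3 (x - z)
    linarith
  set u' : X := ∑ j ∈ Finset.range N, y' j with hu'
  -- the slow vector
  have hslow : (N : ℝ) ≤ A * (q u' + C * (N * η)) := by
    have h1 := hp1 t ht0 ht1'
    have h2 := hτ2 (∑ j ∈ Finset.range N, v (t (j + 1)))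
    rw [map_sum] at h2
    have h3 := hqerr (∑ j ∈ Finset.range N, y j) u'
    have h4 := herr (fun _ => 1) (fun _ => by simp)
    simp only [one_smul] at h4
    calc (N : ℝ) ≤ A * q (∑ j ∈ Finset.range N, y j) := h1.trans h2
      _ ≤ A * (q u' + C * ‖(∑ j ∈ Finset.range N, y j) - u'‖) := by gcongr
      _ ≤ A * (q u' + C * (N * η)) := by gcongr
  -- its norm
  have hq_u' : q u' ≤ max ‖u'‖ (4 * L * B) := by
    apply hq2
    · exact le_max_of_le_left (norm_nonneg _)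
    · exact le_max_left _ _
    · intro β ε hβ hε
      refine le_trans ?_ (le_max_right _ _)
      have h1 := Qop_blocks hR N hαm hβ hε hB0 hy'B hy'0 hy'1
      calc (L / N) * ‖Qop R N β ε u'‖ ≤ (L / N) * (4 * N * B) := by gcongr
        _ = 4 * L * B := by field_simp
  -- the alternating vector
  have halt : L * ‖u'‖ ≤ N * (B + C * (N * η)) := by
    set z : X := ∑ j ∈ Finset.range N, (-1 : ℝ) ^ j • y' j with hz
    have h1 := hq1 α (fun j => (-1 : ℝ) ^ j) hαm (fun j => by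
      rw [abs_pow, abs_neg, abs_one, one_pow]) z
    have h2 : Qop R N α (fun j => (-1 : ℝ) ^ j) z = u' := by
      rw [hz, Qop_pick N hαm _ hy'0 hy'1, hu']
      apply Finset.sum_congr rfl
      intro j _
      rw [← pow_add, ← two_mul, pow_mul, neg_one_sq, one_pow, one_smul]
    rw [h2] at h1
    have h3 := hqerr z (∑ j ∈ Finset.range N, (-1 : ℝ) ^ j • y j)
    have h4 := herr (fun j => (-1 : ℝ) ^ j) (fun j => by
      rw [abs_pow, abs_neg, abs_one, one_pow])
    rw [norm_sub_rev] at h4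
    have h5 := hτ1 (∑ j ∈ Finset.range N, (-1 : ℝ) ^ j • v (t (j + 1)))
    have h6 := hp2 t ht0 ht1'
    rw [map_sum] at h5
    simp only [map_smul] at h5
    have h7 : q z ≤ B + C * (N * η) := by
      calc q z ≤ q (∑ j ∈ Finset.range N, (-1 : ℝ) ^ j • y j) +
            C * ‖z - ∑ j ∈ Finset.range N, (-1 : ℝ) ^ j • y j‖ := h3
        _ ≤ B * p (∑ j ∈ Finset.range N, (-1 : ℝ) ^ j • v (t (j + 1))) + C * (N * η) := by
            gcongr
        _ ≤ B * 1 + C * (N * η) := by gcongr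
        _ = _ := by ring
    have h8 := h1.trans h7
    rw [div_mul_eq_mul_div, div_le_iff₀ hNR] at h8
    linarith
  -- conclusion
  have hACN : A * C * N * η ≤ G * η := by
    apply mul_le_mul_of_nonneg_right _ hηpos.le
    rw [hG]
    nlinarith [mul_nonneg (mul_nonneg hA0 hC) hL.le]
  have hACNL : A * C * (N + L) * η ≤ G * η := by
    apply mul_le_mul_of_nonneg_right _ hηpos.le
    rw [hG]
    linarith
  have hδ1 : δ ≤ 1 := min_le_left _ _
  have hδ2 : δ ≤ L - B * A := min_le_right _ _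
  rcases le_total ‖u'‖ (4 * L * B) with hcase | hcase
  · rw [max_eq_right hcase] at hq_u'
    have h1 : (N : ℝ) ≤ A * (4 * L * B + C * (N * η)) := hslow.trans (by gcongr)
    have h2 : A * (4 * L * B) ≤ 4 * L ^ 2 := by nlinarith
    have h3 : A * (C * (N * η)) = A * C * N * η := by ring
    have h4 : A * (4 * L * B + C * (N * η)) = A * (4 * L * B) + A * (C * (N * η)) := by ring
    rw [h4, h3] at h1
    linarith
  · rw [max_eq_left hcase] at hq_u'
    have h1 : (N : ℝ) ≤ A * (‖u'‖ + C * (N * η)) := hslow.trans (by gcongr)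
    have h2 : L * N ≤ A * (L * ‖u'‖) + L * (A * C * N * η) := by
      calc L * N ≤ L * (A * (‖u'‖ + C * (N * η))) := by gcongr
        _ = _ := by ring
    have h3 : A * (L * ‖u'‖) ≤ A * (N * (B + C * (N * η))) := by gcongr
    have h4 : N * L ≤ N * (B * A + A * C * (N + L) * η) := by nlinarith
    have h5 : L ≤ B * A + A * C * (N + L) * η := le_of_mul_le_mul_left h4 hNR
    linarith

end Core

end Pool.Agent.Helper358.BM
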