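import Pool.Agent.Helper358.BM7

/-!
Nonseparable weakly compactly generated spaces have renormings at arbitrarily large Banach-Mazur
distance: assembly.
-/

set_option autoImplicit false

namespace Pool.Agent.Helper358.BM

open Filter Topology Set Cardinal

universe u

variable {X : Type u} [NormedAddCommGroup X] [NormedSpace ℝ X]

theorem suffix_branch {I : Type u} {t : ℕ → List I} (ht : ∀ n, ∃ i, t (n + 1) = i :: t n)
    {m n : ℕ} (h : m ≤ n) : t m <:+ t n := by
  induction n, h using Nat.le_induction with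
  | base => exact List.suffix_rfl
  | succ n _ ih =>
    obtain ⟨i, hi⟩ := ht n
    rw [hi]
    exact ih.trans (List.suffix_cons _ _)

theorem length_branch {I : Type u} {t : ℕ → List I} (ht0 : t 0 = [])
    (ht : ∀ n, ∃ i, t (n + 1) = i :: t n) (n : ℕ) : (t n).length = n := by
  induction n with
  | zero => rw [ht0]; rfl
  | succ n ih =>
    obtain ⟨i, hi⟩ := ht n
    rw [hi, List.length_cons, ih]

/-- Nonseparable WCG spaces have infinite Banach-Mazur diameter. -/
theorem far [CompleteSpace X] {K : Set X} (hK : WC K)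
    (hspan : Dense ((Submodule.span ℝ K : Submodule ℝ X) : Set X))
    (hns : ¬ TopologicalSpace.SeparableSpace X) (M : ℝ) :
    ∃ (Y Z : Type u) (_ : NormedAddCommGroup Y) (_ : NormedSpace ℝ Y) (_ : CompleteSpace Y)
      (_ : NormedAddCommGroup Z) (_ : NormedSpace ℝ Z) (_ : CompleteSpace Z),
      Nonempty (X ≃L[ℝ] Y) ∧ Nonempty (X ≃L[ℝ] Z) ∧
      ∀ T : Y ≃L[ℝ] Z, M ≤ ‖(T : Y →L[ℝ] Z)‖ * ‖(T.symm : Z →L[ℝ] Y)‖ := by
  classical
  -- the density character
  obtain ⟨D, hD, hDmin⟩ : ∃ D : Set X, Dense D ∧ ∀ D' : Set X, Dense D' → #D ≤ #D' := by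
    have hne : {c : Cardinal.{u} | ∃ D : Set X, Dense D ∧ #D = c}.Nonempty :=
      ⟨_, univ, dense_univ, rfl⟩
    obtain ⟨D, hD, hDc⟩ := csInf_mem hne
    refine ⟨D, hD, fun D' hD' => ?_⟩
    rw [hDc]
    exact csInf_le' ⟨D', hD', rfl⟩
  obtain ⟨κ, hκ⟩ : ∃ κ, κ = #D := ⟨_, rfl⟩
  have hκ0 : ℵ₀ < κ := by
    by_contra hcon
    push Not at hcon
    apply hns
    rw [hκ, Cardinal.le_aleph0_iff_set_countable] at hcon
    exact ⟨⟨D, hcon, hD⟩⟩
  have hd : ∀ D' : Set X, Dense D' → κ ≤ #D' := fun D' h => by rw [hκ]; exact hDmin D' h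
  -- the index set
  let I : Type u := κ.ord.ToType
  have hIκ : #I = κ := mk_ord_toType κ
  have hI : ∀ i : I, #(Iio i) < κ := fun i => by
    have h := mk_Iio_lt (α := κ.ord.ToType) i (by simp)
    rwa [mk_ord_toType] at h
  have hinf : Infinite I := by rw [infinite_iff, hIκ]; exact hκ0.le
  obtain ⟨i₀⟩ : Nonempty I := inferInstance
  -- a unit vector
  have hnt : Nontrivial X := by
    by_contra hcon
    rw [not_nontrivial_iff_subsingleton] at hcon
    exact hns inferInstance
  obtain ⟨x₀, hx₀⟩ := exists_ne (0 : X)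
  set e₀ : X := ‖x₀‖⁻¹ • x₀ with he₀
  have he₀n : ‖e₀‖ = 1 := by
    rw [he₀, norm_smul, norm_inv, norm_norm, inv_mul_cancel₀ (norm_ne_zero_iff.mpr hx₀)]
  have hKne : K.Nonempty := by
    rw [Set.nonempty_iff_ne_empty]
    rintro rfl
    rw [Submodule.span_empty] at hspan
    have h1 := hspan x₀
    rw [Submodule.bot_coe, closure_singleton, mem_singleton_iff] at h1
    exact hx₀ h1
  obtain ⟨s⟩ := exists_sys hK hKne hspan
  obtain ⟨v, w, hv, hw, hvw, htree⟩ := exists_tree s hK hspan hκ0 hd hIκ hI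
  have hvw1 : ∀ t, w t (v t) = 1 := fun t => by rw [hvw, if_pos rfl]
  have hvw0 : ∀ t t', t ≠ t' → w t (v t') = 0 := fun t t' h => by rw [hvw, if_neg h]
  obtain ⟨R, hR, hRc, hRk, hRd⟩ := exists_chain s hκ0 hD hκ.symm hIκ hI
  -- constants
  set L : ℝ := max M 1 with hL
  have hLM : M ≤ L := le_max_left _ _
  have hL1 : 1 ≤ L := le_max_right _ _
  have hL0 : 0 < L := by linarith
  obtain ⟨N, hN⟩ := exists_nat_ge (4 * L ^ 2 + 1)
  have hNR : (0 : ℝ) < N := by nlinarith
  have hN0 : 0 < N := by exact_mod_cast hNR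
  -- the first norm
  let φ₁ : Option (List I) → X →L[ℝ] X := fun o => match o with
    | none => (1 / (N : ℝ)) • ContinuousLinearMap.id ℝ X
    | some t => if t.length ≤ N then (WW w t).smulRight e₀ else 0
  have hφn : ∀ x, φ₁ none x = (1 / (N : ℝ)) • x := fun x => rfl
  have hφs : ∀ (t : List I) x, ‖φ₁ (some t) x‖ = if t.length ≤ N then |WW w t x| else 0 := by
    intro t x
    change ‖(if t.length ≤ N then (WW w t).smulRight e₀ else 0 : X →L[ℝ] X) x‖ = _
    split_ifs with h
    · rw [ContinuousLinearMap.smulRight_apply, norm_smul, he₀n, mul_one, Real.norm_eq_abs]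
    · simp
  obtain ⟨Y, iY1, iY2, iY3, e₁, he₁a, he₁b⟩ := exists_renorm φ₁ (1 + 2 * N) (by
      intro o x
      have hx := norm_nonneg x
      rcases o with _ | t
      · rw [hφn, norm_smul, Real.norm_of_nonneg (by positivity)]
        have h1 : 1 / (N : ℝ) ≤ 1 := by
          rw [div_le_one hNR]
          exact_mod_cast hN0
        nlinarith
      · rw [hφs]
        split_ifs with h
        · refine (WW_norm hw t x).trans ?_
          have h1 : (t.length : ℝ) ≤ N := by exact_mod_cast h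
          nlinarith
        · positivity) (1 / (N : ℝ)) (by positivity) none (by
      intro x
      rw [hφn, norm_smul, Real.norm_of_nonneg (by positivity)])
  -- the second norm
  let S₂ : Type u := Option {p : (ℕ → I) × (ℕ → ℝ) // Monotone p.1 ∧ ∀ i, |p.2 i| ≤ 1}
  let φ₂ : S₂ → X →L[ℝ] X := fun o => match o with
    | none => ContinuousLinearMap.id ℝ X
    | some p => (L / N) • Qop R N p.1.1 p.1.2
  have hφ₂s : ∀ p x, ‖φ₂ (some p) x‖ = (L / N) * ‖Qop R N p.1.1 p.1.2 x‖ := by
    intro p x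
    change ‖((L / N) • Qop R N p.1.1 p.1.2) x‖ = _
    rw [smul_apply, norm_smul, Real.norm_of_nonneg (by positivity)]
  have hC₂ : ∀ o x, ‖φ₂ o x‖ ≤ (1 + 2 * L) * ‖x‖ := by
    intro o x
    have hx := norm_nonneg x
    rcases o with _ | p
    · change ‖x‖ ≤ _
      nlinarith
    · rw [hφ₂s]
      have h1 := Qop_norm hR N p.1.1 p.2.2 x
      calc (L / N) * ‖Qop R N p.1.1 p.1.2 x‖ ≤ (L / N) * (N * (2 * ‖x‖)) := by gcongr
        _ = 2 * L * ‖x‖ := by field_simp
        _ ≤ _ := by nlinarith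
  obtain ⟨Z, iZ1, iZ2, iZ3, e₂, he₂a, he₂b⟩ := exists_renorm φ₂ (1 + 2 * L) hC₂ 1 one_pos none (by
      intro x
      rw [one_mul]
      exact le_rfl)
  refine ⟨Y, Z, iY1, iY2, iY3, iZ1, iZ2, iZ3, ⟨e₁⟩, ⟨e₂⟩, fun T => hLM.trans ?_⟩
  let τ : X →L[ℝ] X := (e₂.symm : Z →L[ℝ] X).comp ((T : Y →L[ℝ] Z).comp (e₁ : X →L[ℝ] Y))
  have hτ : ∀ x, e₂ (τ x) = T (e₁ x) := fun x => by
    change e₂ (e₂.symm (T (e₁ x))) = _
    exact e₂.apply_symm_apply _
  -- facts on the branches
  have hbranch : ∀ t : ℕ → List I, t 0 = [] → (∀ n, ∃ i, t (n + 1) = i :: t n) → ∀ s j,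
      WW w s (v (t (j + 1))) = if t (j + 1) <:+ s then 1 else 0 := by
    intro t ht0 ht s j
    rw [WW_apply hvw1 hvw0]
    have h1 : t (j + 1) ≠ [] := by
      obtain ⟨i, hi⟩ := ht j
      rw [hi]
      exact List.cons_ne_nil _ _
    congr 1
    exact propext ⟨fun h => h.2, fun h => ⟨h1, h⟩⟩
  apply core (v := v) (w := w) htree hR hRc hRk hRd i₀ N hN0 hL0 hN (fun x => ‖e₁ x‖)
    (fun x => ‖e₂ x‖) ?_ ?_ ?_ ?_ ?_ ?_ ?_ (C := 1 + 2 * L) (by positivity) ?_ τ
    (norm_nonneg _) (norm_nonneg _) ?_ ?_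
  · intro t ht0 ht
    refine le_trans ?_ (he₁a _ (some (t N)))
    rw [hφs, if_pos (length_branch ht0 ht N).le, map_sum]
    have h1 : ∑ j ∈ Finset.range N, WW w (t N) (v (t (j + 1))) = N := by
      rw [Finset.sum_congr rfl (g := fun _ => (1 : ℝ))]
      · simp
      · intro j hj
        rw [hbranch t ht0 ht, if_pos]
        exact suffix_branch ht (Finset.mem_range.mp hj)
    rw [h1]
    exact le_abs_self _
  · intro t ht0 ht
    apply he₁b _ _ zero_le_one
    intro o
    rcases o with _ | s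
    · rw [hφn, norm_smul, Real.norm_of_nonneg (by positivity)]
      have h1 : ‖∑ j ∈ Finset.range N, (-1 : ℝ) ^ j • v (t (j + 1))‖ ≤ N := by
        refine (norm_sum_le _ _).trans ?_
        calc ∑ j ∈ Finset.range N, ‖(-1 : ℝ) ^ j • v (t (j + 1))‖
            ≤ ∑ j ∈ Finset.range N, (1 : ℝ) := by
              apply Finset.sum_le_sum
              intro j _
              rw [norm_smul, norm_pow, norm_neg, norm_one, one_pow, one_mul]
              exact hv _
          _ = N := by simp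
      calc 1 / (N : ℝ) * ‖∑ j ∈ Finset.range N, (-1 : ℝ) ^ j • v (t (j + 1))‖
          ≤ 1 / (N : ℝ) * N := by gcongr
        _ = 1 := by field_simp
    · rw [hφs]
      split_ifs with h
      · rw [map_sum]
        simp only [map_smul, smul_eq_mul]
        have h1 : ∑ j ∈ Finset.range N, (-1 : ℝ) ^ j * WW w s (v (t (j + 1))) =
            ∑ j ∈ Finset.range N, (-1 : ℝ) ^ j * (if t (j + 1) <:+ s then 1 else 0) :=
          Finset.sum_congr rfl fun j _ => by rw [hbranch t ht0 ht]
        rw [h1]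
        exact abs_alt_sum_ite (fun j => t (j + 1) <:+ s)
          (fun j h => (suffix_branch ht (Nat.le_succ _)).trans h) N
      · exact zero_le_one
  · intro t ht
    apply he₁b _ _ zero_le_one
    intro o
    rcases o with _ | s
    · rw [hφn, norm_smul, Real.norm_of_nonneg (by positivity)]
      have h1 : 1 / (N : ℝ) ≤ 1 := by
        rw [div_le_one hNR]
        exact_mod_cast hN0
      calc 1 / (N : ℝ) * ‖v t‖ ≤ 1 * 1 := by
            gcongr
            exact hv t
        _ = 1 := one_mul 1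
    · rw [hφs]
      split_ifs with h
      · rw [WW_apply hvw1 hvw0]
        split_ifs <;> simp
      · exact zero_le_one
  · intro x y
    simp only [map_add]
    exact norm_add_le _ _
  · intro x
    exact he₂a x none
  · intro β ε hβ hε x
    have h1 := he₂a x (some ⟨(β, ε), hβ, hε⟩)
    rwa [hφ₂s] at h1
  · intro x r hr hx h
    apply he₂b x r hr
    intro o
    rcases o with _ | p
    · exact hx
    · rw [hφ₂s]
      exact h _ _ p.2.1 p.2.2
  · intro x
    exact he₂b x _ (by positivity) (fun o => hC₂ o x)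
  · intro x
    simp only [hτ]
    exact (T : Y →L[ℝ] Z).le_opNorm _
  · intro x
    simp only [hτ]
    have h1 := (T.symm : Z →L[ℝ] Y).le_opNorm (T (e₁ x))
    have h2 : (T.symm : Z →L[ℝ] Y) (T (e₁ x)) = e₁ x := T.symm_apply_apply _
    rwa [h2] at h1

end Pool.Agent.Helper358.BM
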