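import Pool.Agent.Helper358.BM6

/-!
A general version of the core estimate: chains of subspaces and seminorms instead of projections,
differences of siblings instead of nodes.
-/

set_option autoImplicit false

namespace Pool.Agent.Helper358.BM

open Filter Topology Set Cardinal

universe u

section Ext

variable {X : Type u} [NormedAddCommGroup X] [NormedSpace ℝ X]

/-- Hahn-Banach with a dominating seminorm. -/
theorem exists_ext (p : Seminorm ℝ X) (hp : ∀ x, p x ≤ ‖x‖) (Y : Submodule ℝ X) {C₀ : ℝ}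
    (hC₀ : 0 ≤ C₀) (f : StrongDual ℝ X) (hf : ∀ y ∈ Y, |f y| ≤ C₀ * p y) :
    ∃ g : StrongDual ℝ X, (∀ y ∈ Y, g y = f y) ∧ ∀ x, |g x| ≤ C₀ * p x := by
  let f' : X →ₗ.[ℝ] ℝ := ⟨Y, (f : X →ₗ[ℝ] ℝ).comp Y.subtype⟩
  obtain ⟨g, hg1, hg2⟩ := exists_extension_of_le_sublinear f' (fun x => C₀ * p x) (by
      intro c hc x
      simp only [map_smul_eq_mul, Real.norm_of_nonneg hc.le]
      ring) (by
      intro x y
      have h1 := map_add_le_add p x y
      calc C₀ * p (x + y) ≤ C₀ * (p x + p y) := by gcongr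
        _ = _ := by ring) (by
      intro x
      have h1 := hf x.1 x.2
      exact (le_abs_self _).trans h1)
  have hg3 : ∀ x, |g x| ≤ C₀ * p x := by
    intro x
    rw [abs_le]
    constructor
    · have h1 := hg2 (-x)
      simp only [map_neg, map_neg_eq_map] at h1
      linarith
    · exact hg2 x
  refine ⟨g.mkContinuous C₀ (fun x => ?_), ?_, ?_⟩
  · rw [Real.norm_eq_abs]
    calc |g x| ≤ C₀ * p x := hg3 x
      _ ≤ C₀ * ‖x‖ := by gcongr; exact hp x
  · intro y hy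
    exact hg1 ⟨y, hy⟩
  · exact hg3

end Ext

section Core

variable {X : Type u} [NormedAddCommGroup X] [NormedSpace ℝ X] {I J : Type u} [LinearOrder J]

/-- Chains of functionals attached to a chain of subspaces and seminorms. -/
structure Chain (p₀ : J → Seminorm ℝ X) (Y : J → Submodule ℝ X) (C₀ : ℝ) (β : ℕ → J)
    (g : ℕ → StrongDual ℝ X) : Prop where
  mono : Monotone β
  dom : ∀ i x, |g i x| ≤ C₀ * p₀ (β i) x
  link : ∀ i, ∀ y ∈ Y (β i), g (i + 1) y = g i y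

/-- Slow sums are not seen by chains. -/
theorem chain_slow {p₀ : J → Seminorm ℝ X} (hp0m : ∀ i j, i ≤ j → ∀ x, p₀ i x ≤ p₀ j x)
    (hp0 : ∀ i x, p₀ i x ≤ ‖x‖) {Y : J → Submodule ℝ X} (hY : Monotone Y) {C₀ : ℝ} (hC₀ : 0 ≤ C₀)
    (N : ℕ) {α : ℕ → J} (hα : Monotone α) {β : ℕ → J} {g : ℕ → StrongDual ℝ X}
    (hc : Chain p₀ Y C₀ β g) {y : ℕ → X} {b η : ℝ} (hb : 0 ≤ b) (hη : 0 ≤ η)
    (hy : ∀ j, ‖y j‖ ≤ b) (hyp : ∀ j, p₀ (α j) (y j) ≤ η) (hyY : ∀ j, y j ∈ Y (α (j + 1))) :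
    ∑ i ∈ Finset.range N, |g (i + 1) (∑ j ∈ Finset.range N, y j) -
      g i (∑ j ∈ Finset.range N, y j)| ≤ N * N * (2 * C₀ * η) + 2 * N * (2 * C₀ * b) := by
  have e1 : ∑ i ∈ Finset.range N, |g (i + 1) (∑ j ∈ Finset.range N, y j) -
      g i (∑ j ∈ Finset.range N, y j)| ≤
      ∑ p ∈ (Finset.range N) ×ˢ (Finset.range N), |g (p.1 + 1) (y p.2) - g p.1 (y p.2)| := by
    rw [Finset.sum_product]
    apply Finset.sum_le_sum
    intro i _
    rw [map_sum, map_sum, ← Finset.sum_sub_distrib]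
    exact Finset.abs_sum_le_sum_abs _ _
  refine e1.trans ?_
  classical
  have e2 : ∀ p ∈ (Finset.range N) ×ˢ (Finset.range N), |g (p.1 + 1) (y p.2) - g p.1 (y p.2)| ≤
      2 * C₀ * η + (if α p.2 < β (p.1 + 1) ∧ β p.1 < α (p.2 + 1) then 2 * C₀ * b else 0) := by
    intro p _
    have h1 := hc.dom (p.1 + 1) (y p.2)
    have h2 := hc.dom p.1 (y p.2)
    have h3 : |g (p.1 + 1) (y p.2) - g p.1 (y p.2)| ≤ |g (p.1 + 1) (y p.2)| + |g p.1 (y p.2)| :=
      abs_sub _ _
    split_ifs with h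
    · have h4 : p₀ (β (p.1 + 1)) (y p.2) ≤ b := (hp0 _ _).trans (hy _)
      have h5 : p₀ (β p.1) (y p.2) ≤ b := (hp0 _ _).trans (hy _)
      have h6 : C₀ * p₀ (β (p.1 + 1)) (y p.2) ≤ C₀ * b := by gcongr
      have h7 : C₀ * p₀ (β p.1) (y p.2) ≤ C₀ * b := by gcongr
      have h8 : 0 ≤ 2 * C₀ * η := by positivity
      linarith
    · rw [not_and_or, not_lt, not_lt] at h
      rcases h with h | h
      · have h4 : p₀ (β (p.1 + 1)) (y p.2) ≤ η := (hp0m _ _ h _).trans (hyp _)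
        have h5 : p₀ (β p.1) (y p.2) ≤ η :=
          (hp0m _ _ ((hc.mono (Nat.le_succ _)).trans h) _).trans (hyp _)
        have h6 : C₀ * p₀ (β (p.1 + 1)) (y p.2) ≤ C₀ * η := by gcongr
        have h7 : C₀ * p₀ (β p.1) (y p.2) ≤ C₀ * η := by gcongr
        linarith
      · rw [hc.link p.1 (y p.2) (hY h (hyY _)), sub_self, abs_zero]
        positivity
  refine (Finset.sum_le_sum e2).trans ?_
  rw [Finset.sum_add_distrib, Finset.sum_const, ← Finset.sum_filter, Finset.sum_const,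
    Finset.card_product, Finset.card_range, nsmul_eq_mul, nsmul_eq_mul]
  push_cast
  have h2 : ((((Finset.range N) ×ˢ (Finset.range N)).filter
        (fun p : ℕ × ℕ => α p.2 < β (p.1 + 1) ∧ β p.1 < α (p.2 + 1))).card : ℝ) ≤ 2 * N := by
      exact_mod_cast card_overlap α β hα hc.mono N
  gcongr

/-- Alternating sums are seen by a suitable chain. -/
theorem chain_alt {p₀ : J → Seminorm ℝ X} (hp0m : ∀ i j, i ≤ j → ∀ x, p₀ i x ≤ p₀ j x)
    (hp0 : ∀ i x, p₀ i x ≤ ‖x‖) {Y : J → Submodule ℝ X} (hY : Monotone Y) {C₀ : ℝ} (hC₀ : 0 ≤ C₀)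
    (hYp : ∀ i, ∀ y ∈ Y i, ‖y‖ ≤ C₀ * p₀ i y)
    (N : ℕ) {α : ℕ → J} (hα : Monotone α) {y : ℕ → X} {η : ℝ} (hη : 0 ≤ η)
    (hyp : ∀ j, p₀ (α j) (y j) ≤ η) (hyY : ∀ j, y j ∈ Y (α (j + 1))) :
    ∃ g : ℕ → StrongDual ℝ X, Chain p₀ Y C₀ α g ∧
      ‖∑ j ∈ Finset.range N, y j‖ ≤ (∑ i ∈ Finset.range N,
        |g (i + 1) (∑ j ∈ Finset.range N, (-1 : ℝ) ^ j • y j) -
          g i (∑ j ∈ Finset.range N, (-1 : ℝ) ^ j • y j)|) + N * (N * (2 * C₀ * η)) := by
  obtain ⟨f, hf1, hf2⟩ := exists_dual_vector'' ℝ (∑ j ∈ Finset.range N, y j)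
  have hfle : ∀ x, |f x| ≤ ‖x‖ := by
    intro x
    rw [← Real.norm_eq_abs]
    calc ‖f x‖ ≤ ‖f‖ * ‖x‖ := f.le_opNorm x
      _ ≤ 1 * ‖x‖ := by gcongr
      _ = ‖x‖ := one_mul _
  have hext : ∀ i, ∃ g : StrongDual ℝ X, (∀ y ∈ Y (α i), g y = f y) ∧
      ∀ x, |g x| ≤ C₀ * p₀ (α i) x := fun i =>
    exists_ext (p₀ (α i)) (hp0 _) (Y (α i)) hC₀ f (fun y hy => (hfle y).trans (hYp _ y hy))
  choose g hg1 hg2 using hext
  refine ⟨g, ⟨hα, hg2, ?_⟩, ?_⟩
  · intro i y hy
    rw [hg1 i y hy, hg1 (i + 1) y (hY (hα (Nat.le_succ i)) hy)]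
  · set z := ∑ j ∈ Finset.range N, (-1 : ℝ) ^ j • y j with hz
    have key : ∀ i ∈ Finset.range N, f (y i) ≤ |g (i + 1) z - g i z| + N * (2 * C₀ * η) := by
      intro i hi
      have e1 : g (i + 1) z - g i z =
          ∑ j ∈ Finset.range N, (-1 : ℝ) ^ j * (g (i + 1) (y j) - g i (y j)) := by
        rw [hz, map_sum, map_sum, ← Finset.sum_sub_distrib]
        apply Finset.sum_congr rfl
        intro j _
        rw [map_smul, map_smul, smul_eq_mul, smul_eq_mul]
        ring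
      have e2 : ∀ j ∈ Finset.range N, |(-1 : ℝ) ^ j * (g (i + 1) (y j) - g i (y j)) -
          (if j = i then (-1 : ℝ) ^ i * f (y i) else 0)| ≤ 2 * C₀ * η := by
        intro j _
        have hpow : ∀ k : ℕ, |(-1 : ℝ) ^ k| = 1 := fun k => by
          rw [abs_pow, abs_neg, abs_one, one_pow]
        rcases lt_trichotomy j i with h | h | h
        · rw [if_neg h.ne, hg1 (i + 1) (y j) (hY (hα (by omega)) (hyY j)),
            hg1 i (y j) (hY (hα (by omega)) (hyY j)), sub_self, mul_zero, sub_zero, abs_zero]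
          positivity
        · subst h
          rw [if_pos rfl, hg1 (j + 1) (y j) (hyY j), ← mul_sub, abs_mul, hpow, one_mul,
            sub_sub_cancel_left, abs_neg]
          have h1 := hg2 j (y j)
          have h2 : C₀ * p₀ (α j) (y j) ≤ C₀ * η := by gcongr; exact hyp j
          have h3 : 0 ≤ C₀ * η := by positivity
          linarith
        · rw [if_neg h.ne', sub_zero, abs_mul, hpow, one_mul]
          have h1 := hg2 (i + 1) (y j)
          have h2 := hg2 i (y j)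
          have h3 : p₀ (α (i + 1)) (y j) ≤ η := (hp0m _ _ (hα (by omega)) _).trans (hyp j)
          have h4 : p₀ (α i) (y j) ≤ η := (hp0m _ _ (hα (by omega)) _).trans (hyp j)
          have h5 : C₀ * p₀ (α (i + 1)) (y j) ≤ C₀ * η := by gcongr
          have h6 : C₀ * p₀ (α i) (y j) ≤ C₀ * η := by gcongr
          have h7 : |g (i + 1) (y j) - g i (y j)| ≤ |g (i + 1) (y j)| + |g i (y j)| := abs_sub _ _
          linarith
      have e3 : |(g (i + 1) z - g i z) - (-1 : ℝ) ^ i * f (y i)| ≤ N * (2 * C₀ * η) := by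
        have e4 : (-1 : ℝ) ^ i * f (y i) =
            ∑ j ∈ Finset.range N, (if j = i then (-1 : ℝ) ^ i * f (y i) else 0) := by
          rw [Finset.sum_ite_eq' (Finset.range N) i, if_pos hi]
        rw [e1, e4, ← Finset.sum_sub_distrib]
        refine (Finset.abs_sum_le_sum_abs _ _).trans ?_
        refine (Finset.sum_le_sum e2).trans ?_
        simp
      have e5 : |(-1 : ℝ) ^ i * f (y i)| = |f (y i)| := by
        rw [abs_mul, abs_pow, abs_neg, abs_one, one_pow, one_mul]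
      have e6 : |(-1 : ℝ) ^ i * f (y i)| ≤ |g (i + 1) z - g i z| +
          |(g (i + 1) z - g i z) - (-1 : ℝ) ^ i * f (y i)| := by
        have := abs_sub_abs_le_abs_sub ((-1 : ℝ) ^ i * f (y i)) (g (i + 1) z - g i z)
        rw [abs_sub_comm ((-1 : ℝ) ^ i * f (y i)) (g (i + 1) z - g i z)] at this
        linarith
      have e7 := le_abs_self (f (y i))
      rw [e5] at e6
      linarith
    have h1 : ‖∑ j ∈ Finset.range N, y j‖ = ∑ j ∈ Finset.range N, f (y j) := by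
      rw [← map_sum, hf2]
      rfl
    rw [h1]
    refine (Finset.sum_le_sum key).trans ?_
    rw [Finset.sum_add_distrib, Finset.sum_const, Finset.card_range, nsmul_eq_mul]

end Core

end Pool.Agent.Helper358.BM
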