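import Pool.Agent.Helper358.BN2
import Pool.Agent.Helper358.BM8

/-!
Assembly of the general theorem: a bounded biorthogonal system indexed by lists and a chain of
seminorms such that siblings can be merged give infinite Banach-Mazur diameter.
-/

set_option autoImplicit false

namespace Pool.Agent.Helper358.BM

open Filter Topology Set Cardinal

universe u

/-- There are renormings of `X` at arbitrarily large Banach-Mazur distance. -/
def Far (X : Type u) [NormedAddCommGroup X] [NormedSpace ℝ X] : Prop :=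
  ∀ M : ℝ, ∃ (Y Z : Type u) (_ : NormedAddCommGroup Y) (_ : NormedSpace ℝ Y) (_ : CompleteSpace Y)
      (_ : NormedAddCommGroup Z) (_ : NormedSpace ℝ Z) (_ : CompleteSpace Z),
      Nonempty (X ≃L[ℝ] Y) ∧ Nonempty (X ≃L[ℝ] Z) ∧
      ∀ T : Y ≃L[ℝ] Z, M ≤ ‖(T : Y →L[ℝ] Z)‖ * ‖(T.symm : Z →L[ℝ] Y)‖

section BranchLemmas

variable {I : Type u}

theorem Branch.succ {t t' : ℕ → List I} (h : Branch t t') (n : ℕ) : ∃ i, t (n + 1) = i :: t n := by
  obtain ⟨a, b, _, h1, _⟩ := h.step n
  exact ⟨a, h1⟩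

theorem Branch.sib_ne {t t' : ℕ → List I} (h : Branch t t') (n : ℕ) (s : List I)
    (h1 : t (n + 1) <:+ s) (h2 : t' (n + 1) <:+ s) : False := by
  obtain ⟨a, b, hab, e1, e2⟩ := h.step n
  have h3 : (t (n + 1)).length = (t' (n + 1)).length := by rw [e1, e2]; rfl
  have h4 : t (n + 1) = t' (n + 1) := by
    have h5 := List.suffix_of_suffix_length_le h1 h2 h3.le
    exact h5.eq_of_length h3
  rw [e1, e2] at h4
  exact hab (List.cons.inj h4).1

theorem Branch.sib_par {t t' : ℕ → List I} (h : Branch t t') (n : ℕ) (s : List I)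
    (h2 : t' (n + 1) <:+ s) : t n <:+ s := by
  obtain ⟨a, b, _, _, e2⟩ := h.step n
  rw [e2] at h2
  exact (List.suffix_cons b (t n)).trans h2

theorem Branch.sib_uniq {t t' : ℕ → List I} (h : Branch t t') {m n : ℕ} (hmn : m < n) (s : List I)
    (h1 : t' (m + 1) <:+ s) (h2 : t' (n + 1) <:+ s) : False := by
  have h3 := h.sib_par n s h2
  have h4 : t (m + 1) <:+ t n := suffix_branch h.succ hmn
  exact h.sib_ne m s (h4.trans h3) h1

open Classical in
theorem Branch.abs_sib_sum {t t' : ℕ → List I} (h : Branch t t') (s : List I) (N : ℕ) :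
    |∑ j ∈ Finset.range N, (-1 : ℝ) ^ j * (if t' (j + 1) <:+ s then 1 else 0)| ≤ 1 := by
  by_cases hex : ∃ j, t' (j + 1) <:+ s
  · obtain ⟨m, hm⟩ := hex
    have hu : ∀ j, j ≠ m → ¬ t' (j + 1) <:+ s := by
      intro j hj hj'
      rcases lt_or_gt_of_ne hj with h1 | h1
      · exact h.sib_uniq h1 s hj' hm
      · exact h.sib_uniq h1 s hm hj'
    by_cases hmN : m ∈ Finset.range N
    · rw [Finset.sum_eq_single_of_mem m hmN]
      · rw [if_pos hm, mul_one, abs_pow, abs_neg, abs_one, one_pow]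
      · intro j _ hj
        rw [if_neg (hu j hj), mul_zero]
    · rw [Finset.sum_eq_zero]
      · simp
      · intro j hj
        have : j ≠ m := fun h => hmN (h ▸ hj)
        rw [if_neg (hu j this), mul_zero]
  · push Not at hex
    rw [Finset.sum_eq_zero]
    · simp
    · intro j _
      rw [if_neg (hex j), mul_zero]

end BranchLemmas

section Far

variable {X : Type u} [NormedAddCommGroup X] [NormedSpace ℝ X]

theorem far2 [CompleteSpace X] [Nontrivial X] {I J : Type u} [LinearOrder J]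
    {v : List I → X} {w : List I → StrongDual ℝ X} {D : ℝ} (hD : 0 ≤ D)
    (hv : ∀ t, ‖v t‖ ≤ 1) (hw : ∀ t x, |w t x| ≤ D * ‖x‖) (hvw1 : ∀ t, w t (v t) = 1)
    (hvw0 : ∀ t t', t ≠ t' → w t (v t') = 0)
    {p₀ : J → Seminorm ℝ X} (hp0m : ∀ i j, i ≤ j → ∀ x, p₀ i x ≤ p₀ j x)
    (hp0 : ∀ i x, p₀ i x ≤ ‖x‖) {Y₀ : J → Submodule ℝ X} (hY : Monotone Y₀) {C₀ : ℝ}
    (hC₀ : 0 ≤ C₀)
    (hYp : ∀ i, ∀ y ∈ Y₀ i, ‖y‖ ≤ C₀ * p₀ i y)
    (hYd : ∀ x, ∀ η : ℝ, 0 < η → ∃ i, ∃ y ∈ Y₀ i, ‖y - x‖ ≤ η) (i₀ : J)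
    (hpair : ∀ (τ : X →L[ℝ] X) (i : J) (η : ℝ) (t : List I), 0 < η →
      ∃ a b, a ≠ b ∧ p₀ i (τ (v (a :: t) - v (b :: t))) ≤ η) : Far X := by
  classical
  intro M
  obtain ⟨x₀, hx₀⟩ := exists_ne (0 : X)
  set e₀ : X := ‖x₀‖⁻¹ • x₀ with he₀
  have he₀n : ‖e₀‖ = 1 := by
    rw [he₀, norm_smul, norm_inv, norm_norm, inv_mul_cancel₀ (norm_ne_zero_iff.mpr hx₀)]
  -- constants
  set L : ℝ := 2 * max M 1 with hL
  have hLM : 2 * M ≤ L := by rw [hL]; gcongr; exact le_max_left _ _
  have hL1 : 2 ≤ L := by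
    have := le_max_right M 1
    rw [hL]; linarith
  have hL0 : 0 < L := by linarith
  obtain ⟨N, hN⟩ := exists_nat_ge (4 * C₀ * L ^ 2 + 1)
  have hNR : (0 : ℝ) < N := by
    have : 0 ≤ 4 * C₀ * L ^ 2 := by positivity
    linarith
  have hN0 : 0 < N := by exact_mod_cast hNR
  have hN1 : (1 : ℝ) ≤ N := by exact_mod_cast hN0
  -- norms of functionals
  have hWWn : ∀ (t : List I) x, |WW w t x| ≤ t.length * (D * ‖x‖) := by
    intro t x
    induction t with
    | nil => simp [WW]
    | cons i t ih =>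
      have h1 := hw (i :: t) x
      have h2 := abs_add_le (w (i :: t) x) (WW w t x)
      have h3 : WW w (i :: t) x = w (i :: t) x + WW w t x := rfl
      rw [h3, List.length_cons]
      push_cast
      linarith
  -- the first norm
  let φ₁ : Option (List I) → X →L[ℝ] X := fun o => match o with
    | none => (1 / (2 * (N : ℝ))) • ContinuousLinearMap.id ℝ X
    | some t => if t.length ≤ N then (WW w t).smulRight e₀ else 0
  have hφn : ∀ x, φ₁ none x = (1 / (2 * (N : ℝ))) • x := fun x => rfl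
  have hφs : ∀ (t : List I) x, ‖φ₁ (some t) x‖ = if t.length ≤ N then |WW w t x| else 0 := by
    intro t x
    change ‖(if t.length ≤ N then (WW w t).smulRight e₀ else 0 : X →L[ℝ] X) x‖ = _
    split_ifs with h
    · rw [ContinuousLinearMap.smulRight_apply, norm_smul, he₀n, mul_one, Real.norm_eq_abs]
    · simp
  have h2N : 1 / (2 * (N : ℝ)) ≤ 1 := by
    rw [div_le_one (by positivity)]
    linarith
  obtain ⟨Y, iY1, iY2, iY3, e₁, he₁a, he₁b⟩ := exists_renorm φ₁ (1 + N * D) (by
      intro o x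
      have hx := norm_nonneg x
      have hND : 0 ≤ N * D * ‖x‖ := by positivity
      rcases o with _ | t
      · rw [hφn, norm_smul, Real.norm_of_nonneg (by positivity)]
        nlinarith
      · rw [hφs]
        split_ifs with h
        · refine (hWWn t x).trans ?_
          have h1 : (t.length : ℝ) ≤ N := by exact_mod_cast h
          calc (t.length : ℝ) * (D * ‖x‖) ≤ N * (D * ‖x‖) := by gcongr
            _ ≤ _ := by nlinarith
        · positivity) (1 / (2 * (N : ℝ))) (by positivity) none (by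
      intro x
      rw [hφn, norm_smul, Real.norm_of_nonneg (by positivity)])
  -- the second norm
  let S₂ : Type u := Option {c : (ℕ → J) × (ℕ → StrongDual ℝ X) × (ℕ → ℝ) //
    Chain p₀ Y₀ C₀ c.1 c.2.1 ∧ ∀ i, |c.2.2 i| ≤ 1}
  let φ₂ : S₂ → X →L[ℝ] X := fun o => match o with
    | none => ContinuousLinearMap.id ℝ X
    | some c => (((L / N) • ∑ i ∈ Finset.range N, c.1.2.2 i • (c.1.2.1 (i + 1) - c.1.2.1 i) :
        StrongDual ℝ X)).smulRight e₀
  have hφ₂s : ∀ c x, ‖φ₂ (some c) x‖ =
      (L / N) * |∑ i ∈ Finset.range N, c.1.2.2 i * (c.1.2.1 (i + 1) x - c.1.2.1 i x)| := by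
    intro c x
    change ‖(((L / N) • ∑ i ∈ Finset.range N, c.1.2.2 i • (c.1.2.1 (i + 1) - c.1.2.1 i) :
        StrongDual ℝ X)).smulRight e₀ x‖ = _
    rw [ContinuousLinearMap.smulRight_apply, norm_smul, he₀n, mul_one, Real.norm_eq_abs]
    have h1 : ((L / N) • ∑ i ∈ Finset.range N, c.1.2.2 i • (c.1.2.1 (i + 1) - c.1.2.1 i) :
        StrongDual ℝ X) x =
        (L / N) * ∑ i ∈ Finset.range N, c.1.2.2 i * (c.1.2.1 (i + 1) x - c.1.2.1 i x) := by
      rw [smul_apply, sum_apply, smul_eq_mul]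
      rfl
    rw [h1, abs_mul, abs_of_nonneg (by positivity : 0 ≤ L / N)]
  have habs : ∀ (c : {c : (ℕ → J) × (ℕ → StrongDual ℝ X) × (ℕ → ℝ) //
      Chain p₀ Y₀ C₀ c.1 c.2.1 ∧ ∀ i, |c.2.2 i| ≤ 1}) x,
      |∑ i ∈ Finset.range N, c.1.2.2 i * (c.1.2.1 (i + 1) x - c.1.2.1 i x)| ≤
      ∑ i ∈ Finset.range N, |c.1.2.1 (i + 1) x - c.1.2.1 i x| := by
    intro c x
    refine (Finset.abs_sum_le_sum_abs _ _).trans (Finset.sum_le_sum fun i _ => ?_)
    rw [abs_mul]
    calc |c.1.2.2 i| * |c.1.2.1 (i + 1) x - c.1.2.1 i x|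
        ≤ 1 * |c.1.2.1 (i + 1) x - c.1.2.1 i x| := by
          gcongr
          exact c.2.2 i
      _ = _ := one_mul _
  have hC₂ : ∀ o x, ‖φ₂ o x‖ ≤ (1 + 2 * L * C₀) * ‖x‖ := by
    intro o x
    have hx := norm_nonneg x
    have h0 : 0 ≤ 2 * L * C₀ * ‖x‖ := by positivity
    rcases o with _ | c
    · change ‖x‖ ≤ _
      nlinarith
    · rw [hφ₂s]
      have h1 : ∑ i ∈ Finset.range N, |c.1.2.1 (i + 1) x - c.1.2.1 i x| ≤
          N * (2 * C₀ * ‖x‖) := by
        calc ∑ i ∈ Finset.range N, |c.1.2.1 (i + 1) x - c.1.2.1 i x|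
            ≤ ∑ i ∈ Finset.range N, (2 * C₀ * ‖x‖) := by
              apply Finset.sum_le_sum
              intro i _
              have h1 := c.2.1.dom (i + 1) x
              have h2 := c.2.1.dom i x
              have h3 := abs_sub (c.1.2.1 (i + 1) x) (c.1.2.1 i x)
              have h4 : C₀ * p₀ (c.1.1 (i + 1)) x ≤ C₀ * ‖x‖ := by gcongr; exact hp0 _ _
              have h5 : C₀ * p₀ (c.1.1 i) x ≤ C₀ * ‖x‖ := by gcongr; exact hp0 _ _
              linarith
          _ = _ := by simp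
      calc (L / N) * |∑ i ∈ Finset.range N, c.1.2.2 i * (c.1.2.1 (i + 1) x - c.1.2.1 i x)|
          ≤ (L / N) * (N * (2 * C₀ * ‖x‖)) := by
            gcongr
            exact (habs c x).trans h1
        _ = 2 * L * C₀ * ‖x‖ := by field_simp
        _ ≤ _ := by nlinarith
  obtain ⟨Z, iZ1, iZ2, iZ3, e₂, he₂a, he₂b⟩ := exists_renorm φ₂ (1 + 2 * L * C₀) hC₂ 1 one_pos
    none (by
      intro x
      rw [one_mul]
      exact le_rfl)
  refine ⟨Y, Z, iY1, iY2, iY3, iZ1, iZ2, iZ3, ⟨e₁⟩, ⟨e₂⟩, fun T => ?_⟩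
  let τ : X →L[ℝ] X := (e₂.symm : Z →L[ℝ] X).comp ((T : Y →L[ℝ] Z).comp (e₁ : X →L[ℝ] Y))
  have hτ : ∀ x, e₂ (τ x) = T (e₁ x) := fun x => by
    change e₂ (e₂.symm (T (e₁ x))) = _
    exact e₂.apply_symm_apply _
  have hval : ∀ s t : List I, t ≠ [] → WW w s (v t) = if t <:+ s then 1 else 0 := by
    intro s t ht
    rw [WW_apply hvw1 hvw0]
    congr 1
    exact propext ⟨fun h => h.2, fun h => ⟨ht, h⟩⟩
  have hne : ∀ {t t' : ℕ → List I}, Branch t t' → ∀ j, t (j + 1) ≠ [] ∧ t' (j + 1) ≠ [] := by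
    intro t t' hb j
    obtain ⟨a, b, _, h1, h2⟩ := hb.step j
    rw [h1, h2]
    exact ⟨List.cons_ne_nil _ _, List.cons_ne_nil _ _⟩
  have hmain : L ≤ 2 * (‖(T : Y →L[ℝ] Z)‖ * ‖(T.symm : Z →L[ℝ] Y)‖) := by
    apply core2 (v := v) hp0m hp0 hY hC₀ hYp hYd i₀ N hN0 hL0 hN (fun x => ‖e₁ x‖)
      (fun x => ‖e₂ x‖) ?_ ?_ ?_ ?_ ?_ ?_ ?_ (C := 1 + 2 * L * C₀) (by positivity) ?_ τ
      (norm_nonneg _) (norm_nonneg _) ?_ ?_ (hpair τ)
    · intro t t' hb
      refine le_trans ?_ (he₁a _ (some (t N)))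
      rw [hφs, if_pos (length_branch hb.zero hb.succ N).le, map_sum]
      have h1 : ∑ j ∈ Finset.range N, WW w (t N) (v (t (j + 1)) - v (t' (j + 1))) = N := by
        rw [Finset.sum_congr rfl (g := fun _ => (1 : ℝ))]
        · simp
        · intro j hj
          have h2 : t (j + 1) <:+ t N := suffix_branch hb.succ (Finset.mem_range.mp hj)
          rw [map_sub, hval _ _ (hne hb j).1, hval _ _ (hne hb j).2, if_pos h2,
            if_neg (fun h3 => hb.sib_ne j _ h2 h3), sub_zero]
      rw [h1]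
      exact le_abs_self _
    · intro t t' hb
      apply he₁b _ _ zero_le_two
      intro o
      rcases o with _ | s
      · rw [hφn, norm_smul, Real.norm_of_nonneg (by positivity)]
        have h1 : ‖∑ j ∈ Finset.range N, (-1 : ℝ) ^ j • (v (t (j + 1)) - v (t' (j + 1)))‖ ≤
            2 * N := by
          refine (norm_sum_le _ _).trans ?_
          calc ∑ j ∈ Finset.range N, ‖(-1 : ℝ) ^ j • (v (t (j + 1)) - v (t' (j + 1)))‖
              ≤ ∑ j ∈ Finset.range N, (2 : ℝ) := by
                apply Finset.sum_le_sum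
                intro j _
                rw [norm_smul, norm_pow, norm_neg, norm_one, one_pow, one_mul]
                have h2 := norm_sub_le (v (t (j + 1))) (v (t' (j + 1)))
                have h3 := hv (t (j + 1))
                have h4 := hv (t' (j + 1))
                linarith
            _ = 2 * N := by simp [mul_comm]
        calc 1 / (2 * (N : ℝ)) *
              ‖∑ j ∈ Finset.range N, (-1 : ℝ) ^ j • (v (t (j + 1)) - v (t' (j + 1)))‖
            ≤ 1 / (2 * (N : ℝ)) * (2 * N) := by gcongr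
          _ = 1 := by field_simp
          _ ≤ 2 := by norm_num
      · rw [hφs]
        split_ifs with h
        · rw [map_sum]
          simp only [map_smul, smul_eq_mul, map_sub]
          have h1 : ∑ j ∈ Finset.range N, (-1 : ℝ) ^ j *
                (WW w s (v (t (j + 1))) - WW w s (v (t' (j + 1)))) =
              (∑ j ∈ Finset.range N, (-1 : ℝ) ^ j * (if t (j + 1) <:+ s then 1 else 0)) -
              ∑ j ∈ Finset.range N, (-1 : ℝ) ^ j * (if t' (j + 1) <:+ s then 1 else 0) := by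
            rw [← Finset.sum_sub_distrib]
            apply Finset.sum_congr rfl
            intro j _
            rw [hval _ _ (hne hb j).1, hval _ _ (hne hb j).2]
            ring
          rw [h1]
          have h2 := abs_alt_sum_ite (fun j => t (j + 1) <:+ s)
            (fun j h => (suffix_branch hb.succ (Nat.le_succ _)).trans h) N
          have h3 := hb.abs_sib_sum s N
          have h4 := abs_sub
            (∑ j ∈ Finset.range N, (-1 : ℝ) ^ j * (if t (j + 1) <:+ s then 1 else 0))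
            (∑ j ∈ Finset.range N, (-1 : ℝ) ^ j * (if t' (j + 1) <:+ s then 1 else 0))
          linarith
        · exact zero_le_two
    · intro t a b
      apply he₁b _ _ zero_le_two
      intro o
      rcases o with _ | s
      · rw [hφn, norm_smul, Real.norm_of_nonneg (by positivity)]
        have h2 := norm_sub_le (v (a :: t)) (v (b :: t))
        have h3 := hv (a :: t)
        have h4 := hv (b :: t)
        calc 1 / (2 * (N : ℝ)) * ‖v (a :: t) - v (b :: t)‖ ≤ 1 * 2 := by
              gcongr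
              linarith
          _ = 2 := one_mul 2
      · rw [hφs]
        split_ifs with h
        · rw [map_sub, hval _ _ (List.cons_ne_nil _ _), hval _ _ (List.cons_ne_nil _ _)]
          split_ifs <;> norm_num
        · exact zero_le_two
    · intro x y
      simp only [map_add]
      exact norm_add_le _ _
    · intro x
      exact he₂a x none
    · intro β g hc x
      have h1 := he₂a x (some ⟨(β, g, fun i => if 0 ≤ g (i + 1) x - g i x then 1 else -1), hc,
        fun i => by
          simp only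
          split_ifs <;> simp⟩)
      rw [hφ₂s] at h1
      have h2 : ∑ i ∈ Finset.range N, (if 0 ≤ g (i + 1) x - g i x then (1 : ℝ) else -1) *
          (g (i + 1) x - g i x) = ∑ i ∈ Finset.range N, |g (i + 1) x - g i x| := by
        apply Finset.sum_congr rfl
        intro i _
        split_ifs with h
        · rw [one_mul, abs_of_nonneg h]
        · rw [abs_of_neg (not_le.mp h)]
          ring
      simp only at h1
      rw [h2, abs_of_nonneg (Finset.sum_nonneg fun i _ => abs_nonneg _)] at h1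
      exact h1
    · intro x r hr hx h
      apply he₂b x r hr
      intro o
      rcases o with _ | c
      · exact hx
      · rw [hφ₂s]
        refine le_trans ?_ (h _ _ c.2.1)
        gcongr
        exact habs c x
    · intro x
      exact he₂b x _ (by positivity) (fun o => hC₂ o x)
    · intro x
      simp only [hτ]
      exact (T : Y →L[ℝ] Z).le_opNorm _
    · intro x
      simp only [hτ]
      have h1 := (T.symm : Z →L[ℝ] Y).le_opNorm (T (e₁ x))
      have h2 : (T.symm : Z →L[ℝ] Y) (T (e₁ x)) = e₁ x := T.symm_apply_apply _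
      rwa [h2] at h1
  linarith

end Far

end Pool.Agent.Helper358.BM
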