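import Pool.Agent.Helper358.BP1
import Pool.Agent.Helper358.BN3

/-!
The general core estimate over the real or complex field.
-/

set_option autoImplicit false

namespace Pool.Agent.Helper358.BP

open Filter Topology Set Cardinal
open BM (Branch)

universe u

variable {𝕜 : Type} [RCLike 𝕜]

section Core

variable {X : Type u} [NormedAddCommGroup X] [NormedSpace 𝕜 X] {I J : Type u} [LinearOrder J]

/-- The general core estimate, for two functions `p`, `q` on `X` (the two new norms). -/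
theorem core3 {v : List I → X}
    {p₀ : J → Seminorm 𝕜 X} (hp0m : ∀ i j, i ≤ j → ∀ x, p₀ i x ≤ p₀ j x)
    (hp0 : ∀ i x, p₀ i x ≤ ‖x‖) {Y : J → Submodule 𝕜 X} (hY : Monotone Y) {C₀ : ℝ} (hC₀ : 0 ≤ C₀)
    (hYp : ∀ i, ∀ y ∈ Y i, ‖y‖ ≤ C₀ * p₀ i y)
    (i₀ : J) (N : ℕ) (hN0 : 0 < N) {L : ℝ} (hL : 0 < L)
    (hN : 4 * C₀ * L ^ 2 + 1 ≤ N) {K : ℝ} (hK : 0 ≤ K) (p q : X → ℝ)
    (hp1 : ∀ t t' : ℕ → List I, Branch t t' →
      (N : ℝ) ≤ p (∑ j ∈ Finset.range N, (v (t (j + 1)) - v (t' (j + 1)))))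
    (hp2 : ∀ t t' : ℕ → List I, Branch t t' →
      p (∑ j ∈ Finset.range N, (-1 : 𝕜) ^ j • (v (t (j + 1)) - v (t' (j + 1)))) ≤ K)
    (hp3 : ∀ (t : List I) (a b : I), p (v (a :: t) - v (b :: t)) ≤ K)
    (hqadd : ∀ x y, q (x + y) ≤ q x + q y)
    (hq0 : ∀ x, ‖x‖ ≤ q x)
    (hq1 : ∀ (β : ℕ → J) (g : ℕ → StrongDual 𝕜 X), Chain p₀ Y C₀ β g → ∀ x,
      (L / N) * ∑ i ∈ Finset.range N, ‖g (i + 1) x - g i x‖ ≤ q x)
    (hq2 : ∀ x r, 0 ≤ r → ‖x‖ ≤ r → (∀ (β : ℕ → J) (g : ℕ → StrongDual 𝕜 X), Chain p₀ Y C₀ β g →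
      (L / N) * ∑ i ∈ Finset.range N, ‖g (i + 1) x - g i x‖ ≤ r) → q x ≤ r)
    {C : ℝ} (hC : 0 ≤ C) (hq3 : ∀ x, q x ≤ C * ‖x‖)
    (τ : X →L[𝕜] X) {A B : ℝ} (hA0 : 0 ≤ A) (hB0 : 0 ≤ B)
    (hτ1 : ∀ x, q (τ x) ≤ B * p x) (hτ2 : ∀ x, p x ≤ A * q (τ x))
    {η : ℝ} (hηpos : 0 < η)
    (hsmall : A * (C * N + 4 * L * N * C₀ + L * C + 4 * L * C₀) * η < 1)
    (hpair : ∀ (i : J) (t : List I), ∃ a b, a ≠ b ∧
      p₀ i (τ (v (a :: t) - v (b :: t))) ≤ η ∧
      ∃ i', ∃ y ∈ Y i', ‖y - τ (v (a :: t) - v (b :: t))‖ ≤ η)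
    (hBA : K * (B * A) + 1 ≤ L) : False := by
  have hNR : (0 : ℝ) < N := by exact_mod_cast hN0
  -- one step of the branch
  have step : ∀ s : List I × J, ∃ s' : (I × I) × (J × X), s'.1.1 ≠ s'.1.2 ∧ s.2 ≤ s'.2.1 ∧
      p₀ s.2 (τ (v (s'.1.1 :: s.1) - v (s'.1.2 :: s.1))) ≤ η ∧ s'.2.2 ∈ Y s'.2.1 ∧
      ‖s'.2.2 - τ (v (s'.1.1 :: s.1) - v (s'.1.2 :: s.1))‖ ≤ η := by
    rintro ⟨t, α⟩
    obtain ⟨a, b, hab, h0, α', y, hy, hy'⟩ := hpair α t
    exact ⟨((a, b), (max α α', y)), hab, le_max_left _ _, h0, hY (le_max_right _ _) hy, hy'⟩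
  choose nx hnx0 hnx1 hnx2 hnx3 hnx4 using step
  let st : ℕ → List I × J := fun n =>
    Nat.rec ([], i₀) (fun _ s => ((nx s).1.1 :: s.1, (nx s).2.1)) n
  have hst0 : st 0 = ([], i₀) := rfl
  have hst1 : ∀ n, st (n + 1) = ((nx (st n)).1.1 :: (st n).1, (nx (st n)).2.1) := fun n => rfl
  let t : ℕ → List I := fun n => (st n).1
  let t' : ℕ → List I := fun n => Nat.rec [] (fun m _ => (nx (st m)).1.2 :: (st m).1) n
  let α : ℕ → J := fun n => (st n).2
  have hbr : Branch t t' := ⟨rfl, fun n => ⟨(nx (st n)).1.1, (nx (st n)).1.2, hnx0 _, rfl, rfl⟩⟩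
  have hαm : Monotone α := monotone_nat_of_le_succ fun n => hnx1 (st n)
  let x : ℕ → X := fun j => v (t (j + 1)) - v (t' (j + 1))
  let y : ℕ → X := fun j => τ (x j)
  let y' : ℕ → X := fun j => (nx (st j)).2.2
  have hyη : ∀ j, ‖y' j - y j‖ ≤ η := fun j => hnx4 (st j)
  have hyY : ∀ j, y' j ∈ Y (α (j + 1)) := fun j => hnx3 (st j)
  have hyp0 : ∀ j, p₀ (α j) (y j) ≤ η := fun j => hnx2 (st j)
  have hyp : ∀ j, p₀ (α j) (y' j) ≤ 2 * η := by
    intro j
    have h1 := map_add_le_add (p₀ (α j)) (y j) (y' j - y j)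
    rw [add_sub_cancel] at h1
    have h2 := hp0 (α j) (y' j - y j)
    have h3 := hyp0 j
    have h4 := hyη j
    linarith
  have hyB : ∀ j, ‖y j‖ ≤ K * B := by
    intro j
    have h1 := hτ1 (x j)
    have h2 : p (x j) ≤ K := hp3 _ _ _
    calc ‖y j‖ ≤ q (τ (x j)) := hq0 _
      _ ≤ B * p (x j) := h1
      _ ≤ B * K := by gcongr
      _ = K * B := by ring
  have hy'B : ∀ j, ‖y' j‖ ≤ K * B + η := by
    intro j
    have h1 := norm_add_le (y j) (y' j - y j)
    rw [add_sub_cancel] at h1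
    have h2 := hyB j
    have h3 := hyη j
    linarith
  -- error estimate
  have herr : ∀ a : ℕ → 𝕜, (∀ j, ‖a j‖ ≤ 1) →
      ‖(∑ j ∈ Finset.range N, a j • y j) - ∑ j ∈ Finset.range N, a j • y' j‖ ≤ N * η := by
    intro a ha
    rw [← Finset.sum_sub_distrib]
    refine (norm_sum_le _ _).trans ?_
    calc ∑ j ∈ Finset.range N, ‖a j • y j - a j • y' j‖ ≤ ∑ j ∈ Finset.range N, η := by
          apply Finset.sum_le_sum
          intro j _
          rw [← smul_sub, norm_smul, norm_sub_rev]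
          calc ‖a j‖ * ‖y' j - y j‖ ≤ 1 * η := by
                gcongr
                · exact ha j
                · exact hyη j
            _ = η := one_mul η
      _ = N * η := by simp
  have hqerr : ∀ x z : X, q x ≤ q z + C * ‖x - z‖ := by
    intro x z
    have h1 := hqadd z (x - z)
    rw [add_sub_cancel] at h1
    have h2 := hq3 (x - z)
    linarith
  set u' : X := ∑ j ∈ Finset.range N, y' j with hu'
  -- the slow vector
  have hslow : (N : ℝ) ≤ A * (q u' + C * (N * η)) := by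
    have h1 := hp1 t t' hbr
    have h2 := hτ2 (∑ j ∈ Finset.range N, (v (t (j + 1)) - v (t' (j + 1))))
    rw [map_sum] at h2
    have h3 := hqerr (∑ j ∈ Finset.range N, y j) u'
    have h4 := herr (fun _ => 1) (fun _ => by simp)
    simp only [one_smul] at h4
    calc (N : ℝ) ≤ A * q (∑ j ∈ Finset.range N, y j) := h1.trans h2
      _ ≤ A * (q u' + C * ‖(∑ j ∈ Finset.range N, y j) - u'‖) := by gcongr
      _ ≤ A * (q u' + C * (N * η)) := by gcongr
  -- its norm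
  have hq_u' : q u' ≤ max ‖u'‖ (4 * L * N * C₀ * η + 4 * L * C₀ * (K * B + η)) := by
    apply hq2
    · exact le_max_of_le_left (norm_nonneg _)
    · exact le_max_left _ _
    · intro β g hc
      refine le_trans ?_ (le_max_right _ _)
      have h1 := chain_slow hp0m hp0 hY hC₀ N hαm hc (b := K * B + η) (η := 2 * η)
        (by positivity) (by positivity) hy'B hyp hyY
      calc (L / N) * ∑ i ∈ Finset.range N, ‖g (i + 1) u' - g i u'‖
          ≤ (L / N) * (N * N * (2 * C₀ * (2 * η)) + 2 * N * (2 * C₀ * (K * B + η))) := by gcongr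
        _ = 4 * L * N * C₀ * η + 4 * L * C₀ * (K * B + η) := by field_simp; ring
  -- the alternating vector
  have halt : L * ‖u'‖ ≤ N * (K * B + C * (N * η)) + L * (N * (N * (4 * C₀ * η))) := by
    set z : X := ∑ j ∈ Finset.range N, (-1 : 𝕜) ^ j • y' j with hz
    obtain ⟨g, hg, hg'⟩ := chain_alt hp0m hp0 hY hC₀ hYp N hαm (η := 2 * η) (by positivity)
      hyp hyY
    have h1 := hq1 α g hg z
    have h3 := hqerr z (∑ j ∈ Finset.range N, (-1 : 𝕜) ^ j • y j)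
    have h4 := herr (fun j => (-1 : 𝕜) ^ j) (fun j => by
      rw [norm_pow, norm_neg, norm_one, one_pow])
    rw [norm_sub_rev] at h4
    have h5 := hτ1 (∑ j ∈ Finset.range N, (-1 : 𝕜) ^ j • (v (t (j + 1)) - v (t' (j + 1))))
    have h6 := hp2 t t' hbr
    rw [map_sum] at h5
    simp only [map_smul] at h5
    have h7 : q z ≤ K * B + C * (N * η) := by
      calc q z ≤ q (∑ j ∈ Finset.range N, (-1 : 𝕜) ^ j • y j) +
            C * ‖z - ∑ j ∈ Finset.range N, (-1 : 𝕜) ^ j • y j‖ := h3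
        _ ≤ B * p (∑ j ∈ Finset.range N, (-1 : 𝕜) ^ j • (v (t (j + 1)) - v (t' (j + 1)))) +
            C * (N * η) := by gcongr
        _ ≤ B * K + C * (N * η) := by gcongr
        _ = _ := by ring
    have h8 := h1.trans h7
    rw [div_mul_eq_mul_div, div_le_iff₀ hNR] at h8
    have h9 : L * ‖u'‖ ≤ L * ((∑ i ∈ Finset.range N, ‖g (i + 1) z - g i z‖) +
        N * (N * (2 * C₀ * (2 * η)))) := by gcongr
    calc L * ‖u'‖ ≤ _ := h9
      _ = L * (∑ i ∈ Finset.range N, ‖g (i + 1) z - g i z‖) + L * (N * (N * (4 * C₀ * η))) := by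
          ring
      _ ≤ (K * B + C * (N * η)) * N + L * (N * (N * (4 * C₀ * η))) := by gcongr
      _ = _ := by ring
  -- conclusion
  have hpos1 : 0 ≤ A * (C * N) * η := by positivity
  have hpos2 : 0 ≤ A * (4 * L * N * C₀) * η := by positivity
  have hpos3 : 0 ≤ A * (L * C) * η := by positivity
  have hpos4 : 0 ≤ A * (4 * L * C₀) * η := by positivity
  rcases le_total ‖u'‖ (4 * L * N * C₀ * η + 4 * L * C₀ * (K * B + η)) with hcase | hcase
  · rw [max_eq_right hcase] at hq_u'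
    have h1 : (N : ℝ) ≤ A * (4 * L * N * C₀ * η + 4 * L * C₀ * (K * B + η) + C * (N * η)) :=
      hslow.trans (by gcongr)
    have h2 : A * (4 * L * N * C₀ * η + 4 * L * C₀ * (K * B + η) + C * (N * η)) =
      4 * C₀ * L * (K * (B * A)) + (A * (C * N) * η + A * (4 * L * N * C₀) * η +
        A * (4 * L * C₀) * η) := by ring
    have h4 : 4 * C₀ * L * (K * (B * A)) ≤ 4 * C₀ * L * L := by
      gcongr
      linarith
    have h5 : A * (C * N + 4 * L * N * C₀ + L * C + 4 * L * C₀) * η = (A * (C * N) * η +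
        A * (4 * L * N * C₀) * η + A * (4 * L * C₀) * η) + A * (L * C) * η := by ring
    nlinarith
  · rw [max_eq_left hcase] at hq_u'
    have h1 : (N : ℝ) ≤ A * (‖u'‖ + C * (N * η)) := hslow.trans (by gcongr)
    have h2 : L * N ≤ A * (L * ‖u'‖) + L * (A * C * N * η) := by
      calc L * N ≤ L * (A * (‖u'‖ + C * (N * η))) := by gcongr
        _ = _ := by ring
    have h3 : A * (L * ‖u'‖) ≤
        A * (N * (K * B + C * (N * η)) + L * (N * (N * (4 * C₀ * η)))) := by gcongr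
    have h4 : N * L ≤ N * (K * (B * A) + A * (C * N + 4 * L * N * C₀ + L * C) * η) := by
      nlinarith
    have h5 : L ≤ K * (B * A) + A * (C * N + 4 * L * N * C₀ + L * C) * η :=
      le_of_mul_le_mul_left h4 hNR
    have h6 : A * (C * N + 4 * L * N * C₀ + L * C + 4 * L * C₀) * η =
        A * (C * N + 4 * L * N * C₀ + L * C) * η + A * (4 * L * C₀) * η := by ring
    linarith

end Core

end Pool.Agent.Helper358.BP
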