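import Pool.Agent.Helper358.BP2

/-!
Renormings, summing functionals along a tree, suprema of functionals.
-/

set_option autoImplicit false

namespace Pool.Agent.Helper358.BP

open Filter Topology Set Cardinal
open BM (Branch)

universe u

variable {𝕜 : Type} [RCLike 𝕜]

section Renorm

variable {X : Type u} [NormedAddCommGroup X] [NormedSpace 𝕜 X]

/-- The norm `sup_s ‖φ s x‖` is realised by a Banach space isomorphic to `X`. -/
theorem exists_renorm [CompleteSpace X] {S : Type u} (φ : S → X →L[𝕜] X) (C : ℝ)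
    (hC : ∀ s x, ‖φ s x‖ ≤ C * ‖x‖) (c : ℝ) (hc0 : 0 < c) (s₀ : S)
    (hc : ∀ x, c * ‖x‖ ≤ ‖φ s₀ x‖) :
    ∃ (Y : Type u) (_ : NormedAddCommGroup Y) (_ : NormedSpace 𝕜 Y) (_ : CompleteSpace Y)
      (e : X ≃L[𝕜] Y), (∀ x s, ‖φ s x‖ ≤ ‖e x‖) ∧
        (∀ x r, 0 ≤ r → (∀ s, ‖φ s x‖ ≤ r) → ‖e x‖ ≤ r) := by
  have hmem : ∀ x, Memℓp (fun s => φ s x) ⊤ := fun x =>
    memℓp_infty ⟨C * ‖x‖, by rintro _ ⟨s, rfl⟩; exact hC s x⟩
  let Φ₀ : X →ₗ[𝕜] lp (fun _ : S => X) ⊤ :=
    { toFun := fun x => ⟨fun s => φ s x, hmem x⟩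
      map_add' := fun x y => by
        ext s
        exact map_add (φ s) x y
      map_smul' := fun r x => by
        ext s
        exact map_smul (φ s) r x }
  have hΦ₀ : ∀ x s, (Φ₀ x : ∀ s, X) s = φ s x := fun x s => rfl
  have hC0 : ∀ x, 0 ≤ C * ‖x‖ := fun x => (norm_nonneg _).trans (hC s₀ x)
  let Φ : X →L[𝕜] lp (fun _ : S => X) ⊤ := Φ₀.mkContinuous C (fun x =>
    lp.norm_le_of_forall_le (hC0 x) (fun s => hC s x))
  have hΦ : ∀ x s, (Φ x : ∀ s, X) s = φ s x := fun x s => rfl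
  have hle : ∀ x s, ‖φ s x‖ ≤ ‖Φ x‖ := fun x s => by
    rw [← hΦ]
    exact lp.norm_apply_le_norm ENNReal.top_ne_zero (Φ x) s
  have hanti : AntilipschitzWith (Real.toNNReal c⁻¹) Φ := by
    apply AddMonoidHomClass.antilipschitz_of_bound
    intro x
    rw [Real.coe_toNNReal _ (by positivity)]
    have h1 := (hc x).trans (hle x s₀)
    rw [inv_mul_eq_div, le_div_iff₀ hc0]
    linarith
  have hcl : IsClosed (range Φ) := hanti.isClosed_range Φ.uniformContinuous
  have hinj : Function.Injective Φ := hanti.injective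
  have hcl' : IsClosed ((LinearMap.range (Φ : X →ₗ[𝕜] lp (fun _ : S => X) ⊤) :
      Submodule 𝕜 (lp (fun _ : S => X) ⊤)) : Set (lp (fun _ : S => X) ⊤)) := hcl
  have hcomp : CompleteSpace (LinearMap.range (Φ : X →ₗ[𝕜] lp (fun _ : S => X) ⊤)) :=
    hcl'.completeSpace_coe
  refine ⟨LinearMap.range (Φ : X →ₗ[𝕜] lp (fun _ : S => X) ⊤), inferInstance, inferInstance, hcomp,
    Φ.equivRange hinj hcl, ?_, ?_⟩
  · intro x s
    exact hle x s
  · intro x r hr h
    exact lp.norm_le_of_forall_le hr h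

end Renorm

section Phase

theorem exists_phase (z : 𝕜) : ∃ c : 𝕜, ‖c‖ ≤ 1 ∧ c * z = (‖z‖ : 𝕜) := by
  by_cases hz : z = 0
  · exact ⟨1, by simp, by simp [hz]⟩
  · refine ⟨(‖z‖ : 𝕜) / z, ?_, ?_⟩
    · rw [norm_div]
      simp [norm_ne_zero_iff.mpr hz]
    · field_simp

end Phase

section Sup

variable {X : Type u} [NormedAddCommGroup X] [NormedSpace 𝕜 X]

theorem bdd_sup {G : Set (StrongDual 𝕜 X)} (hG : ∀ g ∈ G, ‖g‖ ≤ 1) (x : X) :
    BddAbove (range fun g : G => ‖g.1 x‖) := by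
  refine ⟨‖x‖, ?_⟩
  rintro _ ⟨g, rfl⟩
  calc ‖g.1 x‖ ≤ ‖g.1‖ * ‖x‖ := g.1.le_opNorm x
    _ ≤ 1 * ‖x‖ := by gcongr; exact hG g.1 g.2
    _ = ‖x‖ := one_mul _

/-- The supremum of a set of contractive functionals. -/
noncomputable def supSemi (G : Set (StrongDual 𝕜 X)) (hG : ∀ g ∈ G, ‖g‖ ≤ 1) : Seminorm 𝕜 X :=
  Seminorm.ofSMulLE (fun x => ⨆ g : G, ‖g.1 x‖) (by simp)
    (fun x y => by
      apply Real.iSup_le
      · intro g
        rw [map_add]
        refine (norm_add_le _ _).trans ?_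
        exact add_le_add (le_ciSup (bdd_sup hG x) g) (le_ciSup (bdd_sup hG y) g)
      · exact add_nonneg (Real.iSup_nonneg fun g => norm_nonneg _)
          (Real.iSup_nonneg fun g => norm_nonneg _))
    (fun a x => by
      apply Real.iSup_le
      · intro g
        rw [map_smul, norm_smul]
        gcongr
        exact le_ciSup (bdd_sup hG x) g
      · exact mul_nonneg (norm_nonneg _) (Real.iSup_nonneg fun g => norm_nonneg _))

theorem le_supSemi {G : Set (StrongDual 𝕜 X)} (hG : ∀ g ∈ G, ‖g‖ ≤ 1) {g : StrongDual 𝕜 X}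
    (hg : g ∈ G) (x : X) : ‖g x‖ ≤ supSemi G hG x :=
  le_ciSup (bdd_sup hG x) (⟨g, hg⟩ : G)

theorem supSemi_le {G : Set (StrongDual 𝕜 X)} (hG : ∀ g ∈ G, ‖g‖ ≤ 1) {x : X} {r : ℝ}
    (hr : 0 ≤ r) (h : ∀ g ∈ G, ‖g x‖ ≤ r) : supSemi G hG x ≤ r :=
  Real.iSup_le (fun g => h g.1 g.2) hr

theorem supSemi_le_norm {G : Set (StrongDual 𝕜 X)} (hG : ∀ g ∈ G, ‖g‖ ≤ 1) (x : X) :
    supSemi G hG x ≤ ‖x‖ := by
  apply supSemi_le hG (norm_nonneg _)
  intro g hg
  calc ‖g x‖ ≤ ‖g‖ * ‖x‖ := g.le_opNorm x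
    _ ≤ 1 * ‖x‖ := by gcongr; exact hG g hg
    _ = ‖x‖ := one_mul _

theorem supSemi_mono {G G' : Set (StrongDual 𝕜 X)} (hG : ∀ g ∈ G, ‖g‖ ≤ 1)
    (hG' : ∀ g ∈ G', ‖g‖ ≤ 1) (h : G ⊆ G') (x : X) : supSemi G hG x ≤ supSemi G' hG' x :=
  supSemi_le hG (apply_nonneg _ _) (fun _ hg => le_supSemi hG' (h hg) x)

end Sup

section TreeFun

variable {X : Type u} [NormedAddCommGroup X] [NormedSpace 𝕜 X] {I : Type u}

/-- Summing functionals: the sum over all nonempty final segments of the list. -/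
noncomputable def WW (w : List I → StrongDual 𝕜 X) : List I → StrongDual 𝕜 X
  | [] => 0
  | i :: t => w (i :: t) + WW w t

theorem WW_norm {w : List I → StrongDual 𝕜 X} {D : ℝ} (hw : ∀ t x, ‖w t x‖ ≤ D * ‖x‖)
    (t : List I) (x : X) : ‖WW w t x‖ ≤ t.length * (D * ‖x‖) := by
  induction t with
  | nil => simp [WW]
  | cons i t ih =>
    have h1 := hw (i :: t) x
    have h2 := norm_add_le (w (i :: t) x) (WW w t x)
    have h3 : WW w (i :: t) x = w (i :: t) x + WW w t x := rfl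
    rw [h3, List.length_cons]
    push_cast
    linarith

open Classical in
theorem WW_approx {w : List I → StrongDual 𝕜 X} {v : List I → X} {δ : ℝ} (hδ : 0 ≤ δ)
    (hb1 : ∀ t, w t (v t) = 1) (hb0 : ∀ t t', t ≠ t' → ‖w t (v t')‖ ≤ δ) (s t : List I)
    (ht : t ≠ []) : ‖WW w s (v t) - (if t <:+ s then 1 else 0)‖ ≤ s.length * δ := by
  induction s with
  | nil =>
    rw [if_neg]
    · simp [WW]
    · intro h2
      exact ht (List.suffix_nil.mp h2)
  | cons i s ih =>
    have h3 : WW w (i :: s) (v t) = w (i :: s) (v t) + WW w s (v t) := rfl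
    rw [List.length_cons]
    push_cast
    by_cases h : i :: s = t
    · subst h
      have h4 : ¬ (i :: s <:+ s) := by
        intro h5
        have := h5.length_le
        simp at this
      rw [if_neg h4, sub_zero] at ih
      rw [h3, hb1, if_pos List.suffix_rfl, add_sub_cancel_left]
      linarith
    · have h5 : (t <:+ i :: s) = (t <:+ s) := by
        rw [List.suffix_cons_iff]
        apply propext
        constructor
        · rintro (h2 | h2)
          · exact absurd h2.symm h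
          · exact h2
        · exact Or.inr
      rw [h3, add_sub_assoc]
      simp only [h5]
      have h6 := norm_add_le (w (i :: s) (v t)) (WW w s (v t) - (if t <:+ s then 1 else 0))
      have h7 := hb0 _ _ h
      linarith

end TreeFun

end Pool.Agent.Helper358.BP
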