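import Pool.Agent.Helper358.BP3

/-!
Estimates for summing functionals on a tree which is almost biorthogonal.
-/

set_option autoImplicit false

namespace Pool.Agent.Helper358.BP

open Filter Topology Set Cardinal
open BM (Branch)

universe u

variable {𝕜 : Type} [RCLike 𝕜]

section Ind

variable {I : Type u}

open Classical in
/-- The indicator of being a final segment. -/
noncomputable def ind (t s : List I) : ℝ := if t <:+ s then 1 else 0

theorem ind_pos {t s : List I} (h : t <:+ s) : ind t s = 1 := by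
  unfold ind; exact if_pos h

theorem ind_neg {t s : List I} (h : ¬ t <:+ s) : ind t s = 0 := by
  unfold ind; exact if_neg h

theorem ind_nonneg (t s : List I) : 0 ≤ ind t s := by
  by_cases h : t <:+ s
  · rw [ind_pos h]; exact zero_le_one
  · rw [ind_neg h]

theorem ind_le (t s : List I) : ind t s ≤ 1 := by
  by_cases h : t <:+ s
  · rw [ind_pos h]
  · rw [ind_neg h]; exact zero_le_one

theorem alt_ind {t t' : ℕ → List I} (hb : Branch t t') (s : List I) (N : ℕ) :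
    |∑ j ∈ Finset.range N, (-1 : ℝ) ^ j * ind (t (j + 1)) s| ≤ 1 := by
  classical
  have h := BM.abs_alt_sum_ite (fun j => t (j + 1) <:+ s)
    (fun j h => (BM.suffix_branch hb.succ (Nat.le_succ _)).trans h) N
  convert h using 4
  unfold ind
  congr

theorem alt_ind' {t t' : ℕ → List I} (hb : Branch t t') (s : List I) (N : ℕ) :
    |∑ j ∈ Finset.range N, (-1 : ℝ) ^ j * ind (t' (j + 1)) s| ≤ 1 := by
  classical
  have h := hb.abs_sib_sum s N
  convert h using 4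
  unfold ind
  congr

theorem sib_ind (F : Finset I) (t s : List I) : ∑ a ∈ F, ind (a :: t) s ≤ 1 := by
  classical
  by_cases h : ∃ a ∈ F, (a :: t) <:+ s
  · obtain ⟨a, ha, ha'⟩ := h
    rw [Finset.sum_eq_single_of_mem a ha]
    · exact ind_le _ _
    · intro b _ hba
      apply ind_neg
      intro hb
      have h5 := List.suffix_of_suffix_length_le hb ha' (by simp)
      have h6 := h5.eq_of_length (by simp)
      exact hba (List.cons.inj h6).1
  · push Not at h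
    rw [Finset.sum_eq_zero]
    · exact zero_le_one
    · intro a ha
      exact ind_neg (h a ha)

end Ind

section Tree

variable {X : Type u} [NormedAddCommGroup X] [NormedSpace 𝕜 X] {I : Type u}
  {w : List I → StrongDual 𝕜 X} {v : List I → X} {δ : ℝ}

theorem WW_ind (hδ : 0 ≤ δ) (hb1 : ∀ t, w t (v t) = 1)
    (hb0 : ∀ t t', t ≠ t' → ‖w t (v t')‖ ≤ δ) (s t : List I)
    (ht : t ≠ []) : ‖WW w s (v t) - ((ind t s : ℝ) : 𝕜)‖ ≤ s.length * δ := by
  classical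
  have h := WW_approx hδ hb1 hb0 s t ht
  convert h using 4
  by_cases h' : t <:+ s
  · rw [ind_pos h', if_pos h', RCLike.ofReal_one]
  · rw [ind_neg h', if_neg h', RCLike.ofReal_zero]

theorem WW_sum (hδ : 0 ≤ δ) (hb1 : ∀ t, w t (v t) = 1)
    (hb0 : ∀ t t', t ≠ t' → ‖w t (v t')‖ ≤ δ) (s : List I) {ι : Type*} (F : Finset ι)
    (c : ι → 𝕜) (hc : ∀ k, ‖c k‖ ≤ 1) (ts : ι → List I) (hts : ∀ k, ts k ≠ []) :
    ‖WW w s (∑ k ∈ F, c k • v (ts k)) - ∑ k ∈ F, c k * ((ind (ts k) s : ℝ) : 𝕜)‖ ≤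
      F.card * (s.length * δ) := by
  rw [map_sum, ← Finset.sum_sub_distrib]
  refine (norm_sum_le _ _).trans ?_
  calc ∑ k ∈ F, ‖WW w s (c k • v (ts k)) - c k * ((ind (ts k) s : ℝ) : 𝕜)‖
      ≤ ∑ k ∈ F, (s.length * δ) := by
        apply Finset.sum_le_sum
        intro k _
        rw [map_smul, smul_eq_mul, ← mul_sub, norm_mul]
        have h1 := WW_ind hδ hb1 hb0 s (ts k) (hts k)
        calc ‖c k‖ * ‖WW w s (v (ts k)) - ((ind (ts k) s : ℝ) : 𝕜)‖ ≤ 1 * (s.length * δ) := by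
              gcongr
              exact hc k
          _ = _ := one_mul _
    _ = F.card * (s.length * δ) := by simp

/-- Signed sums of siblings are small. -/
theorem WW_sib (hδ : 0 ≤ δ) (hb1 : ∀ t, w t (v t) = 1)
    (hb0 : ∀ t t', t ≠ t' → ‖w t (v t')‖ ≤ δ) (s : List I) (F : Finset I)
    (c : I → 𝕜) (hc : ∀ k, ‖c k‖ ≤ 1) (t : List I) :
    ‖WW w s (∑ a ∈ F, c a • v (a :: t))‖ ≤ 1 + F.card * (s.length * δ) := by
  have h1 := WW_sum hδ hb1 hb0 s F c hc (fun a => a :: t) (fun a => List.cons_ne_nil _ _)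
  have h2 : ‖∑ a ∈ F, c a * ((ind (a :: t) s : ℝ) : 𝕜)‖ ≤ 1 := by
    refine (norm_sum_le _ _).trans ?_
    refine le_trans ?_ (sib_ind F t s)
    apply Finset.sum_le_sum
    intro a _
    rw [norm_mul, RCLike.norm_ofReal, abs_of_nonneg (ind_nonneg _ _)]
    calc ‖c a‖ * ind (a :: t) s ≤ 1 * ind (a :: t) s := by
          gcongr
          · exact ind_nonneg _ _
          · exact hc a
      _ = _ := one_mul _
  have h3 := norm_le_norm_add_norm_sub' (WW w s (∑ a ∈ F, c a • v (a :: t)))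
    (∑ a ∈ F, c a * ((ind (a :: t) s : ℝ) : 𝕜))
  linarith

/-- Sums along a branch are large. -/
theorem WW_branch (hδ : 0 ≤ δ) (hb1 : ∀ t, w t (v t) = 1)
    (hb0 : ∀ t t', t ≠ t' → ‖w t (v t')‖ ≤ δ) {t t' : ℕ → List I} (hb : Branch t t') (N : ℕ) :
    (N : ℝ) - 2 * (N * (N * δ)) ≤
      ‖WW w (t N) (∑ j ∈ Finset.range N, (v (t (j + 1)) - v (t' (j + 1))))‖ := by
  have hlen : (t N).length = N := BM.length_branch hb.zero hb.succ N
  have hne : ∀ j, t (j + 1) ≠ [] ∧ t' (j + 1) ≠ [] := by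
    intro j
    obtain ⟨a, b, _, h1, h2⟩ := hb.step j
    rw [h1, h2]
    exact ⟨List.cons_ne_nil _ _, List.cons_ne_nil _ _⟩
  have h1 := WW_sum hδ hb1 hb0 (t N) (Finset.range N) (fun _ => (1 : 𝕜)) (fun _ => by simp)
    (fun j => t (j + 1)) (fun j => (hne j).1)
  have h2 := WW_sum hδ hb1 hb0 (t N) (Finset.range N) (fun _ => (1 : 𝕜)) (fun _ => by simp)
    (fun j => t' (j + 1)) (fun j => (hne j).2)
  have e1 : ∑ j ∈ Finset.range N, (1 : 𝕜) * ((ind (t (j + 1)) (t N) : ℝ) : 𝕜) = N := by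
    rw [Finset.sum_congr rfl (g := fun _ => (1 : 𝕜))]
    · simp
    · intro j hj
      rw [ind_pos (BM.suffix_branch hb.succ (Finset.mem_range.mp hj))]
      simp
  have e2 : ∑ j ∈ Finset.range N, (1 : 𝕜) * ((ind (t' (j + 1)) (t N) : ℝ) : 𝕜) = 0 := by
    apply Finset.sum_eq_zero
    intro j hj
    rw [ind_neg (fun h => hb.sib_ne j _ (BM.suffix_branch hb.succ (Finset.mem_range.mp hj)) h)]
    simp
  rw [e1, hlen, Finset.card_range] at h1
  rw [e2, hlen, Finset.card_range, sub_zero] at h2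
  simp only [one_smul] at h1 h2
  have h3 : WW w (t N) (∑ j ∈ Finset.range N, (v (t (j + 1)) - v (t' (j + 1)))) =
      WW w (t N) (∑ j ∈ Finset.range N, v (t (j + 1))) -
        WW w (t N) (∑ j ∈ Finset.range N, v (t' (j + 1))) := by
    rw [Finset.sum_sub_distrib, map_sub]
  rw [h3]
  set P := WW w (t N) (∑ j ∈ Finset.range N, v (t (j + 1)))
  set Q := WW w (t N) (∑ j ∈ Finset.range N, v (t' (j + 1)))
  have h4 : ‖(N : 𝕜)‖ ≤ ‖P - Q‖ + ‖P - N‖ + ‖Q‖ := by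
    have h5 : (N : 𝕜) = (P - Q) - (P - N) + Q := by ring
    calc ‖(N : 𝕜)‖ = ‖(P - Q) - (P - N) + Q‖ := by rw [← h5]
      _ ≤ ‖(P - Q) - (P - N)‖ + ‖Q‖ := norm_add_le _ _
      _ ≤ ‖P - Q‖ + ‖P - N‖ + ‖Q‖ := by gcongr; exact norm_sub_le _ _
  have h6 : ‖(N : 𝕜)‖ = N := by simp
  rw [h6] at h4
  linarith

/-- Alternating sums along a branch are small. -/
theorem WW_alt (hδ : 0 ≤ δ) (hb1 : ∀ t, w t (v t) = 1)
    (hb0 : ∀ t t', t ≠ t' → ‖w t (v t')‖ ≤ δ) {t t' : ℕ → List I} (hb : Branch t t') (N : ℕ)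
    (s : List I) :
    ‖WW w s (∑ j ∈ Finset.range N, (-1 : 𝕜) ^ j • (v (t (j + 1)) - v (t' (j + 1))))‖ ≤
      2 + 2 * (N * (s.length * δ)) := by
  have hne : ∀ j, t (j + 1) ≠ [] ∧ t' (j + 1) ≠ [] := by
    intro j
    obtain ⟨a, b, _, h1, h2⟩ := hb.step j
    rw [h1, h2]
    exact ⟨List.cons_ne_nil _ _, List.cons_ne_nil _ _⟩
  have hpow : ∀ k : ℕ, ‖(-1 : 𝕜) ^ k‖ ≤ 1 := fun k => by
    rw [norm_pow, norm_neg, norm_one, one_pow]
  have h1 := WW_sum hδ hb1 hb0 s (Finset.range N) (fun j => (-1 : 𝕜) ^ j) hpow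
    (fun j => t (j + 1)) (fun j => (hne j).1)
  have h2 := WW_sum hδ hb1 hb0 s (Finset.range N) (fun j => (-1 : 𝕜) ^ j) hpow
    (fun j => t' (j + 1)) (fun j => (hne j).2)
  rw [Finset.card_range] at h1 h2
  have e : ∀ r : ℕ → List I, |∑ j ∈ Finset.range N, (-1 : ℝ) ^ j * ind (r j) s| ≤ 1 →
      ‖∑ j ∈ Finset.range N, (-1 : 𝕜) ^ j * ((ind (r j) s : ℝ) : 𝕜)‖ ≤ 1 := by
    intro r hr
    have h3 : ∑ j ∈ Finset.range N, (-1 : 𝕜) ^ j * ((ind (r j) s : ℝ) : 𝕜) =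
        ((∑ j ∈ Finset.range N, (-1 : ℝ) ^ j * ind (r j) s : ℝ) : 𝕜) := by
      push_cast
      rfl
    rw [h3, RCLike.norm_ofReal]
    exact hr
  have h3 := e (fun j => t (j + 1)) (alt_ind hb s N)
  have h4 := e (fun j => t' (j + 1)) (alt_ind' hb s N)
  have h5 : WW w s (∑ j ∈ Finset.range N, (-1 : 𝕜) ^ j • (v (t (j + 1)) - v (t' (j + 1)))) =
      WW w s (∑ j ∈ Finset.range N, (-1 : 𝕜) ^ j • v (t (j + 1))) -
        WW w s (∑ j ∈ Finset.range N, (-1 : 𝕜) ^ j • v (t' (j + 1))) := by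
    rw [← map_sub, ← Finset.sum_sub_distrib]
    simp only [smul_sub]
  rw [h5]
  have h6 := norm_le_norm_add_norm_sub' (WW w s (∑ j ∈ Finset.range N, (-1 : 𝕜) ^ j • v (t (j + 1))))
    (∑ j ∈ Finset.range N, (-1 : 𝕜) ^ j * ((ind (t (j + 1)) s : ℝ) : 𝕜))
  have h7 := norm_le_norm_add_norm_sub' (WW w s (∑ j ∈ Finset.range N, (-1 : 𝕜) ^ j • v (t' (j + 1))))
    (∑ j ∈ Finset.range N, (-1 : 𝕜) ^ j * ((ind (t' (j + 1)) s : ℝ) : 𝕜))
  have h8 := norm_sub_le (WW w s (∑ j ∈ Finset.range N, (-1 : 𝕜) ^ j • v (t (j + 1))))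
    (WW w s (∑ j ∈ Finset.range N, (-1 : 𝕜) ^ j • v (t' (j + 1))))
  linarith

/-- Differences of siblings are small. -/
theorem WW_diff (hδ : 0 ≤ δ) (hb1 : ∀ t, w t (v t) = 1)
    (hb0 : ∀ t t', t ≠ t' → ‖w t (v t')‖ ≤ δ) (s t : List I) (a b : I) :
    ‖WW w s (v (a :: t) - v (b :: t))‖ ≤ 2 + 2 * (s.length * δ) := by
  have h : ∀ a : I, ‖WW w s (v (a :: t))‖ ≤ 1 + s.length * δ := by
    intro a
    have h1 := WW_ind hδ hb1 hb0 s (a :: t) (List.cons_ne_nil _ _)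
    have h2 := norm_le_norm_add_norm_sub' (WW w s (v (a :: t))) ((ind (a :: t) s : ℝ) : 𝕜)
    have h3 : ‖((ind (a :: t) s : ℝ) : 𝕜)‖ ≤ 1 := by
      rw [RCLike.norm_ofReal, abs_of_nonneg (ind_nonneg _ _)]
      exact ind_le _ _
    linarith
  rw [map_sub]
  have h1 := h a
  have h2 := h b
  have h3 := norm_sub_le (WW w s (v (a :: t))) (WW w s (v (b :: t)))
  linarith

end Tree

end Pool.Agent.Helper358.BP
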