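import Pool.Agent.Helper358.BP4

/-!
Assembly: almost biorthogonal families which are larger than the norming sets of a chain of
subspaces give renormings at arbitrarily large Banach-Mazur distance.
-/

set_option autoImplicit false

namespace Pool.Agent.Helper358.BP

open Filter Topology Set Cardinal
open BM (Branch)

universe u

/-- There are renormings of `X` at arbitrarily large Banach-Mazur distance. -/
def Far (𝕜 : Type) [RCLike 𝕜] (X : Type u) [NormedAddCommGroup X] [NormedSpace 𝕜 X] : Prop :=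
  ∀ M : ℝ, ∃ (Y Z : Type u) (_ : NormedAddCommGroup Y) (_ : NormedSpace 𝕜 Y) (_ : CompleteSpace Y)
      (_ : NormedAddCommGroup Z) (_ : NormedSpace 𝕜 Z) (_ : CompleteSpace Z),
      Nonempty (X ≃L[𝕜] Y) ∧ Nonempty (X ≃L[𝕜] Z) ∧
      ∀ T : Y ≃L[𝕜] Z, M ≤ ‖(T : Y →L[𝕜] Z)‖ * ‖(T.symm : Z →L[𝕜] Y)‖

variable {𝕜 : Type} [RCLike 𝕜] {X : Type u} [NormedAddCommGroup X] [NormedSpace 𝕜 X]

/-- A family `v` all of whose short signed sums are small is small on most indices. -/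
theorem mk_bad_lt {I : Type u} (hI : ℵ₀ < #I) (G : Set (StrongDual 𝕜 X)) (hG : #G < #I)
    (y : I → X) (N : ℕ) {K η : ℝ}
    (hy : ∀ (F : Finset I) (c : I → 𝕜), F.card = N → (∀ k, ‖c k‖ ≤ 1) → ∀ g ∈ G,
      ‖g (∑ a ∈ F, c a • y a)‖ ≤ K) (hK : K < N * η) :
    #{a : I | ∃ g ∈ G, η < ‖g (y a)‖} < #I := by
  have hfin : ∀ g ∈ G, {a : I | η < ‖g (y a)‖}.Finite := by
    intro g hg
    by_contra hinf
    obtain ⟨F, hF, hFc⟩ := Set.Infinite.exists_subset_card_eq hinf N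
    choose c hc1 hc2 using fun a => exists_phase (𝕜 := 𝕜) (g (y a))
    have h1 := hy F c hFc hc1 g hg
    have h2 : g (∑ a ∈ F, c a • y a) = ((∑ a ∈ F, ‖g (y a)‖ : ℝ) : 𝕜) := by
      rw [map_sum]
      push_cast
      apply Finset.sum_congr rfl
      intro a _
      rw [map_smul, smul_eq_mul, hc2]
    rw [h2, RCLike.norm_ofReal, abs_of_nonneg (Finset.sum_nonneg fun a _ => norm_nonneg _)] at h1
    have h3 : N * η ≤ ∑ a ∈ F, ‖g (y a)‖ := by
      rw [← hFc, ← nsmul_eq_mul]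
      apply Finset.card_nsmul_le_sum
      intro a ha
      exact (hF ha).le
    linarith
  have hsub : {a : I | ∃ g ∈ G, η < ‖g (y a)‖} ⊆ ⋃ g : G, {a : I | η < ‖g.1 (y a)‖} := by
    rintro a ⟨g, hg, ha⟩
    exact mem_iUnion.mpr ⟨⟨g, hg⟩, ha⟩
  calc #{a : I | ∃ g ∈ G, η < ‖g (y a)‖} ≤ #(⋃ g : G, {a : I | η < ‖g.1 (y a)‖}) :=
        mk_le_mk_of_subset hsub
    _ ≤ sum (fun g : G => #{a : I | η < ‖g.1 (y a)‖}) := mk_iUnion_le_sum_mk
    _ ≤ sum (fun _ : G => ℵ₀) := by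
        apply sum_le_sum
        intro g
        exact (hfin g.1 g.2).lt_aleph0.le
    _ = #G * ℵ₀ := by rw [sum_const']
    _ < #I := mul_lt_of_lt hI.le hG hI

theorem far3 [CompleteSpace X] {J : Type u} [LinearOrder J] (i₀ : J)
    (G : J → Set (StrongDual 𝕜 X)) (hG1 : ∀ j, ∀ g ∈ G j, ‖g‖ ≤ 1) (hGm : Monotone G)
    (Y₀ : J → Submodule 𝕜 X) (hY : Monotone Y₀) {C₀ : ℝ} (hC₀ : 0 ≤ C₀)
    (hYp : ∀ j, ∀ y ∈ Y₀ j, ∃ g ∈ G j, ‖y‖ ≤ C₀ * ‖g y‖)
    (G' : Set (StrongDual 𝕜 X)) (hG' : ∀ g ∈ G', ‖g‖ ≤ 1) {C₁ : ℝ} (hC₁ : 0 ≤ C₁)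
    (hYd : ∀ x, ∀ ζ η : ℝ, 0 ≤ ζ → 0 < η → (∀ g ∈ G', ‖g x‖ ≤ ζ) →
      ∃ i, ∃ y ∈ Y₀ i, ‖y - x‖ ≤ C₁ * ζ + η)
    (hfam : ∀ δ : ℝ, 0 < δ → ∃ (I : Type u) (x : I → X) (f : I → StrongDual 𝕜 X) (D : ℝ),
      ℵ₀ < #I ∧ (∀ j, #(G j) < #I) ∧ #G' < #I ∧ (∀ i, ‖x i‖ ≤ 1) ∧ (∀ i, ‖f i‖ ≤ D) ∧
      (∀ i, f i (x i) = 1) ∧ ∀ i j, i ≠ j → ‖f i (x j)‖ ≤ δ) : Far 𝕜 X := by
  classical
  intro M
  -- constants
  set M' : ℝ := max M 1 with hM'
  have hM'1 : 1 ≤ M' := le_max_right _ _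
  set L : ℝ := 6 * M' + 1 with hL
  have hL0 : 0 < L := by rw [hL]; linarith
  obtain ⟨N, hN⟩ := exists_nat_ge (4 * C₀ * L ^ 2 + 1)
  have hNR1 : (1 : ℝ) ≤ N := by
    have : 0 ≤ 4 * C₀ * L ^ 2 := by positivity
    linarith
  have hNR : (0 : ℝ) < N := by linarith
  have hN0 : 0 < N := by exact_mod_cast hNR
  set C : ℝ := 1 + 2 * L * C₀ with hC
  have hCpos : 0 ≤ C := by positivity
  set Gc : ℝ := C * N + 4 * L * N * C₀ + L * C + 4 * L * C₀ with hGc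
  have hGcpos : 0 ≤ Gc := by positivity
  set η : ℝ := 1 / (M' * Gc + 1) with hη
  have hηpos : 0 < η := by positivity
  have hηG : M' * Gc * η < 1 := by
    rw [hη, mul_one_div, div_lt_one (by positivity)]
    linarith
  set η' : ℝ := η / (4 * (C₁ + 1)) with hη'
  have hη'pos : 0 < η' := by positivity
  have hη'1 : 2 * η' ≤ η := by
    have h1 : η' * (4 * (C₁ + 1)) = η := by rw [hη']; field_simp
    nlinarith
  have hη'2 : C₁ * (2 * η') ≤ η / 2 := by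
    have h1 : η' * (4 * (C₁ + 1)) = η := by rw [hη']; field_simp
    nlinarith
  obtain ⟨N₁, hN₁⟩ := exists_nat_gt (6 / η')
  have hN₁' : 6 < N₁ * η' := by rwa [div_lt_iff₀ hη'pos] at hN₁
  set N₂ : ℕ := max (2 * N) N₁ with hN₂
  have hN₂1 : 2 * (N : ℝ) ≤ N₂ := by
    have : 2 * N ≤ N₂ := le_max_left _ _
    exact_mod_cast this
  have hN₂2 : (N₁ : ℝ) ≤ N₂ := by
    have : N₁ ≤ N₂ := le_max_right _ _
    exact_mod_cast this
  have hN₂pos : (0 : ℝ) < N₂ := by linarith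
  set ε : ℝ := 1 / N₂ with hε
  have hεpos : 0 < ε := by positivity
  have hε1 : ε * N₂ = 1 := by rw [hε]; field_simp
  have hεle : ε ≤ 1 := by
    rw [hε, div_le_one hN₂pos]
    linarith
  set δ : ℝ := 1 / (2 * N * N₂) with hδ
  have hδpos : 0 < δ := by positivity
  have hδ1 : N * δ * N₂ = 1 / 2 := by rw [hδ]; field_simp
  have hδ0 : 0 ≤ N * δ := by positivity
  have hδ2 : N * δ * (2 * N) ≤ 1 / 2 := by
    rw [← hδ1]
    gcongr
  have hδ3 : N * δ * N₁ ≤ 1 / 2 := by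
    rw [← hδ1]
    gcongr
  have hδ4 : N * δ ≤ 1 / 2 := by
    calc N * δ = N * δ * 1 := (mul_one _).symm
      _ ≤ N * δ * N₂ := by gcongr; linarith
      _ = 1 / 2 := hδ1
  -- the family
  obtain ⟨I, xx, ff, D, hI, hIG, hIG', hx1, hf1, hfx1, hfx0⟩ := hfam δ hδpos
  have hIinf : Infinite I := infinite_iff.mpr hI.le
  have hIne : Nonempty I := Infinite.nonempty I
  obtain ⟨e⟩ : Nonempty (List I ≃ I) := Cardinal.eq.mp (mk_list_eq_mk I)
  have hD0 : 0 ≤ D := (norm_nonneg _).trans (hf1 hIne.some)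
  set v : List I → X := fun t => xx (e t) with hv
  set w : List I → StrongDual 𝕜 X := fun t => ff (e t) with hw
  have hv1 : ∀ t, ‖v t‖ ≤ 1 := fun t => hx1 _
  have hwD : ∀ t x, ‖w t x‖ ≤ D * ‖x‖ := fun t x => by
    calc ‖w t x‖ ≤ ‖w t‖ * ‖x‖ := (w t).le_opNorm x
      _ ≤ D * ‖x‖ := by gcongr; exact hf1 _
  have hb1 : ∀ t, w t (v t) = 1 := fun t => hfx1 _
  have hb0 : ∀ t t', t ≠ t' → ‖w t (v t')‖ ≤ δ := fun t t' h =>
    hfx0 _ _ (fun h' => h (e.injective h'))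
  -- a unit vector
  have hx₀ : xx hIne.some ≠ 0 := by
    intro h
    have := hfx1 hIne.some
    rw [h, map_zero] at this
    exact zero_ne_one this
  set x₀ : X := xx hIne.some with hx₀'
  have hx₀n : 0 < ‖x₀‖ := norm_pos_iff.mpr hx₀
  set e₀ : X := ((‖x₀‖⁻¹ : ℝ) : 𝕜) • x₀ with he₀
  have he₀n : ‖e₀‖ = 1 := by
    rw [he₀, norm_smul, RCLike.norm_ofReal, abs_of_pos (by positivity),
      inv_mul_cancel₀ hx₀n.ne']
  -- the first norm
  let φ₁ : Option (List I) → X →L[𝕜] X := fun o => match o with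
    | none => (ε : 𝕜) • ContinuousLinearMap.id 𝕜 X
    | some t => if t.length ≤ N then (2 : 𝕜) • (WW w t).smulRight e₀ else 0
  have hφn : ∀ x, ‖φ₁ none x‖ = ε * ‖x‖ := fun x => by
    change ‖(ε : 𝕜) • x‖ = _
    rw [norm_smul, RCLike.norm_ofReal, abs_of_pos hεpos]
  have hφs : ∀ (t : List I) x, ‖φ₁ (some t) x‖ = if t.length ≤ N then 2 * ‖WW w t x‖ else 0 := by
    intro t x
    change ‖(if t.length ≤ N then (2 : 𝕜) • (WW w t).smulRight e₀ else 0 : X →L[𝕜] X) x‖ = _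
    split_ifs with h
    · rw [smul_apply, ContinuousLinearMap.smulRight_apply, norm_smul, norm_smul, he₀n,
        mul_one, RCLike.norm_ofNat]
    · simp
  obtain ⟨Y, iY1, iY2, iY3, e₁, he₁a, he₁b⟩ := exists_renorm φ₁ (1 + 2 * (N * D)) (by
      intro o x
      have hx := norm_nonneg x
      have hND : 0 ≤ 2 * (N * D) * ‖x‖ := by positivity
      rcases o with _ | t
      · rw [hφn]
        nlinarith
      · rw [hφs]
        split_ifs with h
        · have h0 := WW_norm hwD t x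
          have h1 : (t.length : ℝ) ≤ N := by exact_mod_cast h
          have h2 : (t.length : ℝ) * (D * ‖x‖) ≤ N * (D * ‖x‖) := by gcongr
          nlinarith
        · positivity) ε hεpos none (fun x => (hφn x).ge)
  -- bounds for the first norm
  have hlenle : ∀ {t : List I}, t.length ≤ N → (t.length : ℝ) * δ ≤ N * δ := by
    intro t h
    have h1 : (t.length : ℝ) ≤ N := by exact_mod_cast h
    gcongr
  have hpb : ∀ x (r : ℝ), 0 ≤ r → ‖x‖ ≤ N₂ → (∀ s : List I, s.length ≤ N → ‖WW w s x‖ ≤ r) →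
      ‖e₁ x‖ ≤ max 1 (2 * r) := by
    intro x r hr hx hs
    apply he₁b _ _ (le_max_of_le_left zero_le_one)
    intro o
    rcases o with _ | s
    · rw [hφn]
      apply le_max_of_le_left
      calc ε * ‖x‖ ≤ ε * N₂ := by gcongr
        _ = 1 := hε1
    · rw [hφs]
      apply le_max_of_le_right
      split_ifs with h
      · have := hs s h
        linarith
      · positivity
  -- the second norm
  set p₀ : J → Seminorm 𝕜 X := fun j => supSemi (G j) (hG1 j) with hp₀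
  have hp0m : ∀ i j, i ≤ j → ∀ x, p₀ i x ≤ p₀ j x := fun i j h x =>
    supSemi_mono (hG1 i) (hG1 j) (hGm h) x
  have hp0 : ∀ i x, p₀ i x ≤ ‖x‖ := fun i x => supSemi_le_norm (hG1 i) x
  have hYp' : ∀ i, ∀ y ∈ Y₀ i, ‖y‖ ≤ C₀ * p₀ i y := by
    intro i y hy
    obtain ⟨g, hg, h⟩ := hYp i y hy
    refine h.trans ?_
    gcongr
    exact le_supSemi (hG1 i) hg y
  let S₂ : Type u := Option {c : (ℕ → J) × (ℕ → StrongDual 𝕜 X) × (ℕ → 𝕜) //
    Chain p₀ Y₀ C₀ c.1 c.2.1 ∧ ∀ i, ‖c.2.2 i‖ ≤ 1}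
  let φ₂ : S₂ → X →L[𝕜] X := fun o => match o with
    | none => ContinuousLinearMap.id 𝕜 X
    | some c => ((((L / N : ℝ) : 𝕜) • ∑ i ∈ Finset.range N, c.1.2.2 i • (c.1.2.1 (i + 1) - c.1.2.1 i) :
        StrongDual 𝕜 X)).smulRight e₀
  have hφ₂s : ∀ c x, ‖φ₂ (some c) x‖ =
      (L / N) * ‖∑ i ∈ Finset.range N, c.1.2.2 i * (c.1.2.1 (i + 1) x - c.1.2.1 i x)‖ := by
    intro c x
    change ‖((((L / N : ℝ) : 𝕜) • ∑ i ∈ Finset.range N, c.1.2.2 i • (c.1.2.1 (i + 1) - c.1.2.1 i) :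
        StrongDual 𝕜 X)).smulRight e₀ x‖ = _
    rw [ContinuousLinearMap.smulRight_apply, norm_smul, he₀n, mul_one]
    have h1 : (((L / N : ℝ) : 𝕜) • ∑ i ∈ Finset.range N, c.1.2.2 i • (c.1.2.1 (i + 1) - c.1.2.1 i) :
        StrongDual 𝕜 X) x =
        ((L / N : ℝ) : 𝕜) * ∑ i ∈ Finset.range N, c.1.2.2 i * (c.1.2.1 (i + 1) x - c.1.2.1 i x) := by
      rw [smul_apply, sum_apply, smul_eq_mul]
      rfl
    rw [h1, norm_mul, RCLike.norm_ofReal, abs_of_nonneg (by positivity : 0 ≤ L / N)]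
  have habs : ∀ (c : {c : (ℕ → J) × (ℕ → StrongDual 𝕜 X) × (ℕ → 𝕜) //
      Chain p₀ Y₀ C₀ c.1 c.2.1 ∧ ∀ i, ‖c.2.2 i‖ ≤ 1}) x,
      ‖∑ i ∈ Finset.range N, c.1.2.2 i * (c.1.2.1 (i + 1) x - c.1.2.1 i x)‖ ≤
      ∑ i ∈ Finset.range N, ‖c.1.2.1 (i + 1) x - c.1.2.1 i x‖ := by
    intro c x
    refine (norm_sum_le _ _).trans (Finset.sum_le_sum fun i _ => ?_)
    rw [norm_mul]
    calc ‖c.1.2.2 i‖ * ‖c.1.2.1 (i + 1) x - c.1.2.1 i x‖
        ≤ 1 * ‖c.1.2.1 (i + 1) x - c.1.2.1 i x‖ := by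
          gcongr
          exact c.2.2 i
      _ = _ := one_mul _
  have hC₂ : ∀ o x, ‖φ₂ o x‖ ≤ (1 + 2 * L * C₀) * ‖x‖ := by
    intro o x
    have hx := norm_nonneg x
    have h0 : 0 ≤ 2 * L * C₀ * ‖x‖ := by positivity
    rcases o with _ | c
    · change ‖x‖ ≤ _
      nlinarith
    · rw [hφ₂s]
      have h1 : ∑ i ∈ Finset.range N, ‖c.1.2.1 (i + 1) x - c.1.2.1 i x‖ ≤
          N * (2 * C₀ * ‖x‖) := by
        calc ∑ i ∈ Finset.range N, ‖c.1.2.1 (i + 1) x - c.1.2.1 i x‖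
            ≤ ∑ i ∈ Finset.range N, (2 * C₀ * ‖x‖) := by
              apply Finset.sum_le_sum
              intro i _
              have h1 := c.2.1.dom (i + 1) x
              have h2 := c.2.1.dom i x
              have h3 := norm_sub_le (c.1.2.1 (i + 1) x) (c.1.2.1 i x)
              have h4 : C₀ * p₀ (c.1.1 (i + 1)) x ≤ C₀ * ‖x‖ := by gcongr; exact hp0 _ _
              have h5 : C₀ * p₀ (c.1.1 i) x ≤ C₀ * ‖x‖ := by gcongr; exact hp0 _ _
              linarith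
          _ = _ := by simp
      calc (L / N) * ‖∑ i ∈ Finset.range N, c.1.2.2 i * (c.1.2.1 (i + 1) x - c.1.2.1 i x)‖
          ≤ (L / N) * (N * (2 * C₀ * ‖x‖)) := by
            gcongr
            exact (habs c x).trans h1
        _ = 2 * L * C₀ * ‖x‖ := by field_simp
        _ ≤ _ := by nlinarith
  obtain ⟨Z, iZ1, iZ2, iZ3, e₂, he₂a, he₂b⟩ := exists_renorm φ₂ (1 + 2 * L * C₀) hC₂ 1 one_pos
    none (by
      intro x
      rw [one_mul]
      exact le_rfl)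
  refine ⟨Y, Z, iY1, iY2, iY3, iZ1, iZ2, iZ3, ⟨e₁⟩, ⟨e₂⟩, fun T => ?_⟩
  by_contra hcon
  push Not at hcon
  -- the normalised operator
  set ρ : ℝ := ‖(T : Y →L[𝕜] Z)‖ with hρ
  have hρpos : 0 < ρ := by
    rw [hρ, norm_pos_iff]
    intro h
    have h1 : T (e₁ x₀) = 0 := by
      change (T : Y →L[𝕜] Z) (e₁ x₀) = 0
      rw [h]
      rfl
    have h2 : e₁ x₀ = 0 := by
      have := T.injective (h1.trans (map_zero T).symm)
      exact this
    exact hx₀ (e₁.injective (h2.trans (map_zero e₁).symm))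
  let τ₀ : X →L[𝕜] X := (e₂.symm : Z →L[𝕜] X).comp ((T : Y →L[𝕜] Z).comp (e₁ : X →L[𝕜] Y))
  let τ : X →L[𝕜] X := ((ρ⁻¹ : ℝ) : 𝕜) • τ₀
  have hτ₀ : ∀ x, e₂ (τ₀ x) = T (e₁ x) := fun x => by
    change e₂ (e₂.symm (T (e₁ x))) = _
    exact e₂.apply_symm_apply _
  have hτn : ∀ x, ‖e₂ (τ x)‖ = ρ⁻¹ * ‖T (e₁ x)‖ := fun x => by
    change ‖e₂ (((ρ⁻¹ : ℝ) : 𝕜) • τ₀ x)‖ = _
    rw [map_smul, hτ₀, norm_smul, RCLike.norm_ofReal, abs_of_pos (by positivity)]
  have hτ1 : ∀ x, ‖e₂ (τ x)‖ ≤ 1 * ‖e₁ x‖ := by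
    intro x
    rw [hτn, one_mul]
    have h1 : ‖T (e₁ x)‖ ≤ ρ * ‖e₁ x‖ := (T : Y →L[𝕜] Z).le_opNorm _
    calc ρ⁻¹ * ‖T (e₁ x)‖ ≤ ρ⁻¹ * (ρ * ‖e₁ x‖) := by gcongr
      _ = ‖e₁ x‖ := by field_simp
  have hτ2 : ∀ x, ‖e₁ x‖ ≤ (ρ * ‖(T.symm : Z →L[𝕜] Y)‖) * ‖e₂ (τ x)‖ := by
    intro x
    rw [hτn]
    have h1 := (T.symm : Z →L[𝕜] Y).le_opNorm (T (e₁ x))
    have h2 : (T.symm : Z →L[𝕜] Y) (T (e₁ x)) = e₁ x := T.symm_apply_apply _
    rw [h2] at h1
    calc ‖e₁ x‖ ≤ ‖(T.symm : Z →L[𝕜] Y)‖ * ‖T (e₁ x)‖ := h1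
      _ = _ := by field_simp
  have hA0 : 0 ≤ ρ * ‖(T.symm : Z →L[𝕜] Y)‖ := by positivity
  have hAM : ρ * ‖(T.symm : Z →L[𝕜] Y)‖ ≤ M' := hcon.le.trans (le_max_left _ _)
  have hnorm2 : ∀ x, ‖x‖ ≤ ‖e₂ x‖ := fun x => he₂a x none
  apply core3 (v := v) hp0m hp0 hY hC₀ hYp' i₀ N hN0 hL0 hN (K := 6) (by norm_num)
    (fun x => ‖e₁ x‖) (fun x => ‖e₂ x‖) ?_ ?_ ?_ ?_ hnorm2 ?_ ?_ (C := C) hCpos ?_ τ hA0
    zero_le_one hτ1 hτ2 hηpos ?_ ?_ ?_
  · intro t t' hb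
    refine le_trans ?_ (he₁a _ (some (t N)))
    have hlen : (t N).length = N := BM.length_branch hb.zero hb.succ N
    rw [hφs, if_pos hlen.le]
    have h1 := WW_branch hδpos.le hb1 hb0 hb N
    have h2 : (N : ℝ) * (N * δ) = N * δ * (2 * N) / 2 := by ring
    linarith
  · intro t t' hb
    have h1 : ‖∑ j ∈ Finset.range N, (-1 : 𝕜) ^ j • (v (t (j + 1)) - v (t' (j + 1)))‖ ≤
        2 * N := by
      refine (norm_sum_le _ _).trans ?_
      calc ∑ j ∈ Finset.range N, ‖(-1 : 𝕜) ^ j • (v (t (j + 1)) - v (t' (j + 1)))‖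
          ≤ ∑ j ∈ Finset.range N, (2 : ℝ) := by
            apply Finset.sum_le_sum
            intro j _
            rw [norm_smul, norm_pow, norm_neg, norm_one, one_pow, one_mul]
            have h2 := norm_sub_le (v (t (j + 1))) (v (t' (j + 1)))
            have h3 := hv1 (t (j + 1))
            have h4 := hv1 (t' (j + 1))
            linarith
        _ = 2 * N := by simp [mul_comm]
    refine (hpb _ 3 (by norm_num) (h1.trans hN₂1) ?_).trans (by norm_num)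
    intro s hs
    have h2 := WW_alt hδpos.le hb1 hb0 hb N s
    have h3 := hlenle hs
    have h4 : (N : ℝ) * (s.length * δ) ≤ N * (N * δ) := by gcongr
    have h5 : (N : ℝ) * (N * δ) = N * δ * (2 * N) / 2 := by ring
    linarith
  · intro t a b
    have h1 : ‖v (a :: t) - v (b :: t)‖ ≤ 2 := by
      have h2 := norm_sub_le (v (a :: t)) (v (b :: t))
      have h3 := hv1 (a :: t)
      have h4 := hv1 (b :: t)
      linarith
    refine (hpb _ 3 (by norm_num) (h1.trans (by linarith)) ?_).trans (by norm_num)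
    intro s hs
    have h2 := WW_diff hδpos.le hb1 hb0 s t a b
    have h3 := hlenle hs
    linarith
  · intro x y
    simp only [map_add]
    exact norm_add_le _ _
  · intro β g hc x
    choose c hc1 hc2 using fun i => exists_phase (𝕜 := 𝕜) (g (i + 1) x - g i x)
    have h1 := he₂a x (some ⟨(β, g, c), hc, hc1⟩)
    rw [hφ₂s] at h1
    have h2 : ∑ i ∈ Finset.range N, c i * (g (i + 1) x - g i x) =
        ((∑ i ∈ Finset.range N, ‖g (i + 1) x - g i x‖ : ℝ) : 𝕜) := by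
      push_cast
      apply Finset.sum_congr rfl
      intro i _
      exact hc2 i
    simp only at h1
    rw [h2, RCLike.norm_ofReal, abs_of_nonneg (Finset.sum_nonneg fun i _ => norm_nonneg _)] at h1
    exact h1
  · intro x r hr hx h
    apply he₂b x r hr
    intro o
    rcases o with _ | c
    · exact hx
    · rw [hφ₂s]
      refine le_trans ?_ (h _ _ c.2.1)
      gcongr
      exact habs c x
  · intro x
    exact he₂b x _ (by positivity) (fun o => hC₂ o x)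
  · calc ρ * ‖(T.symm : Z →L[𝕜] Y)‖ * (C * N + 4 * L * N * C₀ + L * C + 4 * L * C₀) * η
        = ρ * ‖(T.symm : Z →L[𝕜] Y)‖ * Gc * η := by rw [hGc]
      _ ≤ M' * Gc * η := by gcongr
      _ < 1 := hηG
  · intro i t
    set G₀ : Set (StrongDual 𝕜 X) := G i ∪ G' with hG₀
    have hG₀1 : ∀ g ∈ G₀, ‖g‖ ≤ 1 := by
      rintro g (hg | hg)
      · exact hG1 i g hg
      · exact hG' g hg
    have hG₀c : #G₀ < #I := by
      refine (mk_union_le _ _).trans_lt ?_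
      exact add_lt_of_lt hI.le (hIG i) hIG'
    have hbad := mk_bad_lt hI G₀ hG₀c (fun a => τ (v (a :: t))) N₁ (K := 6) (η := η') (by
      intro F c hF hc g hg
      have h1 : ∑ a ∈ F, c a • τ (v (a :: t)) = τ (∑ a ∈ F, c a • v (a :: t)) := by
        rw [map_sum]
        simp only [map_smul]
      rw [h1]
      have h2 : ‖∑ a ∈ F, c a • v (a :: t)‖ ≤ N₂ := by
        refine (norm_sum_le _ _).trans ?_
        calc ∑ a ∈ F, ‖c a • v (a :: t)‖ ≤ ∑ a ∈ F, (1 : ℝ) := by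
              apply Finset.sum_le_sum
              intro a _
              rw [norm_smul]
              have h3 := hc a
              have h4 := hv1 (a :: t)
              calc ‖c a‖ * ‖v (a :: t)‖ ≤ 1 * 1 := by gcongr
                _ = 1 := one_mul _
          _ = N₁ := by simp [hF]
          _ ≤ N₂ := hN₂2
      have h3 : ‖e₁ (∑ a ∈ F, c a • v (a :: t))‖ ≤ 6 := by
        refine (hpb _ 3 (by norm_num) h2 ?_).trans (by norm_num)
        intro s hs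
        have h4 := WW_sib hδpos.le hb1 hb0 s F c hc t
        rw [hF] at h4
        have h5 := hlenle hs
        have h6 : (N₁ : ℝ) * (s.length * δ) ≤ N₁ * (N * δ) := by gcongr
        have h7 : (N₁ : ℝ) * (N * δ) = N * δ * N₁ := by ring
        linarith
      have h4 : ‖g (τ (∑ a ∈ F, c a • v (a :: t)))‖ ≤ ‖τ (∑ a ∈ F, c a • v (a :: t))‖ := by
        calc ‖g (τ (∑ a ∈ F, c a • v (a :: t)))‖ ≤ ‖g‖ * ‖τ (∑ a ∈ F, c a • v (a :: t))‖ :=
              g.le_opNorm _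
          _ ≤ 1 * ‖τ (∑ a ∈ F, c a • v (a :: t))‖ := by gcongr; exact hG₀1 g hg
          _ = _ := one_mul _
      have h5 := hnorm2 (τ (∑ a ∈ F, c a • v (a :: t)))
      have h6 := hτ1 (∑ a ∈ F, c a • v (a :: t))
      linarith) hN₁'
    have hcompl : #({a : I | ∃ g ∈ G₀, η' < ‖g (τ (v (a :: t)))‖}ᶜ : Set I) = #I := by
      have := mk_compl_of_infinite {a : I | ∃ g ∈ G₀, η' < ‖g (τ (v (a :: t)))‖} hbad
      exact this
    have h2 : 1 < #({a : I | ∃ g ∈ G₀, η' < ‖g (τ (v (a :: t)))‖}ᶜ : Set I) := by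
      rw [hcompl]
      exact one_lt_aleph0.trans hI
    rw [one_lt_iff_nontrivial] at h2
    obtain ⟨⟨a, ha⟩, ⟨b, hb⟩, hab⟩ := h2
    have ha' : ∀ g ∈ G₀, ‖g (τ (v (a :: t)))‖ ≤ η' := by
      intro g hg
      by_contra h
      exact ha ⟨g, hg, not_le.mp h⟩
    have hb' : ∀ g ∈ G₀, ‖g (τ (v (b :: t)))‖ ≤ η' := by
      intro g hg
      by_contra h
      exact hb ⟨g, hg, not_le.mp h⟩
    have hab' : ∀ g ∈ G₀, ‖g (τ (v (a :: t) - v (b :: t)))‖ ≤ 2 * η' := by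
      intro g hg
      rw [map_sub, map_sub]
      have h3 := norm_sub_le (g (τ (v (a :: t)))) (g (τ (v (b :: t))))
      have h4 := ha' g hg
      have h5 := hb' g hg
      linarith
    refine ⟨a, b, fun h => hab (Subtype.ext h), ?_, ?_⟩
    · exact supSemi_le (hG1 i) hηpos.le (fun g hg => (hab' g (Or.inl hg)).trans hη'1)
    · obtain ⟨i', y, hy, hy'⟩ := hYd (τ (v (a :: t) - v (b :: t))) (2 * η') (η / 2)
        (by positivity) (by positivity) (fun g hg => hab' g (Or.inr hg))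
      exact ⟨i', y, hy, hy'.trans (by linarith)⟩
  · rw [hL]
    linarith

end Pool.Agent.Helper358.BP
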