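import Pool.Agent.Helper358.BP5

/-!
Small norming sets for spans, almost biorthogonal systems from the absence of small norming sets,
and the general criterion.
-/

set_option autoImplicit false

namespace Pool.Agent.Helper358.BP

open Filter Topology Set Cardinal

universe u

variable {𝕜 : Type} [RCLike 𝕜] {X : Type u} [NormedAddCommGroup X] [NormedSpace 𝕜 X]

section Norming

variable (𝕜)

theorem exists_DD (F : Finset X) : ∃ s : Set X, s.Countable ∧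
    ((Submodule.span 𝕜 (F : Set X) : Submodule 𝕜 X) : Set X) ⊆ closure s := by
  have h1 : TopologicalSpace.IsSeparable ((F : Set X)) := F.finite_toSet.isSeparable
  have h2 : TopologicalSpace.IsSeparable
      ((Submodule.span 𝕜 (F : Set X) : Submodule 𝕜 X) : Set X) := h1.span
  exact h2

/-- A countable set whose closure contains the span of `F`. -/
noncomputable def DD (F : Finset X) : Set X := (exists_DD 𝕜 F).choose

theorem DD_countable (F : Finset X) : (DD 𝕜 F).Countable := (exists_DD 𝕜 F).choose_spec.1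

theorem DD_dense (F : Finset X) :
    ((Submodule.span 𝕜 (F : Set X) : Submodule 𝕜 X) : Set X) ⊆ closure (DD 𝕜 F) :=
  (exists_DD 𝕜 F).choose_spec.2

/-- A norming functional. -/
noncomputable def nrm (x : X) : StrongDual 𝕜 X := (exists_dual_vector'' 𝕜 x).choose

theorem nrm_norm (x : X) : ‖nrm 𝕜 x‖ ≤ 1 := (exists_dual_vector'' 𝕜 x).choose_spec.1

theorem nrm_apply (x : X) : nrm 𝕜 x x = (‖x‖ : 𝕜) := (exists_dual_vector'' 𝕜 x).choose_spec.2

/-- A norming set for the span of `S`. -/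
noncomputable def GG (S : Set X) : Set (StrongDual 𝕜 X) :=
  {g | ∃ F : Finset X, (F : Set X) ⊆ S ∧ ∃ v ∈ DD 𝕜 F, g = nrm 𝕜 v}

theorem GG_mono {S S' : Set X} (h : S ⊆ S') : GG 𝕜 S ⊆ GG 𝕜 S' := by
  rintro g ⟨F, hF, v, hv, rfl⟩
  exact ⟨F, hF.trans h, v, hv, rfl⟩

theorem GG_norm (S : Set X) : ∀ g ∈ GG 𝕜 S, ‖g‖ ≤ 1 := by
  rintro g ⟨F, hF, v, hv, rfl⟩
  exact nrm_norm 𝕜 v

theorem mk_finset_le (α : Type u) : #(Finset α) ≤ max #α ℵ₀ := by
  rcases finite_or_infinite α with h | h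
  · exact le_max_of_le_right (Cardinal.mk_le_aleph0)
  · rw [mk_finset_of_infinite]
    exact le_max_left _ _

theorem GG_card (S : Set X) : #(GG 𝕜 S) ≤ max #S ℵ₀ := by
  classical
  have hsub : GG 𝕜 S ⊆ ⋃ F : Finset S, nrm 𝕜 '' (DD 𝕜 (F.map (Function.Embedding.subtype _))) := by
    rintro g ⟨F, hF, v, hv, rfl⟩
    refine mem_iUnion.mpr ⟨F.subtype (· ∈ S), ?_⟩
    refine ⟨v, ?_, rfl⟩
    rw [Finset.subtype_map_of_mem (fun x hx => hF hx)]
    exact hv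
  calc #(GG 𝕜 S) ≤ #(⋃ F : Finset S, nrm 𝕜 '' (DD 𝕜 (F.map (Function.Embedding.subtype _)))) :=
        mk_le_mk_of_subset hsub
    _ ≤ sum (fun F : Finset S =>
        #(nrm 𝕜 '' (DD 𝕜 (F.map (Function.Embedding.subtype _))) : Set (StrongDual 𝕜 X))) :=
        mk_iUnion_le_sum_mk
    _ ≤ sum (fun _ : Finset S => ℵ₀) := by
        apply sum_le_sum
        intro F
        exact Cardinal.le_aleph0_iff_set_countable.mpr ((DD_countable 𝕜 _).image _)
    _ = #(Finset S) * ℵ₀ := by rw [sum_const']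
    _ ≤ max #S ℵ₀ * ℵ₀ := by
        gcongr
        exact mk_finset_le S
    _ = max #S ℵ₀ := by
        rw [mul_aleph0_eq (le_max_right _ _)]

theorem GG_norming {S : Set X} {y : X} (hy : y ∈ Submodule.span 𝕜 S) :
    ∃ g ∈ GG 𝕜 S, ‖y‖ ≤ 2 * ‖g y‖ := by
  obtain ⟨F, hF, hyF⟩ := Submodule.mem_span_finite_of_mem_span hy
  have h1 : y ∈ closure (DD 𝕜 F) := DD_dense 𝕜 F hyF
  have hne : (DD 𝕜 F).Nonempty := closure_nonempty_iff.mp ⟨y, h1⟩
  by_cases h0 : y = 0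
  · obtain ⟨v, hv⟩ := hne
    exact ⟨nrm 𝕜 v, ⟨F, hF, v, hv, rfl⟩, by rw [h0]; simp⟩
  · have hpos : 0 < ‖y‖ := norm_pos_iff.mpr h0
    obtain ⟨v, hv, hyv⟩ := Metric.mem_closure_iff.mp h1 (‖y‖ / 4) (by positivity)
    rw [dist_eq_norm] at hyv
    refine ⟨nrm 𝕜 v, ⟨F, hF, v, hv, rfl⟩, ?_⟩
    have h2 : nrm 𝕜 v y = nrm 𝕜 v v + nrm 𝕜 v (y - v) := by
      rw [← map_add, add_sub_cancel]
    have h3 : ‖nrm 𝕜 v (y - v)‖ ≤ ‖y - v‖ := by
      calc ‖nrm 𝕜 v (y - v)‖ ≤ ‖nrm 𝕜 v‖ * ‖y - v‖ := (nrm 𝕜 v).le_opNorm _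
        _ ≤ 1 * ‖y - v‖ := by gcongr; exact nrm_norm 𝕜 v
        _ = _ := one_mul _
    have h4 : ‖nrm 𝕜 v v‖ = ‖v‖ := by
      rw [nrm_apply, RCLike.norm_ofReal, abs_of_nonneg (norm_nonneg _)]
    have h5 : ‖nrm 𝕜 v v‖ ≤ ‖nrm 𝕜 v y‖ + ‖nrm 𝕜 v (y - v)‖ := by
      have h6 : nrm 𝕜 v v = nrm 𝕜 v y - nrm 𝕜 v (y - v) := by rw [h2]; ring
      calc ‖nrm 𝕜 v v‖ = ‖nrm 𝕜 v y - nrm 𝕜 v (y - v)‖ := by rw [← h6]
        _ ≤ _ := norm_sub_le _ _
    have h7 : ‖y‖ ≤ ‖v‖ + ‖y - v‖ := by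
      calc ‖y‖ = ‖v + (y - v)‖ := by rw [add_sub_cancel]
        _ ≤ _ := norm_add_le _ _
    linarith

end Norming

/-- A functional vanishing on a subspace at positive distance. -/
theorem exists_sep (p : Submodule 𝕜 X) (z : X) {r : ℝ} (hr : 0 < r) (h : ∀ w ∈ p, r ≤ ‖z - w‖) :
    ∃ f : StrongDual 𝕜 X, ‖f‖ ≤ r⁻¹ ∧ f z = 1 ∧ ∀ w ∈ p, f w = 0 := by
  set q := p.topologicalClosure with hq
  have : IsClosed (q : Set X) := p.isClosed_topologicalClosure
  have hmk : ∀ x, ‖q.mkQL x‖ ≤ ‖x‖ := fun x => Submodule.Quotient.norm_mk_le q x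
  have hz : r ≤ ‖q.mkQL z‖ := by
    apply le_of_forall_pos_le_add
    intro ε hε
    obtain ⟨m, hm1, hm2⟩ := Submodule.Quotient.norm_mk_lt (S := q) (q.mkQL z)
      (ε := ε / 2) (by positivity)
    have h2 : z - m ∈ q := by
      rw [← Submodule.Quotient.mk_eq_zero, Submodule.Quotient.mk_sub, hm1]
      exact sub_self _
    have h3 : z - m ∈ closure (p : Set X) := h2
    rw [Metric.mem_closure_iff] at h3
    obtain ⟨w, hw, hzw⟩ := h3 (ε / 2) (by positivity)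
    rw [dist_eq_norm] at hzw
    have h4 := h w hw
    have h5 : z - w = (z - m - w) + m := by abel
    have h6 := norm_add_le (z - m - w) m
    rw [← h5] at h6
    linarith
  obtain ⟨g, hg1, hg2⟩ := exists_dual_vector'' 𝕜 (q.mkQL z)
  have hzpos : 0 < ‖q.mkQL z‖ := hr.trans_le hz
  refine ⟨((‖q.mkQL z‖⁻¹ : ℝ) : 𝕜) • g.comp q.mkQL, ?_, ?_, ?_⟩
  · apply ContinuousLinearMap.opNorm_le_bound _ (by positivity)
    intro x
    rw [smul_apply, norm_smul, RCLike.norm_ofReal, abs_of_pos (by positivity),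
      ContinuousLinearMap.comp_apply]
    have h1 : ‖g (q.mkQL x)‖ ≤ ‖x‖ := by
      calc ‖g (q.mkQL x)‖ ≤ ‖g‖ * ‖q.mkQL x‖ := g.le_opNorm _
        _ ≤ 1 * ‖x‖ := by gcongr; exact hmk x
        _ = ‖x‖ := one_mul _
    have h2 : ‖q.mkQL z‖⁻¹ ≤ r⁻¹ := by gcongr
    gcongr
  · rw [smul_apply, ContinuousLinearMap.comp_apply, hg2, smul_eq_mul, ← RCLike.ofReal_mul,
      inv_mul_cancel₀ hzpos.ne', RCLike.ofReal_one]
  · intro w hw
    have h1 : q.mkQL w = 0 := by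
      rw [Submodule.mkQL_apply, Submodule.mkQ_apply, Submodule.Quotient.mk_eq_zero]
      exact p.le_topologicalClosure hw
    rw [smul_apply, ContinuousLinearMap.comp_apply, h1, map_zero, smul_zero]

variable (𝕜 X)

/-- Bounded almost biorthogonal systems of cardinality `μ`. -/
def AlmostBiorth (μ : Cardinal.{u}) : Prop :=
  ∀ δ : ℝ, 0 < δ → ∃ (I : Type u) (x : I → X) (f : I → StrongDual 𝕜 X) (D : ℝ),
    #I = μ ∧ (∀ i, ‖x i‖ ≤ 1) ∧ (∀ i, ‖f i‖ ≤ D) ∧ (∀ i, f i (x i) = 1) ∧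
    ∀ i j, i ≠ j → ‖f i (x j)‖ ≤ δ

variable {𝕜 X}

/-- If all norming sets are large, there are large almost biorthogonal systems. -/
theorem almostBiorth_of_norming {μ : Cardinal.{u}} (hμ : ℵ₀ < μ)
    (hnorm : ∀ G : Set (StrongDual 𝕜 X), (∀ g ∈ G, ‖g‖ ≤ 1) →
      (∃ c > (0 : ℝ), ∀ x, ∃ g ∈ G, c * ‖x‖ ≤ ‖g x‖) → μ ≤ #G) : AlmostBiorth 𝕜 X μ := by
  classical
  intro δ hδ
  set P : Set (X × StrongDual 𝕜 X) → X × StrongDual 𝕜 X → Prop := fun S z =>
    ‖z.1‖ = 1 ∧ ‖z.2‖ ≤ 6 ∧ z.2 z.1 = 1 ∧ (∀ s ∈ S, z.2 s.1 = 0) ∧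
      ∀ s ∈ S, ‖s.2‖ ≤ 6 → ‖s.2 z.1‖ ≤ δ with hP
  have hex : ∀ S : Set (X × StrongDual 𝕜 X), #S < μ → ∃ z, P S z := by
    intro S hS
    set A : Set X := Prod.fst '' S with hA
    set G : Set (StrongDual 𝕜 X) := GG 𝕜 A ∪
      (fun s : X × StrongDual 𝕜 X => if ‖s.2‖ ≤ 6 then ((1 / 6 : ℝ) : 𝕜) • s.2 else 0) '' S with hG
    have hG1 : ∀ g ∈ G, ‖g‖ ≤ 1 := by
      rintro g (hg | ⟨s, hs, rfl⟩)
      · exact GG_norm 𝕜 A g hg
      · simp only
        split_ifs with h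
        · rw [norm_smul, RCLike.norm_ofReal, abs_of_pos (by norm_num)]
          linarith
        · simp
    have hGc : #G < μ := by
      refine (mk_union_le _ _).trans_lt ?_
      apply add_lt_of_lt hμ.le
      · exact (GG_card 𝕜 A).trans_lt (max_lt (mk_image_le.trans_lt hS) hμ)
      · exact mk_image_le.trans_lt hS
    have hnot : ¬ ∃ c > (0 : ℝ), ∀ x, ∃ g ∈ G, c * ‖x‖ ≤ ‖g x‖ := fun h =>
      absurd (hnorm G hG1 h) (not_le.mpr hGc)
    push Not at hnot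
    set c : ℝ := min (1 / 4) (δ / 6) with hc
    have hcpos : 0 < c := lt_min (by norm_num) (by positivity)
    obtain ⟨x, hx⟩ := hnot c hcpos
    have hGGne : (GG 𝕜 A).Nonempty := by
      obtain ⟨g, hg, _⟩ := GG_norming 𝕜 (S := A) (y := 0) (Submodule.zero_mem _)
      exact ⟨g, hg⟩
    have hxpos : 0 < ‖x‖ := by
      obtain ⟨g, hg⟩ := hGGne
      have h1 := (norm_nonneg _).trans_lt (hx g (Or.inl hg))
      exact (mul_pos_iff_of_pos_left hcpos).mp h1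
    set z : X := ((‖x‖⁻¹ : ℝ) : 𝕜) • x with hz
    have hz1 : ‖z‖ = 1 := by
      rw [hz, norm_smul, RCLike.norm_ofReal, abs_of_pos (by positivity),
        inv_mul_cancel₀ hxpos.ne']
    have hzG : ∀ g ∈ G, ‖g z‖ ≤ c := by
      intro g hg
      have h1 := (hx g hg).le
      rw [hz, map_smul, norm_smul, RCLike.norm_ofReal, abs_of_pos (by positivity)]
      calc ‖x‖⁻¹ * ‖g x‖ ≤ ‖x‖⁻¹ * (c * ‖x‖) := by gcongr
        _ = c := by field_simp
    have hdist : ∀ w ∈ Submodule.span 𝕜 A, (1 / 6 : ℝ) ≤ ‖z - w‖ := by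
      intro w hw
      obtain ⟨g, hg, hgw⟩ := GG_norming 𝕜 hw
      have h1 := hzG g (Or.inl hg)
      have h2 : ‖g w‖ ≤ ‖g z‖ + ‖z - w‖ := by
        have h3 : g w = g z - g (z - w) := by rw [map_sub]; ring
        have h4 : ‖g (z - w)‖ ≤ ‖z - w‖ := by
          calc ‖g (z - w)‖ ≤ ‖g‖ * ‖z - w‖ := g.le_opNorm _
            _ ≤ 1 * ‖z - w‖ := by gcongr; exact GG_norm 𝕜 A g hg
            _ = _ := one_mul _
        calc ‖g w‖ = ‖g z - g (z - w)‖ := by rw [← h3]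
          _ ≤ ‖g z‖ + ‖g (z - w)‖ := norm_sub_le _ _
          _ ≤ _ := by gcongr
      have h5 : ‖z‖ ≤ ‖w‖ + ‖z - w‖ := by
        calc ‖z‖ = ‖w + (z - w)‖ := by rw [add_sub_cancel]
          _ ≤ _ := norm_add_le _ _
      have h6 : c ≤ 1 / 4 := min_le_left _ _
      rw [hz1] at h5
      linarith
    obtain ⟨f, hf1, hf2, hf3⟩ := exists_sep (Submodule.span 𝕜 A) z (by norm_num) hdist
    refine ⟨(z, f), hz1, ?_, hf2, ?_, ?_⟩
    · refine hf1.trans ?_
      norm_num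
    · intro s hs
      exact hf3 _ (Submodule.subset_span ⟨s, hs, rfl⟩)
    · intro s hs hs6
      have h1 := hzG (((1 / 6 : ℝ) : 𝕜) • s.2) (Or.inr ⟨s, hs, by simp only; rw [if_pos hs6]⟩)
      rw [smul_apply, norm_smul, RCLike.norm_ofReal, abs_of_pos (by norm_num)] at h1
      have h2 : c ≤ δ / 6 := min_le_right _ _
      linarith
  let J : Type u := μ.ord.ToType
  have hJμ : #J = μ := mk_ord_toType μ
  have hJ : ∀ i : J, #(Iio i) < μ := fun i => by
    have h := mk_Iio_lt (α := μ.ord.ToType) i (by simp)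
    rwa [mk_ord_toType] at h
  have hne : Nonempty (X × StrongDual 𝕜 X) := ⟨0⟩
  -- recursion
  have hf : ∃ f : Set (X × StrongDual 𝕜 X) → X × StrongDual 𝕜 X,
      ∀ S : Set (X × StrongDual 𝕜 X), #S < μ → P S (f S) := by
    refine ⟨fun S => if h : #S < μ then (hex S h).choose else 0, fun S hS => ?_⟩
    simp only [dif_pos hS]
    exact (hex S hS).choose_spec
  obtain ⟨f, hf⟩ := hf
  let F : ∀ i : J, (∀ j, j < i → X × StrongDual 𝕜 X) → X × StrongDual 𝕜 X :=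
    fun i ih => f {x | ∃ (j : J) (h : j < i), x = ih j h}
  let k : J → X × StrongDual 𝕜 X := WellFounded.fix (wellFounded_lt) F
  have hk : ∀ i, k i = f (k '' Iio i) := by
    intro i
    have h1 : k i = F i (fun j _ => k j) := WellFounded.fix_eq _ F i
    rw [h1]
    change f _ = f _
    congr 1
    ext x
    constructor
    · rintro ⟨j, hj, rfl⟩
      exact ⟨j, hj, rfl⟩
    · rintro ⟨j, hj, rfl⟩
      exact ⟨j, hj, rfl⟩
  have hkP : ∀ i, P (k '' Iio i) (k i) := fun i => by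
    have h2 := hf (k '' Iio i) (mk_image_le.trans_lt (hJ i))
    rwa [← hk i] at h2
  refine ⟨J, fun i => (k i).1, fun i => (k i).2, 6, hJμ, fun i => (hkP i).1.le,
    fun i => (hkP i).2.1, fun i => (hkP i).2.2.1, ?_⟩
  intro i j hij
  rcases lt_or_gt_of_ne hij with h | h
  · exact (hkP j).2.2.2.2 (k i) ⟨i, h, rfl⟩ (hkP i).2.1
  · rw [(hkP i).2.2.2.1 (k j) ⟨j, h, rfl⟩, norm_zero]
    exact hδ.le

/-- The general criterion. -/
theorem crit [CompleteSpace X] {μ : Cardinal.{u}} (hμ : ℵ₀ < μ) (hfam : AlmostBiorth 𝕜 X μ)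
    (S : Set X) (hS : #S ≤ μ) (G' : Set (StrongDual 𝕜 X)) (hG'c : #G' < μ)
    (hG' : ∀ g ∈ G', ‖g‖ ≤ 1) {c : ℝ} (hc : 0 < c)
    (hdist : ∀ x, ∃ g ∈ G',
      c * Metric.infDist x ((Submodule.span 𝕜 S : Submodule 𝕜 X) : Set X) ≤ ‖g x‖) :
    Far 𝕜 X := by
  classical
  let J : Type u := μ.ord.ToType
  have hJμ : #J = μ := mk_ord_toType μ
  have hJ : ∀ i : J, #(Iio i) < μ := fun i => by
    have h := mk_Iio_lt (α := μ.ord.ToType) i (by simp)
    rwa [mk_ord_toType] at h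
  have hinf : Infinite J := by rw [infinite_iff, hJμ]; exact hμ.le
  obtain ⟨i₀⟩ : Nonempty J := inferInstance
  obtain ⟨emb⟩ : Nonempty (S ↪ J) := by
    rw [← Cardinal.le_def, hJμ]
    exact hS
  let d : J → X := fun j => if h : ∃ s : S, emb s = j then (h.choose : X) else 0
  have hd : ∀ s : S, d (emb s) = s := by
    intro s
    have h : ∃ s' : S, emb s' = emb s := ⟨s, rfl⟩
    simp only [d, dif_pos h]
    exact congrArg Subtype.val (emb.injective h.choose_spec)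
  have hsmall : ∀ i : J, #(d '' Iic i) < μ := by
    intro i
    refine mk_image_le.trans_lt ?_
    have h1 : Iic i = insert i (Iio i) := by
      ext j
      simp only [mem_Iic, mem_insert_iff, mem_Iio]
      exact le_iff_eq_or_lt
    rw [h1]
    refine mk_insert_le.trans_lt ?_
    exact add_lt_of_lt hμ.le (hJ i) (one_lt_aleph0.trans hμ)
  have hmono : ∀ {i j : J}, i ≤ j → d '' Iic i ⊆ d '' Iic j := fun h =>
    image_mono (Iic_subset_Iic.mpr h)
  have hunion : ∀ w ∈ Submodule.span 𝕜 S, ∃ j : J, w ∈ Submodule.span 𝕜 (d '' Iic j) := by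
    intro w hw
    induction hw using Submodule.span_induction with
    | mem s hs =>
      exact ⟨emb ⟨s, hs⟩, Submodule.subset_span ⟨emb ⟨s, hs⟩, mem_Iic.mpr le_rfl, hd _⟩⟩
    | zero => exact ⟨i₀, Submodule.zero_mem _⟩
    | add x y _ _ hx hy =>
      obtain ⟨i, hi⟩ := hx
      obtain ⟨j, hj⟩ := hy
      refine ⟨max i j, Submodule.add_mem _ ?_ ?_⟩
      · exact Submodule.span_mono (hmono (le_max_left _ _)) hi
      · exact Submodule.span_mono (hmono (le_max_right _ _)) hj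
    | smul r x _ hx =>
      obtain ⟨i, hi⟩ := hx
      exact ⟨i, Submodule.smul_mem _ _ hi⟩
  apply far3 (J := J) i₀ (fun j => GG 𝕜 (d '' Iic j)) (fun j => GG_norm 𝕜 _)
    (fun i j h => GG_mono 𝕜 (hmono h)) (fun j => Submodule.span 𝕜 (d '' Iic j))
    (fun i j h => Submodule.span_mono (hmono h)) (C₀ := 2) (by norm_num)
    (fun j y hy => GG_norming 𝕜 hy) G' hG' (C₁ := c⁻¹) (by positivity)
  · intro x ζ η hζ hη hx
    obtain ⟨g, hg, hgx⟩ := hdist x
    have h1 : Metric.infDist x ((Submodule.span 𝕜 S : Submodule 𝕜 X) : Set X) < c⁻¹ * ζ + η := by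
      have h2 := hgx.trans (hx g hg)
      have h3 : Metric.infDist x ((Submodule.span 𝕜 S : Submodule 𝕜 X) : Set X) ≤ c⁻¹ * ζ := by
        rw [inv_mul_eq_div, le_div_iff₀ hc]
        linarith
      linarith
    obtain ⟨w, hw, hxw⟩ := (Metric.infDist_lt_iff ⟨0, Submodule.zero_mem _⟩).mp h1
    obtain ⟨j, hj⟩ := hunion w hw
    refine ⟨j, w, hj, ?_⟩
    rw [← dist_eq_norm, dist_comm]
    exact hxw.le
  · intro δ hδ
    obtain ⟨I, x, f, D, hI, h1, h2, h3, h4⟩ := hfam δ hδ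
    refine ⟨I, x, f, D, by rwa [hI], ?_, by rwa [hI], h1, h2, h3, h4⟩
    intro j
    rw [hI]
    exact (GG_card 𝕜 _).trans_lt (max_lt (hsmall j) hμ)

end Pool.Agent.Helper358.BP
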