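import Pool.Agent.Helper358.BP6

/-!
Two more criteria: finite-dimensional spaces which are not uniformly complemented, and spaces whose
density is a strong limit cardinal.
-/

set_option autoImplicit false

namespace Pool.Agent.Helper358.BP

open Filter Topology Set Cardinal

universe u

variable {𝕜 : Type} [RCLike 𝕜] {X : Type u} [NormedAddCommGroup X] [NormedSpace 𝕜 X]

/-- Every infinite-dimensional space contains complemented copies of all finite-dimensional
spaces. -/
theorem exists_copy (hX : ¬ FiniteDimensional 𝕜 X) (E : Type u) [NormedAddCommGroup E]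
    [NormedSpace 𝕜 E] [FiniteDimensional 𝕜 E] :
    ∃ (a : E →L[𝕜] X) (b : X →L[𝕜] E), ∀ e, b (a e) = e := by
  classical
  have hrank : (Module.finrank 𝕜 E : Cardinal) ≤ Module.rank 𝕜 X := by
    have h1 : ℵ₀ ≤ Module.rank 𝕜 X := by
      by_contra hcon
      exact hX (Module.rank_lt_aleph0_iff.mp (not_le.mp hcon))
    exact (natCast_lt_aleph0.le).trans h1
  obtain ⟨s, hs, hli⟩ := exists_finset_linearIndependent_of_le_rank hrank
  let eq : Fin (Module.finrank 𝕜 E) ≃ s := Fintype.equivOfCardEq (by simp [hs])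
  let bE := Module.finBasis 𝕜 E
  let a₀ : E →ₗ[𝕜] X := bE.constr 𝕜 (fun i => ((eq i : s) : X))
  have ha₀ : Function.Injective a₀ := by
    have hli' : LinearIndependent 𝕜 (fun i => a₀ (bE i)) := by
      have h1 : (fun i => a₀ (bE i)) = (fun x : s => (x : X)) ∘ eq := by
        ext i
        simp [a₀]
      rw [h1]
      exact LinearIndependent.comp hli eq eq.injective
    rw [← LinearMap.ker_eq_bot]
    rw [LinearMap.ker_eq_bot']
    intro e he
    have h2 : a₀ e = ∑ i, bE.repr e i • a₀ (bE i) := by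
      calc a₀ e = a₀ (∑ i, bE.repr e i • bE i) := by rw [bE.sum_repr]
        _ = ∑ i, bE.repr e i • a₀ (bE i) := by
          rw [map_sum]
          simp only [map_smul]
    rw [h2] at he
    have h3 := Fintype.linearIndependent_iff.mp hli' (fun i => bE.repr e i) he
    rw [← bE.sum_repr e]
    simp [h3]
  let a : E →L[𝕜] X := LinearMap.toContinuousLinearMap a₀
  have haa : ∀ e, a e = a₀ e := fun e => rfl
  let F : Submodule 𝕜 X := LinearMap.range a₀
  have hF : FiniteDimensional 𝕜 F := inferInstance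
  obtain ⟨P, hP⟩ := Submodule.ClosedComplemented.of_finiteDimensional F
  let inv : F →ₗ[𝕜] E := (LinearEquiv.ofInjective a₀ ha₀).symm
  let b : X →L[𝕜] E := (LinearMap.toContinuousLinearMap inv).comp P
  refine ⟨a, b, fun e => ?_⟩
  have h1 : P (a e) = ⟨a₀ e, LinearMap.mem_range_self a₀ e⟩ := hP ⟨a₀ e, LinearMap.mem_range_self a₀ e⟩
  change inv (P (a e)) = e
  rw [h1]
  exact (LinearEquiv.ofInjective a₀ ha₀).symm_apply_apply e

/-- If finite-dimensional spaces are not uniformly complemented, the diameter is infinite. -/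
theorem far_of_fin [CompleteSpace X] (hX : ¬ FiniteDimensional 𝕜 X)
    (h : ∀ C : ℝ, ∃ (E : Type u) (_ : NormedAddCommGroup E) (_ : NormedSpace 𝕜 E)
      (_ : FiniteDimensional 𝕜 E), ∀ (a : E →L[𝕜] X) (b : X →L[𝕜] E), (∀ e, b (a e) = e) →
      C < ‖a‖ * ‖b‖) : Far 𝕜 X := by
  intro M
  obtain ⟨E, i1, i2, i3, hE⟩ := h M
  obtain ⟨a, b, hab⟩ := exists_copy hX E
  have hcE : CompleteSpace E := FiniteDimensional.complete 𝕜 E
  let K : Submodule 𝕜 X := LinearMap.ker (b : X →ₗ[𝕜] E)
  have hK : IsClosed (K : Set X) := b.isClosed_ker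
  have hcK : CompleteSpace K := hK.completeSpace_coe
  have hmem : ∀ x, x - a (b x) ∈ K := fun x => by
    change b (x - a (b x)) = 0
    rw [map_sub, hab, sub_self]
  let f : X →L[𝕜] E × K := b.prod
    ((ContinuousLinearMap.id 𝕜 X - a.comp b).codRestrict K hmem)
  let g : E × K →L[𝕜] X := a.comp (ContinuousLinearMap.fst 𝕜 E K) +
    K.subtypeL.comp (ContinuousLinearMap.snd 𝕜 E K)
  have hf : ∀ x, f x = (b x, ⟨x - a (b x), hmem x⟩) := fun x => rfl
  have hg : ∀ z, g z = a z.1 + (z.2 : X) := fun z => rfl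
  let e : X ≃L[𝕜] E × K := ContinuousLinearEquiv.equivOfInverse f g
    (fun x => by
      rw [hf, hg]
      simp) (fun z => by
      rw [hg, hf]
      have h1 : b (z.2 : X) = 0 := z.2.2
      have h2 : b (a z.1 + (z.2 : X)) = z.1 := by rw [map_add, hab, h1, add_zero]
      apply Prod.ext
      · exact h2
      · apply Subtype.ext
        simp only
        rw [h2]
        abel)
  refine ⟨X, E × K, inferInstance, inferInstance, inferInstance, inferInstance, inferInstance,
    inferInstance, ⟨ContinuousLinearEquiv.refl 𝕜 X⟩, ⟨e⟩, fun T => ?_⟩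
  let a' : E →L[𝕜] X := (T.symm : E × K →L[𝕜] X).comp (ContinuousLinearMap.inl 𝕜 E K)
  let b' : X →L[𝕜] E := (ContinuousLinearMap.fst 𝕜 E K).comp (T : X →L[𝕜] E × K)
  have h1 := hE a' b' (fun e => by
    change (T (T.symm (e, 0))).1 = e
    rw [T.apply_symm_apply])
  have h2 : ‖a'‖ ≤ ‖(T.symm : E × K →L[𝕜] X)‖ := by
    refine (ContinuousLinearMap.opNorm_comp_le _ _).trans ?_
    have h3 : ‖ContinuousLinearMap.inl 𝕜 E K‖ ≤ 1 := by
      apply ContinuousLinearMap.opNorm_le_bound _ zero_le_one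
      intro x
      rw [ContinuousLinearMap.inl_apply, one_mul, Prod.norm_def]
      simp
    calc ‖(T.symm : E × K →L[𝕜] X)‖ * ‖ContinuousLinearMap.inl 𝕜 E K‖ ≤
          ‖(T.symm : E × K →L[𝕜] X)‖ * 1 := by gcongr
      _ = _ := mul_one _
  have h3 : ‖b'‖ ≤ ‖(T : X →L[𝕜] E × K)‖ := by
    refine (ContinuousLinearMap.opNorm_comp_le _ _).trans ?_
    have h3 : ‖ContinuousLinearMap.fst 𝕜 E K‖ ≤ 1 := ContinuousLinearMap.norm_fst_le 𝕜 E K
    calc ‖ContinuousLinearMap.fst 𝕜 E K‖ * ‖(T : X →L[𝕜] E × K)‖ ≤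
          1 * ‖(T : X →L[𝕜] E × K)‖ := by gcongr
      _ = _ := one_mul _
  calc M ≤ ‖a'‖ * ‖b'‖ := h1.le
    _ ≤ ‖(T.symm : E × K →L[𝕜] X)‖ * ‖(T : X →L[𝕜] E × K)‖ := by gcongr
    _ = _ := mul_comm _ _

/-- The cardinality of the scalar field. -/
theorem mk_field_le : #𝕜 ≤ 2 ^ (ℵ₀ : Cardinal.{0}) := by
  have hinj : Function.Injective (fun z : 𝕜 => ((RCLike.re z : ℝ), (RCLike.im z : ℝ))) := by
    intro z w h
    simp only [Prod.mk.injEq] at h
    exact RCLike.ext h.1 h.2
  have h1 := mk_le_of_injective hinj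
  rw [mk_prod, lift_id, mk_real, continuum_mul_self] at h1
  simpa using h1

/-- If the density is a strong limit cardinal, all norming sets are large. -/
theorem norming_of_strongLimit {κ : Cardinal.{u}} (hκ : ℵ₀ < κ)
    (hstrong : ∀ μ < κ, (2 : Cardinal.{u}) ^ μ < κ) (hX : κ ≤ #X) (G : Set (StrongDual 𝕜 X))
    (hG : ∃ c > (0 : ℝ), ∀ x, ∃ g ∈ G, c * ‖x‖ ≤ ‖g x‖) : κ ≤ #G := by
  obtain ⟨c, hc, h⟩ := hG
  by_contra hcon
  push Not at hcon
  let F : X → (G → ULift.{u} 𝕜) := fun x g => ULift.up (g.1 x)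
  have hinj : Function.Injective F := by
    intro x y hxy
    obtain ⟨g, hg, hgx⟩ := h (x - y)
    have h1 : g x = g y := congrArg ULift.down (congrFun hxy ⟨g, hg⟩)
    rw [map_sub, h1, sub_self, norm_zero] at hgx
    have h2 : ‖x - y‖ ≤ 0 := by
      by_contra h3
      push Not at h3
      have : 0 < c * ‖x - y‖ := mul_pos hc h3
      linarith
    exact sub_eq_zero.mp (norm_le_zero_iff.mp h2)
  have h1 := mk_le_of_injective hinj
  have h2 : #(G → ULift.{u} 𝕜) ≤ 2 ^ (ℵ₀ * #G) := by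
    rw [mk_pi, prod_const, lift_id, lift_id, power_mul]
    apply power_le_power_right
    rw [mk_uLift]
    have h3 := lift_le.{u}.mpr (mk_field_le (𝕜 := 𝕜))
    simpa using h3
  have h3 : ℵ₀ * #G < κ := mul_lt_of_lt hκ.le hκ hcon
  exact absurd (hX.trans (h1.trans h2)) (not_le.mpr (hstrong _ h3))

end Pool.Agent.Helper358.BP
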