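import Mathlib

set_option autoImplicit false

/-!
# A coherent system of finite sets on `ω₁`

For a well order all of whose initial segments are countable we construct finite sets
`F α n ⊆ Iic α` (`n : ℕ`), increasing in `n`, with union `Iic α`, coherent
(`ξ ∈ F α n → F ξ n = F α n ∩ Iic ξ`) and with `card (F α n) ≤ n + 1`.
-/

namespace Pool.Agent.Helper358.BQ

open Set

variable {W : Type} [LinearOrder W]

def PP (a : ℕ → W) (Φ : W → ℕ → Finset W) (k n : ℕ) : Prop :=
  ∀ m, n ≤ m → (∀ i, i < k → a i ∈ Φ (a (i + 1)) m) ∧ (Φ (a k) m).card + k + 1 ≤ m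

open Classical in
noncomputable def kk (a : ℕ → W) (Φ : W → ℕ → Finset W) (n : ℕ) : ℕ :=
  Nat.findGreatest (fun k => PP a Φ k n) n

open Classical in
noncomputable def stepF (α : W) (a : ℕ → W) (Φ : W → ℕ → Finset W) (n : ℕ) : Finset W :=
  if ∃ k, k ≤ n ∧ PP a Φ k n then insert α (Φ (a (kk a Φ n)) n) else {α}

open Classical in
noncomputable def extF (α : W) (Φ : (β : W) → β < α → ℕ → Finset W) (β : W) : ℕ → Finset W :=
  if h : β < α then Φ β h else fun _ => ∅

/-- The good properties of `F α`. -/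
structure Good (F : W → ℕ → Finset W) (α : W) : Prop where
  self : ∀ n, α ∈ F α n
  mono : ∀ n, F α n ⊆ F α (n + 1)
  le : ∀ n ξ, ξ ∈ F α n → ξ ≤ α
  ex : ∀ ξ, ξ ≤ α → ∃ n, ξ ∈ F α n
  coh : ∀ n ξ, ξ ∈ F α n → ∀ ζ, ζ ∈ F ξ n ↔ ζ ∈ F α n ∧ ζ ≤ ξ
  card : ∀ n, (F α n).card ≤ n + 1
  slow : ∀ k, ∃ N, ∀ m, N ≤ m → (F α m).card + k + 1 ≤ m

theorem Good.mono' {F : W → ℕ → Finset W} {α : W} (h : Good F α) {m n : ℕ} (hmn : m ≤ n) :
    F α m ⊆ F α n := monotone_nat_of_le_succ (f := F α) (fun n => h.mono n) hmn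

omit [LinearOrder W] in
theorem kk_mono {a : ℕ → W} {Φ : W → ℕ → Finset W} {n : ℕ} (h : ∃ k, k ≤ n ∧ PP a Φ k n) :
    PP a Φ (kk a Φ n) n ∧ kk a Φ n ≤ n ∧ (∀ k, k ≤ n → PP a Φ k n → k ≤ kk a Φ n) := by
  classical
  obtain ⟨k, hk, hP⟩ := h
  refine ⟨?_, Nat.findGreatest_le n, fun k hk hP => ?_⟩
  · exact Nat.findGreatest_spec (P := fun k => PP a Φ k n) hk hP
  · exact Nat.le_findGreatest (P := fun k => PP a Φ k n) hk hP

omit [LinearOrder W] in
theorem PP.mono {a : ℕ → W} {Φ : W → ℕ → Finset W} {k m n : ℕ} (h : PP a Φ k m) (hmn : m ≤ n) :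
    PP a Φ k n := fun p hp => h p (hmn.trans hp)

/-- The step. -/
theorem good_step {F : W → ℕ → Finset W} {α : W} {a : ℕ → W} (haα : ∀ k, a k < α)
    (ham : Monotone a) (hac : ∀ ξ, ξ < α → ∃ k, ξ ≤ a k)
    (hF : ∀ β, β < α → Good F β) {Φ : W → ℕ → Finset W} (hΦ : ∀ β, β < α → Φ β = F β)
    (hα : F α = stepF α a Φ) : Good F α := by
  classical
  have hG : ∀ k, Good F (a k) := fun k => hF _ (haα k)
  have hPPe : ∀ k n, PP a Φ k n ↔ PP a F k n := by
    intro k n
    unfold PP
    refine forall_congr' fun m => forall_congr' fun _ => ?_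
    rw [hΦ _ (haα k)]
    refine and_congr_left fun _ => forall_congr' fun i => forall_congr' fun _ => ?_
    rw [hΦ _ (haα (i + 1))]
  -- existence of `P k n`
  have hex : ∀ k, ∃ n, PP a F k n := by
    intro k
    have h1 : ∀ j, ∃ n, ∀ m, n ≤ m → ∀ i, i < j → a i ∈ F (a (i + 1)) m := by
      intro j
      induction j with
      | zero => exact ⟨0, fun m _ i hi => absurd hi (Nat.not_lt_zero i)⟩
      | succ j ih =>
        obtain ⟨n, hn⟩ := ih
        obtain ⟨n', hn'⟩ := (hG (j + 1)).ex _ (ham (Nat.le_succ j))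
        refine ⟨max n n', fun m hm i hi => ?_⟩
        rcases Nat.lt_succ_iff_lt_or_eq.mp hi with h | h
        · exact hn m (le_trans (le_max_left _ _) hm) i h
        · subst h
          exact (hG (i + 1)).mono' (le_trans (le_max_right _ _) hm) hn'
    obtain ⟨n, hn⟩ := h1 k
    obtain ⟨N, hN⟩ := (hG k).slow k
    exact ⟨max n N, fun m hm => ⟨hn m (le_trans (le_max_left _ _) hm),
      hN m (le_trans (le_max_right _ _) hm)⟩⟩
  -- chain
  have chain : ∀ k m, PP a F k m → ∀ p, m ≤ p → ∀ i, i ≤ k → F (a i) p ⊆ F (a k) p := by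
    intro k m hP p hp i hi
    induction k with
    | zero => rw [Nat.le_zero.mp hi]
    | succ k ih =>
      rcases Nat.le_succ_iff.mp hi with h | h
      · have hstep : ∀ j, j < k + 1 → F (a j) p ⊆ F (a (j + 1)) p := by
          intro j hj ζ hζ
          have h1 := (hP p hp).1 j hj
          exact (((hG (j + 1)).coh p _ h1 ζ).mp hζ).1
        have : ∀ j, i ≤ j → j ≤ k + 1 → F (a i) p ⊆ F (a j) p := by
          intro j hij
          induction j, hij using Nat.le_induction with
          | base => intro _; exact Finset.Subset.refl _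
          | succ j hij ihj =>
            intro hj
            exact (ihj (by omega)).trans (hstep j (by omega))
        exact this (k + 1) hi le_rfl
      · rw [h]
  -- unfolded value
  have hval : ∀ n, (∃ k, k ≤ n ∧ PP a F k n ∧ (∀ j, j ≤ n → PP a F j n → j ≤ k) ∧
      F α n = insert α (F (a k) n)) ∨ ((∀ k, k ≤ n → ¬ PP a F k n) ∧ F α n = {α}) := by
    intro n
    by_cases h : ∃ k, k ≤ n ∧ PP a Φ k n
    · left
      obtain ⟨h1, h2, h3⟩ := kk_mono h
      refine ⟨kk a Φ n, h2, (hPPe _ _).mp h1, fun j hj hP => h3 j hj ((hPPe _ _).mpr hP), ?_⟩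
      rw [hα, stepF, if_pos h, hΦ _ (haα _)]
    · right
      refine ⟨fun k hk hP => h ⟨k, hk, (hPPe _ _).mpr hP⟩, ?_⟩
      rw [hα, stepF, if_neg h]
  have hle : ∀ n ξ, ξ ∈ F α n → ξ ≤ α := by
    intro n ξ hξ
    rcases hval n with ⟨k, -, -, -, h⟩ | ⟨-, h⟩
    · rw [h, Finset.mem_insert] at hξ
      rcases hξ with rfl | hξ
      · exact le_rfl
      · exact ((hG k).le n ξ hξ).trans (haα k).le
    · rw [h, Finset.mem_singleton] at hξ
      exact hξ.le
  have hself : ∀ n, α ∈ F α n := by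
    intro n
    rcases hval n with ⟨k, -, -, -, h⟩ | ⟨-, h⟩ <;> rw [h] <;> simp
  have hbig : ∀ j, ∃ N, ∀ n, N ≤ n → ∃ k, j ≤ k ∧ k ≤ n ∧ PP a F k n ∧
      F α n = insert α (F (a k) n) := by
    intro j
    obtain ⟨N, hN⟩ := hex j
    refine ⟨max N j, fun n hn => ?_⟩
    have hjn : j ≤ n := le_trans (le_max_right _ _) hn
    have hPj : PP a F j n := hN.mono (le_trans (le_max_left _ _) hn)
    rcases hval n with ⟨k, h1, h2, h3, h4⟩ | ⟨h, -⟩
    · exact ⟨k, h3 j hjn hPj, h1, h2, h4⟩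
    · exact absurd hPj (h j hjn)
  refine ⟨hself, ?_, hle, ?_, ?_, ?_, ?_⟩
  · -- mono
    intro n ζ hζ
    rcases hval n with ⟨k, h1, h2, h3, h4⟩ | ⟨-, h⟩
    · have hP' : PP a F k (n + 1) := h2.mono (Nat.le_succ n)
      rcases hval (n + 1) with ⟨k', h1', h2', h3', h4'⟩ | ⟨h, -⟩
      · have hkk : k ≤ k' := h3' k (by omega) hP'
        rw [h4, Finset.mem_insert] at hζ
        rw [h4', Finset.mem_insert]
        rcases hζ with hζ | hζ
        · exact Or.inl hζ
        · right
          exact chain k' (n + 1) h2' (n + 1) le_rfl k hkk ((hG k).mono n hζ)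
      · exact absurd hP' (h k (by omega))
    · rw [h, Finset.mem_singleton] at hζ
      rw [hζ]; exact hself _
  · -- ex
    intro ξ hξ
    rcases hξ.lt_or_eq with h | h
    · obtain ⟨j, hj⟩ := hac ξ h
      obtain ⟨m, hm⟩ := (hG j).ex ξ hj
      obtain ⟨N, hN⟩ := hbig j
      obtain ⟨k, hjk, -, hP, hv⟩ := hN (max N m) (le_max_left _ _)
      refine ⟨max N m, ?_⟩
      rw [hv, Finset.mem_insert]
      right
      exact chain k _ hP _ le_rfl j hjk ((hG j).mono' (le_max_right _ _) hm)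
    · exact ⟨0, h ▸ hself 0⟩
  · -- coh
    intro n ξ hξ ζ
    rcases hval n with ⟨k, -, -, -, h⟩ | ⟨-, h⟩
    · have hξ' := hξ
      rw [h, Finset.mem_insert] at hξ'
      rcases hξ' with rfl | hξ'
      · exact ⟨fun hζ => ⟨hζ, hle n ζ hζ⟩, fun hζ => hζ.1⟩
      · rw [(hG k).coh n ξ hξ' ζ, h, Finset.mem_insert]
        constructor
        · exact fun hζ => ⟨Or.inr hζ.1, hζ.2⟩
        · rintro ⟨h1 | h1, h2⟩
          · exfalso
            have := (hG k).le n ξ hξ'
            exact absurd (h1 ▸ h2.trans this) (not_le.mpr (haα k))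
          · exact ⟨h1, h2⟩
    · rw [h, Finset.mem_singleton] at hξ
      subst hξ
      exact ⟨fun hζ => ⟨hζ, hle n ζ hζ⟩, fun hζ => hζ.1⟩
  · -- card
    intro n
    rcases hval n with ⟨k, -, h2, -, h⟩ | ⟨-, h⟩
    · rw [h]
      have h3 := (h2 n le_rfl).2
      have h4 := Finset.card_insert_le α (F (a k) n)
      omega
    · rw [h]; simp
  · -- slow
    intro j
    obtain ⟨N, hN⟩ := hbig (j + 1)
    refine ⟨N, fun m hm => ?_⟩
    obtain ⟨k, hjk, -, hP, hv⟩ := hN m hm
    rw [hv]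
    have h3 := (hP m le_rfl).2
    have h4 := Finset.card_insert_le α (F (a k) m)
    omega

theorem good_bot {F : W → ℕ → Finset W} {α : W} (hmin : ∀ β, ¬ β < α)
    (hα : ∀ n, F α n = {α}) : Good F α := by
  refine ⟨fun n => by simp [hα n], fun n => by rw [hα, hα], fun n ξ hξ => ?_, fun ξ hξ => ?_,
    fun n ξ hξ ζ => ?_, fun n => by simp [hα n], fun k => ⟨k + 2, fun m hm => ?_⟩⟩
  · rw [hα, Finset.mem_singleton] at hξ; exact hξ.le
  · refine ⟨0, ?_⟩
    rw [hα, Finset.mem_singleton]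
    rcases hξ.lt_or_eq with h | h
    · exact absurd h (hmin ξ)
    · exact h
  · rw [hα, Finset.mem_singleton] at hξ
    subst hξ
    rw [hα, Finset.mem_singleton]
    exact ⟨fun h => ⟨h, h.le⟩, fun h => h.1⟩
  · simp [hα m]; omega

variable [WellFoundedLT W]

/-- existence of a coherent system -/
theorem exists_good (hc : ∀ a : W, (Set.Iic a).Countable) :
    ∃ F : W → ℕ → Finset W, ∀ α, Good F α := by
  classical
  -- cofinal monotone sequences
  have hseq : ∀ α : W, ∃ a : ℕ → W, (∃ β, β < α) →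
      (∀ k, a k < α) ∧ Monotone a ∧ ∀ ξ, ξ < α → ∃ k, ξ ≤ a k := by
    intro α
    by_cases h : ∃ β, β < α
    · obtain ⟨β, hβ⟩ := h
      have hcount : (Set.Iio α).Countable := (hc α).mono Set.Iio_subset_Iic_self
      obtain ⟨e, he⟩ := hcount.exists_eq_range ⟨β, hβ⟩
      have hlt : ∀ k, e k < α := fun k => by
        have : e k ∈ Set.Iio α := by rw [he]; exact Set.mem_range_self k
        exact this
      refine ⟨fun k => (Finset.range (k + 1)).sup' ⟨0, by simp⟩ e, fun _ => ⟨fun k => ?_, ?_, ?_⟩⟩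
      · rw [Finset.sup'_lt_iff]
        exact fun i _ => hlt i
      · intro i j hij
        apply Finset.sup'_mono
        exact Finset.range_subset_range.mpr (by omega)
      · intro ξ hξ
        have : ξ ∈ Set.range e := he ▸ hξ
        obtain ⟨k, rfl⟩ := this
        exact ⟨k, Finset.le_sup' e (by simp)⟩
    · exact ⟨fun _ => α, fun h' => absurd h' h⟩
  choose sq hsq using hseq
  let F : W → ℕ → Finset W := WellFounded.fix (wellFounded_lt (α := W))
    (fun α Φ => stepF α (sq α) (extF α Φ))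
  have hF : ∀ α, F α = stepF α (sq α) (extF α (fun β _ => F β)) := by
    intro α
    exact WellFounded.fix_eq _ _ α
  refine ⟨F, fun α => ?_⟩
  induction α using WellFoundedLT.induction with
  | ind α ih =>
    by_cases h : ∃ β, β < α
    · obtain ⟨h1, h2, h3⟩ := hsq α h
      refine good_step h1 h2 h3 ih (Φ := extF α (fun β _ => F β)) (fun β hβ => ?_) (hF α)
      unfold extF
      rw [dif_pos hβ]
    · push Not at h
      have hmin : ∀ β, ¬ β < α := fun β => not_lt.mpr (h β)
      refine good_bot hmin (fun n => ?_)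
      rw [hF α]
      unfold stepF
      split_ifs with h'
      · have : extF α (fun β _ => F β) = fun _ _ => (∅ : Finset W) := by
          funext β m
          unfold extF
          rw [dif_neg (hmin β)]
        rw [this]
        exact insert_empty_eq α
      · rfl

end Pool.Agent.Helper358.BQ
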