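import Mathlib
import Pool.Agent.Helper358.BQ1

set_option autoImplicit false

/-!
# The compact space `K_ρ`
-/

namespace Pool.Agent.Helper358.BQ

open Set

variable {W : Type} [LinearOrder W]

open Classical in
noncomputable def ind (S : Set W) : W → Bool := fun ξ => decide (ξ ∈ S)

omit [LinearOrder W] in
@[simp] theorem ind_apply {S : Set W} {ξ : W} : ind S ξ = true ↔ ξ ∈ S := by
  simp [ind]

/-- The compact set. -/
def KS (F : W → ℕ → Finset W) : Set (W → Bool) :=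
  {A | ∀ ξ, A ξ = true → (∃ n, ∀ ζ, ζ ≤ ξ → (A ζ = true ↔ ζ ∈ F ξ n)) ∨ ∀ ζ, ζ ≤ ξ → A ζ = true}

/-- The family of finite sets. -/
def GG (F : W → ℕ → Finset W) : Set (Finset W) := {G | G = ∅ ∨ ∃ α n, G = F α n}

variable {F : W → ℕ → Finset W}

theorem closed_KS (hF : ∀ α, Good F α) : IsClosed (KS F) := by
  classical
  have h1 : ∀ ξ ζ, ζ ≤ ξ → ∃ N, ∀ n, N ≤ n → ζ ∈ F ξ n := by
    intro ξ ζ h
    obtain ⟨N, hN⟩ := (hF ξ).ex ζ h
    exact ⟨N, fun n hn => (hF ξ).mono' hn hN⟩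
  choose! N hN using h1
  have hcoord : ∀ (ξ : W) (b : Bool), IsClosed {A : W → Bool | A ξ = b} := fun ξ b =>
    isClosed_eq (continuous_apply ξ) continuous_const
  have hD : ∀ (ξ : W) (n : ℕ),
      IsClosed {A : W → Bool | ∀ ζ, ζ ≤ ξ → (A ζ = true ↔ ζ ∈ F ξ n)} := by
    intro ξ n
    simp only [Set.ofPred_forall]
    refine isClosed_iInter fun ζ => isClosed_iInter fun _ => ?_
    by_cases h : ζ ∈ F ξ n
    · simpa [h] using hcoord ζ true
    · simpa [h] using hcoord ζ false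
  have heq : KS F = ⋂ ξ : W, ({A : W → Bool | A ξ = false} ∪
      ⋂ ζ : W, ⋂ _ : ζ ≤ ξ, ({A : W → Bool | A ζ = true} ∪
        ⋃ n ∈ Finset.range (N ξ ζ), {A : W → Bool | ∀ η, η ≤ ξ → (A η = true ↔ η ∈ F ξ n)})) := by
    ext A
    simp only [KS, Set.mem_ofPred_eq, Set.mem_iInter, Set.mem_union, Set.mem_iUnion, Finset.mem_range,
      exists_prop]
    constructor
    · intro h ξ
      rcases Bool.eq_false_or_eq_true (A ξ) with hA | hA
      · right
        intro ζ hζ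
        rcases h ξ hA with ⟨n, hn⟩ | hn
        · by_cases hnN : n < N ξ ζ
          · exact Or.inr ⟨n, hnN, hn⟩
          · exact Or.inl ((hn ζ hζ).mpr (hN ξ ζ hζ n (not_lt.mp hnN)))
        · exact Or.inl (hn ζ hζ)
      · exact Or.inl hA
    · intro h ξ hA
      rcases h ξ with h | h
      · rw [hA] at h; exact absurd h (by simp)
      · by_cases hall : ∀ ζ, ζ ≤ ξ → A ζ = true
        · exact Or.inr hall
        · push Not at hall
          obtain ⟨ζ, hζ, hAζ⟩ := hall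
          rcases h ζ hζ with h' | ⟨n, -, hn⟩
          · exact absurd h' hAζ
          · exact Or.inl ⟨n, hn⟩
  rw [heq]
  refine isClosed_iInter fun ξ => (hcoord ξ false).union ?_
  refine isClosed_iInter fun ζ => isClosed_iInter fun _ => (hcoord ζ true).union ?_
  exact isClosed_biUnion_finset fun n _ => hD ξ n

theorem ind_mem_KS (hF : ∀ α, Good F α) {G : Finset W} (hG : G ∈ GG F) :
    ind (G : Set W) ∈ KS F := by
  rcases hG with rfl | ⟨α, n, rfl⟩
  · intro ξ hξ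
    simp at hξ
  · intro ξ hξ
    rw [ind_apply, Finset.mem_coe] at hξ
    refine Or.inl ⟨n, fun ζ hζ => ?_⟩
    rw [ind_apply, Finset.mem_coe, (hF α).coh n ξ hξ ζ]
    exact ⟨fun h => ⟨h, hζ⟩, fun h => h.1⟩

theorem lower_mem_KS {S : Set W} (hS : ∀ ξ ∈ S, ∀ ζ, ζ ≤ ξ → ζ ∈ S) : ind S ∈ KS F := by
  intro ξ hξ
  rw [ind_apply] at hξ
  exact Or.inr fun ζ hζ => ind_apply.mpr (hS ξ hξ ζ hζ)

/-- bound on `n` from a missing element -/
theorem bound_of_missing (hF : ∀ α, Good F α) {A : W → Bool} (hA : A ∈ KS F) {ξ₀ ζ₀ : W}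
    (hξ₀ : A ξ₀ = true) (hζ₀ : ζ₀ ≤ ξ₀) (hζA : A ζ₀ = false) {N : ℕ} (hN : ζ₀ ∈ F ξ₀ N)
    {η : W} (hη : ξ₀ ≤ η) (hAη : A η = true) :
    ∃ n, n < N ∧ ∀ ζ, ζ ≤ η → (A ζ = true ↔ ζ ∈ F η n) := by
  rcases hA η hAη with ⟨n, hn⟩ | hn
  · refine ⟨n, ?_, hn⟩
    by_contra hnN
    have h1 : ξ₀ ∈ F η n := (hn ξ₀ hη).mp hξ₀
    have h2 : ζ₀ ∈ F ξ₀ n := (hF ξ₀).mono' (not_lt.mp hnN) hN
    have h3 : ζ₀ ∈ F η n := (((hF η).coh n ξ₀ h1 ζ₀).mp h2).1
    have h4 := (hn ζ₀ (hζ₀.trans hη)).mpr h3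
    rw [hζA] at h4
    exact absurd h4 (by simp)
  · have := hn ζ₀ (hζ₀.trans hη)
    rw [hζA] at this
    exact absurd this (by simp)

theorem trichotomy (hF : ∀ α, Good F α) {A : W → Bool} (hA : A ∈ KS F) :
    (∃ G ∈ GG F, A = ind (G : Set W)) ∨ (∀ ξ, A ξ = true → ∀ ζ, ζ ≤ ξ → A ζ = true) := by
  classical
  by_contra hcon
  push Not at hcon
  obtain ⟨hnot, ξ₀, hξ₀, ζ₀, hζ₀, hζA⟩ := hcon
  have hζA' : A ζ₀ = false := by simpa using hζA
  obtain ⟨N, hN⟩ := (hF ξ₀).ex ζ₀ hζ₀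
  have hb := fun {η : W} => bound_of_missing hF hA hξ₀ hζ₀ hζA' hN (η := η)
  have hfin : {ζ | A ζ = true}.Finite := by
    by_contra hinf
    obtain ⟨T, hT, hTc⟩ := (show ({ζ | A ζ = true} : Set W).Infinite from hinf).exists_subset_card_eq
      (N + 1)
    have hne : (insert ξ₀ T).Nonempty := ⟨ξ₀, Finset.mem_insert_self _ _⟩
    have hT' : ∀ ζ ∈ insert ξ₀ T, A ζ = true := by
      intro ζ hζ
      rcases Finset.mem_insert.mp hζ with rfl | h
      · exact hξ₀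
      · exact hT h
    have hmax := Finset.max'_mem _ hne
    have hle : ξ₀ ≤ (insert ξ₀ T).max' hne := Finset.le_max' _ _ (Finset.mem_insert_self _ _)
    obtain ⟨n, hnN, hn⟩ := hb hle (hT' _ hmax)
    have hsub : T ⊆ F ((insert ξ₀ T).max' hne) n := by
      intro ζ hζ
      have h1 : ζ ≤ (insert ξ₀ T).max' hne :=
        Finset.le_max' _ _ (Finset.mem_insert_of_mem hζ)
      exact (hn ζ h1).mp (hT hζ)
    have h2 := Finset.card_le_card hsub
    have h3 := (hF ((insert ξ₀ T).max' hne)).card n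
    omega
  have hne : hfin.toFinset.Nonempty := ⟨ξ₀, by simpa using hξ₀⟩
  have hmem : A (hfin.toFinset.max' hne) = true := by
    have := Finset.max'_mem _ hne
    simpa using this
  have hle : ξ₀ ≤ hfin.toFinset.max' hne := Finset.le_max' _ _ (by simpa using hξ₀)
  obtain ⟨n, hnN, hn⟩ := hb hle hmem
  refine hnot _ (Or.inr ⟨hfin.toFinset.max' hne, n, rfl⟩) ?_
  funext ζ
  rw [Bool.eq_iff_iff, ind_apply, Finset.mem_coe]
  constructor
  · intro h
    exact (hn ζ (Finset.le_max' _ _ (by simpa using h))).mp h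
  · intro h
    exact (hn ζ ((hF _).le n ζ h)).mpr h

theorem approx (hF : ∀ α, Good F α) {A : W → Bool} (hA : A ∈ KS F) (S : Finset W) :
    ∃ G ∈ GG F, ∀ ζ ∈ S, A ζ = ind (G : Set W) ζ := by
  classical
  rcases trichotomy hF hA with ⟨G, hG, rfl⟩ | hlow
  · exact ⟨G, hG, fun _ _ => rfl⟩
  · by_cases hT : (S.filter (fun ζ => A ζ = true)).Nonempty
    · have hmem := Finset.max'_mem _ hT
      have hAm : A ((S.filter (fun ζ => A ζ = true)).max' hT) = true := (Finset.mem_filter.mp hmem).2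
      set ξ := (S.filter (fun ζ => A ζ = true)).max' hT with hξ
      have hle : ∀ ζ ∈ S.filter (fun ζ => A ζ = true), ζ ≤ ξ := fun ζ hζ => Finset.le_max' _ _ hζ
      have h1 : ∀ ζ, ζ ≤ ξ → ∃ n, ζ ∈ F ξ n := fun ζ hζ => (hF ξ).ex ζ hζ
      choose! m hm using h1
      refine ⟨F ξ ((S.filter (fun ζ => A ζ = true)).sup m), Or.inr ⟨_, _, rfl⟩, fun ζ hζ => ?_⟩
      rw [Bool.eq_iff_iff, ind_apply, Finset.mem_coe]
      constructor
      · intro h
        have h2 : ζ ∈ S.filter (fun ζ => A ζ = true) := Finset.mem_filter.mpr ⟨hζ, h⟩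
        exact (hF ξ).mono' (Finset.le_sup (f := m) h2) (hm ζ (hle ζ h2))
      · intro h
        exact hlow ξ hAm ζ ((hF ξ).le _ _ h)
    · refine ⟨∅, Or.inl rfl, fun ζ hζ => ?_⟩
      rw [Bool.eq_iff_iff, ind_apply]
      constructor
      · intro h
        exact absurd ⟨ζ, Finset.mem_filter.mpr ⟨hζ, h⟩⟩ hT
      · intro h
        simp at h

end Pool.Agent.Helper358.BQ
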