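import Mathlib
import Pool.Agent.Helper358.BQ2

set_option autoImplicit false

/-!
# `K_ρ` is scattered and not Eberlein
-/

namespace Pool.Agent.Helper358.BQ

open Set Filter Topology

variable {W : Type} [LinearOrder W] {F : W → ℕ → Finset W}

theorem isOpen_coord (ξ : W) (b : Bool) : IsOpen {C : KS F | C.1 ξ = b} := by
  have h : Continuous fun C : KS F => C.1 ξ := (continuous_apply ξ).comp continuous_subtype_val
  exact (isOpen_discrete {b}).preimage h

theorem scattered [WellFoundedLT W] (hF : ∀ α, Good F α) (s : Set (KS F)) (hs : s.Nonempty) :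
    ∃ x ∈ s, ∃ U : Set (KS F), IsOpen U ∧ U ∩ s = {x} := by
  classical
  by_cases hlow : ∀ A ∈ s, ∀ ξ, A.1 ξ = true → ∀ ζ, ζ ≤ ξ → A.1 ζ = true
  · by_cases hmiss : ∃ a, ∃ A ∈ s, A.1 a = false
    · obtain ⟨a, ⟨A, hA, hAa⟩, hmin⟩ := WellFounded.has_min (wellFounded_lt (α := W))
        {a | ∃ A ∈ s, A.1 a = false} hmiss
      have hcase : ∀ C ∈ s, C.1 a = false → C.1 = ind (Set.Iio a) := by
        intro C hC hCa
        funext ζ
        rw [Bool.eq_iff_iff, ind_apply, Set.mem_Iio]
        constructor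
        · intro h
          by_contra hζ
          have := hlow C hC ζ h a (not_lt.mp hζ)
          rw [hCa] at this
          exact absurd this (by simp)
        · intro h
          by_contra hζ
          exact hmin ζ ⟨C, hC, by simpa using hζ⟩ h
      refine ⟨A, hA, {C | C.1 a = false}, isOpen_coord a false, ?_⟩
      ext C
      simp only [Set.mem_inter_iff, Set.mem_singleton_iff]
      constructor
      · rintro ⟨h1, h2⟩
        exact Subtype.ext ((hcase C h2 h1).trans (hcase A hA hAa).symm)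
      · rintro rfl
        exact ⟨hAa, hA⟩
    · push Not at hmiss
      obtain ⟨A, hA⟩ := hs
      refine ⟨A, hA, Set.univ, isOpen_univ, ?_⟩
      ext C
      simp only [Set.mem_inter_iff, Set.mem_univ, true_and, Set.mem_singleton_iff]
      constructor
      · intro hC
        apply Subtype.ext
        funext ζ
        have h1 := hmiss ζ C hC
        have h2 := hmiss ζ A hA
        simp only [ne_eq, Bool.not_eq_false] at h1 h2
        rw [h1, h2]
      · rintro rfl
        exact hA
  · push Not at hlow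
    obtain ⟨A, hA, ξ₀, hξ₀, ζ₀, hζ₀, hζA⟩ := hlow
    have hζA' : A.1 ζ₀ = false := by simpa using hζA
    obtain ⟨N, hN⟩ := (hF ξ₀).ex ζ₀ hζ₀
    let P : ℕ → Prop := fun c => ∃ B ∈ s, ∃ G : Finset W, B.1 = ind (G : Set W) ∧ ξ₀ ∈ G ∧ ζ₀ ∉ G ∧
      G.card = c
    have hfinrep : ∀ C : KS F, C.1 ξ₀ = true → C.1 ζ₀ = false →
        ∃ G : Finset W, C.1 = ind (G : Set W) := by
      intro C h1 h2
      rcases trichotomy hF C.2 with ⟨G, -, hG⟩ | h
      · exact ⟨G, hG⟩
      · have := h ξ₀ h1 ζ₀ hζ₀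
        rw [h2] at this
        exact absurd this (by simp)
    have hbd : ∀ c, P c → c ≤ N := by
      rintro c ⟨B, hB, G, hG, h1, h2, rfl⟩
      have hBξ : B.1 ξ₀ = true := by rw [hG, ind_apply]; exact h1
      have hBζ : B.1 ζ₀ = false := by
        rw [← Bool.not_eq_true, hG, ind_apply]; exact h2
      have hne : G.Nonempty := ⟨ξ₀, h1⟩
      have hmem : B.1 (G.max' hne) = true := by
        rw [hG, ind_apply]; exact Finset.max'_mem _ hne
      obtain ⟨n, hn, hn'⟩ := bound_of_missing hF B.2 hBξ hζ₀ hBζ hN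
        (Finset.le_max' _ _ h1) hmem
      have hsub : G ⊆ F (G.max' hne) n := by
        intro ζ hζ
        refine (hn' ζ (Finset.le_max' _ _ hζ)).mp ?_
        rw [hG, ind_apply]; exact hζ
      have h3 := Finset.card_le_card hsub
      have h4 := (hF (G.max' hne)).card n
      omega
    have hPex : ∃ c, P c := by
      obtain ⟨G, hG⟩ := hfinrep A hξ₀ hζA'
      refine ⟨G.card, A, hA, G, hG, ?_, ?_, rfl⟩
      · rw [hG, ind_apply] at hξ₀; exact hξ₀
      · intro h
        rw [← Bool.not_eq_true, hG, ind_apply] at hζA'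
        exact hζA' h
    obtain ⟨c₀, hc₀⟩ := hPex
    have hmaxP : P (Nat.findGreatest P N) := Nat.findGreatest_spec (hbd c₀ hc₀) hc₀
    have hmax : ∀ c, P c → c ≤ Nat.findGreatest P N := fun c hc => Nat.le_findGreatest (hbd c hc) hc
    obtain ⟨B, hB, G, hG, h1, h2, hcard⟩ := hmaxP
    refine ⟨B, hB, (⋂ ξ ∈ G, {C : KS F | C.1 ξ = true}) ∩ {C : KS F | C.1 ζ₀ = false},
      (isOpen_biInter_finset fun ξ _ => isOpen_coord ξ true).inter (isOpen_coord ζ₀ false), ?_⟩
    ext C
    simp only [Set.mem_inter_iff, Set.mem_iInter, Set.mem_singleton_iff]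
    constructor
    · rintro ⟨⟨hC1, hC2⟩, hCs⟩
      have hCξ : C.1 ξ₀ = true := hC1 ξ₀ h1
      have hCζ : C.1 ζ₀ = false := hC2
      obtain ⟨G', hG'⟩ := hfinrep C hCξ hCζ
      have hsub : G ⊆ G' := by
        intro ξ hξ
        have h3 : C.1 ξ = true := hC1 ξ hξ
        rw [hG', ind_apply] at h3
        exact h3
      have hle : G'.card ≤ G.card := by
        rw [hcard]
        refine hmax _ ⟨C, hCs, G', hG', hsub h1, ?_, rfl⟩
        intro h
        rw [← Bool.not_eq_true, hG', ind_apply] at hCζ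
        exact hCζ h
      have heq : G = G' := Finset.eq_of_subset_of_card_le hsub hle
      apply Subtype.ext
      rw [hG', hG, heq]
    · rintro rfl
      refine ⟨⟨fun ξ hξ => ?_, ?_⟩, hB⟩
      · show C.1 ξ = true
        rw [hG, ind_apply]; exact hξ
      · show C.1 ζ₀ = false
        rw [← Bool.not_eq_true, hG, ind_apply]; exact h2

section NotEberlein

variable {E : Type} [NormedAddCommGroup E] [NormedSpace ℝ E]

/-- the point `Iio a` of `K`. -/
noncomputable def qpt (a : W) : KS F :=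
  ⟨ind (Set.Iio a), lower_mem_KS (fun _ hξ _ hζ => lt_of_le_of_lt hζ hξ)⟩

/-- the point `W` of `K`. -/
noncomputable def ppt : KS F := ⟨ind Set.univ, lower_mem_KS (fun _ _ _ _ => Set.mem_univ _)⟩

theorem exists_bound (hc : ∀ a : W, (Set.Iic a).Countable) (hu : ¬ (Set.univ : Set W).Countable)
    (C : Set W) (hC : C.Countable) : ∃ b, ∀ a ∈ C, a < b := by
  have h1 : (⋃ a ∈ C, Set.Iic a).Countable := hC.biUnion fun a _ => hc a
  by_contra hcon
  push Not at hcon
  apply hu
  refine h1.mono fun b _ => ?_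
  obtain ⟨a, ha, hab⟩ := hcon b
  exact Set.mem_biUnion ha hab

theorem tendsto_qpt (hc : ∀ a : W, (Set.Iic a).Countable) (hu : ¬ (Set.univ : Set W).Countable) :
    Tendsto (fun a : W => (qpt a : KS F)) atTop (𝓝 ppt) := by
  rw [tendsto_subtype_rng, tendsto_pi_nhds]
  intro ξ
  obtain ⟨b, hb⟩ := exists_bound hc hu {ξ} (Set.countable_singleton ξ)
  have hξb : ξ < b := hb ξ rfl
  refine tendsto_nhds_of_eventually_eq ?_
  filter_upwards [Filter.mem_atTop b] with a ha
  have h1 : ξ < a := lt_of_lt_of_le hξb ha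
  show ind (Set.Iio a) ξ = ind Set.univ ξ
  rw [Bool.eq_iff_iff, ind_apply, ind_apply]
  exact ⟨fun _ => trivial, fun _ => h1⟩

theorem not_inj (hF : ∀ α, Good F α) (hc : ∀ a : W, (Set.Iic a).Countable)
    (hu : ¬ (Set.univ : Set W).Countable) (e : KS F → WeakSpace ℝ E) (he : Continuous e) :
    ¬ Function.Injective e := by
  classical
  intro hinj
  have : Nonempty W := by
    by_contra h
    rw [not_nonempty_iff] at h
    exact hu (Set.to_countable _)
  have : CompactSpace (KS F) := isCompact_iff_compactSpace.mp (closed_KS hF).isCompact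
  let y : KS F → E := fun A => (toWeakSpace ℝ E).symm (e A)
  have hy : ∀ φ : StrongDual ℝ E, Continuous fun A => φ (y A) := fun φ =>
    (WeakBilin.eval_continuous (topDualPairing ℝ E).flip φ).comp he
  have hyinj : Function.Injective y := (toWeakSpace ℝ E).symm.injective.comp hinj
  -- finite sets
  have hT : ∀ n k : ℕ, ∃ T : Finset W, ∀ φ : Fin n → StrongDual ℝ E, (∀ i, ‖φ i‖ ≤ 1) →
      ∃ a ∈ T, ∀ i, |φ i (y (qpt a)) - φ i (y ppt)| < 1 / (k + 1 : ℝ) := by
    intro n k
    let B : Set (Fin n → WeakDual ℝ E) := Set.pi Set.univ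
      (fun _ => WeakDual.toStrongDual ⁻¹' Metric.closedBall (0 : StrongDual ℝ E) 1)
    have hB : IsCompact B := isCompact_univ_pi fun _ => WeakDual.isCompact_closedBall (0 : StrongDual ℝ E) 1
    obtain ⟨T, hT⟩ := hB.elim_finite_subcover
      (fun a : W => {φ : Fin n → WeakDual ℝ E |
        ∀ i, |φ i (y (qpt a)) - φ i (y ppt)| < 1 / (k + 1 : ℝ)})
      (by
        intro a
        simp only [Set.ofPred_forall]
        refine isOpen_iInter_of_finite fun i => ?_
        refine isOpen_lt (Continuous.abs ?_) continuous_const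
        exact ((WeakDual.eval_continuous _).comp (continuous_apply i)).sub
          ((WeakDual.eval_continuous _).comp (continuous_apply i)))
      (by
        intro φ _
        have h1 : ∀ i : Fin n, ∀ᶠ a in (atTop : Filter W),
            |φ i (y (qpt a)) - φ i (y ppt)| < 1 / (k + 1 : ℝ) := by
          intro i
          have h2 : Tendsto (fun a : W => φ i (y (qpt a))) atTop (𝓝 (φ i (y ppt))) :=
            ((hy (WeakDual.toStrongDual (φ i))).tendsto ppt).comp (tendsto_qpt hc hu)
          have h3 : (0 : ℝ) < 1 / (k + 1 : ℝ) := by positivity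
          have := Metric.tendsto_nhds.mp h2 _ h3
          simpa [Real.dist_eq] using this
        obtain ⟨a, ha⟩ := (Filter.eventually_all.mpr h1).exists
        exact Set.mem_iUnion.mpr ⟨a, ha⟩)
    refine ⟨T, fun φ hφ => ?_⟩
    have hmem : (fun i => (WeakDual.toStrongDual.symm (φ i) : WeakDual ℝ E)) ∈ B := by
      intro i _
      simp only [Set.mem_preimage, mem_closedBall_zero_iff]
      exact hφ i
    obtain ⟨a, h1⟩ := Set.mem_iUnion.mp (hT hmem)
    obtain ⟨ha, h2⟩ := Set.mem_iUnion.mp h1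
    exact ⟨a, ha, h2⟩
  choose T hT using hT
  obtain ⟨b, hb⟩ := exists_bound hc hu (⋃ n, ⋃ k, (T n k : Set W))
    (Set.countable_iUnion fun n => Set.countable_iUnion fun k => (T n k).countable_toSet)
  -- separation
  have hcl : IsClosed {A : KS F | A.1 b = false} := by
    have h : Continuous fun C : KS F => C.1 b := (continuous_apply b).comp continuous_subtype_val
    exact (isClosed_discrete {false}).preimage h
  obtain ⟨t, ht⟩ := hcl.isCompact.elim_finite_subcover
    (fun p : {φ : StrongDual ℝ E // ‖φ‖ ≤ 1} × ℕ =>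
      {A : KS F | 1 / (p.2 + 1 : ℝ) < |p.1.1 (y A) - p.1.1 (y ppt)|})
    (fun p => isOpen_lt continuous_const ((hy p.1.1).sub continuous_const).abs) (by
      intro A hA
      have hne : y A ≠ y ppt := by
        intro h
        have h1 := hyinj h
        have h2 : A.1 b = false := hA
        rw [h1] at h2
        have h3 : (ppt : KS F).1 b = true := ind_apply.mpr trivial
        rw [h3] at h2
        exact absurd h2 (by simp)
      obtain ⟨φ, hφ⟩ := SeparatingDual.exists_separating_of_ne (R := ℝ) hne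
      have hφ0 : 0 < ‖φ‖ := by
        rw [norm_pos_iff]
        rintro rfl
        exact hφ (by simp)
      have hψ : ‖(‖φ‖⁻¹ • φ)‖ ≤ 1 := by
        rw [norm_smul, norm_inv, norm_norm, inv_mul_cancel₀ hφ0.ne']
      have hpos : 0 < |(‖φ‖⁻¹ • φ) (y A) - (‖φ‖⁻¹ • φ) (y ppt)| := by
        rw [abs_pos]
        simp only [smul_apply, smul_eq_mul]
        rw [← mul_sub]
        exact mul_ne_zero (inv_ne_zero hφ0.ne') (sub_ne_zero.mpr hφ)
      obtain ⟨k, hk⟩ := exists_nat_one_div_lt hpos
      exact Set.mem_iUnion.mpr ⟨(⟨‖φ‖⁻¹ • φ, hψ⟩, k), hk⟩)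
  -- finish
  let n := t.card
  let em : Fin n ≃ t := t.equivFin.symm
  let φ : Fin n → StrongDual ℝ E := fun i => (em i).1.1.1
  let k := t.sup (fun p => p.2)
  obtain ⟨a, ha, hak⟩ := hT n k φ (fun i => (em i).1.1.2)
  have hab : a < b := hb a (Set.mem_iUnion.mpr ⟨n, Set.mem_iUnion.mpr ⟨k, ha⟩⟩)
  have hq : (qpt a : KS F) ∈ {A : KS F | A.1 b = false} := by
    show ind (Set.Iio a) b = false
    rw [← Bool.not_eq_true, ind_apply]
    exact not_lt.mpr hab.le
  obtain ⟨p, h1⟩ := Set.mem_iUnion.mp (ht hq)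
  obtain ⟨hp, h2⟩ := Set.mem_iUnion.mp h1
  have h3 : 1 / (p.2 + 1 : ℝ) < |p.1.1 (y (qpt a)) - p.1.1 (y ppt)| := h2
  have h4 := hak (t.equivFin ⟨p, hp⟩)
  have h5 : φ (t.equivFin ⟨p, hp⟩) = p.1.1 := by
    show (t.equivFin.symm (t.equivFin ⟨p, hp⟩)).1.1.1 = p.1.1
    rw [Equiv.symm_apply_apply]
  rw [h5] at h4
  have h6 : p.2 ≤ k := Finset.le_sup (f := fun p : {φ : StrongDual ℝ E // ‖φ‖ ≤ 1} × ℕ => p.2) hp
  have h7 : 1 / (k + 1 : ℝ) ≤ 1 / (p.2 + 1 : ℝ) := by
    apply one_div_le_one_div_of_le (by positivity)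
    have : (p.2 : ℝ) ≤ k := by exact_mod_cast h6
    linarith
  linarith

end NotEberlein

end Pool.Agent.Helper358.BQ
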