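import Mathlib
import Pool.Agent.Helper358.BQ3

set_option autoImplicit false

/-!
# A `1`-norming Markushevich basis of `C(K_ρ)`
-/

namespace Pool.Agent.Helper358.BQ

open Set Filter Topology

variable {W : Type} [LinearOrder W] {F : W → ℕ → Finset W}

noncomputable def bv (b : Bool) : ℝ := if b = true then 1 else 0

noncomputable def xf (F : W → ℕ → Finset W) (G : Finset W) : C(KS F, ℝ) where
  toFun A := ∏ ξ ∈ G, bv (A.1 ξ)
  continuous_toFun := by
    refine continuous_finsetProd _ fun ξ _ => ?_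
    exact (continuous_of_discreteTopology (f := bv)).comp
      ((continuous_apply ξ).comp continuous_subtype_val)

theorem xf_one {G : Finset W} {A : KS F} (h : ∀ ξ ∈ G, A.1 ξ = true) : xf F G A = 1 := by
  show ∏ ξ ∈ G, bv (A.1 ξ) = 1
  refine Finset.prod_eq_one fun ξ hξ => ?_
  rw [h ξ hξ]; simp [bv]

theorem xf_zero {G : Finset W} {A : KS F} {ξ : W} (hξ : ξ ∈ G) (h : A.1 ξ = false) :
    xf F G A = 0 := by
  show ∏ ξ ∈ G, bv (A.1 ξ) = 0
  refine Finset.prod_eq_zero hξ ?_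
  rw [h]; simp [bv]

open Classical in
theorem xf_apply (G : Finset W) (A : KS F) :
    xf F G A = if ∀ ξ ∈ G, A.1 ξ = true then 1 else 0 := by
  split_ifs with h
  · exact xf_one h
  · push Not at h
    obtain ⟨ξ, hξ, h⟩ := h
    exact xf_zero hξ (by simpa using h)

theorem xf_empty : xf F ∅ = 1 := by
  ext A
  rw [xf_one (by simp)]
  rfl

theorem xf_mul_aux (hF : ∀ α, Good F α) {α β : W} (hαβ : α ≤ β) (m k : ℕ) :
    ∃ n, xf F (F α m) * xf F (F β k) = xf F (F β n) := by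
  classical
  have hex : ∃ n, F α m ⊆ F β n ∧ F β k ⊆ F β n := by
    have h1 : ∀ ξ, ξ ∈ F α m → ∃ n, ξ ∈ F β n := fun ξ hξ =>
      (hF β).ex ξ (((hF α).le m ξ hξ).trans hαβ)
    choose! g hg using h1
    refine ⟨max k ((F α m).sup g), fun ξ hξ => ?_, (hF β).mono' (le_max_left _ _)⟩
    exact (hF β).mono' ((Finset.le_sup (f := g) hξ).trans (le_max_right _ _)) (hg ξ hξ)
  refine ⟨Nat.find hex, ?_⟩
  obtain ⟨hs1, hs2⟩ := Nat.find_spec hex
  ext A
  show xf F (F α m) A * xf F (F β k) A = xf F (F β (Nat.find hex)) A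
  by_cases h : ∀ ξ ∈ F β (Nat.find hex), A.1 ξ = true
  · rw [xf_one h, xf_one (fun ξ hξ => h ξ (hs1 hξ)), xf_one (fun ξ hξ => h ξ (hs2 hξ)), one_mul]
  · have h0 : xf F (F β (Nat.find hex)) A = 0 := by
      rw [xf_apply, if_neg h]
    rw [h0]
    by_contra hne
    apply h
    have hne1 : xf F (F α m) A ≠ 0 := fun h' => hne (by rw [h', zero_mul])
    have hne2 : xf F (F β k) A ≠ 0 := fun h' => hne (by rw [h', mul_zero])
    have ha : ∀ ξ ∈ F α m, A.1 ξ = true := by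
      by_contra h'
      exact hne1 (by rw [xf_apply, if_neg h'])
    have hb : ∀ ξ ∈ F β k, A.1 ξ = true := by
      by_contra h'
      exact hne2 (by rw [xf_apply, if_neg h'])
    intro ξ hξ
    rcases A.2 β (hb β ((hF β).self k)) with ⟨n, hn⟩ | hn
    · have h1 : Nat.find hex ≤ n := by
        apply Nat.find_min'
        exact ⟨fun ζ hζ => (hn ζ (((hF α).le m ζ hζ).trans hαβ)).mp (ha ζ hζ),
          fun ζ hζ => (hn ζ ((hF β).le k ζ hζ)).mp (hb ζ hζ)⟩
      exact (hn ξ ((hF β).le _ ξ hξ)).mpr ((hF β).mono' h1 hξ)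
    · exact hn ξ ((hF β).le _ ξ hξ)

theorem xf_mul (hF : ∀ α, Good F α) {G G' : Finset W} (hG : G ∈ GG F) (hG' : G' ∈ GG F) :
    ∃ H ∈ GG F, xf F G * xf F G' = xf F H := by
  rcases hG with rfl | ⟨α, m, rfl⟩
  · exact ⟨G', hG', by rw [xf_empty, one_mul]⟩
  · rcases hG' with rfl | ⟨β, k, rfl⟩
    · exact ⟨F α m, Or.inr ⟨α, m, rfl⟩, by rw [xf_empty, mul_one]⟩
    · rcases le_total α β with h | h
      · obtain ⟨n, hn⟩ := xf_mul_aux hF h m k
        exact ⟨F β n, Or.inr ⟨β, n, rfl⟩, hn⟩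
      · obtain ⟨n, hn⟩ := xf_mul_aux hF h k m
        exact ⟨F α n, Or.inr ⟨α, n, rfl⟩, by rw [mul_comm, hn]⟩

/-- the point of `K` given by a finite set of the family -/
noncomputable def pt (hF : ∀ α, Good F α) {G : Finset W} (hG : G ∈ GG F) : KS F :=
  ⟨ind (G : Set W), ind_mem_KS hF hG⟩

theorem xf_pt (hF : ∀ α, Good F α) {G : Finset W} (hG : G ∈ GG F) (H : Finset W) [Decidable (H ⊆ G)] :
    xf F H (pt hF hG) = if H ⊆ G then 1 else 0 := by
  classical
  rw [xf_apply]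
  have : (∀ ξ ∈ H, (pt hF hG).1 ξ = true) ↔ H ⊆ G := by
    refine forall_congr' fun ξ => forall_congr' fun _ => ?_
    show ind (G : Set W) ξ = true ↔ _
    rw [ind_apply, Finset.mem_coe]
  simp only [this]

open Classical in
noncomputable def dl (hF : ∀ α, Good F α) (G : Finset W) : C(KS F, ℝ) →L[ℝ] ℝ :=
  if h : G ∈ GG F then ContinuousMap.evalCLM ℝ (pt hF h) else 0

open Classical in
noncomputable def ff (hF : ∀ α, Good F α) : Finset W → (C(KS F, ℝ) →L[ℝ] ℝ) :=
  Finset.strongInduction (p := fun _ => C(KS F, ℝ) →L[ℝ] ℝ) fun G ih =>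
    dl hF G - ∑ H ∈ (G.ssubsets.filter (· ∈ GG F)).attach,
      ih H.1 (Finset.mem_ssubsets.mp (Finset.mem_filter.mp H.2).1)

open Classical in
theorem ff_eq (hF : ∀ α, Good F α) (G : Finset W) :
    ff hF G = dl hF G - ∑ H ∈ G.ssubsets.filter (· ∈ GG F), ff hF H := by
  unfold ff
  rw [Finset.strongInduction_eq]
  congr 1
  exact Finset.sum_attach (G.ssubsets.filter (· ∈ GG F)) (fun H => ff hF H)

theorem dl_apply (hF : ∀ α, Good F α) {G : Finset W} (hG : G ∈ GG F) (y : C(KS F, ℝ)) :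
    dl hF G y = y (pt hF hG) := by
  unfold dl
  rw [dif_pos hG]
  rfl

open Classical in
theorem ff_xf (hF : ∀ α, Good F α) {G : Finset W} (hG : G ∈ GG F) {H : Finset W}
    (hH : H ∈ GG F) : ff hF G (xf F H) = if G = H then 1 else 0 := by
  induction G using Finset.strongInduction with
  | H G ih =>
    rw [ff_eq, sub_apply, dl_apply hF hG, xf_pt, sum_apply]
    have h1 : ∑ G' ∈ G.ssubsets.filter (· ∈ GG F), ff hF G' (xf F H) =
        ∑ G' ∈ G.ssubsets.filter (· ∈ GG F), if G' = H then (1 : ℝ) else 0 := by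
      refine Finset.sum_congr rfl fun G' hG' => ?_
      obtain ⟨h1, h2⟩ := Finset.mem_filter.mp hG'
      exact ih G' (Finset.mem_ssubsets.mp h1) h2
    rw [h1, Finset.sum_ite_eq']
    simp only [Finset.mem_filter, Finset.mem_ssubsets, hH, and_true]
    by_cases h2 : H ⊆ G
    · rcases h2.eq_or_ssubset with h3 | h3
      · subst h3
        simp
      · rw [if_pos h2, if_pos h3, if_neg (fun h => by subst h; exact (ssubset_irrefl _ h3))]
        simp
    · rw [if_neg h2, if_neg (fun h => h2 h.1), if_neg (fun h => h2 (by rw [h]))]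
      simp

theorem dl_mem (hF : ∀ α, Good F α) {G : Finset W} (hG : G ∈ GG F) :
    dl hF G ∈ Submodule.span ℝ (Set.range fun i : GG F => ff hF i.1) := by
  classical
  have h := ff_eq hF G
  rw [eq_sub_iff_add_eq] at h
  rw [← h]
  refine Submodule.add_mem _ (Submodule.subset_span ⟨⟨G, hG⟩, rfl⟩) ?_
  refine Submodule.sum_mem _ fun H hH => ?_
  exact Submodule.subset_span ⟨⟨H, (Finset.mem_filter.mp hH).2⟩, rfl⟩

theorem dense_pt (hF : ∀ α, Good F α) : Dense {A : KS F | ∃ (G : Finset W) (hG : G ∈ GG F), A = pt hF hG} := by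
  classical
  rw [dense_iff_inter_open]
  rintro U hU ⟨A, hA⟩
  obtain ⟨V, hV, rfl⟩ := isOpen_induced_iff.mp hU
  obtain ⟨S, u, hu, hsub⟩ := isOpen_pi_iff.mp hV A.1 hA
  obtain ⟨G, hG, hGS⟩ := approx hF A.2 S
  refine ⟨pt hF hG, ?_, G, hG, rfl⟩
  apply hsub
  intro ζ hζ
  show ind (G : Set W) ζ ∈ u ζ
  rw [← hGS ζ hζ]
  exact (hu ζ hζ).2

theorem dense_span (hF : ∀ α, Good F α) :
    Dense (Submodule.span ℝ (Set.range fun i : GG F => xf F i.1) : Set C(KS F, ℝ)) := by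
  have : CompactSpace (KS F) := isCompact_iff_compactSpace.mp (closed_KS hF).isCompact
  let M : Submonoid C(KS F, ℝ) :=
    { carrier := Set.range fun i : GG F => xf F i.1
      one_mem' := ⟨⟨∅, Or.inl rfl⟩, xf_empty⟩
      mul_mem' := by
        rintro _ _ ⟨i, rfl⟩ ⟨j, rfl⟩
        obtain ⟨H, hH, h⟩ := xf_mul hF i.2 j.2
        exact ⟨⟨H, hH⟩, h.symm⟩ }
  have hspan : (Subalgebra.toSubmodule (Algebra.adjoin ℝ (M : Set C(KS F, ℝ)))) =
      Submodule.span ℝ (Set.range fun i : GG F => xf F i.1) := by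
    rw [Algebra.adjoin_eq_span, Submonoid.closure_eq]
    rfl
  have hsep : (Algebra.adjoin ℝ (M : Set C(KS F, ℝ))).SeparatesPoints := by
    intro A B hAB
    have hne : ∃ ξ, A.1 ξ ≠ B.1 ξ := by
      by_contra h
      push Not at h
      exact hAB (Subtype.ext (funext h))
    obtain ⟨ξ, hξ⟩ := hne
    refine ⟨xf F (F ξ 0), ⟨xf F (F ξ 0), Algebra.subset_adjoin ⟨⟨F ξ 0, Or.inr ⟨ξ, 0, rfl⟩⟩, rfl⟩, rfl⟩, ?_⟩
    have hone : ∀ C : KS F, C.1 ξ = true → xf F (F ξ 0) C = 1 := by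
      intro C hC
      apply xf_one
      intro ζ hζ
      rcases C.2 ξ hC with ⟨n, hn⟩ | hn
      · exact (hn ζ ((hF ξ).le 0 ζ hζ)).mpr ((hF ξ).mono' (Nat.zero_le n) hζ)
      · exact hn ζ ((hF ξ).le 0 ζ hζ)
    have hzero : ∀ C : KS F, C.1 ξ = false → xf F (F ξ 0) C = 0 := fun C hC =>
      xf_zero ((hF ξ).self 0) hC
    rcases Bool.eq_false_or_eq_true (A.1 ξ) with hA | hA <;>
      rcases Bool.eq_false_or_eq_true (B.1 ξ) with hB | hB
    · exact absurd (hA.trans hB.symm) hξ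
    · rw [hone A hA, hzero B hB]; norm_num
    · rw [hzero A hA, hone B hB]; norm_num
    · exact absurd (hA.trans hB.symm) hξ
  have htop := ContinuousMap.subalgebra_topologicalClosure_eq_top_of_separatesPoints _ hsep
  have h2 : Dense ((Algebra.adjoin ℝ (M : Set C(KS F, ℝ)) : Subalgebra ℝ C(KS F, ℝ)) :
      Set C(KS F, ℝ)) := by
    intro y
    have : y ∈ (Algebra.adjoin ℝ (M : Set C(KS F, ℝ))).topologicalClosure := by
      rw [htop]; exact Algebra.mem_top
    exact this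
  rw [← hspan]
  exact h2

theorem zero_of_pt (hF : ∀ α, Good F α) {y : C(KS F, ℝ)}
    (h : ∀ (G : Finset W) (hG : G ∈ GG F), y (pt hF hG) = 0) : y = 0 := by
  have h1 : (fun A => y A) = fun _ => (0 : ℝ) := by
    refine Continuous.ext_on (dense_pt hF) y.continuous continuous_const ?_
    rintro _ ⟨G, hG, rfl⟩
    exact h G hG
  ext A
  exact congrFun h1 A

theorem norming [CompactSpace (KS F)] (hF : ∀ α, Good F α) (y : C(KS F, ℝ)) :
    ∃ g ∈ Submodule.span ℝ (Set.range fun i : GG F => ff hF i.1), ‖g‖ ≤ 1 ∧ 1 / 2 * ‖y‖ ≤ |g y| := by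
  by_contra hcon
  push Not at hcon
  have hnorm : ∀ (G : Finset W), ‖dl hF G‖ ≤ 1 := by
    intro G
    refine ContinuousLinearMap.opNorm_le_bound _ zero_le_one fun z => ?_
    by_cases hG : G ∈ GG F
    · rw [dl_apply hF hG, one_mul]
      exact z.norm_coe_le_norm _
    · unfold dl
      rw [dif_neg hG]
      simp
  have h1 : ∀ (G : Finset W) (hG : G ∈ GG F), |y (pt hF hG)| ≤ 1 / 2 * ‖y‖ := by
    intro G hG
    have := hcon (dl hF G) (dl_mem hF hG) (hnorm G)
    rw [dl_apply hF hG] at this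
    exact this.le
  have h2 : ∀ A : KS F, ‖y A‖ ≤ 1 / 2 * ‖y‖ := by
    have hcl : IsClosed {A : KS F | ‖y A‖ ≤ 1 / 2 * ‖y‖} :=
      isClosed_le y.continuous.norm continuous_const
    have : (Set.univ : Set (KS F)) ⊆ {A : KS F | ‖y A‖ ≤ 1 / 2 * ‖y‖} := by
      rw [← (dense_pt hF).closure_eq]
      refine closure_minimal ?_ hcl
      rintro _ ⟨G, hG, rfl⟩
      exact h1 G hG
    exact fun A => this (Set.mem_univ A)
  have h3 : ‖y‖ ≤ 1 / 2 * ‖y‖ :=
    (ContinuousMap.norm_le y (by positivity)).mpr h2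
  have h4 : ‖y‖ = 0 := by
    have := norm_nonneg y
    linarith
  have h5 := hcon (dl hF ∅) (dl_mem hF (Or.inl rfl)) (hnorm ∅)
  rw [h4, mul_zero] at h5
  exact absurd h5 (not_lt.mpr (abs_nonneg _))

end Pool.Agent.Helper358.BQ
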