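import Mathlib

set_option autoImplicit false

namespace Pool.Agent.Helper358.LOne

universe u

/-- The ball `B(Γ) = {x ∈ ℝ^Γ : ∑ |x_i| ≤ 1}` (topology of pointwise convergence). -/
def Ball (Γ : Type u) : Set (Γ → ℝ) := {x | ∀ F : Finset Γ, ∑ i ∈ F, |x i| ≤ 1}

end Pool.Agent.Helper358.LOne
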