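import Mathlib

set_option autoImplicit false

namespace Pool.Agent.Helper358.Block

open Finset Filter Topology

/-- one step of the automaton: output coordinate -/
noncomputable def out (a b s y : ℝ) : ℝ :=
  min s (min (2 * s - min a (s + y)) (b * (1 - y / 4)))

/-- one step of the automaton: new carry -/
noncomputable def car (a b s y : ℝ) : ℝ := s + y - |out a b s y|

/-- backward step: the old carry from the output and the new carry -/
noncomputable def bck (a b x u : ℝ) : ℝ :=
  max x (max ((x + min a (|x| + u)) / 2) (|x| + u - 4 * (b - x) / b))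

lemma out_le_s (a b s y : ℝ) : out a b s y ≤ s := min_le_left _ _

lemma out_le_b {a b s y : ℝ} (hb : 0 < b) (hy : 0 ≤ y) : out a b s y ≤ b := by
  have h : out a b s y ≤ b * (1 - y / 4) := (min_le_right _ _).trans (min_le_right _ _)
  nlinarith

lemma neg_a_le_out {a b s y : ℝ} (ha : 0 ≤ a) (hb : 0 < b) (hs : 0 ≤ s) (hsy : s + y ≤ 1) :
    -a ≤ out a b s y := by
  have hm : min a (s + y) ≤ a := min_le_left _ _
  have h3 : 0 ≤ b * (1 - y / 4) := mul_nonneg hb.le (by linarith)
  refine le_min (by linarith) (le_min (by linarith) (by linarith))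

lemma neg_t_le_out {a b s y : ℝ} (hb : 0 < b) (hs : 0 ≤ s) (hy : 0 ≤ y) (hsy : s + y ≤ 1) :
    -(s + y) ≤ out a b s y := by
  have hm : min a (s + y) ≤ s + y := min_le_right _ _
  have h3 : 0 ≤ b * (1 - y / 4) := mul_nonneg hb.le (by linarith)
  refine le_min (by linarith) (le_min (by linarith) (by linarith))

lemma abs_out_le {a b s y : ℝ} (hb : 0 < b) (hs : 0 ≤ s) (hy : 0 ≤ y) (hsy : s + y ≤ 1) :
    |out a b s y| ≤ s + y :=
  abs_le.2 ⟨neg_t_le_out hb hs hy hsy, (out_le_s a b s y).trans (by linarith)⟩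

lemma car_nonneg {a b s y : ℝ} (hb : 0 < b) (hs : 0 ≤ s) (hy : 0 ≤ y) (hsy : s + y ≤ 1) :
    0 ≤ car a b s y := by
  have := abs_out_le (a := a) hb hs hy hsy
  unfold car; linarith

/-- the backward step recovers the old carry -/
lemma bck_out {a b s y : ℝ} (hb : 0 < b) :
    bck a b (out a b s y) (car a b s y) = s := by
  have ht : |out a b s y| + car a b s y = s + y := by unfold car; ring
  unfold bck
  rw [ht]
  set x := out a b s y with hx
  set A := min a (s + y) with hA
  have h1 : x ≤ s := min_le_left _ _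
  have h2 : x ≤ 2 * s - A := (min_le_right _ _).trans (min_le_left _ _)
  have h3 : x ≤ b * (1 - y / 4) := (min_le_right _ _).trans (min_le_right _ _)
  have h3' : s + y - 4 * (b - x) / b ≤ s := by
    have : y ≤ 4 * (b - x) / b := by
      rw [le_div_iff₀ hb]; nlinarith
    linarith
  have hor : x = s ∨ x = 2 * s - A ∨ x = b * (1 - y / 4) := by
    rcases min_choice s (min (2 * s - A) (b * (1 - y / 4))) with h | h
    · left; rw [hx]; unfold out; rw [← hA]; exact h
    · rcases min_choice (2 * s - A) (b * (1 - y / 4)) with h' | h'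
      · right; left; rw [hx]; unfold out; rw [← hA, h, h']
      · right; right; rw [hx]; unfold out; rw [← hA, h, h']
  apply le_antisymm
  · exact max_le h1 (max_le (by linarith) h3')
  · rcases hor with h | h | h
    · rw [← h]; exact le_max_left _ _
    · refine le_trans ?_ ((le_max_left _ _).trans (le_max_right _ _))
      linarith
    · refine le_trans ?_ ((le_max_right _ _).trans (le_max_right _ _))
      rw [h]
      have : 4 * (b - b * (1 - y / 4)) / b = y := by field_simp; ring
      rw [this]; linarith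

lemma bck_nonneg {a b x u : ℝ} (hax : -a ≤ x) (hu : 0 ≤ u) : 0 ≤ bck a b x u := by
  have h : 0 ≤ (x + min a (|x| + u)) / 2 := by
    have h1 : -x ≤ min a (|x| + u) := le_min (by linarith) (by linarith [neg_le_abs x])
    linarith
  exact h.trans ((le_max_left _ _).trans (le_max_right _ _))

lemma bck_le {a b x u : ℝ} (hb : 0 < b) (hxb : x ≤ b) (hu : 0 ≤ u) :
    bck a b x u ≤ |x| + u := by
  refine max_le (by linarith [le_abs_self x]) (max_le ?_ ?_)
  · have h1 : min a (|x| + u) ≤ |x| + u := min_le_right _ _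
    linarith [le_abs_self x]
  · have : 0 ≤ 4 * (b - x) / b := div_nonneg (by linarith) hb.le
    linarith

/-- the forward step undoes the backward step -/
lemma out_bck {a b x u : ℝ} (hb : 0 < b) :
    out a b (bck a b x u) (|x| + u - bck a b x u) = x := by
  unfold out
  have ht : bck a b x u + (|x| + u - bck a b x u) = |x| + u := by ring
  rw [ht]
  set t := |x| + u with htd
  set s := bck a b x u with hs
  set A := min a t with hA
  have h1 : x ≤ s := le_max_left _ _
  have h2 : (x + A) / 2 ≤ s := (le_max_left _ _).trans (le_max_right _ _)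
  have h3 : t - 4 * (b - x) / b ≤ s := (le_max_right _ _).trans (le_max_right _ _)
  have h3' : x ≤ b * (1 - (t - s) / 4) := by
    have : t - s ≤ 4 * (b - x) / b := by linarith
    rw [le_div_iff₀ hb] at this
    nlinarith
  have hor : s = x ∨ s = (x + A) / 2 ∨ s = t - 4 * (b - x) / b := by
    rcases max_choice x (max ((x + A) / 2) (t - 4 * (b - x) / b)) with h | h
    · left; rw [hs]; unfold bck; exact h
    · rcases max_choice ((x + A) / 2) (t - 4 * (b - x) / b) with h' | h'
      · right; left; rw [hs]; unfold bck; rw [← htd, ← hA, h, h']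
      · right; right; rw [hs]; unfold bck; rw [← htd, ← hA, h, h']
  apply le_antisymm
  · rcases hor with h | h | h
    · exact (min_le_left _ _).trans h.le
    · refine ((min_le_right _ _).trans (min_le_left _ _)).trans ?_
      linarith
    · refine ((min_le_right _ _).trans (min_le_right _ _)).trans ?_
      have h4 : t - s = 4 * (b - x) / b := by linarith
      rw [h4]
      have : b * (1 - 4 * (b - x) / b / 4) = x := by field_simp; ring
      exact this.le
  · exact le_min h1 (le_min (by linarith) h3')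

lemma car_bck {a b x u : ℝ} (hb : 0 < b) :
    car a b (bck a b x u) (|x| + u - bck a b x u) = u := by
  unfold car
  rw [out_bck hb]; ring

lemma bck_mono (a b x : ℝ) : Monotone (bck a b x) := by
  intro u v huv
  unfold bck
  refine max_le_max le_rfl (max_le_max ?_ (by linarith))
  have : min a (|x| + u) ≤ min a (|x| + v) := min_le_min le_rfl (by linarith)
  linarith

lemma bck_sub_le (a b x : ℝ) {u v : ℝ} (huv : u ≤ v) : bck a b x v ≤ bck a b x u + (v - u) := by
  have h1 : x ≤ bck a b x u := le_max_left _ _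
  have h2 : (x + min a (|x| + u)) / 2 ≤ bck a b x u := (le_max_left _ _).trans (le_max_right _ _)
  have h3 : |x| + u - 4 * (b - x) / b ≤ bck a b x u := (le_max_right _ _).trans (le_max_right _ _)
  refine max_le (by linarith) (max_le ?_ (by linarith))
  have h4 : min a (|x| + v) ≤ min a (|x| + u) + (v - u) := by
    rcases min_cases a (|x| + u) with h | h <;> rcases min_cases a (|x| + v) with h' | h' <;>
      linarith
  linarith

lemma abs_bck_sub_le (a b x u v : ℝ) : |bck a b x u - bck a b x v| ≤ |u - v| := by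
  rcases le_total u v with h | h
  · have h1 := bck_mono a b x h
    have h2 := bck_sub_le a b x h
    rw [abs_of_nonpos (by linarith), abs_of_nonpos (by linarith)]; linarith
  · have h1 := bck_mono a b x h
    have h2 := bck_sub_le a b x h
    rw [abs_of_nonneg (by linarith), abs_of_nonneg (by linarith)]; linarith

lemma continuous_bck (a b x : ℝ) : Continuous (bck a b x) := by
  unfold bck; fun_prop

/-- if the output is not close to `b`, the new carry is at most twice the input -/
lemma car_le {a b s y : ℝ} (hb : 0 < b) (ha : 0 ≤ a) (hs : 0 ≤ s) (hy : 0 ≤ y) (hsy : s + y ≤ 1)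
    (hx : out a b s y ≤ 3 / 4 * b) : car a b s y ≤ 2 * y := by
  have hB := bck_out (a := a) (s := s) (y := y) hb
  set x := out a b s y with hxd
  set u := car a b s y with hud
  have ht : |x| + u = s + y := by rw [hud]; unfold car; ring
  have hxt : |x| ≤ s + y := abs_out_le hb hs hy hsy
  have hxa : -a ≤ x := neg_a_le_out ha hb hs hsy
  unfold bck at hB
  rw [ht] at hB
  have h2 : (x + min a (s + y)) / 2 ≤ (|x| + (s + y)) / 2 := by
    have := min_le_right a (s + y)
    linarith [le_abs_self x]
  have h1 : x ≤ (|x| + (s + y)) / 2 := by linarith [le_abs_self x]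
  have h3 : s + y - 4 * (b - x) / b ≤ 0 := by
    have : 1 ≤ 4 * (b - x) / b := by
      rw [le_div_iff₀ hb]; linarith
    linarith
  have h0 : 0 ≤ (|x| + (s + y)) / 2 := by positivity
  have : s ≤ (|x| + (s + y)) / 2 := by
    rw [← hB]
    refine max_le ?_ (max_le ?_ ?_)
    · rw [hB]; exact h1
    · rw [hB]; exact h2
    · rw [hB]; exact h3.trans h0
  linarith

/-- the sequence of carries -/
noncomputable def carry (a b y : ℕ → ℝ) : ℕ → ℝ
  | 0 => y 0
  | n + 1 => car (a n) (b n) (carry a b y n) (y (n + 1))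

/-- the transformation of a sequence -/
noncomputable def G (a b y : ℕ → ℝ) (n : ℕ) : ℝ :=
  out (a n) (b n) (carry a b y n) (y (n + 1))

lemma continuous_carry (a b : ℕ → ℝ) (n : ℕ) : Continuous (fun y : ℕ → ℝ => carry a b y n) := by
  induction n with
  | zero => exact continuous_apply 0
  | succ n ih =>
    have : (fun y : ℕ → ℝ => carry a b y (n + 1)) =
        fun y : ℕ → ℝ => car (a n) (b n) (carry a b y n) (y (n + 1)) := rfl
    rw [this]
    unfold car out
    fun_prop

lemma continuous_G (a b : ℕ → ℝ) (n : ℕ) : Continuous (fun y : ℕ → ℝ => G a b y n) := by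
  have := continuous_carry a b n
  unfold G out
  fun_prop

/-- nonnegative sequences with sum at most one -/
def Ypos : Set (ℕ → ℝ) := {y | (∀ n, 0 ≤ y n) ∧ ∀ n, ∑ i ∈ range n, y i ≤ 1}

/-- sequences in the box with absolute sum at most one -/
def Xbox (a b : ℕ → ℝ) : Set (ℕ → ℝ) :=
  {x | (∀ n, -a n ≤ x n ∧ x n ≤ b n) ∧ ∀ n, ∑ i ∈ range n, |x i| ≤ 1}

section
variable {a b : ℕ → ℝ} (ha : ∀ n, 0 ≤ a n) (hb : ∀ n, 0 < b n)
include hb

omit hb in
lemma sum_identity (y : ℕ → ℝ) (n : ℕ) :
    ∑ i ∈ range n, |G a b y i| + carry a b y n = ∑ i ∈ range (n + 1), y i := by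
  induction n with
  | zero => simp [carry]
  | succ n ih =>
    rw [sum_range_succ, sum_range_succ (fun i => y i) (n + 1), ← ih]
    have : carry a b y (n + 1) = carry a b y n + y (n + 1) - |G a b y n| := rfl
    rw [this]; ring

lemma carry_facts {y : ℕ → ℝ} (hy : y ∈ Ypos) (n : ℕ) :
    0 ≤ carry a b y n ∧ carry a b y n + y (n + 1) ≤ 1 := by
  have key : ∀ n, 0 ≤ carry a b y n → carry a b y n + y (n + 1) ≤ 1 := by
    intro n hn
    have h1 := sum_identity (a := a) (b := b) y n
    have h2 := hy.2 (n + 2)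
    rw [sum_range_succ] at h2
    have h3 : 0 ≤ ∑ i ∈ range n, |G a b y i| := sum_nonneg fun i _ => abs_nonneg _
    linarith
  induction n with
  | zero => exact ⟨hy.1 0, key 0 (hy.1 0)⟩
  | succ n ih =>
    have : 0 ≤ carry a b y (n + 1) := car_nonneg (hb n) ih.1 (hy.1 _) ih.2
    exact ⟨this, key _ this⟩

omit hb in
lemma summable_Y {y : ℕ → ℝ} (hy : y ∈ Ypos) : Summable y :=
  summable_of_sum_range_le hy.1 hy.2

include ha in
lemma carry_tendsto {y : ℕ → ℝ} (hy : y ∈ Ypos)
    (hδ : ∃ δ > 0, ∃ᶠ n in atTop, δ ≤ b n) :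
    Tendsto (carry a b y) atTop (𝓝 0) := by
  have hsy := summable_Y hy
  have hGle : ∀ n, ∑ i ∈ range n, |G a b y i| ≤ 1 := by
    intro n
    have h1 := sum_identity (a := a) (b := b) y n
    have h2 := hy.2 (n + 1)
    have h3 := (carry_facts hb (a := a) hy n).1
    linarith
  have hsG : Summable (fun n => |G a b y n|) := summable_of_sum_range_le (fun n => abs_nonneg _) hGle
  -- the carries converge
  have hlim : Tendsto (carry a b y) atTop (𝓝 (∑' n, y n - ∑' n, |G a b y n|)) := by
    have e : carry a b y = fun n => ∑ i ∈ range (n + 1), y i - ∑ i ∈ range n, |G a b y i| := by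
      funext n
      have h1 := sum_identity (a := a) (b := b) y n
      linarith
    rw [e]
    exact ((tendsto_add_atTop_iff_nat 1).2 hsy.hasSum.tendsto_sum_nat).sub
      hsG.hasSum.tendsto_sum_nat
  obtain ⟨δ, hδ0, hfr⟩ := hδ
  have hG0 : Tendsto (fun n => |G a b y n|) atTop (𝓝 0) := hsG.tendsto_atTop_zero
  have hy0 : Tendsto (fun n => 2 * y (n + 1)) atTop (𝓝 0) := by
    have := ((tendsto_add_atTop_iff_nat 1).2 hsy.tendsto_atTop_zero).const_mul 2
    simpa using this
  have hev : ∀ᶠ n in atTop, |G a b y n| < 3 / 4 * δ :=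
    hG0.eventually_lt_const (by positivity)
  have hfr2 : ∃ᶠ n in atTop, carry a b y (n + 1) ≤ 2 * y (n + 1) := by
    refine (hfr.and_eventually hev).mono ?_
    rintro n ⟨h1, h2⟩
    have hc := carry_facts hb (a := a) hy n
    refine car_le (hb n) (ha n) hc.1 (hy.1 _) hc.2 ?_
    have h3 : G a b y n ≤ |G a b y n| := le_abs_self _
    have h4 : G a b y n ≤ 3 / 4 * b n := by linarith
    exact h4
  have hlim' : Tendsto (fun n => carry a b y (n + 1)) atTop
      (𝓝 (∑' n, y n - ∑' n, |G a b y n|)) := (tendsto_add_atTop_iff_nat 1).2 hlim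
  have hle : ∑' n, y n - ∑' n, |G a b y n| ≤ 0 :=
    le_of_tendsto_of_tendsto_of_frequently hlim' hy0 hfr2
  have hge : 0 ≤ ∑' n, y n - ∑' n, |G a b y n| :=
    ge_of_tendsto' hlim fun n => (carry_facts hb (a := a) hy n).1
  rwa [le_antisymm hle hge] at hlim

include ha in
lemma G_mem {y : ℕ → ℝ} (hy : y ∈ Ypos) : G a b y ∈ Xbox a b := by
  refine ⟨fun n => ?_, fun n => ?_⟩
  · have hc := carry_facts hb (a := a) hy n
    exact ⟨neg_a_le_out (ha n) (hb n) hc.1 hc.2, out_le_b (hb n) (hy.1 _)⟩
  · have h1 := sum_identity (a := a) (b := b) y n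
    have h2 := hy.2 (n + 1)
    have h3 := (carry_facts hb (a := a) hy n).1
    linarith

include ha in
lemma hasSum_G {y : ℕ → ℝ} (hy : y ∈ Ypos) (hδ : ∃ δ > 0, ∃ᶠ n in atTop, δ ≤ b n) :
    ∃ S, HasSum y S ∧ HasSum (fun n => |G a b y n|) S := by
  have hsy := summable_Y hy
  refine ⟨∑' n, y n, hsy.hasSum, ?_⟩
  rw [hasSum_iff_tendsto_nat_of_nonneg (fun n => abs_nonneg _)]
  have e : (fun n => ∑ i ∈ range n, |G a b y i|) =
      fun n => ∑ i ∈ range (n + 1), y i - carry a b y n := by
    funext n
    have h1 := sum_identity (a := a) (b := b) y n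
    linarith
  rw [e]
  have h1 := ((tendsto_add_atTop_iff_nat 1).2 hsy.hasSum.tendsto_sum_nat).sub
    (carry_tendsto ha hb hy hδ)
  simpa using h1

include ha in
lemma G_inj {y z : ℕ → ℝ} (hy : y ∈ Ypos) (hz : z ∈ Ypos)
    (hδ : ∃ δ > 0, ∃ᶠ n in atTop, δ ≤ b n) (h : G a b y = G a b z) : y = z := by
  have hyt := carry_tendsto ha hb hy hδ
  have hzt := carry_tendsto ha hb hz hδ
  have hback : ∀ (w : ℕ → ℝ) (n : ℕ),
      carry a b w n = bck (a n) (b n) (G a b w n) (carry a b w (n + 1)) := fun w n =>
    (bck_out (hb n)).symm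
  have hmono : Monotone (fun n => |carry a b y n - carry a b z n|) := by
    refine monotone_nat_of_le_succ fun n => ?_
    rw [hback y n, hback z n, h]
    exact abs_bck_sub_le _ _ _ _ _
  have hlim : Tendsto (fun n => |carry a b y n - carry a b z n|) atTop (𝓝 0) := by
    have := (hyt.sub hzt).abs
    simpa using this
  have hz0 : ∀ n, carry a b y n = carry a b z n := by
    intro n
    have h1 : |carry a b y n - carry a b z n| ≤ 0 :=
      ge_of_tendsto hlim (eventually_atTop.2 ⟨n, fun m hm => hmono hm⟩)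
    have h2 := abs_nonpos_iff.1 h1
    linarith
  funext n
  cases n with
  | zero => exact hz0 0
  | succ n =>
    have h1 : carry a b y (n + 1) = carry a b y n + y (n + 1) - |G a b y n| := rfl
    have h2 : carry a b z (n + 1) = carry a b z n + z (n + 1) - |G a b z n| := rfl
    have h3 := hz0 n
    have h4 := hz0 (n + 1)
    rw [h1, h2, h, h3] at h4
    linarith

end

/-- finite backward approximations -/
noncomputable def sg (a b x : ℕ → ℝ) : ℕ → ℕ → ℝ
  | 0, _ => 0
  | k + 1, n => bck (a n) (b n) (x n) (sg a b x k (n + 1))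

lemma G_surj {a b : ℕ → ℝ} (hb : ∀ n, 0 < b n) {x : ℕ → ℝ}
    (hx : x ∈ Xbox a b) : ∃ y ∈ Ypos, G a b y = x := by
  have hnn : ∀ k n, 0 ≤ sg a b x k n := by
    intro k
    induction k with
    | zero => intro n; exact le_rfl
    | succ k ih => intro n; exact bck_nonneg (hx.1 n).1 (ih _)
  have hmono : ∀ k n, sg a b x k n ≤ sg a b x (k + 1) n := by
    intro k
    induction k with
    | zero => intro n; exact hnn 1 n
    | succ k ih => intro n; exact bck_mono _ _ _ (ih _)
  have hbd : ∀ k n, ∑ i ∈ range n, |x i| + sg a b x k n ≤ 1 := by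
    intro k
    induction k with
    | zero => intro n; simpa [sg] using hx.2 n
    | succ k ih =>
      intro n
      have h1 := ih (n + 1)
      rw [sum_range_succ] at h1
      have h2 : sg a b x (k + 1) n ≤ |x n| + sg a b x k (n + 1) :=
        bck_le (hb n) (hx.1 n).2 (hnn _ _)
      linarith
  have hM : ∀ n, Monotone (fun k => sg a b x k n) := fun n =>
    monotone_nat_of_le_succ fun k => hmono k n
  have hBA : ∀ n, BddAbove (Set.range (fun k => sg a b x k n)) := by
    intro n
    refine ⟨1, ?_⟩
    rintro _ ⟨k, rfl⟩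
    have := hbd k n
    have h3 : 0 ≤ ∑ i ∈ range n, |x i| := sum_nonneg fun i _ => abs_nonneg _
    simp only; linarith
  set σ : ℕ → ℝ := fun n => ⨆ k, sg a b x k n with hσ
  have hlim : ∀ n, Tendsto (fun k => sg a b x k n) atTop (𝓝 (σ n)) := fun n =>
    tendsto_atTop_ciSup (hM n) (hBA n)
  have hrec : ∀ n, σ n = bck (a n) (b n) (x n) (σ (n + 1)) := by
    intro n
    have h1 : Tendsto (fun k => sg a b x (k + 1) n) atTop (𝓝 (σ n)) :=
      (tendsto_add_atTop_iff_nat 1).2 (hlim n)
    have h2 : Tendsto (fun k => sg a b x (k + 1) n) atTop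
        (𝓝 (bck (a n) (b n) (x n) (σ (n + 1)))) :=
      ((continuous_bck _ _ _).tendsto _).comp (hlim (n + 1))
    exact tendsto_nhds_unique h1 h2
  have hσ0 : ∀ n, 0 ≤ σ n := fun n => ge_of_tendsto' (hlim n) fun k => hnn k n
  have hσ1 : ∀ n, ∑ i ∈ range n, |x i| + σ n ≤ 1 := by
    intro n
    have := (hlim n).const_add (∑ i ∈ range n, |x i|)
    exact le_of_tendsto' this fun k => hbd k n
  let y : ℕ → ℝ := fun n => Nat.casesOn n (σ 0) (fun m => |x m| + σ (m + 1) - σ m)
  have hy0 : y 0 = σ 0 := rfl
  have hys : ∀ m, y (m + 1) = |x m| + σ (m + 1) - σ m := fun m => rfl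
  have hynn : ∀ n, 0 ≤ y n := by
    intro n
    cases n with
    | zero => rw [hy0]; exact hσ0 0
    | succ m =>
      rw [hys]
      have := bck_le (a := a m) (hb m) (hx.1 m).2 (hσ0 (m + 1))
      rw [← hrec m] at this
      linarith
  have hsum : ∀ n, ∑ i ∈ range (n + 1), y i = ∑ i ∈ range n, |x i| + σ n := by
    intro n
    induction n with
    | zero => simp [hy0]
    | succ n ih => rw [sum_range_succ, ih, hys, sum_range_succ]; ring
  have hcar : ∀ n, carry a b y n = σ n := by
    intro n
    induction n with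
    | zero => exact hy0
    | succ n ih =>
      have h1 : carry a b y (n + 1) = car (a n) (b n) (carry a b y n) (y (n + 1)) := rfl
      rw [h1, ih, hys]
      have h2 := car_bck (a := a n) (x := x n) (u := σ (n + 1)) (hb n)
      rwa [← hrec n] at h2
  refine ⟨y, ⟨hynn, ?_⟩, ?_⟩
  · intro n
    cases n with
    | zero => simp
    | succ n => rw [hsum]; exact hσ1 n
  · funext n
    unfold G
    rw [hcar, hys]
    have h2 := out_bck (a := a n) (x := x n) (u := σ (n + 1)) (hb n)
    rwa [← hrec n] at h2

end Pool.Agent.Helper358.Block
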