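import Mathlib
import Pool.Agent.Helper358.Block

set_option autoImplicit false

namespace Pool.Agent.Helper358.Box

open Finset Filter Topology Pool.Agent.Helper358.Block

universe u v

/-- nonnegative vectors with sum at most one -/
def Pos (κ : Type u) : Set (κ → ℝ) :=
  {y | (∀ i, 0 ≤ y i) ∧ ∀ s : Finset κ, ∑ i ∈ s, |y i| ≤ 1}

/-- vectors of the box with absolute sum at most one -/
def Bx {κ : Type u} (a b : κ → ℝ) : Set (κ → ℝ) :=
  {x | (∀ i, -a i ≤ x i ∧ x i ≤ b i) ∧ ∀ s : Finset κ, ∑ i ∈ s, |x i| ≤ 1}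

/-- the absolute sum -/
noncomputable def nn {κ : Type u} (x : κ → ℝ) : ENNReal := ∑' i, ENNReal.ofReal |x i|

lemma nn_le_one_iff {κ : Type u} (x : κ → ℝ) :
    nn x ≤ 1 ↔ ∀ s : Finset κ, ∑ i ∈ s, |x i| ≤ 1 := by
  unfold nn
  rw [ENNReal.tsum_eq_iSup_sum, iSup_le_iff]
  refine forall_congr' fun s => ?_
  rw [← ENNReal.ofReal_sum_of_nonneg fun i _ => abs_nonneg _, ENNReal.ofReal_le_one]

lemma range_iff (x : ℕ → ℝ) :
    (∀ n, ∑ i ∈ range n, |x i| ≤ 1) ↔ ∀ s : Finset ℕ, ∑ i ∈ s, |x i| ≤ 1 := by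
  constructor
  · intro h s
    obtain ⟨n, hn⟩ := s.exists_nat_subset_range
    exact (sum_le_sum_of_subset_of_nonneg hn fun i _ _ => abs_nonneg _).trans (h n)
  · intro h n; exact h _

lemma mem_Ypos_iff (y : ℕ → ℝ) : y ∈ Ypos ↔ (∀ n, 0 ≤ y n) ∧ nn y ≤ 1 := by
  rw [nn_le_one_iff, ← range_iff]
  refine and_congr_right fun h => forall_congr' fun n => ?_
  rw [sum_congr rfl fun i _ => abs_of_nonneg (h i)]

lemma mem_Xbox_iff (a b x : ℕ → ℝ) :
    x ∈ Xbox a b ↔ (∀ n, -a n ≤ x n ∧ x n ≤ b n) ∧ nn x ≤ 1 := by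
  rw [nn_le_one_iff, ← range_iff]; rfl

lemma mem_Pos_iff {κ : Type u} (y : κ → ℝ) : y ∈ Pos κ ↔ (∀ n, 0 ≤ y n) ∧ nn y ≤ 1 := by
  rw [nn_le_one_iff]; rfl

lemma mem_Bx_iff {κ : Type u} (a b x : κ → ℝ) :
    x ∈ Bx a b ↔ (∀ n, -a n ≤ x n ∧ x n ≤ b n) ∧ nn x ≤ 1 := by
  rw [nn_le_one_iff]; rfl

lemma nn_G {a b : ℕ → ℝ} (ha : ∀ n, 0 ≤ a n) (hb : ∀ n, 0 < b n) {y : ℕ → ℝ} (hy : y ∈ Ypos)
    (hδ : ∃ δ > 0, ∃ᶠ n in atTop, δ ≤ b n) : nn (G a b y) = nn y := by
  obtain ⟨S, h1, h2⟩ := hasSum_G ha hb hy hδ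
  unfold nn
  have e1 : (fun i => ENNReal.ofReal |y i|) = fun i => ENNReal.ofReal (y i) := by
    funext i; rw [abs_of_nonneg (hy.1 i)]
  rw [e1, ← ENNReal.ofReal_tsum_of_nonneg hy.1 h1.summable,
    ← ENNReal.ofReal_tsum_of_nonneg (fun n => abs_nonneg _) h2.summable, h1.tsum_eq, h2.tsum_eq]

/-- the blockwise map -/
noncomputable def F {κ : Type u} {J : Type v} (e : J × ℕ ≃ κ) (a b y : κ → ℝ) : κ → ℝ := fun i =>
  G (fun n => a (e ((e.symm i).1, n))) (fun n => b (e ((e.symm i).1, n)))
    (fun n => y (e ((e.symm i).1, n))) (e.symm i).2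

lemma F_apply {κ : Type u} {J : Type v} (e : J × ℕ ≃ κ) (a b y : κ → ℝ) (j : J) :
    (fun n => F e a b y (e (j, n))) =
      G (fun n => a (e (j, n))) (fun n => b (e (j, n))) (fun n => y (e (j, n))) := by
  funext n
  simp [F]

lemma nn_blocks {κ : Type u} {J : Type v} (e : J × ℕ ≃ κ) (x : κ → ℝ) :
    nn x = ∑' j, nn (fun n => x (e (j, n))) := by
  unfold nn
  rw [← e.tsum_eq]
  exact ENNReal.tsum_prod (f := fun j n => ENNReal.ofReal |x (e (j, n))|)

lemma nn_block_le {κ : Type u} {J : Type v} (e : J × ℕ ≃ κ) (x : κ → ℝ) (j : J) :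
    nn (fun n => x (e (j, n))) ≤ nn x := by
  rw [nn_blocks e x]
  exact ENNReal.le_tsum j

lemma bijOn_F {κ : Type u} {J : Type v} (e : J × ℕ ≃ κ) {a b : κ → ℝ} (ha : ∀ i, 0 ≤ a i)
    (hb : ∀ i, 0 < b i)
    (hδ : ∀ j, ∃ δ > 0, ∃ᶠ n in atTop, δ ≤ b (e (j, n))) :
    Set.BijOn (F e a b) (Pos κ) (Bx a b) := by
  have hblock : ∀ y ∈ Pos κ, ∀ j, (fun n => y (e (j, n))) ∈ Ypos := by
    intro y hy j
    rw [mem_Pos_iff] at hy
    rw [mem_Ypos_iff]
    exact ⟨fun n => hy.1 _, (nn_block_le e y j).trans hy.2⟩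
  have hnorm : ∀ y ∈ Pos κ, nn (F e a b y) = nn y := by
    intro y hy
    rw [nn_blocks e (F e a b y), nn_blocks e y]
    refine tsum_congr fun j => ?_
    rw [F_apply]
    exact nn_G (fun n => ha _) (fun n => hb _) (hblock y hy j) (hδ j)
  refine ⟨?_, ?_, ?_⟩
  · intro y hy
    rw [mem_Bx_iff]
    refine ⟨fun i => ?_, ?_⟩
    · have h := G_mem (fun n => ha (e ((e.symm i).1, n))) (fun n => hb (e ((e.symm i).1, n)))
        (hblock y hy (e.symm i).1)
      have h2 := h.1 (e.symm i).2
      simpa [F] using h2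
    · rw [hnorm y hy]; exact ((mem_Pos_iff y).1 hy).2
  · intro y hy z hz h
    have hj : ∀ j, (fun n => y (e (j, n))) = fun n => z (e (j, n)) := by
      intro j
      refine G_inj (a := fun n => a (e (j, n))) (b := fun n => b (e (j, n)))
        (fun n => ha _) (fun n => hb _) (hblock y hy j) (hblock z hz j) (hδ j) ?_
      rw [← F_apply, ← F_apply, h]
    funext i
    have := congrFun (hj (e.symm i).1) (e.symm i).2
    simpa using this
  · intro x hx
    rw [mem_Bx_iff] at hx
    have hxj : ∀ j, (fun n => x (e (j, n))) ∈ Xbox (fun n => a (e (j, n)))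
        (fun n => b (e (j, n))) := by
      intro j
      rw [mem_Xbox_iff]
      exact ⟨fun n => hx.1 _, (nn_block_le e x j).trans hx.2⟩
    choose Y hY hYG using fun j => G_surj (fun n => hb (e (j, n))) (hxj j)
    let y : κ → ℝ := fun i => Y (e.symm i).1 (e.symm i).2
    have hyj : ∀ j, (fun n => y (e (j, n))) = Y j := by
      intro j; funext n; simp [y]
    have hFx : F e a b y = x := by
      funext i
      have h1 := congrFun (F_apply e a b y (e.symm i).1) (e.symm i).2
      have h2 : F e a b y i = G (fun n => a (e ((e.symm i).1, n)))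
          (fun n => b (e ((e.symm i).1, n))) (fun n => y (e ((e.symm i).1, n))) (e.symm i).2 := rfl
      rw [h2, hyj, hYG]
      simp
    have hy : y ∈ Pos κ := by
      rw [mem_Pos_iff]
      refine ⟨fun i => ((mem_Ypos_iff _).1 (hY _)).1 _, ?_⟩
      have : nn y = nn x := by
        rw [nn_blocks e y, nn_blocks e x]
        refine tsum_congr fun j => ?_
        rw [hyj, ← hYG j]
        exact (nn_G (fun n => ha _) (fun n => hb _) (hY j) (hδ j)).symm
      rw [this]; exact hx.2
    exact ⟨y, hy, hFx⟩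

lemma continuous_F {κ : Type u} {J : Type v} (e : J × ℕ ≃ κ) (a b : κ → ℝ) :
    Continuous (F e a b) := by
  refine continuous_pi fun i => ?_
  have h1 := continuous_G (fun n => a (e ((e.symm i).1, n))) (fun n => b (e ((e.symm i).1, n)))
    (e.symm i).2
  have h2 : Continuous (fun y : κ → ℝ => fun n : ℕ => y (e ((e.symm i).1, n))) := by
    fun_prop
  exact h1.comp h2

lemma isCompact_Pos (κ : Type u) : IsCompact (Pos κ) := by
  have hK : IsCompact (Set.univ.pi fun _ : κ => Set.Icc (0 : ℝ) 1) :=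
    isCompact_univ_pi fun _ => isCompact_Icc
  refine hK.of_isClosed_subset ?_ ?_
  · have : Pos κ = (⋂ i, {y : κ → ℝ | 0 ≤ y i}) ∩
        ⋂ s : Finset κ, {y : κ → ℝ | ∑ i ∈ s, |y i| ≤ 1} := by
      ext y; simp [Pos]
    rw [this]
    refine (isClosed_iInter fun i => ?_).inter (isClosed_iInter fun s => ?_)
    · exact isClosed_le continuous_const (continuous_apply i)
    · exact isClosed_le (by fun_prop) continuous_const
  · intro y hy i _
    refine ⟨hy.1 i, ?_⟩
    have := hy.2 {i}
    rw [sum_singleton] at this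
    exact (le_abs_self _).trans this

/-- a continuous bijection from a compact set gives a homeomorphism -/
lemma homeo_of_bijOn {X : Type u} {Y : Type v} [TopologicalSpace X] [TopologicalSpace Y]
    [T2Space Y] {S : Set X} {T : Set Y} (hS : IsCompact S) {f : X → Y} (hf : ContinuousOn f S)
    (hbij : Set.BijOn f S T) : Nonempty (S ≃ₜ T) := by
  have : CompactSpace S := isCompact_iff_compactSpace.1 hS
  have hc : Continuous (hbij.equiv f) := by
    refine Continuous.subtype_mk ?_ _
    exact continuousOn_iff_continuous_domRestrict.1 hf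
  exact ⟨hc.homeoOfEquivCompactToT2⟩

/-- partition of an uncountable set into countably infinite blocks with good widths -/
lemma exists_partition {κ : Type u} [Uncountable κ] {b : κ → ℝ} (hb : ∀ i, 0 < b i) :
    ∃ (J : Type u) (e : J × ℕ ≃ κ), ∀ j, ∃ δ > 0, ∃ᶠ n in atTop, δ ≤ b (e (j, n)) := by
  classical
  -- the level of a point
  have hL : ∀ i, ∃ n : ℕ, 1 / ((n : ℝ) + 1) < b i := fun i => exists_nat_one_div_lt (hb i)
  choose L hLb using hL
  -- some level is infinite
  have hfib : ∃ n, Infinite {i // L i = n} := by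
    by_contra hcon
    push Not at hcon
    have hc : Countable κ := by
      have h1 : ∀ n, Countable {i // L i = n} := fun n => by
        have : Finite {i // L i = n} := by
          have := hcon n
          exact not_infinite_iff_finite.1 (by simpa using this)
        infer_instance
      exact Countable.of_equiv _ (Equiv.sigmaFiberEquiv L)
    exact not_countable hc
  obtain ⟨n₀, hn₀⟩ := hfib
  have hA : ∀ n, Infinite {i // L i = n} → Nonempty ({i // L i = n} ≃ {i // L i = n} × ℕ) := by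
    intro n hn
    rw [← Cardinal.eq]
    rw [Cardinal.mk_prod, Cardinal.mk_nat, Cardinal.lift_aleph0, Cardinal.lift_uzero]
    exact (Cardinal.mul_aleph0_eq (Cardinal.infinite_iff.1 hn)).symm
  let E : ∀ n, Infinite {i // L i = n} → ({i // L i = n} ≃ {i // L i = n} × ℕ) :=
    fun n hn => Classical.choice (hA n hn)
  obtain ⟨i₀⟩ : Nonempty {i // L i = n₀} := inferInstance
  -- the projection to blocks
  let π : κ → κ := fun i =>
    if h : Infinite {k // L k = L i} then ((E (L i) h ⟨i, rfl⟩).1 : κ) else i₀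
  have hπ : ∀ i, Infinite {k // L k = L (π i)} := by
    intro i
    by_cases h : Infinite {k // L k = L i}
    · have h1 : π i = ((E (L i) h ⟨i, rfl⟩).1 : κ) := dif_pos h
      rw [h1, (E (L i) h ⟨i, rfl⟩).1.2]; exact h
    · have h1 : π i = i₀ := dif_neg h
      rw [h1, i₀.2]; exact hn₀
  let J : Type u := {j : κ // Infinite {k // L k = L j}}
  let P : κ → J := fun i => ⟨π i, hπ i⟩
  -- points of the block of j
  let pt : ∀ j : J, ℕ → {k // L k = L j.1} := fun j m => (E (L j.1) j.2).symm (⟨j.1, rfl⟩, m)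
  have hpt : ∀ (j : J) m, P (pt j m).1 = j := by
    intro j m
    apply Subtype.ext
    change π (pt j m).1 = j.1
    have key : ∀ (n : ℕ) (hn : Infinite {k // L k = n}) (i : κ) (hi : L i = n),
        π i = ((E n hn ⟨i, hi⟩).1 : κ) := by
      intro n hn i hi
      subst hi
      exact dif_pos hn
    rw [key (L j.1) j.2 (pt j m).1 (pt j m).2]
    have : (⟨(pt j m).1, (pt j m).2⟩ : {k // L k = L j.1}) = pt j m := rfl
    rw [this]
    simp [pt]
  have hptinj : ∀ j : J, Function.Injective (fun m => (pt j m).1) := by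
    intro j m m' h
    have h1 : pt j m = pt j m' := Subtype.ext h
    have h2 := (E (L j.1) j.2).symm.injective h1
    exact (Prod.mk.inj h2).2
  -- fibres are countable
  have hfc : ∀ j : J, Countable {i // P i = j} := by
    intro j
    -- union of countably many levels; in each level countable
    have h1 : ∀ n, Countable {i : κ // P i = j ∧ L i = n} := by
      intro n
      by_cases hn : Infinite {k // L k = n}
      · have : Function.Injective (fun i : {i : κ // P i = j ∧ L i = n} =>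
            (E n hn ⟨i.1, i.2.2⟩).2) := by
          rintro ⟨i, hi1, hi2⟩ ⟨i', hi1', hi2'⟩ h
          have key : ∀ (i : κ) (hi : L i = n), π i = ((E n hn ⟨i, hi⟩).1 : κ) := by
            intro i hi
            subst hi
            exact dif_pos hn
          have e1 : ((E n hn ⟨i, hi2⟩).1 : κ) = (E n hn ⟨i', hi2'⟩).1 := by
            rw [← key, ← key]
            exact (congrArg Subtype.val hi1).trans (congrArg Subtype.val hi1').symm
          have e2 : E n hn ⟨i, hi2⟩ = E n hn ⟨i', hi2'⟩ :=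
            Prod.ext (Subtype.ext e1) h
          have e3 := (E n hn).injective e2
          exact Subtype.ext (Subtype.mk.inj e3)
        exact this.countable
      · have : Finite {k // L k = n} := not_infinite_iff_finite.1 hn
        have : Function.Injective (fun i : {i : κ // P i = j ∧ L i = n} =>
            (⟨i.1, i.2.2⟩ : {k // L k = n})) := by
          rintro ⟨i, hi⟩ ⟨i', hi'⟩ h
          exact Subtype.ext (Subtype.mk.inj h)
        have := Finite.of_injective _ this
        infer_instance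
    have h2 : Function.Surjective (fun p : Σ n, {i : κ // P i = j ∧ L i = n} =>
        (⟨p.2.1, p.2.2.1⟩ : {i // P i = j})) := by
      rintro ⟨i, hi⟩
      exact ⟨⟨L i, ⟨i, hi, rfl⟩⟩, rfl⟩
    exact h2.countable
  have hfi : ∀ j : J, Infinite {i // P i = j} := by
    intro j
    refine Infinite.of_injective (fun m => (⟨(pt j m).1, hpt j m⟩ : {i // P i = j})) ?_
    intro m m' h
    exact hptinj j (Subtype.mk.inj h)
  have hden : ∀ j : J, Nonempty ({i // P i = j} ≃ ℕ) := by
    intro j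
    have := hfc j
    have := hfi j
    let _ : Denumerable {i // P i = j} := Classical.choice (nonempty_denumerable _)
    exact ⟨Denumerable.eqv _⟩
  let D : ∀ j : J, ({i // P i = j} ≃ ℕ) := fun j => Classical.choice (hden j)
  let e : J × ℕ ≃ κ := ((Equiv.sigmaEquivProd J ℕ).symm.trans
    (Equiv.sigmaCongrRight fun j => (D j).symm)).trans (Equiv.sigmaFiberEquiv P)
  have he : ∀ j n, e (j, n) = ((D j).symm n).1 := fun j n => rfl
  refine ⟨J, e, fun j => ⟨1 / ((L j.1 : ℝ) + 1), by positivity, ?_⟩⟩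
  rw [Nat.frequently_atTop_iff_infinite]
  refine Set.infinite_of_injective_forall_mem
    (f := fun m : ℕ => D j ⟨(pt j m).1, hpt j m⟩) ?_ ?_
  · intro m m' h
    have := (D j).injective h
    exact hptinj j (Subtype.mk.inj this)
  · intro m
    change 1 / ((L j.1 : ℝ) + 1) ≤ b (e (j, D j ⟨(pt j m).1, hpt j m⟩))
    rw [he, Equiv.symm_apply_apply]
    have h1 := hLb (pt j m).1
    rw [(pt j m).2] at h1
    exact h1.le

/-- main theorem for symmetric-type boxes -/
theorem box_bij {κ : Type u} [Uncountable κ] {a b : κ → ℝ} (ha : ∀ i, 0 ≤ a i)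
    (hb : ∀ i, 0 < b i) :
    ∃ f : (κ → ℝ) → (κ → ℝ), Continuous f ∧ Set.BijOn f (Pos κ) (Bx a b) := by
  obtain ⟨J, e, hδ⟩ := exists_partition hb
  exact ⟨F e a b, continuous_F e a b, bijOn_F e ha hb hδ⟩

theorem box_homeo {κ : Type u} [Uncountable κ] {a b : κ → ℝ} (ha : ∀ i, 0 ≤ a i)
    (hb : ∀ i, 0 < b i) : Nonempty (Pos κ ≃ₜ Bx a b) := by
  obtain ⟨f, hf, hbij⟩ := box_bij (κ := κ) ha hb
  exact homeo_of_bijOn (isCompact_Pos κ) hf.continuousOn hbij

lemma Bx_one (κ : Type u) :
    Bx (fun _ : κ => (1 : ℝ)) (fun _ => 1) = {x : κ → ℝ | ∀ s : Finset κ, ∑ i ∈ s, |x i| ≤ 1} := by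
  ext x
  constructor
  · exact fun h => h.2
  · intro h
    refine ⟨fun i => ?_, h⟩
    have h1 := h {i}
    rw [sum_singleton] at h1
    exact abs_le.1 h1

/-- the full ball and its positive part are homeomorphic -/
theorem ball_homeo_pos (κ : Type u) [Uncountable κ] :
    Nonempty ({x : κ → ℝ | ∀ s : Finset κ, ∑ i ∈ s, |x i| ≤ 1} ≃ₜ Pos κ) := by
  obtain ⟨h⟩ := box_homeo (κ := κ) (a := fun _ => 1) (b := fun _ => 1) (fun _ => zero_le_one)
    (fun _ => zero_lt_one)
  exact ⟨(Homeomorph.setCongr (Bx_one κ).symm).trans h.symm⟩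

end Pool.Agent.Helper358.Box
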