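import Pool.Agent.Helper358.LOne

/-!
For an uncountable `Γ`, the space `C(B(Γ))` is not isomorphic to a complemented subspace of
`C(A(Γ)^ℕ)`.
-/

set_option autoImplicit false

namespace Pool.Agent.Helper358.Compl

open Topology Pool.Agent.Helper358.LOne

universe u v

section red

variable {Γ : Type u}

lemma onePoint_ext {x y : OnePoint Γ}
    (h : ∀ i : Γ, x = (i : OnePoint Γ) ↔ y = (i : OnePoint Γ)) : x = y := by
  induction x using OnePoint.rec with
  | infty =>
    induction y using OnePoint.rec with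
    | infty => rfl
    | coe j => exact (h j).mpr rfl
  | coe i => exact ((h i).mp rfl).symm

open Classical in
/-- reduction of one slot -/
noncomputable def rd (P : Finset Γ) (x : OnePoint Γ) : OnePoint Γ :=
  if ∃ i ∈ P, x = (i : OnePoint Γ) then x else OnePoint.infty

lemma rd_eq_coe {P : Finset Γ} {x : OnePoint Γ} {i : Γ} :
    rd P x = (i : OnePoint Γ) ↔ i ∈ P ∧ x = (i : OnePoint Γ) := by
  unfold rd
  split_ifs with h
  · constructor
    · intro hx
      obtain ⟨j, hj, hxj⟩ := h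
      have : j = i := OnePoint.coe_injective (hxj.symm.trans hx)
      exact ⟨this ▸ hj, hx⟩
    · exact fun h => h.2
  · constructor
    · intro hx
      exact absurd hx (OnePoint.infty_ne_coe i)
    · rintro ⟨h1, h2⟩
      exact absurd ⟨i, h1, h2⟩ h

/-- reduction of an element of `A(Γ)^ℕ` -/
noncomputable def red (P : Finset Γ) (M : ℕ) (ξ : ℕ → OnePoint Γ) : ℕ → OnePoint Γ :=
  fun n => if n < M then rd P (ξ n) else OnePoint.infty

lemma red_eq_coe {P : Finset Γ} {M : ℕ} {ξ : ℕ → OnePoint Γ} {n : ℕ} {i : Γ} :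
    red P M ξ n = (i : OnePoint Γ) ↔ n < M ∧ i ∈ P ∧ ξ n = (i : OnePoint Γ) := by
  unfold red
  split_ifs with h
  · rw [rd_eq_coe]
    simp [h]
  · simp [h]

lemma red_eq_iff {P : Finset Γ} {M : ℕ} {ξ ξ' : ℕ → OnePoint Γ} :
    red P M ξ = red P M ξ' ↔
      ∀ n < M, ∀ i ∈ P, (ξ n = (i : OnePoint Γ) ↔ ξ' n = (i : OnePoint Γ)) := by
  constructor
  · intro h n hn i hi
    have h1 : ∀ ζ : ℕ → OnePoint Γ, red P M ζ n = (i : OnePoint Γ) ↔ ζ n = (i : OnePoint Γ) := by
      intro ζ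
      rw [red_eq_coe]
      simp [hn, hi]
    rw [← h1 ξ, ← h1 ξ', h]
  · intro h
    funext n
    refine onePoint_ext fun i => ?_
    rw [red_eq_coe, red_eq_coe]
    constructor
    · rintro ⟨h1, h2, h3⟩
      exact ⟨h1, h2, (h n h1 i h2).mp h3⟩
    · rintro ⟨h1, h2, h3⟩
      exact ⟨h1, h2, (h n h1 i h2).mpr h3⟩

lemma red_red {P P' : Finset Γ} {M M' : ℕ} (hP : P ⊆ P') (hM : M ≤ M') (ξ : ℕ → OnePoint Γ) :
    red P M (red P' M' ξ) = red P M ξ := by
  rw [red_eq_iff]
  intro n hn i hi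
  rw [red_eq_coe]
  simp [hn.trans_le hM, hP hi]

lemma red_mono {P P' : Finset Γ} {M M' : ℕ} (hP : P ⊆ P') (hM : M ≤ M') {ξ ξ' : ℕ → OnePoint Γ}
    (h : red P' M' ξ = red P' M' ξ') : red P M ξ = red P M ξ' := by
  rw [← red_red hP hM ξ, ← red_red hP hM ξ', h]

lemma finite_range_red (P : Finset Γ) (M : ℕ) : (Set.range (red P M)).Finite := by
  classical
  let X := {x : OnePoint Γ // x ∈ insert OnePoint.infty (P.image fun i : Γ => (i : OnePoint Γ))}
  let φ : (Fin M → X) → (ℕ → OnePoint Γ) := fun f n =>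
    if h : n < M then (f ⟨n, h⟩).1 else OnePoint.infty
  refine Set.Finite.subset (Set.finite_range φ) ?_
  rintro _ ⟨ξ, rfl⟩
  refine ⟨fun n => ⟨rd P (ξ n), ?_⟩, ?_⟩
  · rw [Finset.mem_insert]
    unfold rd
    split_ifs with h
    · right
      obtain ⟨i, hi, hx⟩ := h
      rw [hx]
      exact Finset.mem_image_of_mem _ hi
    · left; rfl
  · funext n
    simp only [φ, red]
    split_ifs <;> rfl

/-- The finite set of patterns. -/
noncomputable def Pat (P : Finset Γ) (M : ℕ) : Finset (ℕ → OnePoint Γ) :=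
  (finite_range_red P M).toFinset

lemma red_mem (P : Finset Γ) (M : ℕ) (ξ : ℕ → OnePoint Γ) : red P M ξ ∈ Pat P M :=
  (finite_range_red P M).mem_toFinset.mpr ⟨ξ, rfl⟩

lemma mem_Pat {P : Finset Γ} {M : ℕ} {w : ℕ → OnePoint Γ} : w ∈ Pat P M ↔ red P M w = w := by
  constructor
  · intro h
    obtain ⟨ξ, rfl⟩ := (finite_range_red P M).mem_toFinset.mp h
    exact red_red (Finset.Subset.refl _) le_rfl ξ
  · intro h
    rw [← h]
    exact red_mem P M w

lemma mem_of_mem_Pat {P : Finset Γ} {M : ℕ} {w : ℕ → OnePoint Γ} (hw : w ∈ Pat P M) {n : ℕ} {i : Γ}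
    (h : w n = (i : OnePoint Γ)) : i ∈ P := by
  rw [mem_Pat] at hw
  rw [← hw, red_eq_coe] at h
  exact h.2.1

variable [TopologicalSpace Γ] [DiscreteTopology Γ]

lemma isClopen_coe (i : Γ) : IsClopen {x : OnePoint Γ | x = (i : OnePoint Γ)} := by
  refine ⟨isClosed_singleton, ?_⟩
  have : {x : OnePoint Γ | x = (i : OnePoint Γ)} = (fun j : Γ => (j : OnePoint Γ)) '' {i} := by
    ext x; simp
  rw [this]
  exact OnePoint.isOpenEmbedding_coe.isOpenMap _ (isOpen_discrete _)

lemma continuous_rd (P : Finset Γ) : Continuous (rd P) := by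
  classical
  have hcl : IsClopen {x : OnePoint Γ | ∃ i ∈ P, x = (i : OnePoint Γ)} := by
    have : {x : OnePoint Γ | ∃ i ∈ P, x = (i : OnePoint Γ)} =
        ⋃ i ∈ (P : Set Γ), {x : OnePoint Γ | x = (i : OnePoint Γ)} := by
      ext x; simp
    rw [this]
    exact P.finite_toSet.isClopen_biUnion fun i _ => isClopen_coe i
  refine Continuous.if ?_ continuous_id continuous_const
  intro x hx
  rw [hcl.frontier_eq] at hx
  exact absurd hx (Set.notMem_empty x)

lemma continuous_red (P : Finset Γ) (M : ℕ) : Continuous (red P M) := by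
  refine continuous_pi fun n => ?_
  unfold red
  split_ifs with h
  · exact (continuous_rd P).comp (continuous_apply n)
  · exact continuous_const

lemma isClopen_red (P : Finset Γ) (M : ℕ) (w : ℕ → OnePoint Γ) :
    IsClopen {ξ | red P M ξ = w} := by
  constructor
  · exact isClosed_eq (continuous_red P M) continuous_const
  · rw [← isClosed_compl_iff]
    have : {ξ | red P M ξ = w}ᶜ = ⋃ v ∈ {v | v ∈ Pat P M ∧ v ≠ w}, {ξ | red P M ξ = v} := by
      ext ξ
      simp only [Set.mem_compl_iff, Set.mem_ofPred_eq, Set.mem_iUnion, exists_prop,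
        exists_eq_right']
      exact ⟨fun h => ⟨red_mem P M ξ, h⟩, fun h => h.2⟩
    rw [this]
    refine Set.Finite.isClosed_biUnion ?_ fun v _ =>
      isClosed_eq (continuous_red P M) continuous_const
    exact Set.Finite.subset (Pat P M).finite_toSet fun v hv => hv.1

open Classical in
/-- indicator of a pattern -/
noncomputable def ind (P : Finset Γ) (M : ℕ) (w : ℕ → OnePoint Γ) : C(ℕ → OnePoint Γ, ℝ) where
  toFun ξ := if red P M ξ = w then 1 else 0
  continuous_toFun := by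
    refine continuous_const.if ?_ continuous_const
    intro x hx
    rw [(isClopen_red P M w).frontier_eq] at hx
    exact absurd hx (Set.notMem_empty x)

open Classical in
lemma ind_apply (P : Finset Γ) (M : ℕ) (w ξ : ℕ → OnePoint Γ) :
    ind P M w ξ = if red P M ξ = w then 1 else 0 := rfl

lemma sum_ind (P : Finset Γ) (M : ℕ) (a : (ℕ → OnePoint Γ) → ℝ) (ξ : ℕ → OnePoint Γ) :
    (∑ w ∈ Pat P M, a w • ind P M w) ξ = a (red P M ξ) := by
  classical
  rw [ContinuousMap.sum_apply, Finset.sum_eq_single (red P M ξ)]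
  · rw [ContinuousMap.smul_apply, ind_apply, if_pos rfl, smul_eq_mul, mul_one]
  · intro w _ hw
    rw [ContinuousMap.smul_apply, ind_apply, if_neg hw.symm, smul_zero]
  · intro h
    exact absurd (red_mem P M ξ) h

open Classical in
lemma ind_eq_sum {P P' : Finset Γ} {M M' : ℕ} (hP : P ⊆ P') (hM : M ≤ M')
    (v : ℕ → OnePoint Γ) :
    ind P M v = ∑ w ∈ Pat P' M' with red P M w = v, ind P' M' w := by
  ext ξ
  rw [Finset.sum_filter]
  have h1 : ∑ w ∈ Pat P' M', (if red P M w = v then ind P' M' w else 0) =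
      ∑ w ∈ Pat P' M', (if red P M w = v then (1 : ℝ) else 0) • ind P' M' w := by
    refine Finset.sum_congr rfl fun w _ => ?_
    split_ifs
    · rw [one_smul]
    · rw [zero_smul]
  rw [h1, sum_ind, ind_apply, red_red hP hM]

/-- Up to `ε` a continuous function on `A(Γ)^ℕ` depends on finitely many slots and labels. -/
lemma exists_suppA (g : C(ℕ → OnePoint Γ, ℝ)) {ε : ℝ} (hε : 0 < ε) :
    ∃ (P : Finset Γ) (M : ℕ), ∀ ξ ξ', red P M ξ = red P M ξ' → |g ξ - g ξ'| ≤ ε := by
  classical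
  by_contra hcon
  push Not at hcon
  let t : Finset Γ × ℕ → Set ((ℕ → OnePoint Γ) × (ℕ → OnePoint Γ)) := fun q =>
    {p | red q.1 q.2 p.1 = red q.1 q.2 p.2 ∧ ε ≤ |g p.1 - g p.2|}
  have hcl : ∀ q, IsClosed (t q) := by
    intro q
    refine IsClosed.inter ?_ ?_
    · exact isClosed_eq ((continuous_red q.1 q.2).comp continuous_fst)
        ((continuous_red q.1 q.2).comp continuous_snd)
    · exact isClosed_le continuous_const
        ((g.continuous.comp continuous_fst).sub (g.continuous.comp continuous_snd)).abs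
  have hne : (⋂ q, t q).Nonempty := by
    refine IsCompact.nonempty_iInter_of_directed_nonempty_isCompact_isClosed t ?_ ?_
      (fun q => (hcl q).isCompact) hcl
    · intro q q'
      refine ⟨(q.1 ∪ q'.1, max q.2 q'.2), ?_, ?_⟩
      · rintro p ⟨h1, h2⟩
        exact ⟨red_mono Finset.subset_union_left (le_max_left _ _) h1, h2⟩
      · rintro p ⟨h1, h2⟩
        exact ⟨red_mono Finset.subset_union_right (le_max_right _ _) h1, h2⟩
    · intro q
      obtain ⟨z, z', h1, h2⟩ := hcon q.1 q.2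
      exact ⟨(z, z'), h1, h2.le⟩
  obtain ⟨p, hp⟩ := hne
  rw [Set.mem_iInter] at hp
  have heq : p.1 = p.2 := by
    funext n
    refine onePoint_ext fun i => ?_
    exact red_eq_iff.mp (hp ({i}, n + 1)).1 n (Nat.lt_succ_self n) i (Finset.mem_singleton_self i)
  have := (hp (∅, 0)).2
  rw [heq, sub_self, abs_zero] at this
  linarith

end red

/-- A continuous function on the ball depends on countably many coordinates. -/
lemma exists_countable_support {Γ : Type u} (h : C(Ball Γ, ℝ)) :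
    ∃ Q : Set Γ, Q.Countable ∧ ∀ x x' : Ball Γ, (∀ γ ∈ Q, x.1 γ = x'.1 γ) → h x = h x' := by
  let f : C(Fin 1 → Ball Γ, ℝ) := ⟨fun z => h (z 0), h.continuous.comp (continuous_apply 0)⟩
  have h1 : ∀ k : ℕ, ∃ P : Finset Γ, ∀ z z' : Fin 1 → Ball Γ,
      (∀ k, ∀ γ ∈ P, (z k).1 γ = (z' k).1 γ) → |f z - f z'| ≤ 1 / ((k : ℝ) + 1) :=
    fun k => exists_support f (by positivity)
  choose P hP using h1
  refine ⟨⋃ k, (P k : Set Γ), Set.countable_iUnion fun k => (P k).countable_toSet, ?_⟩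
  intro x x' hx
  have h2 : ∀ k : ℕ, |h x - h x'| ≤ 1 / ((k : ℝ) + 1) := fun k =>
    hP k (fun _ => x) (fun _ => x') fun _ γ hγ => hx γ (Set.mem_iUnion.mpr ⟨k, hγ⟩)
  have h3 : |h x - h x'| ≤ 0 :=
    ge_of_tendsto' tendsto_one_div_add_atTop_nhds_zero_nat h2
  exact sub_eq_zero.mp (abs_nonpos_iff.mp h3)

/-- Finite `ε`-support on the ball. -/
lemma exists_supportB {Γ : Type u} (h : C(Ball Γ, ℝ)) {ε : ℝ} (hε : 0 < ε) :
    ∃ P : Finset Γ, ∀ x x' : Ball Γ, (∀ γ ∈ P, x.1 γ = x'.1 γ) → |h x - h x'| ≤ ε := by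
  let f : C(Fin 1 → Ball Γ, ℝ) := ⟨fun z => h (z 0), h.continuous.comp (continuous_apply 0)⟩
  obtain ⟨P, hP⟩ := exists_support f hε
  exact ⟨P, fun x x' hx => hP (fun _ => x) (fun _ => x') fun _ γ hγ => hx γ hγ⟩

/-- finitely supported points of norm `< 1` are dense -/
lemma exists_inner {Γ : Type u} (h : C(Ball Γ, ℝ)) (x : Ball Γ) {c : ℝ} (hc : c < h x) :
    ∃ (x₀ : Ball Γ) (F : Finset Γ), (∀ γ ∉ F, x₀.1 γ = 0) ∧ ∑ γ ∈ F, |x₀.1 γ| < 1 ∧ c < h x₀ := by
  classical
  obtain ⟨P, hP⟩ := exists_supportB h (ε := (h x - c) / 2) (by linarith)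
  let y : ℝ → Γ → ℝ := fun t γ => if γ ∈ P then t * x.1 γ else 0
  have hy : ∀ t : Set.Icc (0 : ℝ) 1, ∀ F : Finset Γ, ∑ γ ∈ F, |y t γ| ≤ t.1 := by
    intro t F
    calc ∑ γ ∈ F, |y t γ| ≤ ∑ γ ∈ F, t.1 * |x.1 γ| := by
          refine Finset.sum_le_sum fun γ _ => ?_
          simp only [y]
          split_ifs
          · rw [abs_mul, abs_of_nonneg t.2.1]
          · rw [abs_zero]
            exact mul_nonneg t.2.1 (abs_nonneg _)
      _ = t.1 * ∑ γ ∈ F, |x.1 γ| := by rw [Finset.mul_sum]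
      _ ≤ t.1 * 1 := mul_le_mul_of_nonneg_left (x.2 F) t.2.1
      _ = t.1 := mul_one _
  let Y : Set.Icc (0 : ℝ) 1 → Ball Γ := fun t => ⟨y t, fun F => (hy t F).trans t.2.2⟩
  have hYc : Continuous Y := by
    apply Continuous.subtype_mk
    refine continuous_pi fun γ => ?_
    simp only [y]
    split_ifs
    · exact continuous_subtype_val.mul continuous_const
    · exact continuous_const
  let one : Set.Icc (0 : ℝ) 1 := ⟨1, by norm_num, le_rfl⟩
  have h1 : c < h (Y one) := by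
    have := hP x (Y one) (fun γ hγ => by simp [Y, y, hγ, one])
    rw [abs_le] at this
    linarith [this.2]
  have h2 : Filter.Tendsto (fun k : ℕ => (⟨1 - 1 / ((k : ℝ) + 1), by
      constructor
      · rw [sub_nonneg, div_le_one (by positivity)]; linarith [Nat.cast_nonneg (α := ℝ) k]
      · have : (0 : ℝ) ≤ 1 / ((k : ℝ) + 1) := by positivity
        linarith⟩ : Set.Icc (0 : ℝ) 1)) Filter.atTop (𝓝 one) := by
    rw [tendsto_subtype_rng]
    have := tendsto_one_div_add_atTop_nhds_zero_nat (𝕜 := ℝ)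
    have h3 := (tendsto_const_nhds (x := (1 : ℝ))).sub this
    rw [sub_zero] at h3
    exact h3
  have h3 := ((h.continuous.comp hYc).tendsto one).comp h2
  obtain ⟨k, hk⟩ := (h3.eventually (lt_mem_nhds h1)).exists
  refine ⟨_, P, ?_, ?_, hk⟩
  · intro γ hγ
    simp [Y, y, hγ]
  · refine lt_of_le_of_lt (hy _ P) ?_
    have : (0 : ℝ) < 1 / ((k : ℝ) + 1) := by positivity
    change 1 - 1 / ((k : ℝ) + 1) < 1
    linarith

section nf

variable {Γ : Type u} [TopologicalSpace Γ] [DiscreteTopology Γ]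

/-- Normal form of a family of functions on `A(Γ)^ℕ`. -/
structure NFA (g : Γ → C(ℕ → OnePoint Γ, ℝ)) (ε : ℝ) where
  /-- number of slots -/
  M : ℕ
  /-- root -/
  R : Finset Γ
  /-- subfamily -/
  I : Set Γ
  /-- new labels -/
  P : Γ → Finset Γ
  supp : ∀ γ ∈ I, ∀ P' : Finset Γ, R ⊆ P' → P γ ⊆ P' → ∀ M' ≥ M, ∀ ξ ξ',
    red P' M' ξ = red P' M' ξ' → |g γ ξ - g γ ξ'| ≤ ε
  free : ∀ Q : Set Γ, Q.Countable → ∃ γ ∈ I, γ ∉ Q ∧ ∀ i ∈ P γ, i ∉ Q

lemma pigeonN {Γ : Type u} {X : Type v} [Countable X] {I : Set Γ} (hI : ¬ I.Countable)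
    (φ : Γ → X) : ∃ x, ¬ {i ∈ I | φ i = x}.Countable := by
  by_contra hcon
  push Not at hcon
  apply hI
  refine Set.Countable.mono ?_ (Set.countable_iUnion hcon)
  intro i hi
  exact Set.mem_iUnion.mpr ⟨φ i, hi, rfl⟩

lemma exists_NFA [Uncountable Γ] (g : Γ → C(ℕ → OnePoint Γ, ℝ)) {ε : ℝ} (hε : 0 < ε) :
    Nonempty (NFA g ε) := by
  classical
  choose P0 M0 hPM using fun i => exists_suppA (g i) hε
  have h0 : ¬ (Set.univ : Set Γ).Countable := by
    rw [Set.countable_univ_iff]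
    exact not_countable
  obtain ⟨⟨p, M⟩, hI1⟩ := pigeonN h0 (fun i => ((P0 i).card, M0 i))
  set I1 : Set Γ := {i ∈ Set.univ | ((P0 i).card, M0 i) = (p, M)} with hI1def
  have hI1p : ∀ i ∈ I1, (P0 i).card = p ∧ M0 i = M := fun i hi => Prod.ext_iff.mp hi.2
  have hex : ∀ i, ∃ e : Fin p → Γ, i ∈ I1 → (∀ γ, γ ∈ P0 i ↔ ∃ a, e a = γ) := by
    intro i
    by_cases hi : i ∈ I1
    · let E := (P0 i).equivFinOfCardEq (hI1p i hi).1
      refine ⟨fun a => (E.symm a).1, fun _ γ => ⟨fun hγ => ?_, ?_⟩⟩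
      · exact ⟨E ⟨γ, hγ⟩, by simp⟩
      · rintro ⟨a, rfl⟩
        exact (E.symm a).2
    · exact ⟨fun _ => i, fun h => absurd h hi⟩
  choose e he using hex
  obtain ⟨J, r, hJ1, hJ2⟩ := exists_root e hI1
  refine ⟨{ M := M
            R := J.image r
            I := {i ∈ I1 | ∀ a ∈ J, e i a = r a}
            P := fun i => Jᶜ.image (e i)
            supp := fun i hi P' hR hP M' hM ξ ξ' h => ?_
            free := fun Q hQ => ?_ }⟩
  · refine hPM i ξ ξ' (red_mono ?_ ?_ h)
    · intro γ hγ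
      obtain ⟨a, rfl⟩ := (he i hi.1 γ).mp hγ
      by_cases ha : a ∈ J
      · rw [hi.2 a ha]
        exact hR (Finset.mem_image_of_mem _ ha)
      · exact hP (Finset.mem_image_of_mem _ (Finset.mem_compl.mpr ha))
    · rw [(hI1p i hi.1).2]
      exact hM
  · have hcount : {i ∈ {i ∈ I1 | ∀ a ∈ J, e i a = r a} | i ∈ Q ∨ ∃ a ∉ J, e i a ∈ Q}.Countable := by
      have hsub : {i ∈ {i ∈ I1 | ∀ a ∈ J, e i a = r a} | i ∈ Q ∨ ∃ a ∉ J, e i a ∈ Q} ⊆
          Q ∪ ⋃ a ∈ {a | a ∉ J}, ⋃ γ ∈ Q,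
            {i ∈ I1 | (∀ b ∈ J, e i b = r b) ∧ e i a = γ} := by
        rintro i ⟨⟨hi1, hi2⟩, hi3 | ⟨a, ha, haQ⟩⟩
        · exact Or.inl hi3
        · refine Or.inr ?_
          exact Set.mem_iUnion₂.mpr ⟨a, ha, Set.mem_iUnion₂.mpr ⟨e i a, haQ, hi1, hi2, rfl⟩⟩
      refine Set.Countable.mono hsub ?_
      refine hQ.union ?_
      refine (Set.to_countable _).biUnion fun a ha => ?_
      exact hQ.biUnion fun γ _ => hJ2 a ha γ
    by_contra hcon
    push Not at hcon
    apply hJ1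
    refine hcount.mono ?_
    intro i hi
    refine ⟨hi, ?_⟩
    by_cases hQ : i ∈ Q
    · exact Or.inl hQ
    · obtain ⟨j, hj, hjQ⟩ := hcon i hi hQ
      obtain ⟨a, ha, rfl⟩ := Finset.mem_image.mp hj
      exact Or.inr ⟨a, Finset.mem_compl.mp ha, hjQ⟩

end nf

lemma greedyF {Γ : Type u} {ι : Type v} (I : ι → Set Γ) (P : ι → Γ → Finset Γ)
    (hfree : ∀ a, ∀ Q : Set Γ, Q.Countable → ∃ γ ∈ I a, γ ∉ Q ∧ ∀ i ∈ P a γ, i ∉ Q)
    {Q0 : Set Γ} (hQ0 : Q0.Countable) (E : Finset ι) :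
    ∃ s : ι → Γ, (∀ a ∈ E, s a ∈ I a ∧ s a ∉ Q0 ∧ ∀ i ∈ P a (s a), i ∉ Q0) ∧
      (∀ a ∈ E, ∀ b ∈ E, a ≠ b → s a ≠ s b ∧ Disjoint (P a (s a)) (P b (s b))) := by
  classical
  induction E using Finset.induction_on with
  | empty =>
    exact ⟨fun a => (hfree a ∅ Set.countable_empty).choose, by simp, by simp⟩
  | insert a E ha ih =>
    obtain ⟨s, hs1, hs2⟩ := ih
    let W : Finset Γ := E.biUnion fun b => insert (s b) (P b (s b))
    obtain ⟨γ, hγI, hγQ, hγP⟩ := hfree a (Q0 ∪ (W : Set Γ)) (hQ0.union W.countable_toSet)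
    have hne : ∀ b ∈ E, b ≠ a := fun b hb h => ha (h ▸ hb)
    have hold : ∀ b ∈ E, Function.update s a γ b = s b := fun b hb =>
      Function.update_of_ne (hne b hb) _ _
    have hW : ∀ b ∈ E, γ ≠ s b ∧ Disjoint (P a γ) (P b (s b)) := by
      intro b hb
      constructor
      · rintro rfl
        refine hγQ (Or.inr ?_)
        exact Finset.mem_coe.mpr (Finset.mem_biUnion.mpr ⟨b, hb, Finset.mem_insert_self _ _⟩)
      · rw [Finset.disjoint_left]
        intro i hi hi'
        refine hγP i hi (Or.inr ?_)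
        exact Finset.mem_coe.mpr (Finset.mem_biUnion.mpr ⟨b, hb, Finset.mem_insert_of_mem hi'⟩)
    refine ⟨Function.update s a γ, ?_, ?_⟩
    · intro b hb
      rcases Finset.mem_insert.mp hb with rfl | hb
      · rw [Function.update_self]
        exact ⟨hγI, fun h => hγQ (Or.inl h), fun i hi h => hγP i hi (Or.inl h)⟩
      · rw [hold b hb]
        exact hs1 b hb
    · intro b hb c hc hbc
      rcases Finset.mem_insert.mp hb with hb' | hb' <;>
        rcases Finset.mem_insert.mp hc with hc' | hc'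
      · exact absurd (hb'.trans hc'.symm) hbc
      · rw [hb', Function.update_self, hold c hc']
        exact hW c hc'
      · rw [hc', Function.update_self, hold b hb']
        exact ⟨(hW b hb').1.symm, (hW b hb').2.symm⟩
      · rw [hold b hb', hold c hc']
        exact hs2 b hb' c hc' hbc

/-- truncated coordinates -/
noncomputable def uf {Γ : Type u} (c : ℝ) (γ : Γ) : C(Ball Γ, ℝ) where
  toFun x := min |x.1 γ| c
  continuous_toFun :=
    (((continuous_apply γ).comp continuous_subtype_val).abs).min continuous_const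

lemma uf_apply {Γ : Type u} (c : ℝ) (γ : Γ) (x : Ball Γ) : uf c γ x = min |x.1 γ| c := rfl

lemma abs_apply_le_norm {X : Type v} [TopologicalSpace X] [CompactSpace X] {V : Type u}
    [NormedAddCommGroup V] [NormedSpace ℝ V] (S : V →L[ℝ] C(X, ℝ)) (f : V) (x : X) {c : ℝ}
    (hf : ‖f‖ ≤ c) : |S f x| ≤ ‖S‖ * c := by
  have h1 : |S f x| ≤ ‖S f‖ := by
    rw [← Real.norm_eq_abs]
    exact ContinuousMap.norm_coe_le_norm _ x
  exact h1.trans ((S.le_opNorm f).trans (mul_le_mul_of_nonneg_left hf S.opNorm_nonneg))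

/-- the sign trick -/
lemma sum_abs_le_norm {X : Type v} [TopologicalSpace X] [CompactSpace X] {V : Type u}
    [NormedAddCommGroup V] [NormedSpace ℝ V] (S : V →L[ℝ] C(X, ℝ)) {ι : Type*} (F : Finset ι)
    (f : ι → V) {c : ℝ} (hf : ∀ s : ι → ℝ, (∀ i, |s i| ≤ 1) → ‖∑ i ∈ F, s i • f i‖ ≤ c) (x : X) :
    ∑ i ∈ F, |S (f i) x| ≤ ‖S‖ * c := by
  classical
  let s : ι → ℝ := fun i => if 0 ≤ S (f i) x then 1 else -1
  have hs : ∀ i, |s i| ≤ 1 := by
    intro i
    simp only [s]
    split_ifs <;> simp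
  have h1 : ∑ i ∈ F, |S (f i) x| = S (∑ i ∈ F, s i • f i) x := by
    rw [map_sum, ContinuousMap.sum_apply]
    refine Finset.sum_congr rfl fun i _ => ?_
    rw [map_smul, ContinuousMap.smul_apply, smul_eq_mul]
    simp only [s]
    split_ifs with h
    · rw [one_mul, abs_of_nonneg h]
    · rw [neg_one_mul, abs_of_neg (lt_of_not_ge h)]
  rw [h1]
  exact (le_abs_self _).trans (abs_apply_le_norm S _ x (hf s hs))

section main

variable {Γ : Type u} [TopologicalSpace Γ] [DiscreteTopology Γ]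

/-- total variation of the patterns -/
noncomputable def Np (T : C(ℕ → OnePoint Γ, ℝ) →L[ℝ] C(Ball Γ, ℝ)) (P : Finset Γ) (M : ℕ)
    (x : Ball Γ) : ℝ := ∑ w ∈ Pat P M, |T (ind P M w) x|

lemma Np_le (T : C(ℕ → OnePoint Γ, ℝ) →L[ℝ] C(Ball Γ, ℝ)) (P : Finset Γ) (M : ℕ)
    (x : Ball Γ) : Np T P M x ≤ ‖T‖ := by
  have := sum_abs_le_norm T (Pat P M) (ind P M) (c := 1) (fun s hs => by
    refine (ContinuousMap.norm_le _ zero_le_one).mpr fun ξ => ?_
    rw [sum_ind, Real.norm_eq_abs]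
    exact hs _) x
  rwa [mul_one] at this

open Classical in
lemma T_ind (T : C(ℕ → OnePoint Γ, ℝ) →L[ℝ] C(Ball Γ, ℝ)) {P P' : Finset Γ} {M M' : ℕ}
    (hP : P ⊆ P') (hM : M ≤ M') (v : ℕ → OnePoint Γ) (x : Ball Γ) :
    T (ind P M v) x = ∑ w ∈ Pat P' M' with red P M w = v, T (ind P' M' w) x := by
  rw [ind_eq_sum hP hM, map_sum, ContinuousMap.sum_apply]

lemma Np_mono (T : C(ℕ → OnePoint Γ, ℝ) →L[ℝ] C(Ball Γ, ℝ)) {P P' : Finset Γ} {M M' : ℕ}
    (hP : P ⊆ P') (hM : M ≤ M') (x : Ball Γ) : Np T P M x ≤ Np T P' M' x := by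
  classical
  unfold Np
  rw [← Finset.sum_fiberwise_of_maps_to (s := Pat P' M') (t := Pat P M)
    (g := fun w => red P M w) (fun w _ => red_mem P M w)]
  refine Finset.sum_le_sum fun v _ => ?_
  rw [T_ind T hP hM]
  exact Finset.abs_sum_le_sum_abs _ _

lemma exists_near_max (T : C(ℕ → OnePoint Γ, ℝ) →L[ℝ] C(Ball Γ, ℝ)) {δ : ℝ} (hδ : 0 < δ) :
    ∃ (P : Finset Γ) (M : ℕ) (x₀ : Ball Γ) (F : Finset Γ), (∀ γ ∉ F, x₀.1 γ = 0) ∧
      ∑ γ ∈ F, |x₀.1 γ| < 1 ∧ ∀ P' M' x, Np T P' M' x ≤ Np T P M x₀ + δ := by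
  let V : Set ℝ := {r | ∃ P M x, Np T P M x = r}
  have hVne : V.Nonempty := ⟨_, ∅, 0, ⟨fun _ => 0, fun F => by simp⟩, rfl⟩
  have hVb : BddAbove V := ⟨‖T‖, by
    rintro r ⟨P, M, x, rfl⟩
    exact Np_le T P M x⟩
  obtain ⟨r, ⟨P, M, x, rfl⟩, hr⟩ := exists_lt_of_lt_csSup hVne (sub_lt_self (sSup V) hδ)
  let h : C(Ball Γ, ℝ) := ⟨fun x => Np T P M x, by
    unfold Np
    exact continuous_finsetSum _ fun w _ => (T (ind P M w)).continuous.abs⟩
  obtain ⟨x₀, F, h1, h2, h3⟩ := exists_inner h x (c := sSup V - δ) hr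
  refine ⟨P, M, x₀, F, h1, h2, fun P' M' x' => ?_⟩
  have h4 : Np T P' M' x' ≤ sSup V := le_csSup hVb ⟨P', M', x', rfl⟩
  have h5 : sSup V - δ < Np T P M x₀ := h3
  linarith

lemma key (T : C(ℕ → OnePoint Γ, ℝ) →L[ℝ] C(Ball Γ, ℝ)) {P₀ P : Finset Γ} (hP : P₀ ⊆ P) {M : ℕ}
    {x₀ x : Ball Γ} {δ θ c ρ : ℝ} (f : C(ℕ → OnePoint Γ, ℝ))
    (hx : ∀ v ∈ Pat P₀ M, T (ind P₀ M v) x = T (ind P₀ M v) x₀)
    (hf : ∀ ξ, |f ξ - f (red P M ξ)| ≤ θ) (hTf : T f x = ρ)
    (U : (ℕ → OnePoint Γ) → ℝ) (hU : ∀ w ∈ Pat P M, |f w| ≤ U (red P₀ M w))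
    (hUc : ∀ v ∈ Pat P₀ M, U v ≤ c) (hc : 0 ≤ c)
    (hN : Np T P M x ≤ Np T P₀ M x₀ + δ) :
    ρ - ‖T‖ * θ - c * δ ≤ ∑ v ∈ Pat P₀ M, U v * |T (ind P₀ M v) x₀| := by
  classical
  have hθ : 0 ≤ θ := (abs_nonneg _).trans (hf (fun _ => OnePoint.infty))
  let f' : C(ℕ → OnePoint Γ, ℝ) := ∑ w ∈ Pat P M, f w • ind P M w
  have h1 : ‖f - f'‖ ≤ θ := by
    refine (ContinuousMap.norm_le _ hθ).mpr fun ξ => ?_
    rw [ContinuousMap.sub_apply, Real.norm_eq_abs]
    simp only [f']
    rw [sum_ind P M (fun w => f w)]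
    exact hf ξ
  have h2 : |T (f - f') x| ≤ ‖T‖ * θ := abs_apply_le_norm T _ x h1
  have h3 : T f' x = ∑ w ∈ Pat P M, f w * T (ind P M w) x := by
    simp only [f']
    rw [map_sum, ContinuousMap.sum_apply]
    refine Finset.sum_congr rfl fun w _ => ?_
    rw [map_smul, ContinuousMap.smul_apply, smul_eq_mul]
  have h4 : T f' x ≤ ∑ w ∈ Pat P M, U (red P₀ M w) * |T (ind P M w) x| := by
    rw [h3]
    refine Finset.sum_le_sum fun w hw => ?_
    calc f w * T (ind P M w) x ≤ |f w * T (ind P M w) x| := le_abs_self _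
      _ = |f w| * |T (ind P M w) x| := abs_mul _ _
      _ ≤ U (red P₀ M w) * |T (ind P M w) x| :=
        mul_le_mul_of_nonneg_right (hU w hw) (abs_nonneg _)
  have h5 : ∑ w ∈ Pat P M, U (red P₀ M w) * |T (ind P M w) x| =
      ∑ v ∈ Pat P₀ M, U v * ∑ w ∈ Pat P M with red P₀ M w = v, |T (ind P M w) x| := by
    rw [← Finset.sum_fiberwise_of_maps_to (t := Pat P₀ M) (fun w _ => red_mem P₀ M w)]
    refine Finset.sum_congr rfl fun v _ => ?_
    rw [Finset.mul_sum]
    refine Finset.sum_congr rfl fun w hw => ?_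
    rw [(Finset.mem_filter.mp hw).2]
  have h6 : ∑ v ∈ Pat P₀ M, (∑ w ∈ Pat P M with red P₀ M w = v, |T (ind P M w) x|) =
      Np T P M x := by
    unfold Np
    exact Finset.sum_fiberwise_of_maps_to (fun w _ => red_mem P₀ M w) _
  have h7 : ∀ v ∈ Pat P₀ M, |T (ind P₀ M v) x₀| ≤
      ∑ w ∈ Pat P M with red P₀ M w = v, |T (ind P M w) x| := by
    intro v hv
    rw [← hx v hv, T_ind T hP le_rfl]
    exact Finset.abs_sum_le_sum_abs _ _
  have h8 : ∑ v ∈ Pat P₀ M, U v * (∑ w ∈ Pat P M with red P₀ M w = v, |T (ind P M w) x|) ≤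
      ∑ v ∈ Pat P₀ M, U v * |T (ind P₀ M v) x₀| + c * δ := by
    have h9 : ∑ v ∈ Pat P₀ M, U v * (∑ w ∈ Pat P M with red P₀ M w = v, |T (ind P M w) x|) ≤
        ∑ v ∈ Pat P₀ M, (U v * |T (ind P₀ M v) x₀| +
          c * ((∑ w ∈ Pat P M with red P₀ M w = v, |T (ind P M w) x|) -
            |T (ind P₀ M v) x₀|)) := by
      refine Finset.sum_le_sum fun v hv => ?_
      have h10 := h7 v hv
      have h11 := hUc v hv
      nlinarith
    rw [Finset.sum_add_distrib, ← Finset.mul_sum, Finset.sum_sub_distrib, h6] at h9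
    have h12 : Np T P M x - ∑ v ∈ Pat P₀ M, |T (ind P₀ M v) x₀| ≤ δ := by
      have : Np T P₀ M x₀ = ∑ v ∈ Pat P₀ M, |T (ind P₀ M v) x₀| := rfl
      linarith
    have h13 := mul_le_mul_of_nonneg_left h12 hc
    linarith
  have h14 : T (f - f') x = ρ - T f' x := by
    rw [map_sub, ContinuousMap.sub_apply, hTf]
  rw [h14, abs_le] at h2
  linarith [h2.2]

/-- `C(B(Γ))` is not complemented in `C(A(Γ)^ℕ)`. -/
theorem no_compl [Uncountable Γ] (S : C(Ball Γ, ℝ) →L[ℝ] C(ℕ → OnePoint Γ, ℝ))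
    (T : C(ℕ → OnePoint Γ, ℝ) →L[ℝ] C(Ball Γ, ℝ)) (hTS : ∀ f, T (S f) = f) : False := by
  classical
  set KT := ‖T‖ + 1 with hKTdef
  set KS := ‖S‖ + 1 with hKSdef
  have hT0 : 0 ≤ ‖T‖ := T.opNorm_nonneg
  have hS0 : 0 ≤ ‖S‖ := S.opNorm_nonneg
  have hKT : 0 < KT := by linarith
  have hKS : 0 < KS := by linarith
  set δ := 1 / (4 * KS) with hδdef
  have hδ : 0 < δ := by positivity
  obtain ⟨P1, M1, x0, F0, hx0F, hx0s, hmax⟩ := exists_near_max T hδ
  set ρ := 1 - ∑ γ ∈ F0, |x0.1 γ| with hρdef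
  have hρ : 0 < ρ := by linarith
  set θ := ρ / (16 * KT) with hθdef
  have hθ : 0 < θ := by positivity
  have hn : ∀ m : ℕ, ∃ n : ℕ, 0 < n ∧ 2 * ‖S‖ * ρ * m ≤ θ * n := by
    intro m
    obtain ⟨n, hn⟩ := exists_nat_gt (2 * ‖S‖ * ρ * m / θ)
    rw [div_lt_iff₀ hθ] at hn
    refine ⟨n + 1, Nat.succ_pos n, ?_⟩
    push_cast
    nlinarith
  choose n hn0 hn using hn
  have hd : ∀ m : ℕ, Nonempty (NFA (fun γ => S (uf (ρ / n m) γ)) (θ / n m)) := fun m =>
    exists_NFA _ (div_pos hθ (by exact_mod_cast hn0 m))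
  let d := fun m => Classical.choice (hd m)
  let Ms : ℕ → ℕ := fun l => Nat.rec 0 (fun _ m => max (d m).M m) l
  have hMs : ∀ l, Ms (l + 1) = max (d (Ms l)).M (Ms l) := fun l => rfl
  have hMsmono : Monotone Ms := monotone_nat_of_le_succ fun l => by
    rw [hMs]; exact le_max_right _ _
  obtain ⟨L, hL⟩ := exists_nat_gt (8 * KT * KS / (3 * ρ))
  have hL0 : (0 : ℝ) < L := lt_trans (by positivity) hL
  let P0 : Finset Γ := P1 ∪ (Finset.range L).biUnion fun l => (d (Ms l)).R
  let M := max M1 (Ms L)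
  let N : ℕ → ℕ := fun l => n (Ms l)
  have hN0 : ∀ l, (0 : ℝ) < N l := fun l => by exact_mod_cast hn0 (Ms l)
  let K := (Finset.range L).sup N
  have hK : ∀ l < L, N l ≤ K := fun l hl => Finset.le_sup (f := N) (Finset.mem_range.mpr hl)
  choose Qv hQvc hQv using fun v => exists_countable_support (T (ind P0 M v))
  let Q0 : Set Γ := ((F0 ∪ P0 : Finset Γ) : Set Γ) ∪ ⋃ v ∈ (Pat P0 M : Set (ℕ → OnePoint Γ)), Qv v
  have hQ0 : Q0.Countable := (Finset.countable_toSet _).union
    ((Pat P0 M).countable_toSet.biUnion fun v _ => hQvc v)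
  obtain ⟨s, hs1, hs2⟩ := greedyF (ι := ℕ × ℕ) (fun a => (d (Ms a.1)).I) (fun a => (d (Ms a.1)).P)
    (fun a => (d (Ms a.1)).free) hQ0 (Finset.range L ×ˢ Finset.range K)
  have hmemE : ∀ l < L, ∀ j < N l, (l, j) ∈ Finset.range L ×ˢ Finset.range K := fun l hl j hj =>
    Finset.mem_product.mpr ⟨Finset.mem_range.mpr hl, Finset.mem_range.mpr (hj.trans_le (hK l hl))⟩
  have hsI : ∀ l < L, ∀ j < N l, s (l, j) ∈ (d (Ms l)).I := fun l hl j hj =>
    (hs1 _ (hmemE l hl j hj)).1
  have hsQ : ∀ l < L, ∀ j < N l, s (l, j) ∉ Q0 := fun l hl j hj =>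
    (hs1 _ (hmemE l hl j hj)).2.1
  have hsP : ∀ l < L, ∀ j < N l, ∀ i ∈ (d (Ms l)).P (s (l, j)), i ∉ P0 := fun l hl j hj i hi hi' =>
    (hs1 _ (hmemE l hl j hj)).2.2 i hi
      (Or.inl (Finset.mem_coe.mpr (Finset.mem_union_right _ hi')))
  have hsne : ∀ l < L, ∀ j < N l, ∀ l' < L, ∀ j' < N l', (l, j) ≠ (l', j') →
      s (l, j) ≠ s (l', j') ∧
        Disjoint ((d (Ms l)).P (s (l, j))) ((d (Ms l')).P (s (l', j'))) :=
    fun l hl j hj l' hl' j' hj' hne => hs2 _ (hmemE l hl j hj) _ (hmemE l' hl' j' hj') hne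
  let D : ℕ → Finset Γ := fun l => (Finset.range (N l)).image fun j => s (l, j)
  have hsinj : ∀ l < L, Set.InjOn (fun j => s (l, j)) (Finset.range (N l)) := by
    intro l hl j hj j' hj' h
    by_contra hne
    exact (hsne l hl j (Finset.mem_range.mp hj) l hl j' (Finset.mem_range.mp hj')
      (fun h => hne (Prod.ext_iff.mp h).2)).1 h
  have hDQ : ∀ l < L, ∀ γ ∈ D l, γ ∉ Q0 := by
    intro l hl γ hγ
    obtain ⟨j, hj, rfl⟩ := Finset.mem_image.mp hγ
    exact hsQ l hl j (Finset.mem_range.mp hj)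
  have hDcard : ∀ l < L, (D l).card = N l := by
    intro l hl
    rw [Finset.card_image_of_injOn (hsinj l hl), Finset.card_range]
  have hDdisj : Set.PairwiseDisjoint (↑(Finset.range L) : Set ℕ) D := by
    intro l hl l' hl' hne
    have hlL : l < L := by simpa using hl
    have hlL' : l' < L := by simpa using hl'
    rw [Function.onFun, Finset.disjoint_left]
    intro γ hγ hγ'
    obtain ⟨j, hj, rfl⟩ := Finset.mem_image.mp hγ
    obtain ⟨j', hj', h⟩ := Finset.mem_image.mp hγ'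
    exact (hsne l hlL j (Finset.mem_range.mp hj) l' hlL' j' (Finset.mem_range.mp hj')
      (fun h => hne (Prod.ext_iff.mp h).1)).1 h.symm
  let e : ℕ → C(Ball Γ, ℝ) := fun l => ∑ j ∈ Finset.range (N l), uf (ρ / N l) (s (l, j))
  let f : ℕ → C(ℕ → OnePoint Γ, ℝ) := fun l => S (e l)
  let Pl : ℕ → Finset Γ := fun l =>
    P0 ∪ (Finset.range (N l)).biUnion fun j => (d (Ms l)).P (s (l, j))
  have hP0Pl : ∀ l, P0 ⊆ Pl l := fun l => Finset.subset_union_left
  have hfsum : ∀ l ξ, f l ξ = ∑ j ∈ Finset.range (N l), S (uf (ρ / N l) (s (l, j))) ξ := by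
    intro l ξ
    simp only [f, e]
    rw [map_sum, ContinuousMap.sum_apply]
  have hufn : ∀ l (γ : Γ), ‖uf (ρ / N l) γ‖ ≤ ρ / N l := by
    intro l γ
    have h0 : 0 ≤ ρ / N l := (div_pos hρ (hN0 l)).le
    refine (ContinuousMap.norm_le _ h0).mpr fun x => ?_
    rw [uf_apply, Real.norm_eq_abs, abs_of_nonneg (le_min (abs_nonneg _) h0)]
    exact min_le_right _ _
  have hSuf : ∀ l γ ξ, |S (uf (ρ / N l) γ) ξ| ≤ ‖S‖ * (ρ / N l) := fun l γ ξ =>
    abs_apply_le_norm S _ ξ (hufn l γ)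
  -- F4
  have hfb : ∀ l ξ, |f l ξ| ≤ KS * ρ := by
    intro l ξ
    rw [hfsum]
    calc |∑ j ∈ Finset.range (N l), S (uf (ρ / N l) (s (l, j))) ξ|
        ≤ ∑ j ∈ Finset.range (N l), |S (uf (ρ / N l) (s (l, j))) ξ| :=
          Finset.abs_sum_le_sum_abs _ _
      _ ≤ ∑ _j ∈ Finset.range (N l), ‖S‖ * (ρ / N l) :=
          Finset.sum_le_sum fun j _ => hSuf l _ ξ
      _ = ‖S‖ * ρ := by
          rw [Finset.sum_const, Finset.card_range, nsmul_eq_mul]
          have := (hN0 l).ne'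
          field_simp
      _ ≤ KS * ρ := mul_le_mul_of_nonneg_right (by linarith) hρ.le
  -- F5
  have hesum : ∀ x : Ball Γ, ∑ l ∈ Finset.range L, |e l x| ≤ 1 := by
    intro x
    calc ∑ l ∈ Finset.range L, |e l x| ≤ ∑ l ∈ Finset.range L, ∑ γ ∈ D l, |x.1 γ| := by
          refine Finset.sum_le_sum fun l hl => ?_
          have hlL := Finset.mem_range.mp hl
          simp only [e, D]
          rw [ContinuousMap.sum_apply, Finset.sum_image (hsinj l hlL)]
          refine (Finset.abs_sum_le_sum_abs _ _).trans (Finset.sum_le_sum fun j _ => ?_)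
          rw [uf_apply, abs_of_nonneg (le_min (abs_nonneg _) (div_pos hρ (hN0 l)).le)]
          exact min_le_left _ _
      _ = ∑ γ ∈ (Finset.range L).biUnion D, |x.1 γ| := (Finset.sum_biUnion hDdisj).symm
      _ ≤ 1 := x.2 _
  have hfL : ∀ ξ, ∑ l ∈ Finset.range L, |f l ξ| ≤ ‖S‖ := by
    intro ξ
    have := sum_abs_le_norm S (Finset.range L) e (c := 1) (fun r hr => by
      refine (ContinuousMap.norm_le _ zero_le_one).mpr fun x => ?_
      rw [ContinuousMap.sum_apply, Real.norm_eq_abs]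
      refine (Finset.abs_sum_le_sum_abs _ _).trans (le_trans ?_ (hesum x))
      refine Finset.sum_le_sum fun l _ => ?_
      rw [ContinuousMap.smul_apply, smul_eq_mul, abs_mul]
      exact mul_le_of_le_one_left (abs_nonneg _) (hr l)) ξ
    rwa [mul_one] at this
  -- F3
  have hfsupp : ∀ l < L, ∀ ξ ξ', red (Pl l) M ξ = red (Pl l) M ξ' → |f l ξ - f l ξ'| ≤ θ := by
    intro l hl ξ ξ' h
    rw [hfsum, hfsum, ← Finset.sum_sub_distrib]
    calc |∑ j ∈ Finset.range (N l), (S (uf (ρ / N l) (s (l, j))) ξ -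
          S (uf (ρ / N l) (s (l, j))) ξ')|
        ≤ ∑ j ∈ Finset.range (N l), |S (uf (ρ / N l) (s (l, j))) ξ -
          S (uf (ρ / N l) (s (l, j))) ξ'| := Finset.abs_sum_le_sum_abs _ _
      _ ≤ ∑ _j ∈ Finset.range (N l), θ / N l := by
          refine Finset.sum_le_sum fun j hj => ?_
          refine (d (Ms l)).supp _ (hsI l hl j (Finset.mem_range.mp hj)) (Pl l) ?_ ?_ M ?_ ξ ξ' h
          · refine Finset.Subset.trans ?_ (hP0Pl l)
            refine Finset.Subset.trans ?_ Finset.subset_union_right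
            exact Finset.subset_biUnion_of_mem (fun l => (d (Ms l)).R) (Finset.mem_range.mpr hl)
          · refine Finset.Subset.trans ?_ Finset.subset_union_right
            exact Finset.subset_biUnion_of_mem (fun j => (d (Ms l)).P (s (l, j))) hj
          · refine le_trans ?_ (le_max_right M1 (Ms L))
            refine le_trans ?_ (hMsmono (Nat.succ_le_of_lt hl))
            rw [hMs]
            exact le_max_left _ _
      _ = θ := by
          rw [Finset.sum_const, Finset.card_range, nsmul_eq_mul]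
          have := (hN0 l).ne'
          field_simp
  -- the points
  have hx0D : ∀ l < L, ∀ γ ∈ D l, x0.1 γ = 0 := by
    intro l hl γ hγ
    refine hx0F γ fun h => hDQ l hl γ hγ (Or.inl ?_)
    exact Finset.mem_coe.mpr (Finset.mem_union_left _ h)
  have hx0sum : ∀ F : Finset Γ, ∑ γ ∈ F, |x0.1 γ| ≤ 1 - ρ := by
    intro F
    have h1 : ∑ γ ∈ F, |x0.1 γ| ≤ ∑ γ ∈ F ∪ F0, |x0.1 γ| :=
      Finset.sum_le_sum_of_subset_of_nonneg Finset.subset_union_left fun _ _ _ => abs_nonneg _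
    have h2 : ∑ γ ∈ F0, |x0.1 γ| = ∑ γ ∈ F ∪ F0, |x0.1 γ| := by
      refine Finset.sum_subset Finset.subset_union_right fun γ _ hγ => ?_
      rw [hx0F γ hγ, abs_zero]
    rw [hρdef]
    linarith
  have hxmem : ∀ l, l < L → (fun γ => if γ ∈ D l then ρ / N l else x0.1 γ) ∈ Ball Γ := by
    intro l hl F
    have h1 : ∀ γ ∈ F, |if γ ∈ D l then ρ / N l else x0.1 γ| =
        (if γ ∈ D l then ρ / N l else 0) + |x0.1 γ| := by
      intro γ _
      split_ifs with h
      · rw [hx0D l hl γ h, abs_zero, add_zero, abs_of_nonneg (div_pos hρ (hN0 l)).le]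
      · rw [zero_add]
    rw [Finset.sum_congr rfl h1, Finset.sum_add_distrib]
    have h2 : ∑ γ ∈ F, (if γ ∈ D l then ρ / N l else 0) ≤ ρ := by
      rw [← Finset.sum_filter]
      calc ∑ γ ∈ F with γ ∈ D l, ρ / N l ≤ ∑ γ ∈ D l, ρ / N l := by
            refine Finset.sum_le_sum_of_subset_of_nonneg ?_ fun _ _ _ =>
              (div_pos hρ (hN0 l)).le
            intro γ hγ
            exact (Finset.mem_filter.mp hγ).2
        _ = ρ := by
            rw [Finset.sum_const, hDcard l hl, nsmul_eq_mul]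
            have := (hN0 l).ne'
            field_simp
    have h3 := hx0sum F
    linarith
  -- the maximal patterns
  have hW : ∀ l v, ∃ w, v ∈ Pat P0 M → (w ∈ Pat (Pl l) M ∧ red P0 M w = v ∧
      ∀ w' ∈ Pat (Pl l) M, red P0 M w' = v → |f l w'| ≤ |f l w|) := by
    intro l v
    by_cases hv : v ∈ Pat P0 M
    · have hne : ((Pat (Pl l) M).filter fun w => red P0 M w = v).Nonempty := by
        refine ⟨red (Pl l) M v, ?_⟩
        rw [Finset.mem_filter]
        refine ⟨red_mem _ _ _, ?_⟩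
        rw [red_red (hP0Pl l) le_rfl]
        exact mem_Pat.mp hv
      obtain ⟨w, hw, hwm⟩ := Finset.exists_max_image _ (fun w => |f l w|) hne
      rw [Finset.mem_filter] at hw
      exact ⟨w, fun _ => ⟨hw.1, hw.2, fun w' h1 h2 => hwm w' (Finset.mem_filter.mpr ⟨h1, h2⟩)⟩⟩
    · exact ⟨v, fun h => absurd h hv⟩
  choose W hW using hW
  have hkey : ∀ l < L, ρ / 2 ≤ ∑ v ∈ Pat P0 M, |f l (W l v)| * |T (ind P0 M v) x0| := by
    intro l hl
    have h1 := key T (hP0Pl l) (M := M) (x₀ := x0) (x := ⟨_, hxmem l hl⟩) (δ := δ) (θ := θ)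
      (c := KS * ρ) (ρ := ρ) (f l)
      (fun v hv => by
        refine hQv v _ _ fun γ hγ => ?_
        have h2 : γ ∉ D l := fun h => hDQ l hl γ h
          (Or.inr (Set.mem_iUnion₂.mpr ⟨v, Finset.mem_coe.mpr hv, hγ⟩))
        simp only [if_neg h2])
      (fun ξ => hfsupp l hl ξ _ (red_red (Finset.Subset.refl _) le_rfl ξ).symm)
      (by
        simp only [f]
        rw [hTS]
        simp only [e]
        rw [ContinuousMap.sum_apply]
        calc ∑ j ∈ Finset.range (N l), uf (ρ / N l) (s (l, j)) ⟨_, hxmem l hl⟩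
            = ∑ _j ∈ Finset.range (N l), ρ / N l := by
              refine Finset.sum_congr rfl fun j hj => ?_
              have h2 : s (l, j) ∈ D l := Finset.mem_image_of_mem (fun j => s (l, j)) hj
              rw [uf_apply]
              simp only [if_pos h2]
              rw [abs_of_nonneg (div_pos hρ (hN0 l)).le, min_self]
          _ = ρ := by
              rw [Finset.sum_const, Finset.card_range, nsmul_eq_mul]
              have := (hN0 l).ne'
              field_simp)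
      (fun v => |f l (W l v)|)
      (fun w hw => (hW l _ (red_mem P0 M w)).2.2 w hw rfl)
      (fun v _ => hfb l _)
      (by positivity)
      (by
        refine (hmax _ _ _).trans ?_
        have := Np_mono T (P := P1) (P' := P0) (M := M1) (M' := M) Finset.subset_union_left
          (le_max_left _ _) x0
        linarith)
    have h2 : ‖T‖ * θ ≤ ρ / 16 := by
      calc ‖T‖ * θ ≤ KT * θ := mul_le_mul_of_nonneg_right (by linarith) hθ.le
        _ = ρ / 16 := by rw [hθdef]; field_simp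
    have h3 : KS * ρ * δ = ρ / 4 := by rw [hδdef]; field_simp
    linarith
  -- choose v
  have hv : ∃ v ∈ Pat P0 M, L * ρ / (2 * KT) ≤ ∑ l ∈ Finset.range L, |f l (W l v)| := by
    by_contra hcon
    push Not at hcon
    have h1 : L * (ρ / 2) ≤ ∑ l ∈ Finset.range L, ∑ v ∈ Pat P0 M,
        |f l (W l v)| * |T (ind P0 M v) x0| := by
      calc (L : ℝ) * (ρ / 2) = ∑ _l ∈ Finset.range L, ρ / 2 := by
            rw [Finset.sum_const, Finset.card_range, nsmul_eq_mul]
        _ ≤ _ := Finset.sum_le_sum fun l hl => hkey l (Finset.mem_range.mp hl)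
    rw [Finset.sum_comm] at h1
    have h2 : ∑ v ∈ Pat P0 M, ∑ l ∈ Finset.range L, |f l (W l v)| * |T (ind P0 M v) x0| ≤
        L * ρ / (2 * KT) * ‖T‖ := by
      calc ∑ v ∈ Pat P0 M, ∑ l ∈ Finset.range L, |f l (W l v)| * |T (ind P0 M v) x0|
          ≤ ∑ v ∈ Pat P0 M, L * ρ / (2 * KT) * |T (ind P0 M v) x0| := by
            refine Finset.sum_le_sum fun v hv => ?_
            rw [← Finset.sum_mul]
            exact mul_le_mul_of_nonneg_right (hcon v hv).le (abs_nonneg _)
        _ = L * ρ / (2 * KT) * Np T P0 M x0 := by rw [← Finset.mul_sum]; rfl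
        _ ≤ L * ρ / (2 * KT) * ‖T‖ :=
            mul_le_mul_of_nonneg_left (Np_le T _ _ _) (by positivity)
    have h3 : L * ρ / (2 * KT) * ‖T‖ < L * (ρ / 2) := by
      calc L * ρ / (2 * KT) * ‖T‖ < L * ρ / (2 * KT) * KT :=
            mul_lt_mul_of_pos_left (by linarith) (by positivity)
        _ = L * (ρ / 2) := by field_simp
    linarith
  obtain ⟨v, hvP, hv⟩ := hv
  -- the merged point
  let ξ : ℕ → OnePoint Γ := fun k =>
    if h : ∃ l, k < Ms (l + 1) then W (Nat.find h) v k else OnePoint.infty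
  have hmerge : ∀ l < L, |f l (W l v)| ≤ |f l ξ| + 2 * θ := by
    intro l hl
    obtain ⟨hw1, hw2, -⟩ := hW l v hvP
    have hMsl : Ms (l + 1) ≤ M := (hMsmono (Nat.succ_le_of_lt hl)).trans (le_max_right _ _)
    -- disturbed indices
    let Dist : Finset ℕ := (Finset.range (N l)).filter fun j =>
      ∃ k < Ms l, ∃ i ∈ (d (Ms l)).P (s (l, j)), W l v k = (i : OnePoint Γ)
    have hcard : Dist.card ≤ Ms l := by
      have hsub : Dist ⊆ (Finset.range (Ms l)).biUnion fun k => (Finset.range (N l)).filter fun j =>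
          ∃ i ∈ (d (Ms l)).P (s (l, j)), W l v k = (i : OnePoint Γ) := by
        intro j hj
        obtain ⟨hj1, k, hk, hk2⟩ := Finset.mem_filter.mp hj
        exact Finset.mem_biUnion.mpr ⟨k, Finset.mem_range.mpr hk, Finset.mem_filter.mpr ⟨hj1, hk2⟩⟩
      refine (Finset.card_le_card hsub).trans ?_
      refine (Finset.card_biUnion_le_card_mul _ _ 1 fun k _ => ?_).trans (by simp)
      refine Finset.card_le_one.mpr fun j hj j' hj' => ?_
      obtain ⟨hj1, i, hi, hki⟩ := Finset.mem_filter.mp hj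
      obtain ⟨hj1', i', hi', hki'⟩ := Finset.mem_filter.mp hj'
      have hii : i = i' := OnePoint.coe_injective (hki.symm.trans hki')
      by_contra hne
      have := (hsne l hl j (Finset.mem_range.mp hj1) l hl j' (Finset.mem_range.mp hj1')
        (fun h => hne (Prod.ext_iff.mp h).2)).2
      rw [Finset.disjoint_left] at this
      exact this hi (hii ▸ hi')
    have hgood : ∀ j ∈ Finset.range (N l), j ∉ Dist →
        |S (uf (ρ / N l) (s (l, j))) ξ - S (uf (ρ / N l) (s (l, j))) (W l v)| ≤ θ / N l := by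
      intro j hj hjD
      have hjN := Finset.mem_range.mp hj
      refine (d (Ms l)).supp _ (hsI l hl j hjN) ((d (Ms l)).R ∪ (d (Ms l)).P (s (l, j)))
        Finset.subset_union_left Finset.subset_union_right (Ms (l + 1)) ?_ ξ (W l v) ?_
      · rw [hMs]; exact le_max_left _ _
      rw [red_eq_iff]
      intro k hk i hi
      have hex : ∃ l, k < Ms (l + 1) := ⟨l, hk⟩
      have hξk : ξ k = W (Nat.find hex) v k := dif_pos hex
      have hfind1 : Nat.find hex ≤ l := Nat.find_min' hex hk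
      have hfind2 : k < Ms (Nat.find hex + 1) := Nat.find_spec hex
      rw [hξk]
      rcases hfind1.eq_or_lt with heq | hlt
      · rw [heq]
      · have hl0L : Nat.find hex < L := hlt.trans hl
        obtain ⟨hw1', hw2', -⟩ := hW (Nat.find hex) v hvP
        have hkMsl : k < Ms l := hfind2.trans_le (hMsmono (Nat.succ_le_of_lt hlt))
        by_cases hiP0 : i ∈ P0
        · have h1 : red P0 M (W (Nat.find hex) v) = red P0 M (W l v) := by rw [hw2, hw2']
          exact red_eq_iff.mp h1 k (hk.trans_le hMsl) i hiP0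
        · have hiP : i ∈ (d (Ms l)).P (s (l, j)) := by
            rcases Finset.mem_union.mp hi with h | h
            · exfalso
              apply hiP0
              refine Finset.mem_union_right _ ?_
              exact Finset.mem_biUnion.mpr ⟨l, Finset.mem_range.mpr hl, h⟩
            · exact h
          constructor
          · intro h
            exfalso
            have h1 : i ∈ Pl (Nat.find hex) := mem_of_mem_Pat hw1' h
            rcases Finset.mem_union.mp h1 with h2 | h2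
            · exact hiP0 h2
            · obtain ⟨j', hj', hij'⟩ := Finset.mem_biUnion.mp h2
              have h3 := (hsne l hl j hjN (Nat.find hex) hl0L j' (Finset.mem_range.mp hj')
                (fun h => hlt.ne' (Prod.ext_iff.mp h).1)).2
              rw [Finset.disjoint_left] at h3
              exact h3 hiP hij'
          · intro h
            exfalso
            exact hjD (Finset.mem_filter.mpr ⟨hj, k, hkMsl, i, hiP, h⟩)
    have hdiff : |f l ξ - f l (W l v)| ≤ 2 * θ := by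
      rw [hfsum, hfsum, ← Finset.sum_sub_distrib]
      calc |∑ j ∈ Finset.range (N l), (S (uf (ρ / N l) (s (l, j))) ξ -
            S (uf (ρ / N l) (s (l, j))) (W l v))|
          ≤ ∑ j ∈ Finset.range (N l), |S (uf (ρ / N l) (s (l, j))) ξ -
            S (uf (ρ / N l) (s (l, j))) (W l v)| := Finset.abs_sum_le_sum_abs _ _
        _ ≤ ∑ j ∈ Finset.range (N l), (θ / N l + if j ∈ Dist then 2 * (‖S‖ * (ρ / N l)) else 0) := by
            refine Finset.sum_le_sum fun j hj => ?_
            split_ifs with h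
            · have h1 := hSuf l (s (l, j)) ξ
              have h2 := hSuf l (s (l, j)) (W l v)
              have h3 := abs_sub (S (uf (ρ / N l) (s (l, j))) ξ)
                (S (uf (ρ / N l) (s (l, j))) (W l v))
              have h4 : 0 ≤ θ / N l := (div_pos hθ (hN0 l)).le
              linarith
            · rw [add_zero]
              exact hgood j hj h
        _ = θ + Dist.card * (2 * (‖S‖ * (ρ / N l))) := by
            rw [Finset.sum_add_distrib, Finset.sum_const, Finset.card_range, nsmul_eq_mul,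
              ← Finset.sum_filter, Finset.sum_const, nsmul_eq_mul]
            congr 1
            · have := (hN0 l).ne'
              field_simp
            · congr 3
              ext j
              simp only [Dist, Finset.mem_filter]
              tauto
        _ ≤ θ + θ := by
            have h1 : (Dist.card : ℝ) ≤ Ms l := by exact_mod_cast hcard
            have h2 : (Dist.card : ℝ) * (2 * (‖S‖ * (ρ / N l))) ≤
                Ms l * (2 * (‖S‖ * (ρ / N l))) := mul_le_mul_of_nonneg_right h1 (by positivity)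
            have h3 : Ms l * (2 * (‖S‖ * (ρ / N l))) ≤ θ := by
              have h4 := hn (Ms l)
              have h5 : Ms l * (2 * (‖S‖ * (ρ / N l))) = 2 * ‖S‖ * ρ * Ms l / N l := by ring
              rw [h5, div_le_iff₀ (hN0 l)]
              exact h4
            linarith
        _ = 2 * θ := by ring
    have h1 := abs_sub_abs_le_abs_sub (f l (W l v)) (f l ξ)
    rw [abs_sub_comm] at hdiff
    linarith
  -- conclusion
  have h1 := hfL ξ
  have h2 : L * ρ / (2 * KT) ≤ ∑ l ∈ Finset.range L, (|f l ξ| + 2 * θ) :=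
    hv.trans (Finset.sum_le_sum fun l hl => hmerge l (Finset.mem_range.mp hl))
  rw [Finset.sum_add_distrib, Finset.sum_const, Finset.card_range, nsmul_eq_mul] at h2
  have h3 : (L : ℝ) * (2 * θ) = L * ρ / (8 * KT) := by rw [hθdef]; field_simp; ring
  have h4 : L * ρ / (2 * KT) - L * ρ / (8 * KT) = 3 * (L * ρ) / (8 * KT) := by field_simp; ring
  have h5 : KS < 3 * (L * ρ) / (8 * KT) := by
    rw [lt_div_iff₀ (by positivity)]
    rw [div_lt_iff₀ (by positivity)] at hL
    linarith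
  linarith

end main

end Pool.Agent.Helper358.Compl
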