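import Pool.Agent.Helper358.Cover

/-!
The Pełczyński decomposition method.
-/

set_option autoImplicit false

namespace Pool.Agent.Helper358.CK

open Topology

section

variable {Z : Type} [TopologicalSpace Z] [CompactSpace Z]

variable {X Y W B : Type} [NormedAddCommGroup X] [NormedSpace ℝ X] [NormedAddCommGroup Y]
  [NormedSpace ℝ Y] [NormedAddCommGroup W] [NormedSpace ℝ W] [NormedAddCommGroup B]
  [NormedSpace ℝ B]

variable (Z) in
/-- postcomposition -/
def postC (h : Y ≃L[ℝ] W) : C(Z, Y) ≃L[ℝ] C(Z, W) where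
  toFun f := (h : C(Y, W)).comp f
  invFun f := (h.symm : C(W, Y)).comp f
  map_add' f g := by ext x; simp
  map_smul' r f := by ext x; simp
  left_inv f := by ext x; simp
  right_inv f := by ext x; simp
  continuous_toFun := ContinuousMap.continuous_postcomp (h : C(Y, W))
  continuous_invFun := ContinuousMap.continuous_postcomp (h.symm : C(W, Y))

variable (Z X B) in
/-- `C(Z, X × B) ≃ C(Z, X) × C(Z, B)` -/
noncomputable def prodC : C(Z, X × B) ≃L[ℝ] C(Z, X) × C(Z, B) :=
  LinearEquiv.toContinuousLinearEquivOfBounds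
    { toFun := fun f => (ContinuousMap.comp ⟨Prod.fst, continuous_fst⟩ f,
        ContinuousMap.comp ⟨Prod.snd, continuous_snd⟩ f)
      invFun := fun p => ⟨fun z => (p.1 z, p.2 z), p.1.continuous.prodMk p.2.continuous⟩
      map_add' := fun f g => rfl
      map_smul' := fun r f => rfl
      left_inv := fun f => by ext x <;> rfl
      right_inv := fun f => by ext x <;> rfl } 1 1
    (fun f => by
      rw [one_mul]
      refine max_le ?_ ?_
      · refine (ContinuousMap.norm_le _ (norm_nonneg f)).mpr fun z => ?_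
        exact (norm_fst_le (f z)).trans (f.norm_coe_le_norm z)
      · refine (ContinuousMap.norm_le _ (norm_nonneg f)).mpr fun z => ?_
        exact (norm_snd_le (f z)).trans (f.norm_coe_le_norm z))
    (fun p => by
      rw [one_mul]
      refine (ContinuousMap.norm_le _ (norm_nonneg p)).mpr fun z => ?_
      refine max_le ?_ ?_
      · exact (p.1.norm_coe_le_norm z).trans (norm_fst_le p)
      · exact (p.2.norm_coe_le_norm z).trans (norm_snd_le p))

variable (X) in
/-- `C(Z, X) ≃ X × C(Z, X)` when `Z ≅ Unit ⊕ Z`. -/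
noncomputable def addC (h : Z ≃ₜ Unit ⊕ Z) : C(Z, X) ≃L[ℝ] X × C(Z, X) :=
  LinearEquiv.toContinuousLinearEquivOfBounds
    { toFun := fun f => (f (h.symm (Sum.inl ())),
        ⟨fun z => f (h.symm (Sum.inr z)),
          f.continuous.comp (h.symm.continuous.comp continuous_inr)⟩)
      invFun := fun p => ⟨fun z => Sum.elim (fun _ => p.1) p.2 (h z),
        (continuous_const.sumElim p.2.continuous).comp h.continuous⟩
      map_add' := fun f g => rfl
      map_smul' := fun r f => rfl
      left_inv := fun f => by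
        ext x
        obtain ⟨y, rfl⟩ := h.symm.surjective x
        rcases y with y | y <;> simp
      right_inv := fun f => by
        refine Prod.ext ?_ ?_
        · simp
        · ext x; simp } 1 1
    (fun f => by
      rw [one_mul]
      refine max_le ?_ ?_
      · exact f.norm_coe_le_norm _
      · refine (ContinuousMap.norm_le _ (norm_nonneg f)).mpr fun z => ?_
        exact f.norm_coe_le_norm _)
    (fun p => by
      rw [one_mul]
      refine (ContinuousMap.norm_le _ (norm_nonneg p)).mpr fun z => ?_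
      change ‖Sum.elim (fun _ => p.1) p.2 (h z)‖ ≤ ‖p‖
      rcases h z with y | y
      · exact norm_fst_le p
      · exact (p.2.norm_coe_le_norm _).trans (norm_snd_le p))

lemma absorb (h : Z ≃ₜ Unit ⊕ Z) (hY : Y ≃L[ℝ] C(Z, Y)) (hXB : Y ≃L[ℝ] X × B) :
    Nonempty (Y ≃L[ℝ] X × Y) := by
  have e1 : Y ≃L[ℝ] C(Z, X) × C(Z, B) := (hY.trans (postC Z hXB)).trans (prodC Z X B)
  have e2 : (C(Z, X) × C(Z, B)) ≃L[ℝ] (X × C(Z, X)) × C(Z, B) :=
    (addC X h).prodCongr (ContinuousLinearEquiv.refl ℝ _)
  have e3 : ((X × C(Z, X)) × C(Z, B)) ≃L[ℝ] X × (C(Z, X) × C(Z, B)) :=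
    ContinuousLinearEquiv.prodAssoc ℝ X C(Z, X) C(Z, B)
  exact ⟨((e1.trans e2).trans e3).trans ((ContinuousLinearEquiv.refl ℝ X).prodCongr e1.symm)⟩

theorem pelczynski (h : Z ≃ₜ Unit ⊕ Z) (hY : Y ≃L[ℝ] C(Z, Y)) (hXY : Cpl X Y) (hYX : Cpl Y X) :
    Nonempty (X ≃L[ℝ] Y) := by
  obtain ⟨S, T, hST⟩ := hXY
  obtain ⟨S', T', hST'⟩ := hYX
  have e1 : Y ≃L[ℝ] X × T.ker := ContinuousLinearEquiv.equivOfRightInverse T S hST
  have e2 : X ≃L[ℝ] Y × T'.ker := ContinuousLinearEquiv.equivOfRightInverse T' S' hST'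
  obtain ⟨e3⟩ := absorb h hY e1
  obtain ⟨e4⟩ := absorb (X := Y) (B := PUnit) h hY
    (ContinuousLinearEquiv.prodUnique ℝ Y PUnit).symm
  -- X ≃ Y × A ≃ (Y × Y) × A ≃ Y × (Y × A) ≃ Y × X ≃ X × Y ≃ Y
  have e5 : X ≃L[ℝ] (Y × Y) × T'.ker :=
    e2.trans (e4.prodCongr (ContinuousLinearEquiv.refl ℝ _))
  have e6 : X ≃L[ℝ] Y × (Y × T'.ker) :=
    e5.trans (ContinuousLinearEquiv.prodAssoc ℝ Y Y T'.ker)
  have e7 : X ≃L[ℝ] Y × X :=
    e6.trans ((ContinuousLinearEquiv.refl ℝ Y).prodCongr e2.symm)
  exact ⟨(e7.trans (ContinuousLinearEquiv.prodComm ℝ Y X)).trans e3.symm⟩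

end

section

variable {X Y : Type} [TopologicalSpace X] [TopologicalSpace Y] [CompactSpace X] [CompactSpace Y]

lemma cpl_of_retract (i : C(X, Y)) (r : C(Y, X)) (h : ∀ x, r (i x) = x) :
    Cpl C(X, ℝ) C(Y, ℝ) := by
  refine ⟨{ toFun := fun g => g.comp r
            map_add' := fun f g => rfl
            map_smul' := fun r f => rfl
            cont := ContinuousMap.continuous_precomp r },
          { toFun := fun g => g.comp i
            map_add' := fun f g => rfl
            map_smul' := fun r f => rfl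
            cont := ContinuousMap.continuous_precomp i }, fun g => ?_⟩
  ext x
  change g (r (i x)) = g x
  rw [h]

/-- homeomorphic spaces -/
def congrC (h : X ≃ₜ Y) : C(X, ℝ) ≃L[ℝ] C(Y, ℝ) where
  toFun f := f.comp (h.symm : C(Y, X))
  invFun f := f.comp (h : C(X, Y))
  map_add' f g := rfl
  map_smul' r f := rfl
  left_inv f := by ext x; simp
  right_inv f := by ext x; simp
  continuous_toFun := ContinuousMap.continuous_precomp _
  continuous_invFun := ContinuousMap.continuous_precomp _

variable (X Y) in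
/-- currying -/
def curryC [T2Space X] [T2Space Y] : C(X × Y, ℝ) ≃L[ℝ] C(X, C(Y, ℝ)) where
  toFun f := f.curry
  invFun f := f.uncurry
  map_add' f g := rfl
  map_smul' r f := rfl
  left_inv f := by ext x; rfl
  right_inv f := by ext x; rfl
  continuous_toFun := ContinuousMap.continuous_curry
  continuous_invFun := ContinuousMap.continuous_uncurry

end

end Pool.Agent.Helper358.CK
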