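import Pool.Agent.Helper358.Fixed
import Pool.Agent.Helper358.Pel

/-!
Core theorem: a compact convex set `K` of nonnegative families of sum at most one and a compact
zero-dimensional `L` such that `C(K)` and `C(L)` are isomorphic.
-/

set_option autoImplicit false

namespace Pool.Agent.Helper358.CK

open Topology Cardinal

/-- index set of thresholds -/
abbrev TT : Type := {p : ℚ × ℚ // 0 < p.1 ∧ p.1 < p.2}

lemma exists_equiv (S : Type) [Infinite S] : Nonempty (S ≃ (ℕ × S) ⊕ (TT × Finset S)) := by
  rw [← Cardinal.eq]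
  have hS : ℵ₀ ≤ #S := Cardinal.aleph0_le_mk S
  have hT : #TT ≤ ℵ₀ := Cardinal.mk_le_aleph0
  have h1 : #(ℕ × S) = #S := by
    rw [Cardinal.mk_prod, Cardinal.lift_id, Cardinal.lift_id, Cardinal.mk_nat]
    exact Cardinal.aleph0_mul_eq hS
  have h2 : #(TT × Finset S) ≤ #S := by
    rw [Cardinal.mk_prod, Cardinal.lift_id, Cardinal.lift_id, Cardinal.mk_finset_of_infinite]
    calc #TT * #S ≤ ℵ₀ * #S := mul_le_mul_left hT _
      _ = #S := Cardinal.aleph0_mul_eq hS
  rw [Cardinal.mk_sum, Cardinal.lift_id, Cardinal.lift_id, h1]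
  exact (Cardinal.add_eq_left hS h2).symm

section

variable (S : Type)

/-- The homeomorphism `Unit ⊕ Z0 S ≅ Z0 S`. -/
lemma exists_homeo_Z0 [Infinite S] : Nonempty (Z0 S ≃ₜ Unit ⊕ Z0 S) := by
  classical
  obtain ⟨o⟩ : Nonempty (Option S ≃ S) := by
    rw [← Cardinal.eq, Cardinal.mk_option]
    exact Cardinal.add_one_eq (Cardinal.aleph0_le_mk S)
  have hZc : CompactSpace (Z0 S) := isCompact_iff_compactSpace.mp (isClosed_Z0 S).isCompact
  let F : Unit ⊕ Z0 S → Z0 S := Sum.elim
    (fun _ => ⟨fun s => decide (o.symm s = none), by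
      intro s s' h h'
      simp only [decide_eq_true_eq] at h h'
      exact o.symm.injective (h.trans h'.symm)⟩)
    (fun b => ⟨fun s => (o.symm s).elim false b.1, by
      intro s s' h h'
      rcases hs : o.symm s with _ | t
      · simp [hs] at h
      · rcases hs' : o.symm s' with _ | t'
        · simp [hs'] at h'
        · simp only [hs, hs', Option.elim_some] at h h'
          have := b.2 t t' h h'
          apply o.symm.injective
          rw [hs, hs', this]⟩)
  have hFc : Continuous F := by
    refine continuous_const.sumElim ?_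
    apply Continuous.subtype_mk
    refine continuous_pi fun s => ?_
    rcases hs : o.symm s with _ | t
    · simpa [hs] using continuous_const
    · simp only [hs, Option.elim_some]
      exact (continuous_apply t).comp continuous_subtype_val
  have hFinj : Function.Injective F := by
    intro x y hxy
    have hxy' := congrArg Subtype.val hxy
    rcases x with x | x <;> rcases y with y | y
    · rfl
    · have := congrFun hxy' (o none)
      simp [F] at this
    · have := congrFun hxy' (o none)
      simp [F] at this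
    · congr 1
      apply Subtype.ext
      funext s
      have := congrFun hxy' (o (some s))
      simpa [F] using this
  have hFsurj : Function.Surjective F := by
    intro y
    rcases hy : y.1 (o none) with _ | _
    · refine ⟨Sum.inr ⟨fun s => y.1 (o (some s)), ?_⟩, ?_⟩
      · intro s s' h h'
        have := y.2 _ _ h h'
        simpa using this
      · apply Subtype.ext
        funext s
        obtain ⟨t, rfl⟩ := o.surjective s
        rcases t with _ | t
        · simp [F, hy]
        · simp [F]
    · refine ⟨Sum.inl (), ?_⟩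
      apply Subtype.ext
      funext s
      rcases hs : y.1 s with _ | _
      · simp only [F, Sum.elim_inl, decide_eq_false_iff_not]
        intro h
        have : s = o none := by rw [← h]; simp
        rw [this, hy] at hs
        simp at hs
      · have := y.2 _ _ hs hy
        simp [F, this]
  exact ⟨(Continuous.homeoOfEquivCompactToT2 (f := Equiv.ofBijective F ⟨hFinj, hFsurj⟩)
    hFc).symm⟩

end

section

variable {S T : Type} {a c ε : T → ℝ} (e : S ≃ (ℕ × S) ⊕ (T × Finset S))

/-- glue -/
def glue (b : ℕ × S → Bool) (b' : T × Finset S → Bool) : S → Bool := fun s => Sum.elim b b' (e s)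

@[simp] lemma lp_glue (b : ℕ × S → Bool) (b' : T × Finset S → Bool) : lp' e (glue e b b') = b := by
  funext p; simp [lp', glue]

@[simp] lemma rp_glue (b : ℕ × S → Bool) (b' : T × Finset S → Bool) : rp' e (glue e b b') = b' := by
  funext p; simp [rp', glue]

lemma glue_lp_rp (z : S → Bool) : glue e (lp' e z) (rp' e z) = z := by
  funext s
  change Sum.elim (lp' e z) (rp' e z) (e s) = z s
  rcases h : e s with p | p
  · have : e.symm (Sum.inl p) = s := by rw [← h, Equiv.symm_apply_apply]
    change z (e.symm (Sum.inl p)) = z s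
    rw [this]
  · have : e.symm (Sum.inr p) = s := by rw [← h, Equiv.symm_apply_apply]
    change z (e.symm (Sum.inr p)) = z s
    rw [this]

lemma continuous_glue : Continuous (fun p : (ℕ × S → Bool) × (T × Finset S → Bool) =>
    glue e p.1 p.2) := by
  refine continuous_pi fun s => ?_
  unfold glue
  rcases h : e s with p | p
  · exact (continuous_apply p).comp continuous_fst
  · exact (continuous_apply p).comp continuous_snd

variable {L : Set (S → Bool)}

lemma cpl_cov_L (hfix : Phi a c ε e L = L) [CompactSpace L]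
    [CompactSpace (Cov a c (KL (wF a ε e) L))] :
    Cpl C(Cov a c (KL (wF a ε e) L), ℝ) C(L, ℝ) := by
  have hmem : ∀ z, z ∈ L ↔ z ∈ Phi a c ε e L := fun z => by rw [hfix]
  let i : C(Cov a c (KL (wF a ε e) L), L) :=
    ⟨fun b => ⟨glue e (fun _ => false) b.1, (hmem _).mpr ⟨by
      rw [lp_glue]
      intro n s s' h
      simp at h, by
      rw [rp_glue]; exact b.2⟩⟩, by
      apply Continuous.subtype_mk
      exact (continuous_glue e).comp (continuous_const.prodMk continuous_subtype_val)⟩
  let r : C(L, Cov a c (KL (wF a ε e) L)) :=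
    ⟨fun z => ⟨rp' e z.1, ((hmem _).mp z.2).2⟩, by
      apply Continuous.subtype_mk
      exact (continuous_rp' e).comp continuous_subtype_val⟩
  refine cpl_of_retract i r fun b => ?_
  apply Subtype.ext
  change rp' e (glue e _ b.1) = b.1
  rw [rp_glue]

/-- push one more coordinate -/
def cons (b0 : S → Bool) (b : ℕ × S → Bool) : ℕ × S → Bool :=
  fun p => match p with
  | (0, s) => b0 s
  | (n + 1, s) => b (n, s)

lemma exists_homeo_L (hfix : Phi a c ε e L = L) [CompactSpace L] : Nonempty (L ≃ₜ Z0 S × L) := by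
  have hmem : ∀ z, z ∈ L ↔ z ∈ Phi a c ε e L := fun z => by rw [hfix]
  have hZc : CompactSpace (Z0 S) := isCompact_iff_compactSpace.mp (isClosed_Z0 S).isCompact
  let F : Z0 S × L → L := fun p => ⟨glue e (cons p.1.1 (lp' e p.2.1)) (rp' e p.2.1), by
    rw [hmem]
    have h2 := (hmem _).mp p.2.2
    refine ⟨?_, ?_⟩
    · rw [lp_glue]
      intro n s s'
      rcases n with _ | n
      · exact p.1.2 s s'
      · exact h2.1 n s s'
    · rw [rp_glue]
      exact h2.2⟩
  have hFc : Continuous F := by
    apply Continuous.subtype_mk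
    refine (continuous_glue e).comp (Continuous.prodMk ?_ ?_)
    · refine continuous_pi fun p => ?_
      obtain ⟨n, s⟩ := p
      rcases n with _ | n
      · exact (continuous_apply s).comp (continuous_subtype_val.comp continuous_fst)
      · exact (continuous_apply (e.symm (Sum.inl (n, s)))).comp
          (continuous_subtype_val.comp continuous_snd)
    · exact (continuous_rp' e).comp (continuous_subtype_val.comp continuous_snd)
  have hFinj : Function.Injective F := by
    intro x y hxy
    have hxy' : glue e (cons x.1.1 (lp' e x.2.1)) (rp' e x.2.1) =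
        glue e (cons y.1.1 (lp' e y.2.1)) (rp' e y.2.1) := congrArg Subtype.val hxy
    have h1 : cons x.1.1 (lp' e x.2.1) = cons y.1.1 (lp' e y.2.1) := by
      have := congrArg (lp' e) hxy'
      simpa using this
    have h2 : rp' e x.2.1 = rp' e y.2.1 := by
      have := congrArg (rp' e) hxy'
      simpa using this
    have h3 : x.1.1 = y.1.1 := by
      funext s
      exact congrFun h1 (0, s)
    have h4 : lp' e x.2.1 = lp' e y.2.1 := by
      funext p
      exact congrFun h1 (p.1 + 1, p.2)
    refine Prod.ext (Subtype.ext h3) (Subtype.ext ?_)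
    rw [← glue_lp_rp e x.2.1, ← glue_lp_rp e y.2.1, h2, h4]
  have hFsurj : Function.Surjective F := by
    intro y
    have hy := (hmem _).mp y.2
    refine ⟨(⟨fun s => lp' e y.1 (0, s), fun s s' => hy.1 0 s s'⟩,
      ⟨glue e (fun p => lp' e y.1 (p.1 + 1, p.2)) (rp' e y.1), (hmem _).mpr ⟨?_, ?_⟩⟩), ?_⟩
    · rw [lp_glue]
      intro n s s'
      exact hy.1 (n + 1) s s'
    · rw [rp_glue]
      exact hy.2
    · apply Subtype.ext
      change glue e (cons (fun s => lp' e y.1 (0, s))
        (lp' e (glue e (fun p => lp' e y.1 (p.1 + 1, p.2)) (rp' e y.1))))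
        (rp' e (glue e (fun p => lp' e y.1 (p.1 + 1, p.2)) (rp' e y.1))) = y.1
      rw [lp_glue, rp_glue]
      conv_rhs => rw [← glue_lp_rp e y.1]
      congr 1
      funext p
      obtain ⟨n, s⟩ := p
      rcases n with _ | n <;> rfl
  exact ⟨(Continuous.homeoOfEquivCompactToT2 (f := Equiv.ofBijective F ⟨hFinj, hFsurj⟩)
    hFc).symm⟩

lemma not_metrizable (ha : ∀ t, 0 < a t) (hε : ∀ t, 0 < ε t) (hfix : Phi a c ε e L = L)
    (h0 : z00 S ∈ L) [Uncountable S] :
    ¬ TopologicalSpace.MetrizableSpace (KL (wF a ε e) L) := by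
  classical
  intro hmet
  have hmem : ∀ z, z ∈ L ↔ z ∈ Phi a c ε e L := fun z => by rw [hfix]
  let q0 : KL (wF a ε e) L := ⟨0, zero_mem_KL e h0⟩
  have hG : IsGδ ({q0} : Set (KL (wF a ε e) L)) := IsGδ.singleton q0
  obtain ⟨f, hfo, hf⟩ := isGδ_iff_eq_iInter_nat.mp hG
  have hfin : ∀ n, ∃ I : Finset (Finset S), ∀ q : KL (wF a ε e) L, (∀ R ∈ I, q.1 R = 0) → q ∈ f n := by
    intro n
    obtain ⟨V, hV, hVf⟩ := isOpen_induced_iff.mp (hfo n)
    have hq0 : q0 ∈ f n := by
      have : q0 ∈ ⋂ n, f n := by rw [← hf]; rfl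
      exact Set.mem_iInter.mp this n
    rw [← hVf] at hq0
    obtain ⟨I, u, hu, hsub⟩ := isOpen_pi_iff.mp hV _ hq0
    refine ⟨I, fun q hq => ?_⟩
    rw [← hVf]
    refine hsub fun R hR => ?_
    rw [hq R hR]
    exact (hu R hR).2
  choose I hI using hfin
  let C : Set S := ⋃ n, ⋃ R ∈ I n, (R : Set S)
  have hC : C.Countable := Set.countable_iUnion fun n =>
    (I n).countable_toSet.biUnion fun R _ => R.countable_toSet
  let g : S → S := fun s => e.symm (Sum.inl (0, s))
  have hg : Function.Injective g := by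
    intro s s' h
    have := e.symm.injective h
    simpa using this
  obtain ⟨s, hs⟩ : ∃ s, g s ∉ C := by
    by_contra hcon
    push Not at hcon
    have hrange : Set.range g ⊆ C := by
      rintro _ ⟨s, rfl⟩; exact hcon s
    have h1 : (Set.range g).Countable := hC.mono hrange
    have h2 : Countable S := by
      have := h1.to_subtype
      exact (Equiv.ofInjective g hg).injective.countable
    exact not_countable h2
  let z : S → Bool := fun s' => decide (s' = g s)
  have hz : z ∈ L := by
    rw [hmem]
    have h00 := (hmem _).mp h0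
    refine ⟨?_, ?_⟩
    · intro n s1 s2 h1 h2
      have h1' : e.symm (Sum.inl (n, s1)) = g s := by simpa [lp', z] using h1
      have h2' : e.symm (Sum.inl (n, s2)) = g s := by simpa [lp', z] using h2
      have := e.symm.injective (h1'.trans h2'.symm)
      simpa using this
    · have : rp' e z = rp' e (z00 S) := by
        funext p
        have hne : e.symm (Sum.inr p) ≠ g s := by
          intro h
          have := e.symm.injective h
          simp at this
        simp [rp', z, z00, hne]
      rw [this]
      exact h00.2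
  let q : KL (wF a ε e) L := ⟨fun R => wF a ε e R * mon R z, ev ⟨z, hz⟩, isState_ev _, fun R => rfl⟩
  have hq : q = q0 := by
    have : q ∈ ⋂ n, f n := by
      refine Set.mem_iInter.mpr fun n => hI n q fun R hR => ?_
      change wF a ε e R * mon R z = 0
      rcases R.eq_empty_or_nonempty with hR' | ⟨t, ht⟩
      · simp [wF, hR']
      · have hts : t ≠ g s := by
          intro h
          apply hs
          rw [← h]
          exact Set.mem_iUnion.mpr ⟨n, Set.mem_iUnion₂.mpr ⟨R, hR, ht⟩⟩
        have : mon R z = 0 := Finset.prod_eq_zero ht (by simp [z, hts])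
        rw [this, mul_zero]
    rw [← hf] at this
    exact this
  have h1 : wF a ε e {g s} * mon {g s} z = 0 := congrFun (congrArg Subtype.val hq) {g s}
  rw [mon_singleton] at h1
  have h2 : z (g s) = true := by simp [z]
  rw [h2, ind_true, mul_one] at h1
  exact (wF_pos e ha hε {g s} (Finset.singleton_nonempty _)).ne' h1

end

/-- Core theorem. -/
theorem core (S : Type) [Infinite S] : ∃ (L : Set (S → Bool)) (K : Set (Finset S → ℝ)),
    IsCompact L ∧ IsCompact K ∧ Convex ℝ K ∧
    (∀ x ∈ K, (∀ R, 0 ≤ x R) ∧ ∀ F : Finset (Finset S), ∑ R ∈ F, x R ≤ 1) ∧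
    Nonempty (C(K, ℝ) ≃L[ℝ] C(L, ℝ)) ∧
    (Uncountable S → ¬ TopologicalSpace.MetrizableSpace K) := by
  classical
  obtain ⟨e⟩ := exists_equiv S
  let a : TT → ℝ := fun t => (t.1.1 : ℝ)
  let c : TT → ℝ := fun t => (t.1.2 : ℝ)
  have ha : ∀ t, 0 < a t := fun t => by
    change (0 : ℝ) < (t.1.1 : ℝ)
    exact_mod_cast t.2.1
  have hac : ∀ t, a t < c t := fun t => by
    change (t.1.1 : ℝ) < (t.1.2 : ℝ)
    exact_mod_cast t.2.2
  have hsep : ∀ x y : ℝ, 0 ≤ x → x < y → ∃ t, x < a t ∧ c t < y := by
    intro x y hx hxy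
    obtain ⟨r, hr1, hr2⟩ := exists_rat_btwn hxy
    obtain ⟨r', hr1', hr2'⟩ := exists_rat_btwn hr2
    have h1 : 0 < r := by
      have : (0 : ℝ) < r := lt_of_le_of_lt hx hr1
      exact_mod_cast this
    have h2 : r < r' := by exact_mod_cast hr1'
    exact ⟨⟨(r, r'), h1, h2⟩, hr1, hr2'⟩
  have : Encodable TT := Encodable.ofCountable TT
  obtain ⟨ε, hε, s, hs, hs4⟩ := posSumOfEncodable (show (0 : ℝ) < 1 / 4 by norm_num) TT
  have hεs : ∀ F : Finset TT, ∑ t ∈ F, ε t ≤ 1 / 4 := fun F =>
    (sum_le_hasSum F (fun t _ => (hε t).le) hs).trans hs4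
  obtain ⟨L, hLc, hLA, h0, hfix⟩ := exists_fixed (a := a) (c := c) (ε := ε) e ha hac hε hεs
  have hLcs : CompactSpace L := isCompact_iff_compactSpace.mp hLc
  let K := KL (wF a ε e) L
  have hKc : IsCompact K := isCompact_KL _ L
  have hKcs : CompactSpace K := isCompact_iff_compactSpace.mp hKc
  have hsum : ∀ x ∈ K, (∀ R, 0 ≤ x R) ∧ ∀ F : Finset (Finset S), ∑ R ∈ F, x R ≤ 1 := fun x hx =>
    KL_sum (wF a ε e) (fun s => (wS_pos e ha hε s).le) (wF_nonneg e ha hε) (wF_le e ha hε) hLA hx
  have hCc : CompactSpace (Cov a c K) := isCompact_iff_compactSpace.mp (isCompact_Cov a c hKc)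
  have h1 : Cpl C(K, ℝ) C(Cov a c K, ℝ) := cpl_cov a c hac hsep hKc (fun x hx => (hsum x hx).1)
  have h2 : Cpl C(Cov a c K, ℝ) C(L, ℝ) := cpl_cov_L e hfix
  have h3 : Cpl C(L, ℝ) C(K, ℝ) := cpl_KL (wF a ε e) (wF_pos e ha hε) L
  obtain ⟨hZ⟩ := exists_homeo_Z0 S
  obtain ⟨hL⟩ := exists_homeo_L (a := a) (c := c) (ε := ε) e hfix
  have hZc : CompactSpace (Z0 S) := isCompact_iff_compactSpace.mp (isClosed_Z0 S).isCompact
  refine ⟨L, K, hLc, hKc, convex_KL _ _, hsum, ?_, fun hS => ?_⟩
  · exact pelczynski hZ ((congrC hL).trans (curryC (Z0 S) L)) (h1.trans h2) h3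
  · exact not_metrizable e ha hε hfix h0

end Pool.Agent.Helper358.CK
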