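import Pool.Agent.Helper358.Mono

/-!
A zero-dimensional cover `Cov K` of a compact set `K ⊆ [0,∞)^Γ` for which `C(K)` is isomorphic to a
complemented subspace of `C(Cov K)` (random rounding).
-/

set_option autoImplicit false

namespace Pool.Agent.Helper358.CK

open Topology MeasureTheory unitInterval

/-- `V` is isomorphic to a complemented subspace of `W`. -/
def Cpl (V W : Type) [NormedAddCommGroup V] [NormedSpace ℝ V] [NormedAddCommGroup W]
    [NormedSpace ℝ W] : Prop :=
  ∃ (S : V →L[ℝ] W) (T : W →L[ℝ] V), ∀ v, T (S v) = v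

lemma Cpl.trans {U V W : Type} [NormedAddCommGroup U] [NormedSpace ℝ U] [NormedAddCommGroup V]
    [NormedSpace ℝ V] [NormedAddCommGroup W] [NormedSpace ℝ W] (h : Cpl U V) (h' : Cpl V W) :
    Cpl U W := by
  obtain ⟨S, T, hST⟩ := h
  obtain ⟨S', T', hST'⟩ := h'
  exact ⟨S'.comp S, T.comp T', fun v => by simp [hST, hST']⟩

section Cover

variable {T Γ : Type} (a c : T → ℝ)

/-- `b` is an admissible rounding of `x`. -/
def Rel (x : Γ → ℝ) (b : T × Γ → Bool) : Prop :=
  ∀ t γ, (b (t, γ) = true → a t ≤ x γ) ∧ (b (t, γ) = false → x γ ≤ c t)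

/-- The set of all admissible roundings of points of `K`. -/
def Cov (K : Set (Γ → ℝ)) : Set (T × Γ → Bool) := {b | ∃ x ∈ K, Rel a c x b}

lemma Cov_mono {K K' : Set (Γ → ℝ)} (h : K ⊆ K') : Cov a c K ⊆ Cov a c K' := by
  rintro b ⟨x, hx, hb⟩
  exact ⟨x, h hx, hb⟩

/-- graph -/
def Gr (K : Set (Γ → ℝ)) : Set ((Γ → ℝ) × (T × Γ → Bool)) := {p | p.1 ∈ K ∧ Rel a c p.1 p.2}

lemma isClosed_rel : IsClosed {p : (Γ → ℝ) × (T × Γ → Bool) | Rel a c p.1 p.2} := by
  have : {p : (Γ → ℝ) × (T × Γ → Bool) | Rel a c p.1 p.2} =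
      ⋂ t, ⋂ γ, ({p | p.2 (t, γ) = true → a t ≤ p.1 γ} ∩ {p | p.2 (t, γ) = false → p.1 γ ≤ c t}) := by
    ext p
    simp [Rel, Set.mem_iInter]
  rw [this]
  refine isClosed_iInter fun t => isClosed_iInter fun γ => IsClosed.inter ?_ ?_
  · have h1 : {p : (Γ → ℝ) × (T × Γ → Bool) | p.2 (t, γ) = true → a t ≤ p.1 γ} =
        {p | p.2 (t, γ) = false} ∪ {p | a t ≤ p.1 γ} := by
      ext p
      simp only [Set.mem_ofPred_eq, Set.mem_union]
      cases p.2 (t, γ) <;> simp
    rw [h1]
    refine IsClosed.union ?_ ?_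
    · exact isClosed_eq ((continuous_apply (t, γ)).comp continuous_snd) continuous_const
    · exact isClosed_le continuous_const ((continuous_apply γ).comp continuous_fst)
  · have h1 : {p : (Γ → ℝ) × (T × Γ → Bool) | p.2 (t, γ) = false → p.1 γ ≤ c t} =
        {p | p.2 (t, γ) = true} ∪ {p | p.1 γ ≤ c t} := by
      ext p
      simp only [Set.mem_ofPred_eq, Set.mem_union]
      cases p.2 (t, γ) <;> simp
    rw [h1]
    refine IsClosed.union ?_ ?_
    · exact isClosed_eq ((continuous_apply (t, γ)).comp continuous_snd) continuous_const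
    · exact isClosed_le ((continuous_apply γ).comp continuous_fst) continuous_const

lemma isCompact_Gr {K : Set (Γ → ℝ)} (hK : IsCompact K) : IsCompact (Gr a c K) := by
  have h : Gr a c K = (K ×ˢ Set.univ) ∩ {p : (Γ → ℝ) × (T × Γ → Bool) | Rel a c p.1 p.2} := by
    ext p
    simp [Gr]
  rw [h]
  exact (hK.prod isCompact_univ).inter_right (isClosed_rel a c)

lemma isCompact_Cov {K : Set (Γ → ℝ)} (hK : IsCompact K) : IsCompact (Cov a c K) := by
  have h : Cov a c K = Prod.snd '' (Gr a c K) := by
    ext b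
    simp [Cov, Gr]
  rw [h]
  exact (isCompact_Gr a c hK).image continuous_snd

/-- The point determined by a rounding. -/
lemma rel_unique (hsep : ∀ x y : ℝ, 0 ≤ x → x < y → ∃ t, x < a t ∧ c t < y)
    {x y : Γ → ℝ} {b : T × Γ → Bool} (hx0 : ∀ γ, 0 ≤ x γ) (hy0 : ∀ γ, 0 ≤ y γ)
    (hx : Rel a c x b) (hy : Rel a c y b) : x = y := by
  funext γ
  rcases lt_trichotomy (x γ) (y γ) with h | h | h
  · obtain ⟨t, h1, h2⟩ := hsep _ _ (hx0 γ) h
    rcases hb : b (t, γ) with _ | _
    · have := (hy t γ).2 hb; linarith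
    · have := (hx t γ).1 hb; linarith
  · exact h
  · obtain ⟨t, h1, h2⟩ := hsep _ _ (hy0 γ) h
    rcases hb : b (t, γ) with _ | _
    · have := (hx t γ).2 hb; linarith
    · have := (hy t γ).1 hb; linarith

lemma exists_proj (hsep : ∀ x y : ℝ, 0 ≤ x → x < y → ∃ t, x < a t ∧ c t < y)
    {K : Set (Γ → ℝ)} (hK : IsCompact K) (hK0 : ∀ x ∈ K, ∀ γ, 0 ≤ x γ) :
    ∃ p : C(Cov a c K, K), ∀ (b : Cov a c K) (x : K), Rel a c x.1 b.1 → p b = x := by
  have hG : CompactSpace (Gr a c K) := isCompact_iff_compactSpace.mp (isCompact_Gr a c hK)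
  let F : Gr a c K → Cov a c K := fun g => ⟨g.1.2, g.1.1, g.2.1, g.2.2⟩
  have hFc : Continuous F := by
    apply Continuous.subtype_mk
    exact continuous_snd.comp continuous_subtype_val
  have hFinj : Function.Injective F := by
    intro g g' hgg
    have h2 : g.1.2 = g'.1.2 := congrArg Subtype.val hgg
    have h1 : g.1.1 = g'.1.1 := by
      refine rel_unique a c hsep (hK0 _ g.2.1) (hK0 _ g'.2.1) (b := g.1.2) g.2.2 ?_
      rw [h2]
      exact g'.2.2
    exact Subtype.ext (Prod.ext h1 h2)
  have hFsurj : Function.Surjective F := by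
    rintro ⟨b, x, hx, hb⟩
    exact ⟨⟨(x, b), hx, hb⟩, rfl⟩
  let e : Gr a c K ≃ₜ Cov a c K :=
    Continuous.homeoOfEquivCompactToT2 (f := Equiv.ofBijective F ⟨hFinj, hFsurj⟩) hFc
  refine ⟨⟨fun b => ⟨(e.symm b).1.1, (e.symm b).2.1⟩, ?_⟩, ?_⟩
  · apply Continuous.subtype_mk
    exact continuous_fst.comp (continuous_subtype_val.comp e.symm.continuous)
  · intro b x hbx
    apply Subtype.ext
    change (e.symm b).1.1 = x.1
    have h1 : e.symm b = ⟨(x.1, b.1), x.2, hbx⟩ := by
      rw [Homeomorph.symm_apply_eq]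
      rfl
    rw [h1]

/-- The random rounding. -/
noncomputable def code (ω : I) (x : Γ → ℝ) : T × Γ → Bool :=
  fun p => decide (a p.1 + ω * (c p.1 - a p.1) < x p.2)

lemma rel_code (hac : ∀ t, a t < c t) (ω : I) (x : Γ → ℝ) : Rel a c x (code a c ω x) := by
  intro t γ
  have h1 : (0 : ℝ) ≤ ω := ω.2.1
  have h2 : (ω : ℝ) ≤ 1 := ω.2.2
  have h3 : 0 < c t - a t := sub_pos.mpr (hac t)
  constructor
  · intro h
    simp only [code, decide_eq_true_eq] at h
    nlinarith [mul_nonneg h1 h3.le]
  · intro h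
    simp only [code, decide_eq_false_iff_not, not_lt] at h
    nlinarith

/-- A monomial evaluated at the random rounding is the indicator of an interval. -/
lemma mon_code (hac : ∀ t, a t < c t) (R : Finset (T × Γ)) :
    ∃ v : (Γ → ℝ) → ℝ, Continuous v ∧
      ∀ x ω, mon R (code a c ω x) = if (ω : ℝ) < v x then 1 else 0 := by
  classical
  induction R using Finset.induction_on with
  | empty =>
    refine ⟨fun _ => 2, continuous_const, fun x ω => ?_⟩
    have h2 : (ω : ℝ) ≤ 1 := ω.2.2
    rw [mon_empty, if_pos (by linarith)]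
  | insert p R hp ih =>
    obtain ⟨v, hv, h⟩ := ih
    refine ⟨fun x => min ((x p.2 - a p.1) / (c p.1 - a p.1)) (v x), ?_, fun x ω => ?_⟩
    · exact ((((continuous_apply p.2).sub continuous_const).div_const _)).min hv
    · have h3 : 0 < c p.1 - a p.1 := sub_pos.mpr (hac p.1)
      have hmul : mon (insert p R) (code a c ω x) = ind (code a c ω x p) * mon R (code a c ω x) := by
        simp [mon, Finset.prod_insert hp]
      rw [hmul, h]
      have hiff : (a p.1 + ω * (c p.1 - a p.1) < x p.2) ↔
          (ω : ℝ) < (x p.2 - a p.1) / (c p.1 - a p.1) := by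
        rw [lt_div_iff₀ h3]
        constructor <;> intro h <;> linarith
      have hind : ind (code a c ω x p) =
          if (ω : ℝ) < (x p.2 - a p.1) / (c p.1 - a p.1) then 1 else 0 := by
        by_cases hh : a p.1 + ω * (c p.1 - a p.1) < x p.2
        · rw [if_pos (hiff.mp hh)]
          simp [code, hh]
        · rw [if_neg (fun h' => hh (hiff.mpr h'))]
          simp [code, hh]
      rw [hind]
      by_cases h1 : (ω : ℝ) < (x p.2 - a p.1) / (c p.1 - a p.1) <;>
        by_cases h2 : (ω : ℝ) < v x <;> simp [h1, h2]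

/-- integral of the indicator of an interval -/
lemma integral_ite_lt (v : ℝ) :
    ∫ ω : I, (if (ω : ℝ) < v then (1 : ℝ) else 0) = max 0 (min 1 v) := by
  have hset : MeasurableSet {ω : I | (ω : ℝ) < v} :=
    measurableSet_lt measurable_subtype_coe measurable_const
  have h1 : (fun ω : I => if (ω : ℝ) < v then (1 : ℝ) else 0) =
      Set.indicator {ω : I | (ω : ℝ) < v} (fun _ => (1 : ℝ)) := by
    funext ω
    simp [Set.indicator]
  rw [h1, integral_indicator hset]
  simp only [integral_const, MeasurableSet.univ, measureReal_restrict_apply, Set.univ_inter,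
    smul_eq_mul, mul_one]
  rcases le_or_gt v 0 with hv | hv
  · have : {ω : I | (ω : ℝ) < v} = ∅ := by
      ext ω
      simp only [Set.mem_ofPred_eq, Set.mem_empty_iff_false, iff_false, not_lt]
      exact hv.trans ω.2.1
    rw [this]
    simp [hv]
  · rcases le_or_gt v 1 with hv1 | hv1
    · have : {ω : I | (ω : ℝ) < v} = Set.Iio (⟨v, hv.le, hv1⟩ : I) := by
        ext ω
        simp only [Set.mem_ofPred_eq, Set.mem_Iio]
        exact Iff.rfl
      rw [this, Measure.real, unitInterval.volume_Iio]
      rw [ENNReal.toReal_ofReal hv.le, min_eq_right hv1, max_eq_right hv.le]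
    · have : {ω : I | (ω : ℝ) < v} = Set.univ := by
        ext ω
        simp only [Set.mem_ofPred_eq, Set.mem_univ, iff_true]
        exact lt_of_le_of_lt ω.2.2 hv1
      rw [this, min_eq_left hv1.le]
      simp

/-- The averaging operator exists. -/
theorem cpl_cov (hac : ∀ t, a t < c t)
    (hsep : ∀ x y : ℝ, 0 ≤ x → x < y → ∃ t, x < a t ∧ c t < y)
    {K : Set (Γ → ℝ)} (hK : IsCompact K) (hK0 : ∀ x ∈ K, ∀ γ, 0 ≤ x γ)
    [CompactSpace K] [CompactSpace (Cov a c K)] :
    Cpl C(K, ℝ) C(Cov a c K, ℝ) := by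
  classical
  obtain ⟨p, hp⟩ := exists_proj a c hsep hK hK0
  let cd : I → K → Cov a c K := fun ω x => ⟨code a c ω x.1, x.1, x.2, rel_code a c hac ω x.1⟩
  have hpc : ∀ ω x, p (cd ω x) = x := fun ω x => hp _ _ (rel_code a c hac ω x.1)
  -- measurability
  let V1 : Submodule ℝ C(Cov a c K, ℝ) :=
    { carrier := {f | ∀ x, Measurable (fun ω => f (cd ω x))}
      zero_mem' := fun x => by simp
      add_mem' := fun {f g} hf hg x => (hf x).add (hg x)
      smul_mem' := fun r f hf x => (hf x).const_mul r }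
  have hV1c : IsClosed (V1 : Set C(Cov a c K, ℝ)) := by
    rw [← isSeqClosed_iff_isClosed]
    intro f g hf hfg x
    refine measurable_of_tendsto_metrizable (fun n => hf n x) ?_
    rw [tendsto_pi_nhds]
    intro ω
    exact ((continuous_eval_const (cd ω x)).tendsto g).comp hfg
  have hV1 : ∀ f, f ∈ V1 := by
    refine mem_of_mono _ V1 hV1c ?_
    intro R x
    obtain ⟨v, -, hv⟩ := mon_code (Γ := Γ) a c hac R
    have : (fun ω => mono (Cov a c K) R (cd ω x)) = fun ω : I => if (ω : ℝ) < v x.1 then (1:ℝ) else 0 := by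
      funext ω
      rw [mono_apply]
      exact hv _ _
    change Measurable (fun ω => mono (Cov a c K) R (cd ω x))
    rw [this]
    exact Measurable.ite (measurableSet_lt measurable_subtype_coe measurable_const)
      measurable_const measurable_const
  have hint : ∀ (f : C(Cov a c K, ℝ)) (x : K), Integrable (fun ω => f (cd ω x)) volume := by
    intro f x
    refine Integrable.of_bound (hV1 f x).aestronglyMeasurable ‖f‖ ?_
    exact Filter.Eventually.of_forall fun ω => f.norm_coe_le_norm _
  let T0 : C(Cov a c K, ℝ) → K → ℝ := fun f x => ∫ ω, f (cd ω x)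
  have hadd : ∀ f g x, T0 (f + g) x = T0 f x + T0 g x := by
    intro f g x
    simp only [T0, ContinuousMap.add_apply]
    exact integral_add (hint f x) (hint g x)
  have hsmul : ∀ (r : ℝ) f x, T0 (r • f) x = r * T0 f x := by
    intro r f x
    simp only [T0, ContinuousMap.smul_apply, smul_eq_mul]
    exact integral_const_mul _ _
  have hbound : ∀ f x, ‖T0 f x‖ ≤ ‖f‖ := by
    intro f x
    have := norm_integral_le_of_norm_le_const (μ := (volume : Measure I))
      (f := fun ω => f (cd ω x)) (C := ‖f‖)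
      (Filter.Eventually.of_forall fun ω => f.norm_coe_le_norm _)
    simpa using this
  let V2 : Submodule ℝ C(Cov a c K, ℝ) :=
    { carrier := {f | Continuous (T0 f)}
      zero_mem' := by
        have : T0 0 = fun _ => 0 := by
          funext x; simp [T0]
        change Continuous (T0 0)
        rw [this]; exact continuous_const
      add_mem' := fun {f g} hf hg => by
        have : T0 (f + g) = fun x => T0 f x + T0 g x := funext (hadd f g)
        change Continuous (T0 (f + g))
        rw [this]; exact Continuous.add hf hg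
      smul_mem' := fun r f hf => by
        have : T0 (r • f) = fun x => r * T0 f x := funext (hsmul r f)
        change Continuous (T0 (r • f))
        rw [this]; exact continuous_const.mul hf }
  have hV2c : IsClosed (V2 : Set C(Cov a c K, ℝ)) := by
    refine isClosed_of_closure_subset ?_
    intro f hf
    change Continuous (T0 f)
    refine continuous_of_uniform_approx_of_continuous ?_
    intro u hu
    obtain ⟨ε, hε, hεu⟩ := Metric.mem_uniformity_dist.mp hu
    obtain ⟨g, hg, hfg⟩ := Metric.mem_closure_iff.mp hf ε hε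
    refine ⟨T0 g, hg, fun x => hεu ?_⟩
    have h1 : T0 f x - T0 g x = T0 (f - g) x := by
      have := hadd (f - g) g x
      rw [sub_add_cancel] at this
      linarith
    rw [Real.dist_eq, h1, ← Real.norm_eq_abs]
    refine lt_of_le_of_lt (hbound _ _) ?_
    rwa [← dist_eq_norm]
  have hV2 : ∀ f, f ∈ V2 := by
    refine mem_of_mono _ V2 hV2c ?_
    intro R
    obtain ⟨v, hvc, hv⟩ := mon_code (Γ := Γ) a c hac R
    have : T0 (mono (Cov a c K) R) = fun x : K => max 0 (min 1 (v x.1)) := by
      funext x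
      rw [← integral_ite_lt]
      simp only [T0]
      congr 1
      funext ω
      rw [mono_apply]
      exact hv _ _
    change Continuous (T0 (mono (Cov a c K) R))
    rw [this]
    exact continuous_const.max (continuous_const.min (hvc.comp continuous_subtype_val))
  let Tl : C(Cov a c K, ℝ) →ₗ[ℝ] C(K, ℝ) :=
    { toFun := fun f => ⟨T0 f, hV2 f⟩
      map_add' := fun f g => by ext x; exact hadd f g x
      map_smul' := fun r f => by ext x; exact hsmul r f x }
  let Tc : C(Cov a c K, ℝ) →L[ℝ] C(K, ℝ) := Tl.mkContinuous 1 fun f => by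
    rw [one_mul]
    refine (ContinuousMap.norm_le _ (norm_nonneg f)).mpr fun x => hbound f x
  let Sc : C(K, ℝ) →L[ℝ] C(Cov a c K, ℝ) :=
    { toFun := fun g => g.comp p
      map_add' := fun f g => by ext x; rfl
      map_smul' := fun r f => by ext x; rfl
      cont := ContinuousMap.continuous_precomp p }
  refine ⟨Sc, Tc, fun g => ?_⟩
  ext x
  change ∫ ω : I, g (p (cd ω x)) = g x
  simp [hpc]

end Cover

end Pool.Agent.Helper358.CK
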