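import Pool.Agent.Helper358.Moment

/-!
A compact `L ⊆ {0,1}^S` with `L ≅ Z^ℕ × Cov (KL L)`, obtained from the Knaster–Tarski theorem.
-/

set_option autoImplicit false

namespace Pool.Agent.Helper358.CK

open Topology

section

variable {S T : Type} (a c ε : T → ℝ) (e : S ≃ (ℕ × S) ⊕ (T × Finset S))

/-- The space `A(S)`, as the set of subsets of `S` with at most one element. -/
def Z0 (S : Type) : Set (S → Bool) := {b | ∀ s s', b s = true → b s' = true → s = s'}

/-- The space `A(S)^ℕ`. -/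
def ZN (S : Type) : Set (ℕ × S → Bool) :=
  {b | ∀ n s s', b (n, s) = true → b (n, s') = true → s = s'}

lemma isClosed_Z0 (S : Type) : IsClosed (Z0 S) := by
  have : Z0 S = ⋂ s, ⋂ s', {b | b s = true → b s' = true → s = s'} := by
    ext b; simp [Z0]
  rw [this]
  refine isClosed_iInter fun s => isClosed_iInter fun s' => ?_
  by_cases h : s = s'
  · have : {b : S → Bool | b s = true → b s' = true → s = s'} = Set.univ := by
      ext b; simp [h]
    rw [this]; exact isClosed_univ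
  · have : {b : S → Bool | b s = true → b s' = true → s = s'} =
        {b | b s = false} ∪ {b | b s' = false} := by
      ext b
      simp only [Set.mem_ofPred_eq, Set.mem_union]
      cases b s <;> cases b s' <;> simp [h]
    rw [this]
    exact (isClosed_eq (continuous_apply s) continuous_const).union
      (isClosed_eq (continuous_apply s') continuous_const)

lemma isClosed_ZN (S : Type) : IsClosed (ZN S) := by
  have : ZN S = ⋂ n, (fun (b : ℕ × S → Bool) s => b (n, s)) ⁻¹' (Z0 S) := by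
    ext b; simp [ZN, Z0]
  rw [this]
  refine isClosed_iInter fun n => (isClosed_Z0 S).preimage ?_
  exact continuous_pi fun s => continuous_apply _

/-- weights on `S` -/
noncomputable def wS (s : S) : ℝ :=
  Sum.elim (fun p : ℕ × S => (1 / 8 : ℝ) * (1 / 2) ^ p.1) (fun p : T × Finset S => ε p.1 * a p.1) (e s)

open Classical in
/-- weights on `Finset S` -/
noncomputable def wF (R : Finset S) : ℝ := if R = ∅ then 0 else 1 / 2 * ∏ s ∈ R, wS a ε e s

/-- left part -/
def lp' (z : S → Bool) : ℕ × S → Bool := fun p => z (e.symm (Sum.inl p))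
/-- right part -/
def rp' (z : S → Bool) : T × Finset S → Bool := fun p => z (e.symm (Sum.inr p))

lemma continuous_lp' : Continuous (lp' (T := T) e) := continuous_pi fun _ => continuous_apply _
lemma continuous_rp' : Continuous (rp' (T := T) e) := continuous_pi fun _ => continuous_apply _

/-- The operator whose fixed point we need. -/
def Phi (L : Set (S → Bool)) : Set (S → Bool) :=
  {z | lp' e z ∈ ZN S ∧ rp' e z ∈ Cov a c (KL (wF a ε e) L)}

lemma Phi_mono {L L' : Set (S → Bool)} (h : L ⊆ L') : Phi a c ε e L ⊆ Phi a c ε e L' :=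
  fun _ hz => ⟨hz.1, Cov_mono a c (KL_mono _ h) hz.2⟩

lemma isClosed_Phi {L : Set (S → Bool)} (hL : IsCompact L) : IsClosed (Phi a c ε e L) := by
  have : CompactSpace L := isCompact_iff_compactSpace.mp hL
  exact ((isClosed_ZN S).preimage (continuous_lp' e)).inter
    ((isCompact_Cov a c (isCompact_KL (wF a ε e) L)).isClosed.preimage (continuous_rp' e))

variable {a c ε}

lemma wS_pos (ha : ∀ t, 0 < a t) (hε : ∀ t, 0 < ε t) (s : S) : 0 < wS a ε e s := by
  unfold wS
  rcases e s with p | p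
  · simp only [Sum.elim_inl]; positivity
  · simp only [Sum.elim_inr]; exact mul_pos (hε _) (ha _)

lemma wF_nonneg (ha : ∀ t, 0 < a t) (hε : ∀ t, 0 < ε t) (R : Finset S) : 0 ≤ wF a ε e R := by
  unfold wF
  split_ifs
  · exact le_rfl
  · exact mul_nonneg (by norm_num) (Finset.prod_nonneg fun s _ => (wS_pos e ha hε s).le)

lemma wF_pos (ha : ∀ t, 0 < a t) (hε : ∀ t, 0 < ε t) (R : Finset S) (hR : R.Nonempty) :
    0 < wF a ε e R := by
  unfold wF
  rw [if_neg hR.ne_empty]
  exact mul_pos (by norm_num) (Finset.prod_pos fun s _ => (wS_pos e ha hε s))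

lemma wF_le (ha : ∀ t, 0 < a t) (hε : ∀ t, 0 < ε t) (R : Finset S) :
    wF a ε e R ≤ 1 / 2 * ∏ s ∈ R, wS a ε e s := by
  unfold wF
  split_ifs with h
  · exact mul_nonneg (by norm_num) (Finset.prod_nonneg fun s _ => (wS_pos e ha hε s).le)
  · exact le_rfl

lemma left_sum {b : ℕ × S → Bool} (hb : b ∈ ZN S) (R : Finset (ℕ × S)) :
    ∑ p ∈ R, (1 / 8 : ℝ) * (1 / 2) ^ p.1 * ind (b p) ≤ 1 / 4 := by
  classical
  have h1 : ∑ p ∈ R, (1 / 8 : ℝ) * (1 / 2) ^ p.1 * ind (b p) =
      ∑ p ∈ R.filter (fun p => b p = true), (1 / 8 : ℝ) * (1 / 2) ^ p.1 := by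
    rw [Finset.sum_filter]
    refine Finset.sum_congr rfl fun p _ => ?_
    cases b p <;> simp
  have h2 : ∑ p ∈ R.filter (fun p => b p = true), (1 / 8 : ℝ) * (1 / 2) ^ p.1 =
      ∑ n ∈ (R.filter (fun p => b p = true)).image Prod.fst, (1 / 8 : ℝ) * (1 / 2) ^ n := by
    rw [Finset.sum_image]
    intro p hp p' hp' hpp
    have hp1 := (Finset.mem_filter.mp hp).2
    have hp2 := (Finset.mem_filter.mp hp').2
    obtain ⟨n, s⟩ := p
    obtain ⟨n', s'⟩ := p'
    simp only at hpp
    subst hpp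
    rw [hb n s s' hp1 hp2]
  rw [h1, h2, ← Finset.mul_sum]
  have h3 := (summable_geometric_two).sum_le_tsum
    ((R.filter (fun p => b p = true)).image Prod.fst) (fun n _ => by positivity)
  rw [tsum_geometric_two] at h3
  linarith

lemma right_sum (ha : ∀ t, 0 < a t) (hε : ∀ t, 0 < ε t) (hεs : ∀ F : Finset T, ∑ t ∈ F, ε t ≤ 1 / 4)
    {Γ : Type} {x : Γ → ℝ} (hx0 : ∀ γ, 0 ≤ x γ) (hx : ∀ F : Finset Γ, ∑ γ ∈ F, x γ ≤ 1)
    {b : T × Γ → Bool} (hb : Rel a c x b) (R : Finset (T × Γ)) :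
    ∑ p ∈ R, ε p.1 * a p.1 * ind (b p) ≤ 1 / 4 := by
  classical
  have h1 : ∑ p ∈ R, ε p.1 * a p.1 * ind (b p) ≤ ∑ p ∈ R, ε p.1 * x p.2 := by
    refine Finset.sum_le_sum fun p _ => ?_
    rcases hbp : b p with _ | _
    · simp only [ind_false, mul_zero]
      exact mul_nonneg (hε _).le (hx0 _)
    · simp only [ind_true, mul_one]
      exact mul_le_mul_of_nonneg_left ((hb p.1 p.2).1 hbp) (hε _).le
  have h2 : ∑ p ∈ R, ε p.1 * x p.2 ≤ ∑ p ∈ (R.image Prod.fst) ×ˢ (R.image Prod.snd), ε p.1 * x p.2 := by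
    refine Finset.sum_le_sum_of_subset_of_nonneg ?_ fun p _ _ => mul_nonneg (hε _).le (hx0 _)
    intro p hp
    exact Finset.mem_product.mpr ⟨Finset.mem_image_of_mem _ hp, Finset.mem_image_of_mem _ hp⟩
  have h3 : ∑ p ∈ (R.image Prod.fst) ×ˢ (R.image Prod.snd), ε p.1 * x p.2 =
      (∑ t ∈ R.image Prod.fst, ε t) * ∑ γ ∈ R.image Prod.snd, x γ := by
    rw [Finset.sum_mul_sum, Finset.sum_product]
  have h4 := hεs (R.image Prod.fst)
  have h5 := hx (R.image Prod.snd)
  have h6 : 0 ≤ ∑ γ ∈ R.image Prod.snd, x γ := Finset.sum_nonneg fun γ _ => hx0 γ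
  have h7 : 0 ≤ ∑ t ∈ R.image Prod.fst, ε t := Finset.sum_nonneg fun t _ => (hε t).le
  nlinarith

lemma Phi_sub (ha : ∀ t, 0 < a t) (hε : ∀ t, 0 < ε t) (hεs : ∀ F : Finset T, ∑ t ∈ F, ε t ≤ 1 / 4)
    {L : Set (S → Bool)} (hL : L ⊆ Amb (wS a ε e)) : Phi a c ε e L ⊆ Amb (wS a ε e) := by
  classical
  rintro z ⟨hz1, x, hxK, hx⟩ R
  have hxx := KL_sum (wF a ε e) (fun s => (wS_pos e ha hε s).le) (wF_nonneg e ha hε)
    (wF_le e ha hε) hL hxK
  let R' : Finset ((ℕ × S) ⊕ (T × Finset S)) := R.map e.toEmbedding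
  have h1 : ∑ s ∈ R, wS a ε e s * ind (z s) =
      ∑ u ∈ R', (Sum.elim (fun p : ℕ × S => (1 / 8 : ℝ) * (1 / 2) ^ p.1)
        (fun p : T × Finset S => ε p.1 * a p.1) u) * ind (z (e.symm u)) := by
    rw [Finset.sum_map]
    refine Finset.sum_congr rfl fun s _ => ?_
    simp [wS]
  rw [h1, ← Finset.toLeft_disjSum_toRight (u := R'), Finset.sum_disjSum]
  simp only [Sum.elim_inl, Sum.elim_inr]
  have h2 := left_sum hz1 R'.toLeft
  have h3 := right_sum ha hε hεs hxx.1 hxx.2 hx R'.toRight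
  simp only [lp', rp'] at h2 h3
  linarith

/-- The zero point. -/
def z00 (S : Type) : S → Bool := fun _ => false

lemma zero_mem_KL {L : Set (S → Bool)} (h0 : z00 S ∈ L) :
    (0 : Finset S → ℝ) ∈ KL (wF a ε e) L := by
  refine ⟨ev ⟨z00 S, h0⟩, isState_ev _, fun R => ?_⟩
  change (0 : ℝ) = wF a ε e R * mon R (z00 S)
  rcases R.eq_empty_or_nonempty with hR | ⟨s, hs⟩
  · simp [wF, hR]
  · have : mon R (z00 S) = 0 := Finset.prod_eq_zero hs (by simp [z00])
    rw [this, mul_zero]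

/-- The fixed point. -/
theorem exists_fixed (ha : ∀ t, 0 < a t) (hac : ∀ t, a t < c t) (hε : ∀ t, 0 < ε t)
    (hεs : ∀ F : Finset T, ∑ t ∈ F, ε t ≤ 1 / 4) :
    ∃ L : Set (S → Bool), IsCompact L ∧ L ⊆ Amb (wS a ε e) ∧ z00 S ∈ L ∧ Phi a c ε e L = L := by
  let Ψ : Set (S → Bool) →o Set (S → Bool) :=
    { toFun := fun A => Phi a c ε e (closure A ∩ Amb (wS a ε e))
      monotone' := fun A B hAB =>
        Phi_mono a c ε e (Set.inter_subset_inter_left _ (closure_mono hAB)) }
  let L := OrderHom.gfp Ψ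
  have hfix : Phi a c ε e (closure L ∩ Amb (wS a ε e)) = L := OrderHom.map_gfp Ψ
  have hcomp : ∀ A : Set (S → Bool), IsCompact (closure A ∩ Amb (wS a ε e)) := fun A =>
    (isClosed_closure.inter (isClosed_Amb _)).isCompact
  have hclosed : IsClosed L := by
    rw [← hfix]
    exact isClosed_Phi a c ε e (hcomp L)
  have hsub : L ⊆ Amb (wS a ε e) := by
    rw [← hfix]
    exact Phi_sub e ha hε hεs Set.inter_subset_right
  have heq : closure L ∩ Amb (wS a ε e) = L := by
    rw [hclosed.closure_eq]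
    exact Set.inter_eq_left.mpr hsub
  rw [heq] at hfix
  refine ⟨L, hclosed.isCompact, hsub, ?_, hfix⟩
  have hpost : ({z00 S} : Set (S → Bool)) ≤ Ψ {z00 S} := by
    intro z hz
    rw [Set.mem_singleton_iff] at hz
    subst hz
    have hmem : z00 S ∈ closure {z00 S} ∩ Amb (wS a ε e) := by
      refine ⟨subset_closure rfl, fun R => ?_⟩
      simp [z00]
    refine ⟨?_, 0, zero_mem_KL e hmem, ?_⟩
    · intro n s s' h
      simp [lp', z00] at h
    · intro t γ
      constructor
      · intro h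
        simp [rp', z00] at h
      · intro _
        simpa using ((ha t).trans (hac t)).le
  exact OrderHom.le_gfp Ψ hpost rfl

end

end Pool.Agent.Helper358.CK
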