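import Mathlib
import Pool.Agent.Helper358.Box

set_option autoImplicit false

namespace Pool.Agent.Helper358.General

open Finset Filter Topology Pool.Agent.Helper358.Box

universe u

/-- the set of all `x` with absolute sum at most one and `a i ≤ x i ≤ b i` for all `i`;
the absolute sum is at most one when all finite partial sums are -/
def B {κ : Type u} (a b : κ → ℝ) : Set (κ → ℝ) :=
  {x | (∀ s : Finset κ, ∑ i ∈ s, |x i| ≤ 1) ∧ ∀ i, a i ≤ x i ∧ x i ≤ b i}

theorem B_homeo_Pos {κ : Type u} [Uncountable κ] (a b : κ → ℝ)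
    (hab : ∀ i, a i < b i)
    (hs : Summable fun i => max (a i) 0 + max (-b i) 0)
    (hlt : ∑' i, (max (a i) 0 + max (-b i) 0) < 1) :
    Nonempty (Pos κ ≃ₜ B a b) := by
  classical
  -- the point of the segment closest to zero
  set m : κ → ℝ := fun i => max (a i) 0 - max (-b i) 0 with hm
  have hcase : ∀ i, (0 < a i ∧ m i = a i ∧ max (a i) 0 + max (-b i) 0 = m i) ∨
      (b i < 0 ∧ m i = b i ∧ max (a i) 0 + max (-b i) 0 = -m i) ∨
      (a i ≤ 0 ∧ 0 ≤ b i ∧ m i = 0 ∧ max (a i) 0 + max (-b i) 0 = 0) := by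
    intro i
    have h := hab i
    rcases lt_or_ge 0 (a i) with h1 | h1
    · left
      have h2 : max (a i) 0 = a i := max_eq_left h1.le
      have h3 : max (-b i) 0 = 0 := max_eq_right (by linarith)
      refine ⟨h1, ?_, ?_⟩
      · simp only [hm, h2, h3]; ring
      · simp only [hm, h2, h3]; ring
    · rcases lt_or_ge (b i) 0 with h4 | h4
      · right; left
        have h2 : max (a i) 0 = 0 := max_eq_right h1
        have h3 : max (-b i) 0 = -b i := max_eq_left (by linarith)
        refine ⟨h4, ?_, ?_⟩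
        · simp only [hm, h2, h3]; ring
        · simp only [hm, h2, h3]; ring
      · right; right
        have h2 : max (a i) 0 = 0 := max_eq_right h1
        have h3 : max (-b i) 0 = 0 := max_eq_right (by linarith)
        refine ⟨h1, h4, ?_, ?_⟩
        · simp only [hm, h2, h3]; ring
        · rw [h2, h3]; ring
  have habs : ∀ i, |m i| = max (a i) 0 + max (-b i) 0 := by
    intro i
    rcases hcase i with ⟨h1, h2, h3⟩ | ⟨h1, h2, h3⟩ | ⟨h1, h2, h3, h4⟩
    · rw [h3, abs_of_nonneg (by rw [h2]; exact h1.le)]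
    · rw [h3, abs_of_nonpos (by rw [h2]; exact h1.le)]
    · rw [h4, h3, abs_zero]
  have hsm : Summable fun i => |m i| := by
    have : (fun i => |m i|) = fun i => max (a i) 0 + max (-b i) 0 := funext habs
    rw [this]; exact hs
  have hM : ∑' i, |m i| < 1 := by
    have : (fun i => |m i|) = fun i => max (a i) 0 + max (-b i) 0 := funext habs
    rw [this]; exact hlt
  set c : ℝ := 1 - ∑' i, |m i| with hc
  have hc0 : 0 < c := by rw [hc]; linarith
  have ham : ∀ i, a i ≤ m i ∧ m i ≤ b i := by
    intro i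
    have h := hab i
    rcases hcase i with ⟨h1, h2, h3⟩ | ⟨h1, h2, h3⟩ | ⟨h1, h2, h3, h4⟩
    · rw [h2]; exact ⟨le_rfl, h.le⟩
    · rw [h2]; exact ⟨h.le, le_rfl⟩
    · rw [h3]; exact ⟨h1, h2⟩
  -- key additivity
  have hadd : ∀ i x, a i ≤ x → x ≤ b i → |x| = |m i| + |x - m i| := by
    intro i x h1 h2
    rcases hcase i with ⟨h3, h4, _⟩ | ⟨h3, h4, _⟩ | ⟨_, _, h5, _⟩
    · rw [h4, abs_of_nonneg (by linarith : 0 ≤ x), abs_of_nonneg h3.le,
        abs_of_nonneg (by linarith : 0 ≤ x - a i)]; ring
    · rw [h4, abs_of_nonpos (by linarith : x ≤ 0), abs_of_nonpos h3.le,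
        abs_of_nonpos (by linarith : x - b i ≤ 0)]; ring
    · rw [h5]; simp
  -- signs
  let ε : κ → ℝ := fun i => if m i < b i then 1 else -1
  have hε : ∀ i, (m i < b i ∧ ε i = 1) ∨ (m i = b i ∧ ε i = -1) := by
    intro i
    rcases lt_or_ge (m i) (b i) with h | h
    · left; exact ⟨h, if_pos h⟩
    · right; exact ⟨le_antisymm (ham i).2 h, if_neg (not_lt.2 h)⟩
  have hεε : ∀ i, ε i * ε i = 1 := by
    intro i
    rcases hε i with ⟨_, h⟩ | ⟨_, h⟩ <;> rw [h] <;> norm_num
  have hεabs : ∀ i, |ε i| = 1 := by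
    intro i
    rcases hε i with ⟨_, h⟩ | ⟨_, h⟩ <;> rw [h] <;> norm_num
  let a' : κ → ℝ := fun i => if m i < b i then (m i - a i) / c else (b i - m i) / c
  let b' : κ → ℝ := fun i => if m i < b i then (b i - m i) / c else (m i - a i) / c
  have ha' : ∀ i, 0 ≤ a' i := by
    intro i
    have h := ham i
    by_cases h1 : m i < b i
    · have : a' i = (m i - a i) / c := if_pos h1
      rw [this]; exact div_nonneg (by linarith) hc0.le
    · have : a' i = (b i - m i) / c := if_neg h1
      rw [this]; exact div_nonneg (by linarith) hc0.le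
  have hb' : ∀ i, 0 < b' i := by
    intro i
    have h := ham i
    have h2 := hab i
    by_cases h1 : m i < b i
    · have : b' i = (b i - m i) / c := if_pos h1
      rw [this]; exact div_pos (by linarith) hc0
    · have : b' i = (m i - a i) / c := if_neg h1
      rw [this]; exact div_pos (by linarith) hc0
  have hbox : ∀ i u, (-a' i ≤ u ∧ u ≤ b' i) ↔
      (a i ≤ m i + c * ε i * u ∧ m i + c * ε i * u ≤ b i) := by
    intro i u
    by_cases h1 : m i < b i
    · have e1 : a' i = (m i - a i) / c := if_pos h1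
      have e2 : b' i = (b i - m i) / c := if_pos h1
      have e3 : ε i = 1 := if_pos h1
      rw [e1, e2, e3, le_div_iff₀ hc0, ← neg_div, div_le_iff₀ hc0]
      constructor
      · rintro ⟨h2, h3⟩; constructor <;> linarith
      · rintro ⟨h2, h3⟩; constructor <;> linarith
    · have e1 : a' i = (b i - m i) / c := if_neg h1
      have e2 : b' i = (m i - a i) / c := if_neg h1
      have e3 : ε i = -1 := if_neg h1
      rw [e1, e2, e3, le_div_iff₀ hc0, ← neg_div, div_le_iff₀ hc0]
      constructor
      · rintro ⟨h2, h3⟩; constructor <;> linarith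
      · rintro ⟨h2, h3⟩; constructor <;> linarith
  let T : (κ → ℝ) → κ → ℝ := fun u i => m i + c * ε i * u i
  have hTabs : ∀ u : κ → ℝ, (∀ i, a i ≤ T u i ∧ T u i ≤ b i) →
      ∀ i, |T u i| = |m i| + c * |u i| := by
    intro u hu i
    rw [hadd i (T u i) (hu i).1 (hu i).2]
    have : T u i - m i = c * ε i * u i := by simp [T]
    rw [this, abs_mul, abs_mul, hεabs, abs_of_pos hc0]; ring
  have hsum : ∀ u : κ → ℝ, (∀ i, a i ≤ T u i ∧ T u i ≤ b i) →
      ((∀ s : Finset κ, ∑ i ∈ s, |T u i| ≤ 1) ↔ ∀ s : Finset κ, ∑ i ∈ s, |u i| ≤ 1) := by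
    intro u hu
    have h1 : ∀ s : Finset κ, ∑ i ∈ s, |T u i| = ∑ i ∈ s, |m i| + c * ∑ i ∈ s, |u i| := by
      intro s
      rw [mul_sum, ← sum_add_distrib]
      exact sum_congr rfl fun i _ => hTabs u hu i
    constructor
    · intro h s
      have h2 : ∑' i, |m i| ≤ 1 - c * ∑ i ∈ s, |u i| := by
        refine hsm.tsum_le_of_sum_le fun s' => ?_
        have h3 := h (s ∪ s')
        rw [h1] at h3
        have h4 : ∑ i ∈ s', |m i| ≤ ∑ i ∈ s ∪ s', |m i| :=
          sum_le_sum_of_subset_of_nonneg subset_union_right fun i _ _ => abs_nonneg _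
        have h5 : ∑ i ∈ s, |u i| ≤ ∑ i ∈ s ∪ s', |u i| :=
          sum_le_sum_of_subset_of_nonneg subset_union_left fun i _ _ => abs_nonneg _
        have h6 := mul_le_mul_of_nonneg_left h5 hc0.le
        linarith
      have h7 : c * ∑ i ∈ s, |u i| ≤ c * 1 := by rw [mul_one]; linarith
      exact le_of_mul_le_mul_left h7 hc0
    · intro h s
      rw [h1]
      have h2 : ∑ i ∈ s, |m i| ≤ ∑' i, |m i| := hsm.sum_le_tsum s fun i _ => abs_nonneg _
      have h3 := mul_le_mul_of_nonneg_left (h s) hc0.le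
      linarith
  have hT : Set.BijOn T (Bx a' b') (B a b) := by
    refine ⟨?_, ?_, ?_⟩
    · intro u hu
      have h1 : ∀ i, a i ≤ T u i ∧ T u i ≤ b i := fun i => (hbox i (u i)).1 (hu.1 i)
      exact ⟨(hsum u h1).2 hu.2, h1⟩
    · intro u _ v _ h
      funext i
      have h1 : m i + c * ε i * u i = m i + c * ε i * v i := congrFun h i
      have h2 : c * ε i ≠ 0 := by
        refine mul_ne_zero hc0.ne' ?_
        intro h0
        have := hεε i
        rw [h0] at this; norm_num at this
      exact mul_left_cancel₀ h2 (add_left_cancel h1)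
    · intro x hx
      let u : κ → ℝ := fun i => ε i * (x i - m i) / c
      have hTu : T u = x := by
        funext i
        change m i + c * ε i * (ε i * (x i - m i) / c) = x i
        have : c * ε i * (ε i * (x i - m i) / c) = (ε i * ε i) * (x i - m i) := by
          field_simp
        rw [this, hεε]; ring
      have h1 : ∀ i, a i ≤ T u i ∧ T u i ≤ b i := by rw [hTu]; exact hx.2
      refine ⟨u, ⟨fun i => (hbox i (u i)).2 (h1 i), (hsum u h1).1 ?_⟩, hTu⟩
      rw [hTu]; exact hx.1
  obtain ⟨f, hf, hbij⟩ := box_bij (κ := κ) ha' hb'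
  have hTc : Continuous T := by
    refine continuous_pi fun i => ?_
    change Continuous fun u : κ → ℝ => m i + c * ε i * u i
    fun_prop
  exact homeo_of_bijOn (isCompact_Pos κ) (hTc.comp hf).continuousOn (hT.comp hbij)

end Pool.Agent.Helper358.General
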