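import Pool.Agent.Helper358.Core

/-!
Realisation of a compact convex set of nonnegative families of sum at most one as a weakly compact
convex subset of `ℓ²`.
-/

set_option autoImplicit false

namespace Pool.Agent.Helper358.CK

open Topology

section

variable {Γ : Type}

/-- the Hilbert space -/
abbrev HH (Γ : Type) : Type := lp (fun _ : Γ => ℝ) 2

/-- good families -/
def Good (x : Γ → ℝ) : Prop := (∀ γ, 0 ≤ x γ) ∧ ∀ F : Finset Γ, ∑ γ ∈ F, x γ ≤ 1

lemma Good.sq_sum {x : Γ → ℝ} (hx : Good x) (F : Finset Γ) :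
    ∑ γ ∈ F, ‖x γ‖ ^ (2 : ENNReal).toReal ≤ 1 := by
  refine le_trans (Finset.sum_le_sum fun γ hγ => ?_) (hx.2 F)
  have h1 : x γ ≤ 1 := by
    have := hx.2 {γ}
    simpa using this
  have h0 := hx.1 γ
  have h2 : (2 : ENNReal).toReal = (2 : ℕ) := by simp
  rw [h2, Real.rpow_natCast, Real.norm_eq_abs, sq_abs]
  nlinarith

/-- the inclusion into the Hilbert space -/
def inc (x : Γ → ℝ) (hx : Good x) : HH Γ := ⟨x, memℓp_gen' (C := 1) fun F => hx.sq_sum F⟩

lemma norm_inc_le (x : Γ → ℝ) (hx : Good x) : ‖inc x hx‖ ≤ 1 := by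
  refine lp.norm_le_of_forall_sum_le (by simp) zero_le_one fun F => ?_
  have := hx.sq_sum F
  simpa [inc] using this

lemma continuous_inner (K : Set (Γ → ℝ)) (hK : ∀ x ∈ K, Good x) (v : HH Γ) :
    Continuous (fun x : K => inner ℝ v (inc x.1 (hK x.1 x.2))) := by
  classical
  let V : Submodule ℝ (HH Γ) :=
    { carrier := {v | Continuous (fun x : K => inner ℝ v (inc x.1 (hK x.1 x.2)))}
      zero_mem' := by
        simp only [Set.mem_ofPred_eq, inner_zero_left]
        exact continuous_const
      add_mem' := fun {v w} hv hw => by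
        simp only [Set.mem_ofPred_eq, inner_add_left] at *
        exact hv.add hw
      smul_mem' := fun r v hv => by
        simp only [Set.mem_ofPred_eq, real_inner_smul_left] at *
        exact continuous_const.mul hv }
  have hVc : IsClosed (V : Set (HH Γ)) := by
    refine isClosed_of_closure_subset ?_
    intro v hv
    change Continuous _
    refine continuous_of_uniform_approx_of_continuous ?_
    intro u hu
    obtain ⟨ε, hε, hεu⟩ := Metric.mem_uniformity_dist.mp hu
    obtain ⟨w, hw, hvw⟩ := Metric.mem_closure_iff.mp hv ε hε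
    refine ⟨_, hw, fun x => hεu ?_⟩
    rw [Real.dist_eq, ← inner_sub_left]
    have h1 := abs_real_inner_le_norm (v - w) (inc x.1 (hK x.1 x.2))
    have h2 := norm_inc_le x.1 (hK x.1 x.2)
    rw [dist_eq_norm] at hvw
    have h3 := norm_nonneg (v - w)
    nlinarith
  have hsingle : ∀ (γ : Γ) (r : ℝ), lp.single 2 γ r ∈ V := by
    intro γ r
    change Continuous _
    have : (fun x : K => inner ℝ (lp.single 2 γ r : HH Γ) (inc x.1 (hK x.1 x.2))) =
        fun x : K => inner ℝ r (x.1 γ) := by
      funext x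
      rw [lp.inner_single_left]
      rfl
    rw [this]
    exact continuous_const.inner ((continuous_apply γ).comp continuous_subtype_val)
  have hv : v ∈ V := by
    have hs := lp.hasSum_single (p := 2) (by simp) v
    refine hVc.mem_of_tendsto hs ?_
    exact Filter.Eventually.of_forall fun F => Submodule.sum_mem _ fun γ _ => hsingle γ _
  exact hv

/-- The weakly compact copy. -/
def weakCopy (K : Set (Γ → ℝ)) : Set (WeakSpace ℝ (HH Γ)) :=
  {x | (fun γ => ((toWeakSpace ℝ (HH Γ)).symm x : HH Γ) γ) ∈ K}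

lemma convex_weakCopy {K : Set (Γ → ℝ)} (hK : Convex ℝ K) : Convex ℝ (weakCopy K) := by
  intro x hx y hy α β hα hβ hαβ
  have := hK hx hy hα hβ hαβ
  exact this

lemma weakCopy_homeo {K : Set (Γ → ℝ)} (hK : ∀ x ∈ K, Good x) : Nonempty (K ≃ₜ weakCopy K) := by
  refine ⟨{ toFun := fun x => ⟨toWeakSpace ℝ (HH Γ) (inc x.1 (hK x.1 x.2)), x.2⟩
            invFun := fun x => ⟨fun γ => ((toWeakSpace ℝ (HH Γ)).symm x.1 : HH Γ) γ, x.2⟩
            left_inv := fun x => rfl
            right_inv := fun x => rfl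
            continuous_toFun := ?_
            continuous_invFun := ?_ }⟩
  · apply Continuous.subtype_mk
    refine WeakBilin.continuous_of_continuous_eval _ fun ψ => ?_
    have h1 := continuous_inner K hK ((InnerProductSpace.toDual ℝ (HH Γ)).symm ψ)
    simp only [InnerProductSpace.toDual_symm_apply] at h1
    exact h1
  · apply Continuous.subtype_mk
    refine continuous_pi fun γ => ?_
    have := WeakBilin.eval_continuous (topDualPairing ℝ (HH Γ)).flip
      (lp.evalCLM (𝕜 := ℝ) (fun _ : Γ => ℝ) 2 γ)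
    exact this.comp continuous_subtype_val

end

/-- Main theorem. -/
theorem main (S : Type) [Infinite S] :
    ∃ (K : Set (WeakSpace ℝ (HH (Finset S)))), Convex ℝ K ∧ IsCompact K ∧
      (Uncountable S → ¬ TopologicalSpace.MetrizableSpace K) ∧
      ∃ (L : Set (S → Bool)), IsCompact L ∧ Nonempty (C(K, ℝ) ≃L[ℝ] C(L, ℝ)) := by
  obtain ⟨L, K, hL, hK, hKconv, hgood, ⟨hiso⟩, hmet⟩ := core S
  have hKg : ∀ x ∈ K, Good x := hgood
  obtain ⟨h⟩ := weakCopy_homeo hKg
  have hKc : CompactSpace K := isCompact_iff_compactSpace.mp hK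
  have hWc : CompactSpace (weakCopy K) := h.compactSpace
  refine ⟨weakCopy K, convex_weakCopy hKconv, isCompact_iff_compactSpace.mpr hWc, fun hS hm => ?_,
    L, hL, ⟨(congrC h.symm).trans hiso⟩⟩
  exact hmet hS h.isEmbedding.metrizableSpace

end Pool.Agent.Helper358.CK
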