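import Pool.Agent.Helper358.BallDef

/-!
For an uncountable `Γ`, the spaces `ℓ₁^N(c₀(Γ))` do not embed uniformly into `C(B(Γ)^m)`.
-/

set_option autoImplicit false

namespace Pool.Agent.Helper358.LOne

open Topology

universe u v

lemma isClosed_Ball (Γ : Type u) : IsClosed (Ball Γ) := by
  have : Ball Γ = ⋂ F : Finset Γ, {x | ∑ i ∈ F, |x i| ≤ 1} := by
    ext x; simp [Ball]
  rw [this]
  refine isClosed_iInter fun F => isClosed_le ?_ continuous_const
  exact continuous_finsetSum _ fun i _ => (continuous_apply i).abs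

lemma isCompact_Ball (Γ : Type u) : IsCompact (Ball Γ) := by
  refine IsCompact.of_isClosed_subset (s := Set.univ.pi fun _ => Set.Icc (-1 : ℝ) 1)
    (isCompact_univ_pi fun _ => isCompact_Icc) (isClosed_Ball Γ) ?_
  intro x hx i _
  have := hx {i}
  rw [Finset.sum_singleton] at this
  exact abs_le.mp this

instance (Γ : Type u) : CompactSpace (Ball Γ) := isCompact_iff_compactSpace.mp (isCompact_Ball Γ)

lemma mem_Ball_of_fintype {α : Type v} [Fintype α] {v : α → ℝ} (h : ∑ a, |v a| ≤ 1) :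
    v ∈ Ball α := fun F =>
  (Finset.sum_le_sum_of_subset_of_nonneg (Finset.subset_univ F) fun _ _ _ => abs_nonneg _).trans h

section ext

variable {Γ : Type u} {α : Type v} [Fintype α]

open Classical in
/-- extension by zero along `E` -/
noncomputable def extF (E : α → Γ) (v : α → ℝ) : Γ → ℝ := fun γ => ∑ a, if E a = γ then v a else 0

lemma extF_apply (E : α → Γ) (hE : Function.Injective E) (v : α → ℝ) (a : α) :
    extF E v (E a) = v a := by
  classical
  unfold extF
  rw [Finset.sum_eq_single a]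
  · simp
  · intro b _ hb
    rw [if_neg (fun h => hb (hE h))]
  · intro h
    exact absurd (Finset.mem_univ a) h

lemma extF_mem (E : α → Γ) {v : α → ℝ} (hv : v ∈ Ball α) : extF E v ∈ Ball Γ := by
  classical
  intro F
  calc ∑ γ ∈ F, |extF E v γ| ≤ ∑ γ ∈ F, ∑ a, (if E a = γ then |v a| else 0) := by
        refine Finset.sum_le_sum fun γ _ => ?_
        unfold extF
        refine (Finset.abs_sum_le_sum_abs _ _).trans (Finset.sum_le_sum fun a _ => ?_)
        split_ifs
        · exact le_rfl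
        · simp
    _ = ∑ a, ∑ γ ∈ F, (if E a = γ then |v a| else 0) := Finset.sum_comm
    _ ≤ ∑ a, |v a| := by
        refine Finset.sum_le_sum fun a _ => ?_
        rw [Finset.sum_ite_eq]
        split_ifs
        · exact le_rfl
        · exact abs_nonneg _
    _ ≤ 1 := hv Finset.univ

/-- extension map between balls -/
noncomputable def ext (E : α → Γ) (v : Ball α) : Ball Γ := ⟨extF E v.1, extF_mem E v.2⟩

lemma continuous_ext (E : α → Γ) : Continuous (ext E) := by
  classical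
  apply Continuous.subtype_mk
  refine continuous_pi fun γ => ?_
  unfold extF
  refine continuous_finsetSum _ fun a _ => ?_
  by_cases h : E a = γ
  · simp only [h, if_true]
    exact (continuous_apply a).comp continuous_subtype_val
  · simp only [h, if_false]
    exact continuous_const

/-- restriction map between balls -/
def res (E : α → Γ) (hE : Function.Injective E) (x : Ball Γ) : Ball α :=
  ⟨fun a => x.1 (E a), by
    intro F
    have := x.2 (F.map ⟨E, hE⟩)
    rwa [Finset.sum_map] at this⟩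

end ext

/-- A continuous function depends, up to `ε`, on finitely many coordinates. -/
lemma exists_support {Γ : Type u} {m : ℕ} (f : C(Fin m → Ball Γ, ℝ)) {ε : ℝ} (hε : 0 < ε) :
    ∃ P : Finset Γ, ∀ z z' : Fin m → Ball Γ, (∀ k, ∀ γ ∈ P, (z k).1 γ = (z' k).1 γ) →
      |f z - f z'| ≤ ε := by
  classical
  by_contra hcon
  push Not at hcon
  let t : Finset Γ → Set ((Fin m → Ball Γ) × (Fin m → Ball Γ)) := fun P =>
    {p | (∀ k, ∀ γ ∈ P, (p.1 k).1 γ = (p.2 k).1 γ) ∧ ε ≤ |f p.1 - f p.2|}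
  have hcl : ∀ P, IsClosed (t P) := by
    intro P
    have h1 : t P = (⋂ k, ⋂ γ ∈ P, {p | (p.1 k).1 γ = (p.2 k).1 γ}) ∩
        {p | ε ≤ |f p.1 - f p.2|} := by
      ext p; simp [t]
    rw [h1]
    refine IsClosed.inter ?_ ?_
    · refine isClosed_iInter fun k => isClosed_iInter fun γ => isClosed_iInter fun _ => ?_
      refine isClosed_eq ?_ ?_
      · exact (continuous_apply γ).comp
          (continuous_subtype_val.comp ((continuous_apply k).comp continuous_fst))
      · exact (continuous_apply γ).comp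
          (continuous_subtype_val.comp ((continuous_apply k).comp continuous_snd))
    · exact isClosed_le continuous_const
        ((f.continuous.comp continuous_fst).sub (f.continuous.comp continuous_snd)).abs
  have hne : (⋂ P, t P).Nonempty := by
    refine IsCompact.nonempty_iInter_of_directed_nonempty_isCompact_isClosed t ?_ ?_
      (fun P => (hcl P).isCompact) hcl
    · intro P P'
      refine ⟨P ∪ P', ?_, ?_⟩
      · rintro p ⟨h1, h2⟩
        exact ⟨fun k γ hγ => h1 k γ (Finset.mem_union_left _ hγ), h2⟩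
      · rintro p ⟨h1, h2⟩
        exact ⟨fun k γ hγ => h1 k γ (Finset.mem_union_right _ hγ), h2⟩
    · intro P
      obtain ⟨z, z', h1, h2⟩ := hcon P
      exact ⟨(z, z'), h1, h2.le⟩
  obtain ⟨p, hp⟩ := hne
  rw [Set.mem_iInter] at hp
  have heq : p.1 = p.2 := by
    funext k
    apply Subtype.ext
    funext γ
    exact (hp {γ}).1 k γ (Finset.mem_singleton_self γ)
  have := (hp ∅).2
  rw [heq, sub_self, abs_zero] at this
  linarith

/-- Pigeonhole principle for maps of an uncountable set to a separable metric space. -/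
lemma pigeon {Γ : Type u} {X : Type v} [PseudoMetricSpace X] [TopologicalSpace.SeparableSpace X]
    {I : Set Γ} (hI : ¬ I.Countable) (φ : Γ → X) {ε : ℝ} (hε : 0 < ε) :
    ∃ I' ⊆ I, ¬ I'.Countable ∧ ∀ i ∈ I', ∀ j ∈ I', dist (φ i) (φ j) ≤ ε := by
  obtain ⟨D, hDc, hDd⟩ := TopologicalSpace.exists_countable_dense X
  by_contra hcon
  push Not at hcon
  apply hI
  have hsub : I ⊆ ⋃ d ∈ D, {i ∈ I | dist (φ i) d < ε / 2} := by
    intro i hi
    obtain ⟨d, hd, hdi⟩ := Metric.mem_closure_iff.mp (hDd (φ i)) (ε / 2) (half_pos hε)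
    exact Set.mem_iUnion₂.mpr ⟨d, hd, hi, hdi⟩
  refine Set.Countable.mono hsub (hDc.biUnion fun d _ => ?_)
  by_contra hunc
  obtain ⟨i, hi, j, hj, hij⟩ := hcon {i ∈ I | dist (φ i) d < ε / 2} (fun _ h => h.1) hunc
  have h1 := dist_triangle_right (φ i) (φ j) d
  have h2 := hi.2
  have h3 := hj.2
  linarith

/-- Maximal root. -/
lemma exists_root {Γ : Type u} {p : ℕ} (e : Γ → Fin p → Γ) {I : Set Γ} (hI : ¬ I.Countable) :
    ∃ (J : Finset (Fin p)) (g : Fin p → Γ), ¬ {i ∈ I | ∀ a ∈ J, e i a = g a}.Countable ∧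
      ∀ a ∉ J, ∀ γ, {i ∈ I | (∀ b ∈ J, e i b = g b) ∧ e i a = γ}.Countable := by
  classical
  let 𝒥 : Finset (Finset (Fin p)) := Finset.univ.filter fun J =>
    ∃ g : Fin p → Γ, ¬ {i ∈ I | ∀ a ∈ J, e i a = g a}.Countable
  have hIne : I.Nonempty := by
    by_contra h
    rw [Set.not_nonempty_iff_eq_empty] at h
    exact hI (h ▸ Set.countable_empty)
  obtain ⟨i0, _⟩ := hIne
  have hne : 𝒥.Nonempty := by
    refine ⟨∅, ?_⟩
    simp only [𝒥, Finset.mem_filter, Finset.mem_univ, true_and]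
    refine ⟨e i0, ?_⟩
    simpa using hI
  obtain ⟨J, hJ⟩ := 𝒥.exists_maximal hne
  have hJm := hJ.prop
  simp only [𝒥, Finset.mem_filter, Finset.mem_univ, true_and] at hJm
  obtain ⟨g, hg⟩ := hJm
  refine ⟨J, g, hg, fun a ha γ => ?_⟩
  by_contra hcon
  have hmem : insert a J ∈ 𝒥 := by
    simp only [𝒥, Finset.mem_filter, Finset.mem_univ, true_and]
    refine ⟨Function.update g a γ, ?_⟩
    intro hc
    apply hcon
    refine hc.mono ?_
    rintro i ⟨hi, h1, h2⟩
    refine ⟨hi, fun b hb => ?_⟩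
    rcases Finset.mem_insert.mp hb with rfl | hb
    · simp [h2]
    · have hba : b ≠ a := fun h => ha (h ▸ hb)
      rw [Function.update_of_ne hba]
      exact h1 b hb
  have hle : J ≤ insert a J := Finset.subset_insert a J
  have := hJ.le_of_ge hmem hle
  exact ha (this (Finset.mem_insert_self a J))

/-- The normal form of an uncountable family of functions. -/
structure NF {Γ : Type u} {m : ℕ} (f : Γ → C(Fin m → Ball Γ, ℝ)) (ε : ℝ) where
  /-- size -/
  p : ℕ
  /-- support -/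
  e : Γ → Fin p → Γ
  /-- the subfamily -/
  I : Set Γ
  /-- the root -/
  J : Finset (Fin p)
  /-- values on the root -/
  g : Fin p → Γ
  inj : ∀ i ∈ I, Function.Injective (e i)
  supp : ∀ i ∈ I, ∀ z z' : Fin m → Ball Γ, (∀ k a, (z k).1 (e i a) = (z' k).1 (e i a)) →
    |f i z - f i z'| ≤ ε
  same : ∀ i ∈ I, ∀ j ∈ I, ∀ w : Fin m → Ball (Fin p),
    |f i (fun k => ext (e i) (w k)) - f j (fun k => ext (e j) (w k))| ≤ ε
  root : ∀ i ∈ I, ∀ a ∈ J, e i a = g a
  free : ∀ Q : Finset Γ, ∃ i ∈ I, i ∉ Q ∧ ∀ a ∉ J, e i a ∉ Q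

lemma exists_NF {Γ : Type u} [Uncountable Γ] {m : ℕ} (f : Γ → C(Fin m → Ball Γ, ℝ)) {ε : ℝ}
    (hε : 0 < ε) : Nonempty (NF f ε) := by
  classical
  choose P hP using fun i => exists_support (f i) hε
  have h0 : ¬ (Set.univ : Set Γ).Countable := by
    rw [Set.countable_univ_iff]
    exact not_countable
  -- same size
  obtain ⟨I1, -, hI1c, hI1⟩ := pigeon h0 (fun i => (P i).card) (ε := 1 / 2) (by norm_num)
  have hI1ne : I1.Nonempty := by
    by_contra h
    rw [Set.not_nonempty_iff_eq_empty] at h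
    exact hI1c (h ▸ Set.countable_empty)
  obtain ⟨i0, hi0⟩ := hI1ne
  have hcard : ∀ i ∈ I1, (P i).card = (P i0).card := by
    intro i hi
    have := hI1 i hi i0 hi0
    rw [Nat.dist_eq, ← Nat.cast_inj (R := ℝ)] at *
    by_contra hne
    have h1 : (1 : ℝ) ≤ |((P i).card : ℝ) - (P i0).card| := by
      have h2 : ((P i).card : ℤ) - (P i0).card ≠ 0 := by
        intro h
        apply hne
        have : ((P i).card : ℤ) = (P i0).card := by linarith
        exact_mod_cast this
      have h3 := Int.one_le_abs h2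
      exact_mod_cast h3
    linarith
  set p := (P i0).card with hp
  have hex : ∀ i, ∃ e : Fin p → Γ, i ∈ I1 → (Function.Injective e ∧ ∀ γ ∈ P i, ∃ a, e a = γ) := by
    intro i
    by_cases hi : i ∈ I1
    · let E := (P i).equivFinOfCardEq (hcard i hi)
      refine ⟨fun a => (E.symm a).1, fun _ => ⟨?_, ?_⟩⟩
      · intro a b hab
        exact E.symm.injective (Subtype.ext hab)
      · intro γ hγ
        exact ⟨E ⟨γ, hγ⟩, by simp⟩
    · exact ⟨fun _ => i, fun h => absurd h hi⟩
  choose e he using hex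
  -- the same function up to ε
  let φ : Γ → C(Fin m → Ball (Fin p), ℝ) := fun i =>
    ⟨fun w => f i (fun k => ext (e i) (w k)), (f i).continuous.comp
      (continuous_pi fun k => (continuous_ext (e i)).comp (continuous_apply k))⟩
  obtain ⟨I2, hI21, hI2c, hI2⟩ := pigeon hI1c φ hε
  obtain ⟨J, g, hJ1, hJ2⟩ := exists_root e hI2c
  refine ⟨{ p := p
            e := e
            I := {i ∈ I2 | ∀ a ∈ J, e i a = g a}
            J := J
            g := g
            inj := fun i hi => (he i (hI21 hi.1)).1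
            supp := fun i hi z z' hzz => ?_
            same := fun i hi j hj w => ?_
            root := fun i hi => hi.2
            free := fun Q => ?_ }⟩
  · refine hP i z z' fun k γ hγ => ?_
    obtain ⟨a, rfl⟩ := (he i (hI21 hi.1)).2 γ hγ
    exact hzz k a
  · have h1 := hI2 i hi.1 j hj.1
    have h3 := (ContinuousMap.dist_le hε.le).mp h1 w
    rw [Real.dist_eq] at h3
    exact h3
  · have hcount : {i ∈ {i ∈ I2 | ∀ a ∈ J, e i a = g a} | i ∈ Q ∨ ∃ a ∉ J, e i a ∈ Q}.Countable := by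
      have hsub : {i ∈ {i ∈ I2 | ∀ a ∈ J, e i a = g a} | i ∈ Q ∨ ∃ a ∉ J, e i a ∈ Q} ⊆
          (Q : Set Γ) ∪ ⋃ a ∈ {a | a ∉ J}, ⋃ γ ∈ (Q : Set Γ),
            {i ∈ I2 | (∀ b ∈ J, e i b = g b) ∧ e i a = γ} := by
        rintro i ⟨⟨hi1, hi2⟩, hi3 | ⟨a, ha, haQ⟩⟩
        · exact Or.inl hi3
        · refine Or.inr ?_
          exact Set.mem_iUnion₂.mpr ⟨a, ha, Set.mem_iUnion₂.mpr ⟨e i a, haQ, hi1, hi2, rfl⟩⟩
      refine Set.Countable.mono hsub ?_
      refine Q.countable_toSet.union ?_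
      refine (Set.to_countable _).biUnion fun a ha => ?_
      exact Q.countable_toSet.biUnion fun γ _ => hJ2 a ha γ
    by_contra hcon
    push Not at hcon
    apply hJ1
    refine hcount.mono ?_
    intro i hi
    refine ⟨hi, ?_⟩
    by_cases hQ : i ∈ Q
    · exact Or.inl hQ
    · obtain ⟨a, ha, haQ⟩ := hcon i hi hQ
      exact Or.inr ⟨a, ha, haQ⟩


/-- new part of the support -/
def NF.np {Γ : Type u} {m : ℕ} {f : Γ → C(Fin m → Ball Γ, ℝ)} {ε : ℝ} (d : NF f ε)
    (i : Γ) (γ : Γ) : Prop := ∃ a ∉ d.J, d.e i a = γ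

/-- Duplication: if `q` copies of the new part fit, then the value is at most `C / q + 3 ε`. -/
lemma NF.dup {Γ : Type u} {m : ℕ} {f : Γ → C(Fin m → Ball Γ, ℝ)} {ε C : ℝ} (d : NF f ε)
    (hC : ∀ (F : Finset Γ) z, ∑ i ∈ F, |f i z| ≤ C) {i : Γ} (hi : i ∈ d.I) (z : Fin m → Ball Γ)
    {q : ℕ} (hq : 0 < q)
    (hz : ∀ k, ∑ a ∈ d.J, |(z k).1 (d.g a)| + q * ∑ a ∈ d.Jᶜ, |(z k).1 (d.e i a)| ≤ 1) :
    |f i z| ≤ C / q + 3 * ε := by
  classical
  -- choose the duplicates
  obtain ⟨s, hs1, hs2⟩ := exists_seq_of_forall_finset_exists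
    (fun j : Γ => j ∈ d.I ∧ ∀ a ∉ d.J, d.e j a ∉ d.J.image d.g)
    (fun j j' : Γ => j ≠ j' ∧ ∀ a ∉ d.J, ∀ b ∉ d.J, d.e j a ≠ d.e j' b)
    (fun S _ => by
      obtain ⟨j, hj, hjQ, hjf⟩ := d.free (S ∪ d.J.image d.g ∪
        S.biUnion fun j => Finset.univ.image (d.e j))
      refine ⟨j, ⟨hj, fun a ha hmem => hjf a ha ?_⟩, fun x hx => ⟨?_, fun a _ b hb hab => ?_⟩⟩
      · exact Finset.mem_union_left _ (Finset.mem_union_right _ hmem)
      · rintro rfl
        exact hjQ (Finset.mem_union_left _ (Finset.mem_union_left _ hx))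
      · refine hjf b hb (Finset.mem_union_right _ ?_)
        rw [← hab]
        exact Finset.mem_biUnion.mpr ⟨x, hx, Finset.mem_image_of_mem _ (Finset.mem_univ a)⟩)
  have hsne : ∀ l l', l ≠ l' → s l ≠ s l' ∧ ∀ a ∉ d.J, ∀ b ∉ d.J, d.e (s l) a ≠ d.e (s l') b := by
    intro l l' hll
    rcases lt_or_gt_of_ne hll with h | h
    · exact hs2 l l' h
    · have := hs2 l' l h
      exact ⟨this.1.symm, fun a ha b hb hab => this.2 b hb a ha hab.symm⟩
  -- the point z'
  let α := {a // a ∈ d.J} ⊕ (Fin q × {a // a ∉ d.J})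
  let E : α → Γ := Sum.elim (fun a => d.g a.1) (fun p => d.e (s p.1) p.2.1)
  have hgE : ∀ (l : ℕ) (a : Fin d.p) (ha : a ∈ d.J), d.g a = d.e (s l) a := fun l a ha =>
    (d.root _ (hs1 l).1 a ha).symm
  have hE : Function.Injective E := by
    intro x y hxy
    rcases x with ⟨a, ha⟩ | ⟨l, a, ha⟩ <;> rcases y with ⟨b, hb⟩ | ⟨l', b, hb⟩
    · have h1 : d.g a = d.g b := hxy
      rw [hgE 0 a ha, hgE 0 b hb] at h1
      have := d.inj _ (hs1 0).1 h1
      subst this; rfl
    · exfalso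
      have h1 : d.g a = d.e (s l') b := hxy
      exact (hs1 l').2 b hb (h1 ▸ Finset.mem_image_of_mem _ ha)
    · exfalso
      have h1 : d.e (s l) a = d.g b := hxy
      exact (hs1 l).2 a ha (h1 ▸ Finset.mem_image_of_mem _ hb)
    · have h1 : d.e (s l) a = d.e (s l') b := hxy
      by_cases hll : l = l'
      · subst hll
        have := d.inj _ (hs1 l).1 h1
        subst this; rfl
      · exact absurd h1 ((hsne l l' (fun h => hll (Fin.ext h))).2 a ha b hb)
  let v : Fin m → α → ℝ := fun k => Sum.elim (fun a => (z k).1 (d.g a.1))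
    (fun p => (z k).1 (d.e i p.2.1))
  have hv : ∀ k, v k ∈ Ball α := by
    intro k
    refine mem_Ball_of_fintype ?_
    refine le_trans (le_of_eq ?_) (hz k)
    rw [Fintype.sum_sum_type]
    congr 1
    · exact Finset.sum_coe_sort d.J (fun a => |(z k).1 (d.g a)|)
    · simp only [v, Sum.elim_inr]
      rw [Fintype.sum_prod_type]
      simp only [Finset.sum_const, Finset.card_univ, Fintype.card_fin, nsmul_eq_mul]
      congr 1
      exact (Finset.sum_subtype d.Jᶜ (p := fun a => a ∉ d.J) (fun a => Finset.mem_compl)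
        (fun a => |(z k).1 (d.e i a)|)).symm
  let z' : Fin m → Ball Γ := fun k => ext E ⟨v k, hv k⟩
  have hz' : ∀ (l : Fin q) k (a : Fin d.p), (z' k).1 (d.e (s l) a) = (z k).1 (d.e i a) := by
    intro l k a
    by_cases ha : a ∈ d.J
    · have h1 : d.e (s l) a = E (Sum.inl ⟨a, ha⟩) := (hgE l a ha).symm
      have h2 : (z' k).1 (E (Sum.inl ⟨a, ha⟩)) = v k (Sum.inl ⟨a, ha⟩) := extF_apply E hE _ _
      rw [h1, h2, d.root i hi a ha]
      rfl
    · have h1 : d.e (s l) a = E (Sum.inr (l, ⟨a, ha⟩)) := rfl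
      have h2 : (z' k).1 (E (Sum.inr (l, ⟨a, ha⟩))) = v k (Sum.inr (l, ⟨a, ha⟩)) :=
        extF_apply E hE _ _
      rw [h1, h2]
      rfl
  -- compare the values
  let w : Fin m → Ball (Fin d.p) := fun k => res (d.e i) (d.inj i hi) (z k)
  have h1 : |f i z - f i (fun k => ext (d.e i) (w k))| ≤ ε := by
    refine d.supp i hi _ _ fun k a => ?_
    exact (extF_apply (d.e i) (d.inj i hi) (w k).1 a).symm
  have h2 : ∀ l : Fin q, |f (s l) z' - f (s l) (fun k => ext (d.e (s l)) (w k))| ≤ ε := by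
    intro l
    refine d.supp _ (hs1 l).1 _ _ fun k a => ?_
    rw [hz' l k a]
    exact (extF_apply (d.e (s l)) (d.inj _ (hs1 l).1) (w k).1 a).symm
  have h3 : ∀ l : Fin q, |f i z| - 3 * ε ≤ |f (s l) z'| := by
    intro l
    have h4 := d.same i hi (s l) (hs1 l).1 w
    have h5 := h2 l
    rw [abs_le] at h1 h4 h5
    have h6 : |f i z| - |f (s l) z'| ≤ |f i z - f (s l) z'| := abs_sub_abs_le_abs_sub _ _
    have h7 : |f i z - f (s l) z'| ≤ 3 * ε := by
      rw [abs_le]
      constructor <;> linarith [h1.1, h1.2, h4.1, h4.2, h5.1, h5.2]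
    linarith
  have hsinj : Function.Injective (fun l : Fin q => s l) := by
    intro l l' hll
    by_contra hne
    exact (hsne l l' (fun h => hne (Fin.ext h))).1 hll
  have h8 : ∑ l : Fin q, |f (s l) z'| ≤ C := by
    have := hC (Finset.univ.map ⟨fun l : Fin q => s l, hsinj⟩) z'
    rwa [Finset.sum_map] at this
  have h9 : (q : ℝ) * (|f i z| - 3 * ε) ≤ C := by
    calc (q : ℝ) * (|f i z| - 3 * ε) = ∑ _l : Fin q, (|f i z| - 3 * ε) := by
          rw [Finset.sum_const, Finset.card_univ, Fintype.card_fin, nsmul_eq_mul]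
      _ ≤ ∑ l : Fin q, |f (s l) z'| := Finset.sum_le_sum fun l _ => h3 l
      _ ≤ C := h8
  have hq' : (0 : ℝ) < q := by exact_mod_cast hq
  have h10 : |f i z| - 3 * ε ≤ C / q := by
    rw [le_div_iff₀ hq']
    linarith
  linarith

/-- Greedy choice of members of the families with disjoint new parts. -/
lemma greedy {Γ : Type u} (np : ℕ → Γ → Set Γ) (I : ℕ → Set Γ)
    (hfin : ∀ n i, (np n i).Finite)
    (h : ∀ n (Q : Finset Γ), ∃ i ∈ I n, ∀ γ ∈ np n i, γ ∉ Q) (R : Finset Γ) (N : ℕ) :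
    ∃ i : ℕ → Γ, ∀ n < N, i n ∈ I n ∧ (∀ γ ∈ np n (i n), γ ∉ R) ∧
      ∀ n' < n, ∀ γ ∈ np n (i n), γ ∉ np n' (i n') := by
  classical
  induction N with
  | zero =>
    obtain ⟨i, -, -⟩ := h 0 ∅
    exact ⟨fun _ => i, fun n hn => absurd hn (Nat.not_lt_zero n)⟩
  | succ N ih =>
    obtain ⟨i, hi⟩ := ih
    obtain ⟨j, hj, hjQ⟩ := h N (R ∪ (Finset.range N).biUnion fun n => (hfin n (i n)).toFinset)
    refine ⟨Function.update i N j, fun n hn => ?_⟩
    rcases Nat.lt_succ_iff_lt_or_eq.mp hn with hn | rfl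
    · have hne : n ≠ N := hn.ne
      rw [Function.update_of_ne hne]
      refine ⟨(hi n hn).1, (hi n hn).2.1, fun n' hn' => ?_⟩
      rw [Function.update_of_ne (hn'.trans hn).ne]
      exact (hi n hn).2.2 n' hn'
    · rw [Function.update_self]
      refine ⟨hj, fun γ hγ hR => hjQ γ hγ (Finset.mem_union_left _ hR), fun n' hn' γ hγ hγ' => ?_⟩
      rw [Function.update_of_ne hn'.ne] at hγ'
      refine hjQ γ hγ (Finset.mem_union_right _ ?_)
      exact Finset.mem_biUnion.mpr ⟨n', Finset.mem_range.mpr hn', (hfin n' (i n')).mem_toFinset.mpr hγ'⟩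

/-- Counting lemma: at most `q` indices are heavy. -/
lemma card_heavy {N q : ℕ} {μ : ℕ → ℝ} {ρ : ℝ} (hμ : ∀ n, 0 ≤ μ n)
    (hsum : ∑ n ∈ Finset.range N, μ n ≤ ρ) :
    ((Finset.range N).filter fun n => ρ < q * μ n).card ≤ q := by
  classical
  set S := (Finset.range N).filter fun n => ρ < q * μ n with hS
  rcases S.eq_empty_or_nonempty with hE | hne
  · rw [hE]; simp
  · have h0 : 0 ≤ ρ := (Finset.sum_nonneg fun n _ => hμ n).trans hsum
    have h1 : ∑ n ∈ S, μ n ≤ ρ := (Finset.sum_le_sum_of_subset_of_nonneg (Finset.filter_subset _ _)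
      fun n _ _ => hμ n).trans hsum
    have h2 : (S.card : ℝ) * ρ < q * ∑ n ∈ S, μ n := by
      rw [Finset.mul_sum, ← nsmul_eq_mul, ← Finset.sum_const]
      exact Finset.sum_lt_sum_of_nonempty hne fun n hn => (Finset.mem_filter.mp hn).2
    have h3 : (q : ℝ) * ∑ n ∈ S, μ n ≤ q * ρ := mul_le_mul_of_nonneg_left h1 (Nat.cast_nonneg q)
    have h4 : (S.card : ℝ) * ρ < q * ρ := lt_of_lt_of_le h2 h3
    have h5 : (S.card : ℝ) < q := lt_of_mul_lt_mul_right h4 h0
    exact_mod_cast h5.le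

/-- Main lemma. -/
theorem main_lemma {Γ : Type u} [Uncountable Γ] (m : ℕ) (f : ℕ → Γ → C(Fin m → Ball Γ, ℝ)) (C : ℝ)
    (hC : ∀ n (F : Finset Γ) z, ∑ i ∈ F, |f n i z| ≤ C) {c : ℝ} (hc : 0 < c) :
    ∃ N : ℕ, 0 < N ∧ ∃ i : ℕ → Γ, ∀ z, |∑ n ∈ Finset.range N, f n (i n) z| ≤ c * N := by
  classical
  have hC0 : 0 ≤ C := by
    have := hC 0 ∅ (fun _ => ⟨0, fun F => by simp⟩)
    simpa using this
  let ε := c / 12
  have hε : 0 < ε := by positivity
  obtain ⟨d⟩ : Nonempty (∀ n, NF (f n) ε) := ⟨fun n => Classical.choice (exists_NF (f n) hε)⟩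
  obtain ⟨q, hq⟩ := exists_nat_gt (4 * C / c)
  have hq0 : 0 < q + 1 := Nat.succ_pos q
  obtain ⟨N, hN⟩ := exists_nat_gt (2 * (m * (q + 1) * C) / c)
  let M := N + 1
  have hqc : C / ((q + 1 : ℕ) : ℝ) ≤ c / 4 := by
    rw [div_le_iff₀ (by positivity)]
    have h1 : 4 * C / c ≤ (q : ℝ) + 1 := by linarith
    rw [div_le_iff₀ hc] at h1
    push_cast
    linarith
  have hNc : (m : ℝ) * (q + 1 : ℕ) * C ≤ c / 2 * M := by
    rw [div_lt_iff₀ hc] at hN
    push_cast [M]
    nlinarith
  let R : Finset Γ := (Finset.range M).biUnion fun n => ((d n).J.image (d n).g)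
  obtain ⟨i, hi⟩ := greedy (fun n j => {γ | ∃ a ∉ (d n).J, (d n).e j a = γ}) (fun n => (d n).I)
    (fun n j => by
      refine Set.Finite.subset (Set.finite_range ((d n).e j)) ?_
      rintro γ ⟨a, -, rfl⟩
      exact ⟨a, rfl⟩)
    (fun n Q => by
      obtain ⟨j, hj, -, hjf⟩ := (d n).free Q
      refine ⟨j, hj, ?_⟩
      rintro γ ⟨a, ha, rfl⟩
      exact hjf a ha) R M
  refine ⟨M, Nat.succ_pos N, i, fun z => ?_⟩
  let Qn : ℕ → Finset Γ := fun n => ((d n).J)ᶜ.image ((d n).e (i n))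
  let ρ : Fin m → ℝ := fun k => 1 - ∑ γ ∈ R, |(z k).1 γ|
  let μ : Fin m → ℕ → ℝ := fun k n => ∑ γ ∈ Qn n, |(z k).1 γ|
  have hμ0 : ∀ k n, 0 ≤ μ k n := fun k n => Finset.sum_nonneg fun _ _ => abs_nonneg _
  have hμsum : ∀ k, ∑ n ∈ Finset.range M, μ k n ≤ ρ k := by
    intro k
    have hdisj : Set.PairwiseDisjoint (↑(Finset.range M) : Set ℕ) Qn := by
      intro n hn n' hn' hne
      have hnM : n < M := by simpa using hn
      have hnM' : n' < M := by simpa using hn'
      rw [Function.onFun, Finset.disjoint_left]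
      intro γ hγ hγ'
      obtain ⟨a, ha, hae⟩ := Finset.mem_image.mp hγ
      obtain ⟨b, hb, hbe⟩ := Finset.mem_image.mp hγ'
      rcases lt_or_gt_of_ne hne with h | h
      · exact (hi n' hnM').2.2 n h γ ⟨b, Finset.mem_compl.mp hb, hbe⟩
          ⟨a, Finset.mem_compl.mp ha, hae⟩
      · exact (hi n hnM).2.2 n' h γ ⟨a, Finset.mem_compl.mp ha, hae⟩
          ⟨b, Finset.mem_compl.mp hb, hbe⟩
    have hdisj2 : Disjoint R ((Finset.range M).biUnion Qn) := by
      rw [Finset.disjoint_left]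
      intro γ hγR hγ
      obtain ⟨n, hn, hγn⟩ := Finset.mem_biUnion.mp hγ
      obtain ⟨a, ha, hae⟩ := Finset.mem_image.mp hγn
      exact (hi n (Finset.mem_range.mp hn)).2.1 γ ⟨a, Finset.mem_compl.mp ha, hae⟩ hγR
    have h1 := (z k).2 (R ∪ (Finset.range M).biUnion Qn)
    rw [Finset.sum_union hdisj2, Finset.sum_biUnion hdisj] at h1
    simp only [ρ, μ]
    linarith
  have hμe : ∀ k, ∀ n < M, μ k n = ∑ a ∈ (d n).Jᶜ, |(z k).1 ((d n).e (i n) a)| := by
    intro k n hn
    simp only [μ, Qn]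
    rw [Finset.sum_image]
    intro a _ b _ hab
    exact (d n).inj _ (hi n hn).1 hab
  -- good indices
  have hgood : ∀ n < M, (∀ k, ((q + 1 : ℕ) : ℝ) * μ k n ≤ ρ k) → |f n (i n) z| ≤ c / 2 := by
    intro n hn hk
    have h1 := (d n).dup (hC n) (hi n hn).1 z hq0 (fun k => by
      have h2 : ∑ a ∈ (d n).J, |(z k).1 ((d n).g a)| ≤ ∑ γ ∈ R, |(z k).1 γ| := by
        have h3 : ∑ a ∈ (d n).J, |(z k).1 ((d n).g a)| =
            ∑ γ ∈ (d n).J.image (d n).g, |(z k).1 γ| := by
          rw [Finset.sum_image]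
          intro a ha b hb hab
          rw [← (d n).root _ (hi n hn).1 a ha, ← (d n).root _ (hi n hn).1 b hb] at hab
          exact (d n).inj _ (hi n hn).1 hab
        rw [h3]
        refine Finset.sum_le_sum_of_subset_of_nonneg ?_ fun _ _ _ => abs_nonneg _
        exact Finset.subset_biUnion_of_mem (fun n => (d n).J.image (d n).g) (Finset.mem_range.mpr hn)
      have h4 := hk k
      rw [hμe k n hn] at h4
      simp only [ρ] at h4
      linarith)
    have h5 : 3 * ε = c / 4 := by simp only [ε]; ring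
    linarith
  have hbound : ∀ n, |f n (i n) z| ≤ C := by
    intro n
    have := hC n {i n} z
    simpa using this
  let Bad : Finset ℕ := Finset.univ.biUnion fun k : Fin m =>
    (Finset.range M).filter fun n => ρ k < ((q + 1 : ℕ) : ℝ) * μ k n
  have hBadsub : Bad ⊆ Finset.range M := by
    refine Finset.biUnion_subset.mpr fun k _ => Finset.filter_subset _ _
  have hBadcard : (Bad.card : ℝ) ≤ m * (q + 1 : ℕ) := by
    have h1 : Bad.card ≤ (Finset.univ : Finset (Fin m)).card * (q + 1) :=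
      Finset.card_biUnion_le_card_mul _ _ _ fun k _ => card_heavy (hμ0 k) (hμsum k)
    rw [Finset.card_univ, Fintype.card_fin] at h1
    exact_mod_cast h1
  have hsplit : ∑ n ∈ Finset.range M, |f n (i n) z| =
      ∑ n ∈ Bad, |f n (i n) z| + ∑ n ∈ Finset.range M \ Bad, |f n (i n) z| := by
    rw [add_comm, Finset.sum_sdiff hBadsub]
  have h1 : ∑ n ∈ Bad, |f n (i n) z| ≤ c / 2 * M := by
    calc ∑ n ∈ Bad, |f n (i n) z| ≤ ∑ _n ∈ Bad, C := Finset.sum_le_sum fun n _ => hbound n
      _ = Bad.card * C := by rw [Finset.sum_const, nsmul_eq_mul]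
      _ ≤ m * (q + 1 : ℕ) * C := mul_le_mul_of_nonneg_right hBadcard hC0
      _ ≤ c / 2 * M := hNc
  have h2 : ∑ n ∈ Finset.range M \ Bad, |f n (i n) z| ≤ c / 2 * M := by
    calc ∑ n ∈ Finset.range M \ Bad, |f n (i n) z| ≤ ∑ _n ∈ Finset.range M \ Bad, c / 2 := by
          refine Finset.sum_le_sum fun n hn => ?_
          obtain ⟨hn1, hn2⟩ := Finset.mem_sdiff.mp hn
          refine hgood n (Finset.mem_range.mp hn1) fun k => ?_
          by_contra hk
          push Not at hk
          exact hn2 (Finset.mem_biUnion.mpr ⟨k, Finset.mem_univ k, Finset.mem_filter.mpr ⟨hn1, hk⟩⟩)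
      _ = (Finset.range M \ Bad).card * (c / 2) := by rw [Finset.sum_const, nsmul_eq_mul]
      _ ≤ M * (c / 2) := by
          refine mul_le_mul_of_nonneg_right ?_ (by positivity)
          have : (Finset.range M \ Bad).card ≤ M := by
            refine (Finset.card_le_card Finset.sdiff_subset).trans ?_
            rw [Finset.card_range]
          exact_mod_cast this
      _ = c / 2 * M := mul_comm _ _
  calc |∑ n ∈ Finset.range M, f n (i n) z| ≤ ∑ n ∈ Finset.range M, |f n (i n) z| :=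
        Finset.abs_sum_le_sum_abs _ _
    _ ≤ c / 2 * M + c / 2 * M := by rw [hsplit]; exact add_le_add h1 h2
    _ = c * M := by ring

/-- A space containing `ℓ₁^N(c₀(Γ))` uniformly does not embed into `C(B(Γ)^m)`. -/
theorem not_bddBelow {Γ : Type u} [Uncountable Γ] (m : ℕ) {Y : Type v} [NormedAddCommGroup Y]
    [NormedSpace ℝ Y] (u : ℕ → Γ → Y)
    (hu1 : ∀ n (F : Finset Γ) (s : Γ → ℝ), (∀ i, |s i| ≤ 1) → ‖∑ i ∈ F, s i • u n i‖ ≤ 1)
    (hu2 : ∀ (i : ℕ → Γ) (N : ℕ), (N : ℝ) ≤ ‖∑ n ∈ Finset.range N, u n (i n)‖)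
    (S : Y →L[ℝ] C(Fin m → Ball Γ, ℝ)) {c : ℝ} (hc : 0 < c) (hS : ∀ y, c * ‖y‖ ≤ ‖S y‖) :
    False := by
  obtain ⟨N, hN, i, hi⟩ := main_lemma m (fun n i => S (u n i)) ‖S‖ (fun n F z => by
    let s : Γ → ℝ := fun i => if 0 ≤ S (u n i) z then 1 else -1
    have hs : ∀ i, |s i| ≤ 1 := by
      intro i
      simp only [s]
      split_ifs <;> simp
    have h1 : ∑ i ∈ F, |S (u n i) z| = S (∑ i ∈ F, s i • u n i) z := by
      rw [map_sum, ContinuousMap.sum_apply]
      refine Finset.sum_congr rfl fun i _ => ?_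
      rw [map_smul, ContinuousMap.smul_apply, smul_eq_mul]
      simp only [s]
      split_ifs with h
      · rw [one_mul, abs_of_nonneg h]
      · rw [neg_one_mul, abs_of_neg (lt_of_not_ge h)]
    rw [h1]
    calc S (∑ i ∈ F, s i • u n i) z ≤ ‖S (∑ i ∈ F, s i • u n i) z‖ := le_abs_self _
      _ ≤ ‖S (∑ i ∈ F, s i • u n i)‖ := ContinuousMap.norm_coe_le_norm _ z
      _ ≤ ‖S‖ * ‖∑ i ∈ F, s i • u n i‖ := S.le_opNorm _
      _ ≤ ‖S‖ * 1 := mul_le_mul_of_nonneg_left (hu1 n F s hs) S.opNorm_nonneg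
      _ = ‖S‖ := mul_one _) (c := c / 2) (half_pos hc)
  have h1 := hS (∑ n ∈ Finset.range N, u n (i n))
  have h2 := hu2 i N
  have h3 : ‖S (∑ n ∈ Finset.range N, u n (i n))‖ ≤ c / 2 * N := by
    refine (ContinuousMap.norm_le _ (by positivity)).mpr fun z => ?_
    rw [map_sum, ContinuousMap.sum_apply, Real.norm_eq_abs]
    exact hi z
  have h4 : c * N ≤ c / 2 * N := (mul_le_mul_of_nonneg_left h2 hc.le).trans (h1.trans h3)
  have h5 : (0 : ℝ) < N := by exact_mod_cast hN
  nlinarith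

/-- coordinate functions on `B(Γ)^ω` -/
def coord {Γ : Type u} (n : ℕ) (i : Γ) : C(ℕ → Ball Γ, ℝ) where
  toFun x := (x n).1 i
  continuous_toFun := (continuous_apply i).comp (continuous_subtype_val.comp (continuous_apply n))

/-- basis vectors -/
noncomputable def unit {Γ : Type u} (i : Γ) : Ball Γ := ext (fun _ : Unit => i) ⟨fun _ => 1, by
  refine mem_Ball_of_fintype ?_
  simp⟩

lemma unit_self {Γ : Type u} (i : Γ) : (unit i).1 i = 1 :=
  extF_apply (fun _ : Unit => i) (fun _ _ _ => rfl) (fun _ => 1) ()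

/-- `C(B(Γ)^ω)` does not embed into `C(B(Γ)^m)`. -/
theorem omega_not_embed {Γ : Type u} [Uncountable Γ] (m : ℕ)
    (S : C(ℕ → Ball Γ, ℝ) →L[ℝ] C(Fin m → Ball Γ, ℝ)) {c : ℝ} (hc : 0 < c) :
    ¬ ∀ g, c * ‖g‖ ≤ ‖S g‖ := fun hS =>
  not_bddBelow m (fun n i => coord n i)
    (fun n F s hs => by
      refine (ContinuousMap.norm_le _ zero_le_one).mpr fun x => ?_
      rw [ContinuousMap.sum_apply, Real.norm_eq_abs]
      refine (Finset.abs_sum_le_sum_abs _ _).trans (le_trans (Finset.sum_le_sum fun i _ => ?_)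
        ((x n).2 F))
      change |s i * (x n).1 i| ≤ |(x n).1 i|
      rw [abs_mul]
      exact mul_le_of_le_one_left (abs_nonneg _) (hs i))
    (fun i N => by
      have h1 := ContinuousMap.norm_coe_le_norm (∑ n ∈ Finset.range N, coord n (i n))
        (fun n => unit (i n))
      rw [ContinuousMap.sum_apply] at h1
      have h2 : ∑ n ∈ Finset.range N, (coord n (i n)) (fun n => unit (i n)) = (N : ℝ) := by
        calc ∑ n ∈ Finset.range N, (coord n (i n)) (fun n => unit (i n))
            = ∑ _n ∈ Finset.range N, (1 : ℝ) :=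
              Finset.sum_congr rfl fun n _ => unit_self (i n)
          _ = N := by simp
      rw [h2, Real.norm_eq_abs, abs_of_nonneg (Nat.cast_nonneg N)] at h1
      exact h1)
    S hc hS

section A

variable {Γ : Type u} [TopologicalSpace Γ] [DiscreteTopology Γ]

open Classical in
/-- indicator functions on `A(Γ)^ℕ` -/
noncomputable def indA (n : ℕ) (i : Γ) : C(ℕ → OnePoint Γ, ℝ) where
  toFun ξ := if ξ n = (i : OnePoint Γ) then 1 else 0
  continuous_toFun := by
    have hcl : IsClopen {x : OnePoint Γ | x = (i : OnePoint Γ)} := by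
      refine ⟨isClosed_singleton, ?_⟩
      have : {x : OnePoint Γ | x = (i : OnePoint Γ)} = (fun j : Γ => (j : OnePoint Γ)) '' {i} := by
        ext x; simp
      rw [this]
      exact OnePoint.isOpenEmbedding_coe.isOpenMap _ (isOpen_discrete _)
    have h1 : Continuous (fun x : OnePoint Γ => if x = (i : OnePoint Γ) then (1 : ℝ) else 0) := by
      refine continuous_const.if ?_ continuous_const
      intro x hx
      rw [hcl.frontier_eq] at hx
      exact absurd hx (Set.notMem_empty x)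
    exact h1.comp (continuous_apply n)

/-- `C(A(Γ)^ℕ)` does not embed into `C(B(Γ)^m)`. -/
theorem A_not_embed [Uncountable Γ] (m : ℕ)
    (S : C(ℕ → OnePoint Γ, ℝ) →L[ℝ] C(Fin m → Ball Γ, ℝ)) {c : ℝ} (hc : 0 < c) :
    ¬ ∀ g, c * ‖g‖ ≤ ‖S g‖ := fun hS => by
  classical
  refine not_bddBelow m (fun n i => indA n i) (fun n F s hs => ?_) (fun i N => ?_) S hc hS
  · refine (ContinuousMap.norm_le _ zero_le_one).mpr fun x => ?_
    rw [ContinuousMap.sum_apply, Real.norm_eq_abs]
    by_cases h : ∃ j ∈ F, x n = (j : OnePoint Γ)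
    · obtain ⟨j, hj, hxj⟩ := h
      rw [Finset.sum_eq_single j]
      · change |s j * (if x n = (j : OnePoint Γ) then (1 : ℝ) else 0)| ≤ 1
        rw [if_pos hxj, mul_one]
        exact hs j
      · intro b _ hb
        change s b * (if x n = (b : OnePoint Γ) then (1 : ℝ) else 0) = 0
        rw [if_neg, mul_zero]
        intro hxb
        exact hb (OnePoint.coe_injective (hxb.symm.trans hxj))
      · intro h
        exact absurd hj h
    · push Not at h
      rw [Finset.sum_eq_zero]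
      · simp
      · intro b hb
        change s b * (if x n = (b : OnePoint Γ) then (1 : ℝ) else 0) = 0
        rw [if_neg (h b hb), mul_zero]
  · have h1 := ContinuousMap.norm_coe_le_norm (∑ n ∈ Finset.range N, indA n (i n))
      (fun n => (i n : OnePoint Γ))
    rw [ContinuousMap.sum_apply] at h1
    have h2 : ∑ n ∈ Finset.range N, (indA n (i n)) (fun n => (i n : OnePoint Γ)) = (N : ℝ) := by
      calc ∑ n ∈ Finset.range N, (indA n (i n)) (fun n => (i n : OnePoint Γ))
          = ∑ _n ∈ Finset.range N, (1 : ℝ) := by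
            refine Finset.sum_congr rfl fun n _ => ?_
            exact if_pos rfl
        _ = N := by simp
    rw [h2, Real.norm_eq_abs, abs_of_nonneg (Nat.cast_nonneg N)] at h1
    exact h1

end A

end Pool.Agent.Helper358.LOne
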