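import Pool.Agent.Helper358.Cover

/-!
The space of probability measures on a compact `L ⊆ {0,1}^S`, realised as the compact convex set
`KL L ⊆ ℝ^{Finset S}` of (weighted) moment sequences.
-/

set_option autoImplicit false

namespace Pool.Agent.Helper358.CK

open Topology

variable {S : Type} (wt : Finset S → ℝ)

/-- positive unital functional -/
def IsState {L : Type} [TopologicalSpace L] (φ : C(L, ℝ) →L[ℝ] ℝ) : Prop :=
  φ 1 = 1 ∧ ∀ f : C(L, ℝ), (∀ z, 0 ≤ f z) → 0 ≤ φ f

lemma IsState.mono {L : Type} [TopologicalSpace L] {φ : C(L, ℝ) →L[ℝ] ℝ} (h : IsState φ)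
    {f g : C(L, ℝ)} (hfg : ∀ z, f z ≤ g z) : φ f ≤ φ g := by
  have := h.2 (g - f) (fun z => by simpa using hfg z)
  rw [map_sub] at this
  linarith

lemma IsState.abs_le {L : Type} [TopologicalSpace L] [CompactSpace L]
    {φ : C(L, ℝ) →L[ℝ] ℝ} (h : IsState φ) (f : C(L, ℝ)) : |φ f| ≤ ‖f‖ := by
  have h1 : φ (‖f‖ • 1) = ‖f‖ := by rw [map_smul, h.1]; simp
  rw [_root_.abs_le]
  constructor
  · have := h.mono (f := -(‖f‖ • (1 : C(L, ℝ)))) (g := f) (fun z => by
      have := f.norm_coe_le_norm z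
      rw [Real.norm_eq_abs] at this
      have := (_root_.abs_le.mp this).1
      simpa using this)
    rw [map_neg, h1] at this
    exact this
  · have := h.mono (f := f) (g := ‖f‖ • (1 : C(L, ℝ))) (fun z => by
      have := f.norm_coe_le_norm z
      rw [Real.norm_eq_abs] at this
      have := (_root_.abs_le.mp this).2
      simpa using this)
    rw [h1] at this
    exact this

/-- The moment set. -/
def KL (L : Set (S → Bool)) : Set (Finset S → ℝ) :=
  {q | ∃ φ : C(L, ℝ) →L[ℝ] ℝ, IsState φ ∧ ∀ R, q R = wt R * φ (mono L R)}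

lemma convex_KL (L : Set (S → Bool)) : Convex ℝ (KL wt L) := by
  rintro q ⟨φ, hφ, hq⟩ q' ⟨φ', hφ', hq'⟩ α β hα hβ hαβ
  refine ⟨α • φ + β • φ', ⟨?_, ?_⟩, ?_⟩
  · simp [hφ.1, hφ'.1, hαβ]
  · intro f hf
    simp only [_root_.add_apply, _root_.smul_apply, smul_eq_mul]
    have := hφ.2 f hf
    have := hφ'.2 f hf
    positivity
  · intro R
    simp only [Pi.add_apply, Pi.smul_apply, smul_eq_mul, hq, hq', _root_.add_apply,
      _root_.smul_apply]
    ring

lemma KL_mono {L L' : Set (S → Bool)} (h : L ⊆ L') : KL wt L ⊆ KL wt L' := by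
  rintro q ⟨φ, hφ, hq⟩
  let i : C(L, L') := ⟨Set.inclusion h, continuous_inclusion h⟩
  let r : C(L', ℝ) →L[ℝ] C(L, ℝ) :=
    { toFun := fun g => g.comp i
      map_add' := fun f g => by ext x; rfl
      map_smul' := fun r f => by ext x; rfl
      cont := ContinuousMap.continuous_precomp i }
  refine ⟨φ.comp r, ⟨?_, ?_⟩, ?_⟩
  · have : r 1 = 1 := by ext; rfl
    simp [this, hφ.1]
  · intro f hf
    exact hφ.2 _ (fun z => hf _)
  · intro R
    rw [hq]
    rfl

/-- The state space in the weak-* topology. -/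
def PL (L : Type) [TopologicalSpace L] [CompactSpace L] : Set (WeakDual ℝ C(L, ℝ)) :=
  {φ | IsState (WeakDual.toStrongDual φ)}

lemma isCompact_weakDual {E : Type} [NormedAddCommGroup E] [NormedSpace ℝ E]
    (P : Set (WeakDual ℝ E)) (hP : IsClosed P) (h : ∀ φ ∈ P, ∀ f, |φ f| ≤ ‖f‖) : IsCompact P := by
  refine IsCompact.of_isClosed_subset (WeakDual.isCompact_closedBall 0 1) hP ?_
  intro φ hφ
  rw [Set.mem_preimage, mem_closedBall_zero_iff]
  refine ContinuousLinearMap.opNorm_le_bound _ zero_le_one fun f => ?_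
  rw [one_mul, Real.norm_eq_abs]
  exact h φ hφ f

lemma isCompact_PL (L : Type) [TopologicalSpace L] [CompactSpace L] : IsCompact (PL L) := by
  refine isCompact_weakDual (PL L) ?_ ?_
  · have : PL L = {φ : WeakDual ℝ C(L, ℝ) | φ 1 = 1} ∩
        ⋂ (f : C(L, ℝ)) (_ : ∀ z, 0 ≤ f z), {φ : WeakDual ℝ C(L, ℝ) | 0 ≤ φ f} := by
      ext φ
      simp only [PL, IsState, Set.mem_ofPred_eq, Set.mem_inter_iff, Set.mem_iInter]
      exact Iff.rfl
    rw [this]
    refine IsClosed.inter (isClosed_eq (WeakDual.eval_continuous _) continuous_const) ?_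
    exact isClosed_iInter fun f => isClosed_iInter fun _ =>
      isClosed_le continuous_const (WeakDual.eval_continuous _)
  · intro φ hφ f
    have hφ' : IsState (WeakDual.toStrongDual φ) := hφ
    exact hφ'.abs_le f

/-- moment map -/
noncomputable def mom (L : Set (S → Bool)) [CompactSpace L] (φ : PL L) : KL wt L :=
  ⟨fun R => wt R * (φ.1 : WeakDual ℝ C(L, ℝ)) (mono L R), WeakDual.toStrongDual φ.1, φ.2,
    fun _ => rfl⟩

lemma continuous_mom (L : Set (S → Bool)) [CompactSpace L] : Continuous (mom wt L) := by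
  apply Continuous.subtype_mk
  refine continuous_pi fun R => continuous_const.mul ?_
  exact (WeakDual.eval_continuous (mono L R)).comp continuous_subtype_val

lemma mom_bijective (hwt : ∀ R, R.Nonempty → 0 < wt R) (L : Set (S → Bool)) [CompactSpace L] :
    Function.Bijective (mom wt L) := by
  constructor
  · intro φ φ' h
    let ψ : C(L, ℝ) →L[ℝ] ℝ := WeakDual.toStrongDual φ.1
    let ψ' : C(L, ℝ) →L[ℝ] ℝ := WeakDual.toStrongDual φ'.1
    have hφ : IsState ψ := φ.2
    have hφ' : IsState ψ' := φ'.2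
    have hval : ∀ R, ψ (mono L R) = ψ' (mono L R) := by
      intro R
      rcases R.eq_empty_or_nonempty with hR | hR
      · rw [hR, mono_empty, hφ.1, hφ'.1]
      · have h1 : wt R * ψ (mono L R) = wt R * ψ' (mono L R) := congrFun (congrArg Subtype.val h) R
        exact mul_left_cancel₀ (hwt R hR).ne' h1
    have hall : ∀ f, ψ f = ψ' f := by
      intro f
      have hf : f ∈ LinearMap.ker ((ψ - ψ') : C(L, ℝ) →L[ℝ] ℝ).toLinearMap := by
        refine mem_of_mono L _ (ContinuousLinearMap.isClosed_ker (ψ - ψ')) (fun R => ?_) f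
        rw [LinearMap.mem_ker]
        simp [hval]
      rw [LinearMap.mem_ker] at hf
      have hf' : ψ f - ψ' f = 0 := hf
      linarith
    apply Subtype.ext
    apply WeakDual.toStrongDual.injective
    exact ContinuousLinearMap.ext hall
  · rintro ⟨q, φ, hφ, hq⟩
    refine ⟨⟨StrongDual.toWeakDual φ, hφ⟩, ?_⟩
    apply Subtype.ext
    funext R
    exact (hq R).symm

lemma isCompact_KL (L : Set (S → Bool)) [CompactSpace L] : IsCompact (KL wt L) := by
  have hc : CompactSpace (PL L) := isCompact_iff_compactSpace.mp (isCompact_PL L)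
  have h : KL wt L = Set.range (fun φ => (mom wt L φ).1) := by
    ext q
    constructor
    · rintro ⟨φ, hφ, hq⟩
      refine ⟨⟨StrongDual.toWeakDual φ, hφ⟩, ?_⟩
      funext R
      exact (hq R).symm
    · rintro ⟨φ, rfl⟩
      exact (mom wt L φ).2
  rw [h]
  exact isCompact_range (continuous_subtype_val.comp (continuous_mom wt L))

/-- evaluation functional -/
noncomputable def ev {L : Type} [TopologicalSpace L] (z : L) : C(L, ℝ) →L[ℝ] ℝ where
  toFun f := f z
  map_add' f g := rfl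
  map_smul' r f := rfl
  cont := continuous_eval_const z

lemma isState_ev {L : Type} [TopologicalSpace L] (z : L) : IsState (ev z) :=
  ⟨rfl, fun _ hf => hf z⟩

theorem cpl_KL (hwt : ∀ R, R.Nonempty → 0 < wt R) (L : Set (S → Bool)) [CompactSpace L]
    [CompactSpace (KL wt L)] : Cpl C(L, ℝ) C(KL wt L, ℝ) := by
  have hc : CompactSpace (PL L) := isCompact_iff_compactSpace.mp (isCompact_PL L)
  let e : PL L ≃ₜ KL wt L :=
    Continuous.homeoOfEquivCompactToT2 (f := Equiv.ofBijective _ (mom_bijective wt hwt L))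
      (continuous_mom wt L)
  let d : L → PL L := fun z => ⟨StrongDual.toWeakDual (ev z), isState_ev z⟩
  let dq : C(L, KL wt L) :=
    ⟨fun z => ⟨fun R => wt R * mon R z.1, ev z, isState_ev z, fun R => rfl⟩, by
      apply Continuous.subtype_mk
      exact continuous_pi fun R =>
        continuous_const.mul ((continuous_mon R).comp continuous_subtype_val)⟩
  have hed : ∀ z, e (d z) = dq z := fun z => rfl
  have hed' : ∀ z, e.symm (dq z) = d z := fun z => by rw [← hed, Homeomorph.symm_apply_apply]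
  let Sl : C(L, ℝ) →ₗ[ℝ] C(KL wt L, ℝ) :=
    { toFun := fun f => ⟨fun q => ((e.symm q).1 : WeakDual ℝ C(L, ℝ)) f,
        (WeakDual.eval_continuous f).comp (continuous_subtype_val.comp e.symm.continuous)⟩
      map_add' := fun f g => by
        ext q
        exact map_add (WeakDual.toStrongDual (e.symm q).1) f g
      map_smul' := fun r f => by
        ext q
        exact map_smul (WeakDual.toStrongDual (e.symm q).1) r f }
  let Sc : C(L, ℝ) →L[ℝ] C(KL wt L, ℝ) := Sl.mkContinuous 1 fun f => by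
    rw [one_mul]
    refine (ContinuousMap.norm_le _ (norm_nonneg f)).mpr fun q => ?_
    rw [Real.norm_eq_abs]
    have : IsState (WeakDual.toStrongDual (e.symm q).1) := (e.symm q).2
    exact this.abs_le f
  let Tc : C(KL wt L, ℝ) →L[ℝ] C(L, ℝ) :=
    { toFun := fun g => g.comp dq
      map_add' := fun f g => by ext x; rfl
      map_smul' := fun r f => by ext x; rfl
      cont := ContinuousMap.continuous_precomp dq }
  refine ⟨Sc, Tc, fun f => ?_⟩
  ext z
  change ((e.symm (dq z)).1 : WeakDual ℝ C(L, ℝ)) f = f z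
  rw [hed']
  rfl

/-- The ambient space. -/
def Amb (w : S → ℝ) : Set (S → Bool) := {z | ∀ R : Finset S, ∑ s ∈ R, w s * ind (z s) ≤ 1 / 2}

lemma isClosed_Amb (w : S → ℝ) : IsClosed (Amb w) := by
  have : Amb w = ⋂ R : Finset S, {z | ∑ s ∈ R, w s * ind (z s) ≤ 1 / 2} := by
    ext z; simp [Amb]
  rw [this]
  refine isClosed_iInter fun R => isClosed_le ?_ continuous_const
  exact continuous_finsetSum _ fun s _ =>
    continuous_const.mul (continuous_ind.comp (continuous_apply s))

lemma sum_mon_le {w : S → ℝ} (hw : ∀ s, 0 ≤ w s) (hwt0 : ∀ R, 0 ≤ wt R)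
    (hwt : ∀ R, wt R ≤ 1 / 2 * ∏ s ∈ R, w s) {z : S → Bool} (hz : z ∈ Amb w)
    (𝓡 : Finset (Finset S)) : ∑ R ∈ 𝓡, wt R * mon R z ≤ 1 := by
  classical
  let U : Finset S := 𝓡.biUnion id
  have hsub : 𝓡 ⊆ U.powerset := by
    intro R hR
    rw [Finset.mem_powerset]
    exact Finset.subset_biUnion_of_mem id hR
  have h1 : ∑ R ∈ 𝓡, wt R * mon R z ≤ ∑ R ∈ U.powerset, wt R * mon R z :=
    Finset.sum_le_sum_of_subset_of_nonneg hsub fun R _ _ => mul_nonneg (hwt0 R) (mon_nonneg R z)
  have h2 : ∑ R ∈ U.powerset, wt R * mon R z ≤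
      ∑ R ∈ U.powerset, 1 / 2 * ∏ s ∈ R, (w s * ind (z s)) := by
    refine Finset.sum_le_sum fun R _ => ?_
    rw [Finset.prod_mul_distrib, ← mul_assoc]
    exact mul_le_mul_of_nonneg_right (hwt R) (mon_nonneg R z)
  have h3 : ∑ R ∈ U.powerset, 1 / 2 * ∏ s ∈ R, (w s * ind (z s)) =
      1 / 2 * ∏ s ∈ U, (1 + w s * ind (z s)) := by
    rw [← Finset.mul_sum, Finset.prod_one_add]
  have h4 : ∏ s ∈ U, (1 + w s * ind (z s)) ≤ Real.exp (∑ s ∈ U, w s * ind (z s)) := by
    rw [Real.exp_sum]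
    refine Finset.prod_le_prod (fun s _ => ?_) (fun s _ => ?_)
    · have := mul_nonneg (hw s) (ind_nonneg (z s))
      linarith
    · have := Real.add_one_le_exp (w s * ind (z s))
      linarith
  have h5 : Real.exp (∑ s ∈ U, w s * ind (z s)) ≤ Real.exp (1 / 2) :=
    Real.exp_le_exp.mpr (hz U)
  have h6 : Real.exp (1 / 2) ≤ 2 := by
    have h7 : Real.exp 1 < 4 := by
      have := Real.exp_one_lt_d9
      linarith
    have h8 : Real.exp (1 / 2) ^ 2 = Real.exp 1 := by
      rw [← Real.exp_nat_mul]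
      norm_num
    have h9 : 0 ≤ Real.exp (1 / 2) := (Real.exp_pos _).le
    nlinarith
  linarith

lemma KL_sum {w : S → ℝ} (hw : ∀ s, 0 ≤ w s) (hwt0 : ∀ R, 0 ≤ wt R)
    (hwt : ∀ R, wt R ≤ 1 / 2 * ∏ s ∈ R, w s) {L : Set (S → Bool)} (hL : L ⊆ Amb w)
    {q : Finset S → ℝ} (hq : q ∈ KL wt L) :
    (∀ R, 0 ≤ q R) ∧ ∀ 𝓡 : Finset (Finset S), ∑ R ∈ 𝓡, q R ≤ 1 := by
  obtain ⟨φ, hφ, hq⟩ := hq
  constructor
  · intro R
    rw [hq]
    exact mul_nonneg (hwt0 R) (hφ.2 _ fun z => mon_nonneg R z.1)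
  · intro 𝓡
    have h1 : ∑ R ∈ 𝓡, q R = φ (∑ R ∈ 𝓡, wt R • mono L R) := by
      rw [map_sum]
      refine Finset.sum_congr rfl fun R _ => ?_
      rw [map_smul, smul_eq_mul, hq]
    rw [h1]
    have h2 := hφ.mono (f := ∑ R ∈ 𝓡, wt R • mono L R) (g := 1) (fun z => by
      rw [ContinuousMap.sum_apply]
      simpa using sum_mon_le wt hw hwt0 hwt (hL z.2) 𝓡)
    rw [hφ.1] at h2
    exact h2

end Pool.Agent.Helper358.CK
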