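import Mathlib

/-!
Monomials on compact subsets of `{0,1}^ι`: they span a dense subspace of `C(L)`.
-/

set_option autoImplicit false

namespace Pool.Agent.Helper358.CK

open Topology

/-- indicator of `true` -/
def ind (b : Bool) : ℝ := if b = true then 1 else 0

@[simp] lemma ind_true : ind true = 1 := by simp [ind]
@[simp] lemma ind_false : ind false = 0 := by simp [ind]

lemma ind_nonneg (b : Bool) : 0 ≤ ind b := by cases b <;> simp

lemma ind_le_one (b : Bool) : ind b ≤ 1 := by cases b <;> simp

lemma ind_mul_self (b : Bool) : ind b * ind b = ind b := by cases b <;> simp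

lemma ind_inj {b c : Bool} (h : ind b = ind c) : b = c := by
  cases b <;> cases c <;> simp_all

lemma continuous_ind : Continuous ind := continuous_of_discreteTopology

variable {ι : Type}

/-- The monomial `z ↦ ∏_{s∈R} 1[z s]`. -/
noncomputable def mon (R : Finset ι) (z : ι → Bool) : ℝ := ∏ s ∈ R, ind (z s)

lemma continuous_mon (R : Finset ι) : Continuous (mon R) :=
  continuous_finsetProd _ fun s _ => continuous_ind.comp (continuous_apply s)

@[simp] lemma mon_empty (z : ι → Bool) : mon ∅ z = 1 := by simp [mon]

@[simp] lemma mon_singleton (s : ι) (z : ι → Bool) : mon {s} z = ind (z s) := by simp [mon]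

lemma mon_nonneg (R : Finset ι) (z : ι → Bool) : 0 ≤ mon R z :=
  Finset.prod_nonneg fun s _ => ind_nonneg _

lemma mon_le_one (R : Finset ι) (z : ι → Bool) : mon R z ≤ 1 :=
  Finset.prod_le_one (fun s _ => ind_nonneg _) (fun s _ => ind_le_one _)

lemma mon_mul (R R' : Finset ι) [DecidableEq ι] (z : ι → Bool) :
    mon R z * mon R' z = mon (R ∪ R') z := by
  by_cases h : ∀ s ∈ R ∪ R', z s = true
  · have h1 : mon (R ∪ R') z = 1 := Finset.prod_eq_one fun s hs => by simp [h s hs]
    have h2 : mon R z = 1 := Finset.prod_eq_one fun s hs => by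
      simp [h s (Finset.mem_union_left _ hs)]
    have h3 : mon R' z = 1 := Finset.prod_eq_one fun s hs => by
      simp [h s (Finset.mem_union_right _ hs)]
    rw [h1, h2, h3, one_mul]
  · push Not at h
    obtain ⟨s, hs, hz⟩ := h
    have hz' : z s = false := by simpa using hz
    have h1 : mon (R ∪ R') z = 0 := Finset.prod_eq_zero hs (by simp [hz'])
    rcases Finset.mem_union.mp hs with hs | hs
    · have h2 : mon R z = 0 := Finset.prod_eq_zero hs (by simp [hz'])
      rw [h1, h2, zero_mul]
    · have h2 : mon R' z = 0 := Finset.prod_eq_zero hs (by simp [hz'])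
      rw [h1, h2, mul_zero]

/-- The monomial as an element of `C(L)`. -/
noncomputable def mono (L : Set (ι → Bool)) (R : Finset ι) : C(L, ℝ) where
  toFun z := mon R z.1
  continuous_toFun := (continuous_mon R).comp continuous_subtype_val

@[simp] lemma mono_apply (L : Set (ι → Bool)) (R : Finset ι) (z : L) :
    mono L R z = mon R z.1 := rfl

lemma mono_empty (L : Set (ι → Bool)) : mono L (∅ : Finset ι) = 1 := by
  ext z; simp

/-- A closed subspace of `C(L)` containing all monomials is everything. -/
theorem mem_of_mono (L : Set (ι → Bool)) [CompactSpace L] (V : Submodule ℝ C(L, ℝ))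
    (hV : IsClosed (V : Set C(L, ℝ))) (h : ∀ R, mono L R ∈ V) (f : C(L, ℝ)) : f ∈ V := by
  classical
  let M : Submonoid C(L, ℝ) :=
    { carrier := Set.range (mono L)
      one_mem' := ⟨∅, mono_empty L⟩
      mul_mem' := by
        rintro _ _ ⟨R, rfl⟩ ⟨R', rfl⟩
        refine ⟨R ∪ R', ?_⟩
        ext z
        simp [mon_mul] }
  let A : Subalgebra ℝ C(L, ℝ) := Algebra.adjoin ℝ (M : Set C(L, ℝ))
  have hA : (A : Set C(L, ℝ)) ⊆ V := by
    intro g hg
    have hg' : g ∈ Subalgebra.toSubmodule A := hg
    have h1 : Subalgebra.toSubmodule A = Submodule.span ℝ (Submonoid.closure (M : Set C(L, ℝ))) :=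
      Algebra.adjoin_eq_span ..
    rw [h1, Submonoid.closure_eq] at hg'
    refine Submodule.span_le.mpr ?_ hg'
    rintro _ ⟨R, rfl⟩
    exact h R
  have hsep : A.SeparatesPoints := by
    intro x y hxy
    have : ∃ s, x.1 s ≠ y.1 s := by
      by_contra hcon
      push Not at hcon
      exact hxy (Subtype.ext (funext hcon))
    obtain ⟨s, hs⟩ := this
    refine ⟨_, ⟨mono L {s}, ?_, rfl⟩, ?_⟩
    · exact Algebra.subset_adjoin ⟨{s}, rfl⟩
    · simp only [mono_apply, mon_singleton]
      exact fun h => hs (ind_inj h)
  have htop := ContinuousMap.subalgebra_topologicalClosure_eq_top_of_separatesPoints A hsep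
  have hf : f ∈ A.topologicalClosure := by rw [htop]; trivial
  have hf' : f ∈ closure (A : Set C(L, ℝ)) := by
    rw [← Subalgebra.topologicalClosure_coe]; exact hf
  exact closure_minimal hA hV hf'

end Pool.Agent.Helper358.CK
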