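import Mathlib
import Pool.Agent.Helper358.Box

set_option autoImplicit false

namespace Pool.Agent.Helper358.Prod

open Finset Filter Topology Pool.Agent.Helper358.Box

universe u v

lemma sum_option_le_iff {α : Type u} {f : Option α → ℝ} (hf : ∀ i, 0 ≤ f i) (c : ℝ) :
    (∀ s : Finset (Option α), ∑ i ∈ s, f i ≤ c) ↔
      ∀ s : Finset α, f none + ∑ i ∈ s, f (some i) ≤ c := by
  classical
  constructor
  · intro h s
    have := h (insertNone s)
    rwa [Finset.sum_insertNone] at this
  · intro h s
    have h1 := h (eraseNone s)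
    rw [← Finset.sum_insertNone] at h1
    refine le_trans (sum_le_sum_of_subset_of_nonneg ?_ fun i _ _ => hf i) h1
    intro x hx
    cases x with
    | none => simp
    | some x => simpa using hx

lemma mem_Pos_option_iff {α : Type u} (y : Option α → ℝ) :
    y ∈ Pos (Option α) ↔ (∀ i, 0 ≤ y i) ∧ ∀ s : Finset α, y none + ∑ i ∈ s, y (some i) ≤ 1 := by
  unfold Pos
  rw [Set.mem_ofPred_eq]
  refine and_congr_right fun h => ?_
  have e : (fun i => |y i|) = y := by funext i; exact abs_of_nonneg (h i)
  rw [e]
  exact sum_option_le_iff h 1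

lemma mem_Pos_option2_iff {α : Type u} (y : Option (Option α) → ℝ) :
    y ∈ Pos (Option (Option α)) ↔ (∀ i, 0 ≤ y i) ∧
      ∀ s : Finset α, y none + y (some none) + ∑ i ∈ s, y (some (some i)) ≤ 1 := by
  rw [mem_Pos_option_iff]
  refine and_congr_right fun h => ?_
  have h1 := sum_option_le_iff (f := fun i => y (some i)) (fun i => h _) (1 - y none)
  constructor
  · intro hs s
    have := h1.1 (fun s => by linarith [hs s]) s
    linarith
  · intro hs s
    have := h1.2 (fun s => by linarith [hs s]) s
    linarith

/-- the map used to split off an interval -/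
noncomputable def g {α : Type u} (q : ℝ × (Option α → ℝ)) : Option (Option α) → ℝ := fun i =>
  i.elim (q.1 * (1 + q.2 none) / 2)
    (fun j => j.elim ((1 - q.1) * q.2 none) (fun k => (1 - q.1 / 2) * q.2 (some k)))

lemma g_none {α : Type u} (q : ℝ × (Option α → ℝ)) : g q none = q.1 * (1 + q.2 none) / 2 := rfl
lemma g_some_none {α : Type u} (q : ℝ × (Option α → ℝ)) :
    g q (some none) = (1 - q.1) * q.2 none := rfl
lemma g_some_some {α : Type u} (q : ℝ × (Option α → ℝ)) (k : α) :
    g q (some (some k)) = (1 - q.1 / 2) * q.2 (some k) := rfl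

lemma continuous_g {α : Type u} : Continuous (g : ℝ × (Option α → ℝ) → _) := by
  refine continuous_pi fun i => ?_
  cases i with
  | none => simp only [g_none]; fun_prop
  | some j =>
    cases j with
    | none => simp only [g_some_none]; fun_prop
    | some k => simp only [g_some_some]; fun_prop

lemma bijOn_g {α : Type u} :
    Set.BijOn (g : ℝ × (Option α → ℝ) → _) (Set.Icc (0 : ℝ) 1 ×ˢ Pos (Option α))
      (Pos (Option (Option α))) := by
  refine ⟨?_, ?_, ?_⟩
  · rintro ⟨p, z⟩ ⟨hp, hz⟩
    simp only [Set.mem_Icc] at hp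
    rw [mem_Pos_option_iff] at hz
    rw [mem_Pos_option2_iff]
    refine ⟨?_, ?_⟩
    · intro i
      cases i with
      | none =>
        rw [g_none]
        have := hz.1 none
        have h2 : 0 ≤ p * (1 + z none) := mul_nonneg hp.1 (by linarith)
        simp only; linarith
      | some j =>
        cases j with
        | none => rw [g_some_none]; exact mul_nonneg (by simp only; linarith [hp.2]) (hz.1 _)
        | some k =>
          rw [g_some_some]; exact mul_nonneg (by simp only; linarith [hp.2]) (hz.1 _)
    · intro s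
      rw [g_none, g_some_none]
      simp only [g_some_some]
      rw [← mul_sum]
      have h1 := hz.2 s
      have h2 : 0 ≤ (1 - p / 2) * (1 - (z none + ∑ i ∈ s, z (some i))) :=
        mul_nonneg (by linarith [hp.2]) (by linarith)
      nlinarith
  · rintro ⟨p, z⟩ ⟨hp, hz⟩ ⟨p', z'⟩ ⟨hp', hz'⟩ h
    simp only [Set.mem_Icc] at hp hp'
    rw [mem_Pos_option_iff] at hz hz'
    have h0 := congrFun h none
    have h1 := congrFun h (some none)
    rw [g_none, g_none] at h0
    rw [g_some_none, g_some_none] at h1
    simp only at h0 h1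
    have hsum : p + z none = p' + z' none := by linarith
    have hz0 := hz.1 none
    have hz0' := hz'.1 none
    have e1 : (z none - z' none) * (1 - p + z' none) = 0 := by
      have : p' = p + (z none - z' none) := by linarith
      rw [this] at h1
      linarith
    have hzz : z none = z' none := by
      rcases mul_eq_zero.1 e1 with h2 | h2
      · linarith
      · have h3 : p = 1 := by linarith [hp.2]
        have h4 : z' none = 0 := by linarith
        have h5 : p' ≤ 1 := hp'.2
        linarith
    have hpp : p = p' := by linarith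
    have : z = z' := by
      funext i
      cases i with
      | none => exact hzz
      | some k =>
        have h2 := congrFun h (some (some k))
        rw [g_some_some, g_some_some] at h2
        simp only at h2
        rw [← hpp] at h2
        exact mul_left_cancel₀ (by linarith [hp.2] : (1 - p / 2) ≠ 0) h2
    rw [hpp, this]
  · intro y hy
    rw [mem_Pos_option2_iff] at hy
    set y0 := y none with hy0
    set y1 := y (some none) with hy1
    have hn0 : 0 ≤ y0 := hy.1 none
    have hn1 : 0 ≤ y1 := hy.1 (some none)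
    have h01 : y0 + y1 ≤ 1 := by simpa using hy.2 ∅
    set d := 2 * y0 + y1 - 1 with hd
    have hr0 : 0 ≤ d ^ 2 + 4 * y1 := by positivity
    set r := Real.sqrt (d ^ 2 + 4 * y1) with hr
    have hrr : r ^ 2 = d ^ 2 + 4 * y1 := Real.sq_sqrt hr0
    have hrnn : 0 ≤ r := Real.sqrt_nonneg _
    have hrd : |d| ≤ r := by
      rw [hr]
      refine Real.le_sqrt_of_sq_le ?_
      rw [sq_abs]; linarith
    have hr1 : r ≤ 2 + d := by
      refine abs_le_of_sq_le_sq' ?_ (by linarith) |>.2
      nlinarith
    have hr2 : r ≤ 2 - d := by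
      refine abs_le_of_sq_le_sq' ?_ (by linarith) |>.2
      nlinarith
    have hrd1 := (abs_le.1 (le_refl |d|))
    have hdr : d ≤ r := (le_abs_self d).trans hrd
    have hdr' : -d ≤ r := (neg_le_abs d).trans hrd
    set p := 1 - (-d + r) / 2 with hp
    set z0 := (d + r) / 2 with hz0
    have hp0 : 0 ≤ p := by rw [hp]; linarith
    have hp1 : p ≤ 1 := by rw [hp]; linarith
    have hz00 : 0 ≤ z0 := by rw [hz0]; linarith
    have hpz : (1 - p) * z0 = y1 := by
      rw [hp, hz0]
      have : (1 - (1 - (-d + r) / 2)) * ((d + r) / 2) = (r ^ 2 - d ^ 2) / 4 := by ring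
      rw [this, hrr]; ring
    have hpz2 : p + z0 = 2 * y0 + y1 := by rw [hp, hz0, hd]; ring
    have hpz3 : p * (1 + z0) / 2 = y0 := by linarith
    have hhalf : 0 < 1 - p / 2 := by linarith
    refine ⟨(p, fun i => i.elim z0 (fun k => y (some (some k)) / (1 - p / 2))), ⟨⟨hp0, hp1⟩, ?_⟩, ?_⟩
    · rw [mem_Pos_option_iff]
      refine ⟨?_, ?_⟩
      · intro i
        cases i with
        | none => exact hz00
        | some k => exact div_nonneg (hy.1 _) hhalf.le
      · intro s
        simp only [Option.elim]
        rw [← sum_div]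
        have h2 := hy.2 s
        have h3 : (∑ i ∈ s, y (some (some i))) / (1 - p / 2) ≤ 1 - z0 := by
          rw [div_le_iff₀ hhalf]
          nlinarith
        linarith
    · funext i
      cases i with
      | none => rw [g_none]; simp only [Option.elim]; exact hpz3
      | some j =>
        cases j with
        | none => rw [g_some_none]; simp only [Option.elim]; exact hpz
        | some k =>
          rw [g_some_some]; simp only [Option.elim]
          exact mul_div_cancel₀ _ hhalf.ne'

/-- reindexing -/
lemma Pos_reindex {α : Type u} {β : Type v} (e : α ≃ β) : Nonempty (Pos α ≃ₜ Pos β) := by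
  classical
  refine homeo_of_bijOn (isCompact_Pos α) (f := fun y i => y (e.symm i)) (by fun_prop) ⟨?_, ?_, ?_⟩
  · intro y hy
    refine ⟨fun i => hy.1 _, fun s => ?_⟩
    have := hy.2 (s.map e.symm.toEmbedding)
    rwa [sum_map] at this
  · intro y _ z _ h
    funext i
    have := congrFun h (e i)
    simpa using this
  · intro y hy
    refine ⟨fun i => y (e i), ⟨fun i => hy.1 _, fun s => ?_⟩, by funext i; simp⟩
    have := hy.2 (s.map e.toEmbedding)
    rwa [sum_map] at this

lemma option_equiv (κ : Type u) [Infinite κ] : Nonempty (Option κ ≃ κ) := by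
  rw [← Cardinal.eq, Cardinal.mk_option]
  exact Cardinal.add_one_eq (Cardinal.infinite_iff.1 inferInstance)

/-- the positive part absorbs an interval -/
theorem Pos_prod (κ : Type u) [Infinite κ] :
    Nonempty (Pos κ ≃ₜ Pos κ × Set.Icc (0 : ℝ) 1) := by
  obtain ⟨e⟩ := option_equiv κ
  obtain ⟨h1⟩ := Pos_reindex e
  obtain ⟨h2⟩ := Pos_reindex ((Equiv.optionCongr e).trans e)
  have hK : IsCompact (Set.Icc (0 : ℝ) 1 ×ˢ Pos (Option κ)) := isCompact_Icc.prod (isCompact_Pos _)
  obtain ⟨h3⟩ := homeo_of_bijOn hK (continuous_g (α := κ)).continuousOn bijOn_g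
  have h4 : ↥(Set.Icc (0 : ℝ) 1 ×ˢ Pos (Option κ)) ≃ₜ Set.Icc (0 : ℝ) 1 × Pos (Option κ) :=
    Homeomorph.Set.prod _ _
  exact ⟨((h2.symm.trans h3.symm).trans h4).trans
    (((Homeomorph.refl _).prodCongr h1).trans (Homeomorph.prodComm _ _))⟩

/-- the full ball absorbs an interval -/
theorem ball_prod (κ : Type u) [Uncountable κ] :
    Nonempty ({x : κ → ℝ | ∀ s : Finset κ, ∑ i ∈ s, |x i| ≤ 1} ≃ₜ
      {x : κ → ℝ | ∀ s : Finset κ, ∑ i ∈ s, |x i| ≤ 1} × Set.Icc (0 : ℝ) 1) := by
  obtain ⟨h1⟩ := ball_homeo_pos κ
  obtain ⟨h2⟩ := Pos_prod κ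
  exact ⟨(h1.trans h2).trans (h1.symm.prodCongr (Homeomorph.refl _))⟩

end Pool.Agent.Helper358.Prod
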